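import Pool.Agent.Helper79.NC.Spec2

/-!
# The equations of geodesics and Jacobi fields in the tube (module M3b of `MP_4787eb_gt`)
-/

set_option maxSynthPendingDepth 3

namespace Pool.Agent.Helper79.NC

open scoped ContDiff Topology
open Set Filter

theorem TubeData.differentiable_F (T : TubeData) : Differentiable ℝ T.F := by
  have h1 : ContDiff ℝ ∞ (fun w => T.κ - 2 * T.Φ w) :=
    contDiff_const.sub (contDiff_const.mul T.hΦ)
  have h2 : ContDiff ℝ ∞ T.F := contDiff_const.div h1 fun w => (T.κ_pos w).ne'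
  exact h2.differentiable (by simp)

theorem hasDerivAt_dot {f h : ℝ → ℂ} {f' h' : ℂ} {s : ℝ} (hf : HasDerivAt f f' s)
    (hh : HasDerivAt h h' s) :
    HasDerivAt (fun s => dot (f s) (h s)) (dot f' (h s) + dot (f s) h') s := by
  have hre : ∀ {k : ℝ → ℂ} {k' : ℂ}, HasDerivAt k k' s → HasDerivAt (fun s => (k s).re) k'.re s :=
    fun {k k'} hk => Complex.reCLM.hasFDerivAt.comp_hasDerivAt s hk
  have him : ∀ {k : ℝ → ℂ} {k' : ℂ}, HasDerivAt k k' s → HasDerivAt (fun s => (k s).im) k'.im s :=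
    fun {k k'} hk => Complex.imCLM.hasFDerivAt.comp_hasDerivAt s hk
  have h1 := ((hre hf).mul (hre hh)).add ((him hf).mul (him hh))
  refine h1.congr_deriv ?_
  unfold dot
  ring

theorem hasDerivAt_normSq {f : ℝ → ℂ} {f' : ℂ} {s : ℝ} (hf : HasDerivAt f f' s) :
    HasDerivAt (fun s => Complex.normSq (f s)) (2 * dot (f s) f') s := by
  have h1 := hasDerivAt_dot hf hf
  have h2 : (fun s => Complex.normSq (f s)) = fun s => dot (f s) (f s) := by
    funext s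
    rw [Complex.normSq_apply]
    rfl
  rw [h2]
  refine h1.congr_deriv ?_
  unfold dot
  ring

theorem hasDerivAt_of_contDiffOn_Ioi {P : ℝ → ℝ} {a u : ℝ} (hP : ContDiffOn ℝ ∞ P (Ioi a))
    (hu : a < u) : HasDerivAt P (deriv P u) u ∧ HasDerivAt (deriv P) (deriv (deriv P) u) u := by
  have h1 := (contDiffOn_infty_iff_deriv_of_isOpen isOpen_Ioi).1 hP
  have h2 := (contDiffOn_infty_iff_deriv_of_isOpen isOpen_Ioi).1 h1.2
  exact ⟨(h1.1.differentiableAt (isOpen_Ioi.mem_nhds hu)).hasDerivAt,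
    (h2.1.differentiableAt (isOpen_Ioi.mem_nhds hu)).hasDerivAt⟩

theorem eq_setup (h1 : VariationCalc) (h2 : GeoFlat) (T : TubeData)
    (g : E3 → E3 →L[ℝ] E3 →L[ℝ] ℝ) (c J : ℝ → E3) (hJ : IsJacobiField g c J) (t₀ : ℝ)
    (hg : ∀ᶠ x in 𝓝 (c t₀), g x = tubeMetric T.F T.σ x) (O : Set E3) (hO : IsOpen O)
    (hcO : c t₀ ∈ O) :
    ∃ (V : ℝ → ℝ → E3) (C δC r : ℝ), 0 < r ∧ V 0 = c ∧
      (∀ s t, |s| < r → |t - t₀| < r → IsGeodesic g (V s) ∧
        (∀ᶠ x in 𝓝 (V s t), g x = tubeMetric T.F T.σ x) ∧ V s t ∈ O) ∧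
      (∀ t, HasDerivAt (fun s => V s t) (J t) 0 ∧
        HasDerivAt (fun s => deriv (V s) t) (deriv J t) 0 ∧
        HasDerivAt (fun s => deriv (deriv (V s)) t) (deriv (deriv J) t) 0) ∧
      (∀ t, |t - t₀| < r → T.F (c t).1 * (deriv c t).2 = C ∧
        T.F (c t).1 * (deriv J t).2 + fderiv ℝ T.F (c t).1 (J t).1 * (deriv c t).2 = δC ∧
        HasDerivAt (fun s => T.F (V s t).1 * (deriv (V s) t).2) δC 0) := by
  obtain ⟨ε, V, hε, hV, hgeoV, hV0, hJV⟩ := hJ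
  obtain ⟨-, hder⟩ := h1 ε V hε hV
  have hJf : J = fun t => deriv (fun s => V s t) 0 := funext hJV
  have hder' : ∀ t, HasDerivAt (fun s => V s t) (J t) 0 ∧
        HasDerivAt (fun s => deriv (V s) t) (deriv J t) 0 ∧
        HasDerivAt (fun s => deriv (deriv (V s)) t) (deriv (deriv J) t) 0 := by
    rw [hJf]
    exact hder
  have hUo : IsOpen (Ioo (-ε) ε ×ˢ (univ : Set ℝ)) := isOpen_Ioo.prod isOpen_univ
  have hcont : ContinuousAt (fun p : ℝ × ℝ => V p.1 p.2) (0, t₀) :=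
    (hV.contDiffAt (hUo.mem_nhds ⟨⟨by simpa using hε, hε⟩, mem_univ _⟩)).continuousAt
  have hc0 : V ((0 : ℝ), t₀).1 ((0 : ℝ), t₀).2 = c t₀ := by rw [hV0]
  have hev : ∀ᶠ p : ℝ × ℝ in 𝓝 (0, t₀), (∀ᶠ x in 𝓝 (V p.1 p.2), g x = tubeMetric T.F T.σ x) ∧
      V p.1 p.2 ∈ O := by
    have ha : ∀ᶠ y in 𝓝 (V ((0 : ℝ), t₀).1 ((0 : ℝ), t₀).2),
        (∀ᶠ x in 𝓝 y, g x = tubeMetric T.F T.σ x) ∧ y ∈ O := by
      rw [hc0]
      exact (eventually_eventually_nhds.2 hg).and (hO.mem_nhds hcO)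
    exact hcont.eventually ha
  obtain ⟨δ, hδ, hball⟩ := Metric.eventually_nhds_iff.1 hev
  set r : ℝ := min δ ε with hr
  have hr0 : 0 < r := lt_min hδ hε
  have hmain : ∀ s t, |s| < r → |t - t₀| < r → IsGeodesic g (V s) ∧
        (∀ᶠ x in 𝓝 (V s t), g x = tubeMetric T.F T.σ x) ∧ V s t ∈ O := by
    intro s t hs ht
    have h3 : dist ((s, t) : ℝ × ℝ) (0, t₀) < δ := by
      rw [Prod.dist_eq, Real.dist_eq, Real.dist_eq, sub_zero]
      exact max_lt (hs.trans_le (min_le_left _ _)) (ht.trans_le (min_le_left _ _))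
    have h4 := hball h3
    exact ⟨hgeoV s (abs_lt.1 (hs.trans_le (min_le_right _ _))), h4.1, h4.2⟩
  -- the angular momentum is constant
  have hconst : ∀ s t, |s| < r → |t - t₀| < r →
      T.F (V s t).1 * (deriv (V s) t).2 = T.F (V s t₀).1 * (deriv (V s) t₀).2 := by
    intro s t hs ht
    have hd : ∀ t ∈ Metric.ball t₀ r,
        HasDerivAt (fun t => T.F (V s t).1 * (deriv (V s) t).2) 0 t := by
      intro t ht
      rw [Metric.mem_ball, Real.dist_eq] at ht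
      obtain ⟨h5, h6, -⟩ := hmain s t hs ht
      exact (h2 T g (V s) h5 t h6).1
    refine Metric.isOpen_ball.is_const_of_deriv_eq_zero (f := fun t =>
      T.F (V s t).1 * (deriv (V s) t).2) (convex_ball t₀ r).isPreconnected
      (fun t ht => (hd t ht).differentiableAt.differentiableWithinAt)
      (fun t ht => (hd t ht).deriv) ?_ (Metric.mem_ball_self hr0)
    rw [Metric.mem_ball, Real.dist_eq]
    exact ht
  have hderC : ∀ t, HasDerivAt (fun s => T.F (V s t).1 * (deriv (V s) t).2)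
      (T.F (c t).1 * (deriv J t).2 + fderiv ℝ T.F (c t).1 (J t).1 * (deriv c t).2) 0 := by
    intro t
    obtain ⟨h5, h6, -⟩ := hder' t
    have h7 : HasDerivAt (fun s => (V s t).1) (J t).1 0 :=
      (ContinuousLinearMap.fst ℝ ℂ ℝ).hasFDerivAt.comp_hasDerivAt 0 h5
    have h8 : HasDerivAt (fun s => (deriv (V s) t).2) (deriv J t).2 0 :=
      (ContinuousLinearMap.snd ℝ ℂ ℝ).hasFDerivAt.comp_hasDerivAt 0 h6
    have h9 : HasDerivAt (fun s => T.F (V s t).1) (fderiv ℝ T.F (V 0 t).1 (J t).1) 0 :=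
      HasFDerivAt.comp_hasDerivAt (l := T.F) 0 (T.differentiable_F (V 0 t).1).hasFDerivAt h7
    have h10 := h9.mul h8
    rw [hV0] at h10
    refine h10.congr_deriv ?_
    ring
  have hr0' : |(0 : ℝ)| < r := by simpa using hr0
  have ht0' : |t₀ - t₀| < r := by simpa using hr0
  have hCs : ∀ t, |t - t₀| < r →
      T.F (c t).1 * (deriv J t).2 + fderiv ℝ T.F (c t).1 (J t).1 * (deriv c t).2 =
      T.F (c t₀).1 * (deriv J t₀).2 + fderiv ℝ T.F (c t₀).1 (J t₀).1 * (deriv c t₀).2 := by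
    intro t ht
    have h11 : (fun s => T.F (V s t).1 * (deriv (V s) t).2) =ᶠ[𝓝 0]
        fun s => T.F (V s t₀).1 * (deriv (V s) t₀).2 := by
      have : ∀ᶠ s : ℝ in 𝓝 0, |s| < r := by
        have h12 : Metric.ball (0 : ℝ) r ∈ 𝓝 (0 : ℝ) := Metric.ball_mem_nhds 0 hr0
        filter_upwards [h12] with s hs
        rwa [Metric.mem_ball, Real.dist_eq, sub_zero] at hs
      filter_upwards [this] with s hs
      exact hconst s t hs ht
    exact ((hderC t).congr_of_eventuallyEq h11.symm).unique (hderC t₀)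
  refine ⟨V, T.F (c t₀).1 * (deriv c t₀).2, T.F (c t₀).1 * (deriv J t₀).2 +
    fderiv ℝ T.F (c t₀).1 (J t₀).1 * (deriv c t₀).2, r, hr0, hV0, hmain, hder', ?_⟩
  intro t ht
  have h13 := hconst 0 t hr0' ht
  rw [hV0] at h13
  refine ⟨h13, hCs t ht, ?_⟩
  rw [← hCs t ht]
  exact hderC t

theorem eventually_abs_sub_lt {r : ℝ} (hr : 0 < r) (t₀ : ℝ) : ∀ᶠ t in 𝓝 t₀, |t - t₀| < r := by
  filter_upwards [Metric.ball_mem_nhds t₀ hr] with t ht
  rwa [Metric.mem_ball, Real.dist_eq] at ht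

theorem flatEq (h1 : VariationCalc) (h2 : GeoFlat) (T : TubeData)
    (g : E3 → E3 →L[ℝ] E3 →L[ℝ] ℝ) (c J : ℝ → E3) (hJ : IsJacobiField g c J) (t₀ : ℝ)
    (hg : ∀ᶠ x in 𝓝 (c t₀), g x = tubeMetric T.F T.σ x)
    (hu : Complex.normSq (c t₀).1 < T.u2') : FlatEq T c J t₀ := by
  have hO : IsOpen {x : E3 | Complex.normSq x.1 < T.u2'} :=
    isOpen_lt (Complex.continuous_normSq.comp continuous_fst) continuous_const
  obtain ⟨V, C, δC, r, hr, hV0, hmain, hder, hC⟩ := eq_setup h1 h2 T g c J hJ t₀ hg _ hO hu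
  refine ⟨C, δC, ?_⟩
  filter_upwards [eventually_abs_sub_lt hr t₀] with t ht
  obtain ⟨hC1, hC2, hC3⟩ := hC t ht
  have heq : ∀ s, |s| < r → ∀ e : ℂ, dot (deriv (deriv (V s)) t).1 e =
        (T.F (V s t).1 * (deriv (V s) t).2) ^ 2 * fderiv ℝ T.Φ (V s t).1 e := by
    intro s hs e
    obtain ⟨h5, h6, h7⟩ := hmain s t hs ht
    exact (h2 T g (V s) h5 t h6).2 h7 e
  refine ⟨hC1, hC2, ?_, ?_⟩
  · intro e
    have h := heq 0 (by simpa using hr) e
    rw [hV0, hC1] at h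
    exact h
  · intro e
    obtain ⟨h5, -, h6⟩ := hder t
    have h7 : HasDerivAt (fun s => (V s t).1) (J t).1 0 :=
      (ContinuousLinearMap.fst ℝ ℂ ℝ).hasFDerivAt.comp_hasDerivAt 0 h5
    have h8 : HasDerivAt (fun s => (deriv (deriv (V s)) t).1) (deriv (deriv J) t).1 0 :=
      (ContinuousLinearMap.fst ℝ ℂ ℝ).hasFDerivAt.comp_hasDerivAt 0 h6
    have h9 := hasDerivAt_dot h8 (hasDerivAt_const 0 e)
    have hD : Differentiable ℝ (fderiv ℝ T.Φ) :=
      (T.hΦ.fderiv_right (m := ∞) (by simp)).differentiable (by simp)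
    have h10 : HasDerivAt (fun s => fderiv ℝ T.Φ (V s t).1)
        (fderiv ℝ (fderiv ℝ T.Φ) (V 0 t).1 (J t).1) 0 :=
      HasFDerivAt.comp_hasDerivAt (l := fderiv ℝ T.Φ) 0 (hD (V 0 t).1).hasFDerivAt h7
    have h11 := h10.clm_apply (hasDerivAt_const 0 e)
    have h12 := (hC3.pow 2).mul h11
    have h13 : (fun s => dot (deriv (deriv (V s)) t).1 e) =ᶠ[𝓝 0]
        fun s => (T.F (V s t).1 * (deriv (V s) t).2) ^ 2 * fderiv ℝ T.Φ (V s t).1 e := by
      filter_upwards [eventually_abs_sub_lt hr 0] with s hs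
      rw [sub_zero] at hs
      exact heq s hs e
    have h14 := (h12.congr_of_eventuallyEq h13).unique h9
    rw [hV0] at h14
    have h15 : dot (deriv (deriv J) t).1 e + dot (deriv (deriv c) t).1 0 =
        dot (deriv (deriv J) t).1 e := by simp [dot]
    rw [h15] at h14
    rw [← h14]
    simp only [map_zero, add_zero, Pi.pow_apply, hV0, hC1]
    push_cast
    ring

theorem radEq (h1 : VariationCalc) (h2 : GeoFlat) (h3 : GeoRad) (T : TubeData)
    (g : E3 → E3 →L[ℝ] E3 →L[ℝ] ℝ) (c J : ℝ → E3) (hJ : IsJacobiField g c J) (t₀ : ℝ)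
    (hg : ∀ᶠ x in 𝓝 (c t₀), g x = tubeMetric T.F T.σ x)
    (hu : T.u0 < Complex.normSq (c t₀).1) : RadEq T c J t₀ := by
  have hO : IsOpen {x : E3 | T.u0 < Complex.normSq x.1} :=
    isOpen_lt continuous_const (Complex.continuous_normSq.comp continuous_fst)
  obtain ⟨V, C, δC, r, hr, hV0, hmain, hder, hC⟩ := eq_setup h1 h2 T g c J hJ t₀ hg _ hO hu
  refine ⟨C, δC, ?_⟩
  filter_upwards [eventually_abs_sub_lt hr t₀] with t ht
  obtain ⟨hC1, hC2, hC3⟩ := hC t ht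
  refine ⟨hC1, hC2, ?_⟩
  obtain ⟨h5, h5', h6⟩ := hder t
  -- the functions of the parameter
  set w : ℝ → ℂ := fun s => (V s t).1 with hw
  set v : ℝ → ℂ := fun s => (deriv (V s) t).1 with hv
  set a : ℝ → ℂ := fun s => (deriv (deriv (V s)) t).1 with ha
  set D : ℝ → ℝ := fun s => T.F (V s t).1 * (deriv (V s) t).2 with hD
  set u : ℝ → ℝ := fun s => Complex.normSq (w s) with hu'
  set A : ℝ → ℝ := fun s => 1 - T.S (u s) * u s with hA
  set B : ℝ → ℝ := fun s => deriv T.S (u s) * (dot (w s) (v s)) ^ 2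
        + T.S (u s) * Complex.normSq (v s) + 2 * deriv T.P (u s) * (D s) ^ 2 with hB
  have hr0 : |(0 : ℝ)| < r := by simpa using hr
  have huO : ∀ s, |s| < r → T.u0 < u s := fun s hs => (hmain s t hs ht).2.2
  have hApos : ∀ s, |s| < r → 0 < A s := by
    intro s hs
    have h7 := T.σ_lt (w s)
    rw [T.σ_eq (w s) (huO s hs)] at h7
    simp only [hA, hu']
    linarith
  have heq : ∀ s, |s| < r → A s • a s = B s • w s := by
    intro s hs
    obtain ⟨h7, h8, h9⟩ := hmain s t hs ht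
    exact h3 T g (V s) h7 t h8 h9
  have hμ : ∀ s, |s| < r → a s = (B s / A s) • w s := by
    intro s hs
    have h7 := (hApos s hs).ne'
    have h8 : (A s)⁻¹ • (A s • a s) = (A s)⁻¹ • (B s • w s) := by rw [heq s hs]
    rw [smul_smul, inv_mul_cancel₀ h7, one_smul, smul_smul] at h8
    rw [h8, div_eq_inv_mul]
  have hdw : HasDerivAt w (J t).1 0 :=
    (ContinuousLinearMap.fst ℝ ℂ ℝ).hasFDerivAt.comp_hasDerivAt 0 h5
  have hdv : HasDerivAt v (deriv J t).1 0 :=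
    (ContinuousLinearMap.fst ℝ ℂ ℝ).hasFDerivAt.comp_hasDerivAt 0 h5'
  have hda : HasDerivAt a (deriv (deriv J) t).1 0 :=
    (ContinuousLinearMap.fst ℝ ℂ ℝ).hasFDerivAt.comp_hasDerivAt 0 h6
  have hdu : HasDerivAt u (2 * dot (w 0) (J t).1) 0 := hasDerivAt_normSq hdw
  obtain ⟨hS1, hS2⟩ := hasDerivAt_of_contDiffOn_Ioi T.hS (huO 0 hr0)
  obtain ⟨-, hP2⟩ := hasDerivAt_of_contDiffOn_Ioi T.hP (huO 0 hr0)
  have hdS : HasDerivAt (fun s => T.S (u s)) (deriv T.S (u 0) * (2 * dot (w 0) (J t).1)) 0 :=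
    hS1.comp 0 hdu
  have hdS' : HasDerivAt (fun s => deriv T.S (u s))
      (deriv (deriv T.S) (u 0) * (2 * dot (w 0) (J t).1)) 0 := hS2.comp 0 hdu
  have hdP' : HasDerivAt (fun s => deriv T.P (u s))
      (deriv (deriv T.P) (u 0) * (2 * dot (w 0) (J t).1)) 0 := hP2.comp 0 hdu
  have hdA := (hdS.mul hdu).const_sub 1
  have hdB := (((hdS'.mul ((hasDerivAt_dot hdw hdv).pow 2)).add
    (hdS.mul (hasDerivAt_normSq hdv)))).add ((hdP'.const_mul 2).mul (hC3.pow 2))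
  have hdA' : HasDerivAt A (-(deriv T.S (u 0) * (2 * dot (w 0) (J t).1) * u 0 +
      T.S (u 0) * (2 * dot (w 0) (J t).1))) 0 := hdA
  obtain ⟨B', hB', hdB'⟩ : ∃ B' : ℝ, B' =
      2 * deriv (deriv T.S) (u 0) * dot (w 0) (J t).1 * (dot (w 0) (v 0)) ^ 2
      + 2 * deriv T.S (u 0) * dot (w 0) (v 0) * (dot (v 0) (J t).1 + dot (w 0) (deriv J t).1)
      + 2 * deriv T.S (u 0) * dot (w 0) (J t).1 * Complex.normSq (v 0)
      + 2 * T.S (u 0) * dot (v 0) (deriv J t).1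
      + 4 * deriv (deriv T.P) (u 0) * dot (w 0) (J t).1 * (D 0) ^ 2
      + 4 * deriv T.P (u 0) * D 0 * δC ∧ HasDerivAt B B' 0 := by
    refine ⟨_, rfl, hdB.congr_deriv ?_⟩
    simp only [Pi.pow_apply]
    unfold dot
    push_cast
    ring
  have hA0 := (hApos 0 hr0).ne'
  have hdμ : HasDerivAt (fun s => B s / A s) _ 0 := hdB'.div hdA' hA0
  have hdμw := hdμ.smul hdw
  have hda' : (fun s => a s) =ᶠ[𝓝 0] fun s => (B s / A s) • w s := by
    filter_upwards [eventually_abs_sub_lt hr 0] with s hs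
    rw [sub_zero] at hs
    exact hμ s hs
  have hJ2 := (hdμw.congr_of_eventuallyEq hda').unique hda
  have hw0 : w 0 = (c t).1 := by rw [hw]; simp only [hV0]
  have hv0 : v 0 = (deriv c t).1 := by rw [hv]; simp only [hV0]
  have ha0 : a 0 = (deriv (deriv c) t).1 := by rw [ha]; simp only [hV0]
  have hu0 : u 0 = Complex.normSq (c t).1 := by simp only [hu', hw0]
  have hD0 : D 0 = C := by rw [← hC1, hD]; simp only [hV0]
  refine ⟨B 0 / A 0, (B' * A 0 - B 0 * (-(deriv T.S (u 0) * (2 * dot (w 0) (J t).1) * u 0 +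
      T.S (u 0) * (2 * dot (w 0) (J t).1)))) / (A 0) ^ 2, ?_, ?_, ?_, ?_⟩
  · rw [← ha0, ← hw0]
    exact hμ 0 hr0
  · rw [← hw0]
    exact hJ2.symm
  · rw [← hw0, ← hv0, ← hD0]
    have h16 : 1 - T.S (Complex.normSq (w 0)) * Complex.normSq (w 0) = A 0 := rfl
    rw [h16, div_mul_cancel₀ _ hA0]
  · rw [← hw0, ← hv0, ← hD0]
    have h16 : 1 - T.S (Complex.normSq (w 0)) * Complex.normSq (w 0) = A 0 := rfl
    have h17 : Complex.normSq (w 0) = u 0 := rfl
    rw [h16, h17, ← hB']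
    field_simp
    ring

theorem eqModule (h1 : VariationCalc) (h2 : GeoFlat) (h3 : GeoRad) : EqModule := by
  intro T g c J _ hJ t₀ hg
  exact ⟨fun hu => flatEq h1 h2 T g c J hJ t₀ hg hu, fun hu => radEq h1 h2 h3 T g c J hJ t₀ hg hu⟩

end Pool.Agent.Helper79.NC
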