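import Pool.Agent.Helper80.JetDefs

open MeasureTheory Set Polynomial Filter Topology
open scoped ENNReal

namespace Pool.Agent.Helper80.JetSpace

/-! ### Absolutely continuous functions: congruence, translation, concatenation -/

lemma ac_congr {f g : ℝ → ℝ} {a b : ℝ} (hf : AbsolutelyContinuousOnInterval f a b)
    (h : ∀ t ∈ uIcc a b, f t = g t) : AbsolutelyContinuousOnInterval g a b := by
  rw [absolutelyContinuousOnInterval_iff] at hf ⊢
  intro ε hε
  obtain ⟨δ, hδ, H⟩ := hf ε hε
  refine ⟨δ, hδ, fun E hE hlen => ?_⟩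
  have := H E hE hlen
  refine lt_of_le_of_lt (le_of_eq ?_) this
  refine Finset.sum_congr rfl (fun i hi => ?_)
  have h1 := hE.1 i hi
  rw [h _ h1.1, h _ h1.2]

lemma ac_const_add {f : ℝ → ℝ} {a b : ℝ} (C : ℝ) (hf : AbsolutelyContinuousOnInterval f a b) :
    AbsolutelyContinuousOnInterval (fun t => C + f t) a b := by
  rw [absolutelyContinuousOnInterval_iff] at hf ⊢
  simpa [dist_add_left] using hf

lemma ac_of_integral {f φ : ℝ → ℝ} {a b : ℝ} (hφ : IntervalIntegrable φ volume a b)
    (h : ∀ t ∈ uIcc a b, f t = f a + ∫ s in a..t, φ s) :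
    AbsolutelyContinuousOnInterval f a b := by
  have h1 := hφ.absolutelyContinuousOnInterval_intervalIntegral (c := a) (by simp)
  exact ac_congr (ac_const_add (f a) h1) (fun t ht => (h t ht).symm)

lemma ac_ftc {f : ℝ → ℝ} {a b t : ℝ} (hf : AbsolutelyContinuousOnInterval f a b)
    (ht : t ∈ uIcc a b) : f t = f a + ∫ s in a..t, deriv f s := by
  have h1 : AbsolutelyContinuousOnInterval f a t :=
    hf.mono (uIcc_subset_uIcc left_mem_uIcc ht)
  rw [h1.integral_deriv_eq_sub]; ring

lemma ac_concat {f g : ℝ → ℝ} {a b c : ℝ} (hab : a ≤ b) (hbc : b ≤ c)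
    (hf : AbsolutelyContinuousOnInterval f a b) (hg : AbsolutelyContinuousOnInterval g b c)
    (hfg : f b = g b) :
    AbsolutelyContinuousOnInterval (fun t => if t ≤ b then f t else g t) a c := by
  set φ : ℝ → ℝ := fun t => if t ≤ b then deriv f t else deriv g t with hφ
  have hac : a ≤ c := hab.trans hbc
  have i1 : IntervalIntegrable φ volume a b := by
    refine (hf.intervalIntegrable_deriv).congr ?_
    intro t ht
    rw [uIoc_of_le hab] at ht
    simp [hφ, ht.2]
  have i2 : IntervalIntegrable φ volume b c := by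
    refine (hg.intervalIntegrable_deriv).congr ?_
    intro t ht
    rw [uIoc_of_le hbc] at ht
    simp [hφ, not_le.mpr ht.1]
  refine ac_of_integral (φ := φ) (i1.trans i2) ?_
  intro t ht
  rw [uIcc_of_le hac] at ht
  by_cases htb : t ≤ b
  · simp only [htb, hab, if_true]
    rw [ac_ftc hf (by rw [uIcc_of_le hab]; exact ⟨ht.1, htb⟩)]
    congr 1
    apply intervalIntegral.integral_congr_ae
    filter_upwards with s hs
    rw [uIoc_of_le ht.1] at hs
    simp [hφ, hs.2.trans htb]
  · have htb' : b ≤ t := (not_le.mp htb).le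
    simp only [htb, hab, if_true, if_false]
    have e1 : IntervalIntegrable φ volume a b := i1
    have e2 : IntervalIntegrable φ volume b t :=
      i2.mono_set (by rw [uIcc_of_le htb', uIcc_of_le hbc]; exact Icc_subset_Icc le_rfl ht.2)
    rw [← intervalIntegral.integral_add_adjacent_intervals e1 e2]
    have h1 : ∫ s in a..b, φ s = ∫ s in a..b, deriv f s := by
      apply intervalIntegral.integral_congr_ae
      filter_upwards with s hs
      rw [uIoc_of_le hab] at hs
      simp [hφ, hs.2]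
    have h2 : ∫ s in b..t, φ s = ∫ s in b..t, deriv g s := by
      apply intervalIntegral.integral_congr_ae
      filter_upwards with s hs
      rw [uIoc_of_le htb'] at hs
      simp [hφ, not_le.mpr hs.1]
    rw [h1, h2, hf.integral_deriv_eq_sub,
      (hg.mono (by rw [uIcc_of_le htb', uIcc_of_le hbc]; exact
        Icc_subset_Icc le_rfl ht.2)).integral_deriv_eq_sub, hfg]
    ring

lemma ac_shift {f : ℝ → ℝ} {a b : ℝ} (s : ℝ) (hf : AbsolutelyContinuousOnInterval f a b) :
    AbsolutelyContinuousOnInterval (fun t => f (t - s)) (a + s) (b + s) := by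
  have i1 : IntervalIntegrable (fun t => deriv f (t - s)) volume (a + s) (b + s) :=
    (hf.intervalIntegrable_deriv).comp_sub_right s
  refine ac_of_integral i1 ?_
  intro t ht
  rw [intervalIntegral.integral_comp_sub_right (fun u => deriv f u) s]
  have ht' : t - s ∈ uIcc a b := by
    rcases le_total a b with h | h
    · rw [uIcc_of_le (by linarith)] at ht
      rw [uIcc_of_le h]; constructor <;> linarith [ht.1, ht.2]
    · rw [uIcc_of_ge (by linarith)] at ht
      rw [uIcc_of_ge h]; constructor <;> linarith [ht.1, ht.2]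
  simp only [add_sub_cancel_right]
  exact ac_ftc hf ht'

lemma ac_comp_lipschitz {f G : ℝ → ℝ} {a b : ℝ} (hf : AbsolutelyContinuousOnInterval f a b)
    (hG : ∀ x y, dist (G x) (G y) ≤ dist x y) :
    AbsolutelyContinuousOnInterval (fun t => G (f t)) a b := by
  rw [absolutelyContinuousOnInterval_iff] at hf ⊢
  intro ε hε
  obtain ⟨δ, hδ, H⟩ := hf ε hε
  refine ⟨δ, hδ, fun E hE hlen => ?_⟩
  refine lt_of_le_of_lt (Finset.sum_le_sum (fun i _ => hG _ _)) (H E hE hlen)

/-! ### Horizontal curves: translation, concatenation and the relation `Reach` -/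

variable {k : ℕ}

lemma deriv_shift (f : ℝ → ℝ) (s t : ℝ) : deriv (fun r => f (r - s)) t = deriv f (t - s) :=
  deriv_comp_sub_const f s t

lemma ae_shift {p : ℝ → Prop} (s : ℝ) (h : ∀ᵐ t : ℝ, p t) : ∀ᵐ t : ℝ, p (t - s) := by
  have := (measurePreserving_sub_right (volume : Measure ℝ) s).quasiMeasurePreserving
  exact this.ae h

lemma IsHorizontal.translate {c : ℝ → Jet k} {a b : ℝ} (h : IsHorizontal c a b) (s : ℝ) :
    IsHorizontal (fun t => c (t - s)) (a + s) (b + s) := by
  refine ⟨?_, ?_, ?_⟩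
  · exact ac_shift (f := fun r => (c r).1) s h.ac_x
  · intro j
    exact ac_shift (f := fun r => (c r).2 j) s (h.ac_u j)
  · have h3 := ae_shift s h.tangent
    filter_upwards [h3] with t ht hmem j
    have e1 := deriv_shift (fun r => (c r).2 j.castSucc) s t
    have e2 := deriv_shift (fun r => (c r).1) s t
    rw [e1, e2]
    exact ht ⟨by linarith [hmem.1], by linarith [hmem.2]⟩ j

lemma curveLength_shift (c : ℝ → Jet k) (a b s : ℝ) :
    curveLength (fun t => c (t - s)) (a + s) (b + s) = curveLength c a b := by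
  unfold curveLength
  have : ∀ t : ℝ, √((deriv (fun r => (c (r - s)).1) t) ^ 2 +
      (deriv (fun r => (c (r - s)).2 (Fin.last k)) t) ^ 2) =
      (fun u => √((deriv (fun r => (c r).1) u) ^ 2 +
      (deriv (fun r => (c r).2 (Fin.last k)) u) ^ 2)) (t - s) := by
    intro t
    rw [deriv_shift (fun r => (c r).1), deriv_shift (fun r => (c r).2 (Fin.last k))]
  simp_rw [this]
  rw [intervalIntegral.integral_comp_sub_right (fun u => √((deriv (fun r => (c r).1) u) ^ 2 +
      (deriv (fun r => (c r).2 (Fin.last k)) u) ^ 2)) s]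
  simp

/-- the speed of a curve -/
noncomputable def speed (c : ℝ → Jet k) (t : ℝ) : ℝ :=
  √((deriv (fun s => (c s).1) t) ^ 2 + (deriv (fun s => (c s).2 (Fin.last k)) t) ^ 2)

lemma curveLength_eq (c : ℝ → Jet k) (a b : ℝ) : curveLength c a b = ∫ t in a..b, speed c t := rfl

lemma speed_nonneg (c : ℝ → Jet k) (t : ℝ) : 0 ≤ speed c t := Real.sqrt_nonneg _

lemma sqrt_sq_add_le (x y : ℝ) : √(x ^ 2 + y ^ 2) ≤ |x| + |y| := by
  rw [Real.sqrt_le_left (by positivity)]
  nlinarith [sq_abs x, sq_abs y, abs_nonneg x, abs_nonneg y, mul_nonneg (abs_nonneg x) (abs_nonneg y)]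

lemma IsHorizontal.speed_integrable {c : ℝ → Jet k} {a b : ℝ} (h : IsHorizontal c a b) :
    IntervalIntegrable (speed c) volume a b := by
  have h1 := h.ac_x.intervalIntegrable_deriv
  have h2 := (h.ac_u (Fin.last k)).intervalIntegrable_deriv
  refine (h1.abs.add h2.abs).mono_fun ?_ ?_
  · have m1 := h1.aestronglyMeasurable_restrict_uIoc
    have m2 := h2.aestronglyMeasurable_restrict_uIoc
    have : AEStronglyMeasurable (fun t => (deriv (fun s => (c s).1) t) ^ 2 +
        (deriv (fun s => (c s).2 (Fin.last k)) t) ^ 2) (volume.restrict (uIoc a b)) :=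
      (m1.pow 2).add (m2.pow 2)
    exact Real.continuous_sqrt.comp_aestronglyMeasurable this
  · filter_upwards with t
    rw [Real.norm_of_nonneg (speed_nonneg c t)]
    refine (sqrt_sq_add_le _ _).trans (le_abs_self _)

/-- there is a horizontal curve of length `ℓ` from `p` to `q`. -/
def Reach (p q : Jet k) (ℓ : ℝ) : Prop :=
  ∃ (c : ℝ → Jet k) (a b : ℝ), a ≤ b ∧ IsHorizontal c a b ∧ c a = p ∧ c b = q ∧
    curveLength c a b = ℓ

lemma Reach.nonneg {p q : Jet k} {ℓ : ℝ} (h : Reach p q ℓ) : 0 ≤ ℓ := by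
  obtain ⟨c, a, b, hab, -, -, -, rfl⟩ := h
  exact intervalIntegral.integral_nonneg hab (fun t _ => Real.sqrt_nonneg _)

lemma ccDist_le {p q : Jet k} {ℓ : ℝ} (h : Reach p q ℓ) : ccDist p q ≤ ℓ := by
  refine csInf_le ⟨0, ?_⟩ h
  intro x hx
  exact Reach.nonneg hx

lemma le_ccDist {p q : Jet k} {ℓ m : ℝ} (h : Reach p q ℓ) (H : ∀ ℓ', Reach p q ℓ' → m ≤ ℓ') :
    m ≤ ccDist p q :=
  le_csInf ⟨ℓ, h⟩ H

lemma deriv_congr_lt {f g : ℝ → ℝ} {b t : ℝ} (ht : t < b) :
    deriv (fun t => if t ≤ b then f t else g t) t = deriv f t := by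
  apply Filter.EventuallyEq.deriv_eq
  filter_upwards [Iio_mem_nhds ht] with s hs
  simp [le_of_lt (mem_Iio.mp hs)]

lemma deriv_congr_gt {f g : ℝ → ℝ} {b t : ℝ} (ht : b < t) :
    deriv (fun t => if t ≤ b then f t else g t) t = deriv g t := by
  apply Filter.EventuallyEq.deriv_eq
  filter_upwards [Ioi_mem_nhds ht] with s hs
  simp [not_le.mpr (mem_Ioi.mp hs)]

lemma Reach.trans {p q r : Jet k} {ℓ₁ ℓ₂ : ℝ} (h₁ : Reach p q ℓ₁) (h₂ : Reach q r ℓ₂) :
    Reach p r (ℓ₁ + ℓ₂) := by
  obtain ⟨c₁, a, b, hab, hc₁, rfl, hb, rfl⟩ := h₁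
  obtain ⟨c₂', a', b', hab', hc₂', ha', rfl, rfl⟩ := h₂
  -- translate the second curve
  have hc₂ := hc₂'.translate (b - a')
  set c₂ : ℝ → Jet k := fun t => c₂' (t - (b - a')) with hc₂def
  have hlen := curveLength_shift c₂' a' b' (b - a')
  rw [show a' + (b - a') = b by ring] at hc₂ hlen
  set d := b' + (b - a') with hd
  have hbd : b ≤ d := by rw [hd]; linarith
  have hc₂b : c₂ b = c₁ b := by simp [hc₂def, ha', hb]
  have hc₂d : c₂ d = c₂' b' := by simp [hc₂def, hd]
  set c : ℝ → Jet k := fun t => if t ≤ b then c₁ t else c₂ t with hc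
  have hx : (fun t => (c t).1) = fun t => if t ≤ b then (c₁ t).1 else (c₂ t).1 := by
    funext t; by_cases h : t ≤ b <;> simp [hc, h]
  have hu : ∀ j, (fun t => (c t).2 j) = fun t => if t ≤ b then (c₁ t).2 j else (c₂ t).2 j := by
    intro j; funext t; by_cases h : t ≤ b <;> simp [hc, h]
  have hbne : ∀ᵐ t : ℝ, t ≠ b := by
    rw [ae_iff]; simp
  refine ⟨c, a, d, hab.trans hbd, ⟨?_, ?_, ?_⟩, ?_, ?_, ?_⟩
  · rw [hx]
    exact ac_concat hab hbd hc₁.ac_x hc₂.ac_x (by rw [hc₂b])
  · intro j
    rw [hu]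
    exact ac_concat hab hbd (hc₁.ac_u j) (hc₂.ac_u j) (by rw [hc₂b])
  · filter_upwards [hc₁.tangent, hc₂.tangent, hbne] with t h1 h2 h3 hmem j
    rw [hx, hu]
    rcases lt_or_gt_of_ne h3 with hlt | hgt
    · rw [deriv_congr_lt hlt, deriv_congr_lt hlt, h1 ⟨hmem.1, hlt.le⟩ j]
      simp [hc, hlt.le]
    · rw [deriv_congr_gt hgt, deriv_congr_gt hgt, h2 ⟨hgt.le, hmem.2⟩ j]
      simp [hc, not_le.mpr hgt]
  · simp [hc, hab]
  · by_cases h : d ≤ b
    · have : d = b := le_antisymm h hbd
      have h4 : c₂ b = c₂' b' := by rw [← hc₂d, this]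
      simp only [hc, h, if_true]
      rw [this, ← hc₂b, h4]
    · simp only [hc, h, if_false]
      exact hc₂d
  · have e1 : ∫ t in a..b, speed c t = ∫ t in a..b, speed c₁ t := by
      apply intervalIntegral.integral_congr_ae
      filter_upwards [hbne] with t h3 hmem
      rw [uIoc_of_le hab] at hmem
      have hlt : t < b := lt_of_le_of_ne hmem.2 h3
      unfold speed
      rw [hx, hu, deriv_congr_lt hlt, deriv_congr_lt hlt]
    have e2 : ∫ t in b..d, speed c t = ∫ t in b..d, speed c₂ t := by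
      apply intervalIntegral.integral_congr_ae
      filter_upwards with t hmem
      rw [uIoc_of_le hbd] at hmem
      unfold speed
      rw [hx, hu, deriv_congr_gt hmem.1, deriv_congr_gt hmem.1]
    have i1 : IntervalIntegrable (speed c) volume a b := by
      refine hc₁.speed_integrable.congr_ae ?_
      rw [Filter.EventuallyEq, ae_restrict_iff' measurableSet_uIoc]
      filter_upwards [hbne] with t h3 hmem
      rw [uIoc_of_le hab] at hmem
      have hlt : t < b := lt_of_le_of_ne hmem.2 h3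
      unfold speed
      rw [hx, hu, deriv_congr_lt hlt, deriv_congr_lt hlt]
    have i2 : IntervalIntegrable (speed c) volume b d := by
      refine hc₂.speed_integrable.congr_ae ?_
      rw [Filter.EventuallyEq, ae_restrict_iff' measurableSet_uIoc]
      filter_upwards with t hmem
      rw [uIoc_of_le hbd] at hmem
      unfold speed
      rw [hx, hu, deriv_congr_gt hmem.1, deriv_congr_gt hmem.1]
    rw [curveLength_eq, ← intervalIntegral.integral_add_adjacent_intervals i1 i2, e1, e2,
      ← curveLength_eq, ← curveLength_eq, hlen]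

end Pool.Agent.Helper80.JetSpace
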