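import Pool.Agent.Helper80.JetGeod

open MeasureTheory Set Polynomial Filter Topology
open scoped ENNReal

namespace Pool.Agent.Helper80.JetSpace

variable {k : ℕ}

/-! ### Calibration -/

lemma ac_add' {f g : ℝ → ℝ} {a b : ℝ} (hf : AbsolutelyContinuousOnInterval f a b)
    (hg : AbsolutelyContinuousOnInterval g a b) :
    AbsolutelyContinuousOnInterval (fun t => f t + g t) a b := hf.add hg

lemma ac_mul' {f g : ℝ → ℝ} {a b : ℝ} (hf : AbsolutelyContinuousOnInterval f a b)
    (hg : AbsolutelyContinuousOnInterval g a b) :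
    AbsolutelyContinuousOnInterval (fun t => f t * g t) a b := hf.mul hg

lemma ac_const (C : ℝ) (a b : ℝ) : AbsolutelyContinuousOnInterval (fun _ : ℝ => C) a b :=
  ac_of_hasDerivAt (f' := fun _ => 0) (fun t => hasDerivAt_const t C) continuous_const a b

lemma ac_poly (Q : ℝ[X]) {f : ℝ → ℝ} {a b : ℝ} (hf : AbsolutelyContinuousOnInterval f a b) :
    AbsolutelyContinuousOnInterval (fun t => Q.eval (f t)) a b := by
  induction Q using Polynomial.induction_on' with
  | add p q hp hq =>
    simp only [eval_add]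
    exact ac_add' hp hq
  | monomial n r =>
    simp only [eval_monomial]
    refine ac_mul' (ac_const r a b) ?_
    induction n with
    | zero => simpa using ac_const 1 a b
    | succ n ih =>
      simp only [pow_succ]
      exact ac_mul' ih hf

lemma ac_sum {ι : Type*} (s : Finset ι) {f : ι → ℝ → ℝ} {a b : ℝ}
    (hf : ∀ i ∈ s, AbsolutelyContinuousOnInterval (f i) a b) :
    AbsolutelyContinuousOnInterval (fun t => ∑ i ∈ s, f i t) a b := by
  classical
  induction s using Finset.induction_on with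
  | empty => simpa using ac_const 0 a b
  | insert i s hi ih =>
    simp only [Finset.sum_insert hi]
    exact ac_add' (hf i (by simp)) (ih (fun j hj => hf j (by simp [hj])))

lemma IsHorizontal.ac_phi {c : ℝ → Jet k} {a b : ℝ} (h : IsHorizontal c a b) (P : ℝ[X]) :
    AbsolutelyContinuousOnInterval (fun t => Phi P (c t)) a b := by
  unfold Phi
  refine ac_sum _ (fun j _ => ?_)
  exact ac_mul' (ac_mul' (ac_const _ a b) (ac_poly _ h.ac_x)) (h.ac_u j)

lemma IsHorizontal.ae_diff {c : ℝ → Jet k} {a b : ℝ} (hab : a ≤ b) (h : IsHorizontal c a b) :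
    ∀ᵐ t : ℝ, t ∈ Icc a b →
      HasDerivAt (fun s => (c s).1) (deriv (fun s => (c s).1) t) t ∧
      HasDerivAt (fun s => (c s).2 (Fin.last k)) (deriv (fun s => (c s).2 (Fin.last k)) t) t ∧
      ∀ j : Fin k, HasDerivAt (fun s => (c s).2 j.castSucc)
        ((c t).2 j.succ * deriv (fun s => (c s).1) t) t := by
  have h1 := h.ac_x.ae_differentiableAt
  have h2 : ∀ᵐ t : ℝ, ∀ j : Fin (k + 1), t ∈ uIcc a b →
      DifferentiableAt ℝ (fun s => (c s).2 j) t :=
    ae_all_iff.mpr (fun j => (h.ac_u j).ae_differentiableAt)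
  filter_upwards [h1, h2, h.tangent] with t h1 h2 h3 ht
  have ht' : t ∈ uIcc a b := by rw [uIcc_of_le hab]; exact ht
  refine ⟨(h1 ht').hasDerivAt, (h2 _ ht').hasDerivAt, fun j => ?_⟩
  rw [← h3 ht j]
  exact (h2 _ ht').hasDerivAt

/-- `h = √(1 - F²)` -/
noncomputable def hfun (x : ℝ) : ℝ := √(1 - (Fp.eval x) ^ 2)

noncomputable def Gfun (x : ℝ) : ℝ := ∫ r in (0 : ℝ)..x, hfun r

lemma continuous_hfun : Continuous hfun :=
  Real.continuous_sqrt.comp (continuous_const.sub (Fp.continuous.pow 2))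

lemma hasDerivAt_Gfun (x : ℝ) : HasDerivAt Gfun (hfun x) x :=
  intervalIntegral.integral_hasDerivAt_right (continuous_hfun.intervalIntegrable _ _)
    continuous_hfun.aestronglyMeasurable.stronglyMeasurableAtFilter continuous_hfun.continuousAt

lemma hfun_nonneg (x : ℝ) : 0 ≤ hfun x := Real.sqrt_nonneg _

lemma hfun_le_one (x : ℝ) : hfun x ≤ 1 := by
  unfold hfun
  rw [Real.sqrt_le_left (by norm_num)]
  nlinarith [sq_nonneg (Fp.eval x)]

lemma Gfun_lip (x y : ℝ) : dist (Gfun x) (Gfun y) ≤ dist x y := by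
  unfold Gfun
  rw [Real.dist_eq, intervalIntegral.integral_interval_sub_left
    (continuous_hfun.intervalIntegrable _ _) (continuous_hfun.intervalIntegrable _ _)]
  have h := intervalIntegral.norm_integral_le_of_norm_le_const (a := y) (b := x) (C := 1)
    (f := hfun) (fun t _ => by
      rw [Real.norm_of_nonneg (hfun_nonneg t)]; exact hfun_le_one t)
  simpa [Real.dist_eq] using h

lemma Fp_sq_le {x : ℝ} (hx : |x| ≤ 2) : (Fp.eval x) ^ 2 ≤ 1 := by
  rw [Fp_eval]
  have h4 : x ^ 2 ≤ 4 := by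
    have := abs_le.mp hx
    nlinarith
  have : 1 - ((3 * x - x ^ 3) / 2) ^ 2 = (1 - x ^ 2) ^ 2 * (4 - x ^ 2) / 4 := by ring
  have h5 : 0 ≤ (1 - x ^ 2) ^ 2 * (4 - x ^ 2) / 4 := by
    have : 0 ≤ 4 - x ^ 2 := by linarith
    positivity
  linarith

lemma cauchy_schwarz {F x' y' : ℝ} (hF : F ^ 2 ≤ 1) :
    F * y' + √(1 - F ^ 2) * x' ≤ √(x' ^ 2 + y' ^ 2) := by
  apply Real.le_sqrt_of_sq_le
  have h := Real.sq_sqrt (show 0 ≤ 1 - F ^ 2 by linarith)
  have : (F * y' + √(1 - F ^ 2) * x') ^ 2 + (F * x' - √(1 - F ^ 2) * y') ^ 2 =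
      x' ^ 2 + y' ^ 2 := by
    have e : (F * y' + √(1 - F ^ 2) * x') ^ 2 + (F * x' - √(1 - F ^ 2) * y') ^ 2 =
      F ^ 2 * (x' ^ 2 + y' ^ 2) + √(1 - F ^ 2) ^ 2 * (x' ^ 2 + y' ^ 2) := by ring
    rw [e, h]; ring
  nlinarith [sq_nonneg (F * x' - √(1 - F ^ 2) * y')]

/-- The calibration inequality. -/
lemma calibrate (hk : 3 ≤ k) {c : ℝ → Jet k} {a b : ℝ} (hab : a ≤ b) (h : IsHorizontal c a b)
    (hx : ∀ t ∈ Icc a b, |(c t).1| ≤ 2) :
    (Phi Fp (c b) + Gfun (c b).1) - (Phi Fp (c a) + Gfun (c a).1) ≤ curveLength c a b := by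
  have hac : AbsolutelyContinuousOnInterval (fun t => Phi Fp (c t) + Gfun (c t).1) a b :=
    ac_add' (h.ac_phi Fp) (ac_comp_lipschitz h.ac_x Gfun_lip)
  rw [← hac.integral_deriv_eq_sub, curveLength_eq]
  have hae : ∀ᵐ t : ℝ, t ∈ Icc a b →
      deriv (fun t => Phi Fp (c t) + Gfun (c t).1) t ≤ speed c t := by
    filter_upwards [h.ae_diff hab] with t ht hmem
    obtain ⟨d1, d2, d3⟩ := ht hmem
    have e1 := hasDerivAt_Phi (Fp_natDegree.trans hk) d1 d2 d3
    have e2 := (hasDerivAt_Gfun (c t).1).comp t d1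
    have e3 : HasDerivAt (fun t => Phi Fp (c t) + Gfun (c t).1)
      (Fp.eval (c t).1 * deriv (fun s => (c s).2 (Fin.last k)) t +
        hfun (c t).1 * deriv (fun s => (c s).1) t) t := e1.add e2
    rw [e3.deriv]
    unfold speed hfun
    exact cauchy_schwarz (Fp_sq_le (hx t hmem))
  refine intervalIntegral.integral_mono_ae_restrict hab hac.intervalIntegrable_deriv
    h.speed_integrable ?_
  rw [Filter.EventuallyLE, ae_restrict_iff' measurableSet_Icc]
  exact hae

/-- The a priori bound on the oscillation of `x` along a curve that is almost as short as its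
total increase of `u_k`. -/
lemma osc_bound {c : ℝ → Jet k} {a b : ℝ} (h : IsHorizontal c a b)
    {ε : ℝ} (hε : 0 < ε) {t : ℝ} (ht : t ∈ Icc a b) :
    |(c t).1 - (c a).1| ≤ ε / 2 * curveLength c a b +
      (curveLength c a b - ((c b).2 (Fin.last k) - (c a).2 (Fin.last k))) / ε := by
  have hab : a ≤ b := ht.1.trans ht.2
  have hi := h.ac_x.intervalIntegrable_deriv
  have hi2 := (h.ac_u (Fin.last k)).intervalIntegrable_deriv
  have e1 : (c t).1 - (c a).1 = ∫ s in a..t, deriv (fun r => (c r).1) s := by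
    have := ac_ftc h.ac_x (t := t) (by rw [uIcc_of_le hab]; exact ht)
    linarith
  have e2 : (c b).2 (Fin.last k) - (c a).2 (Fin.last k) =
      ∫ s in a..b, deriv (fun r => (c r).2 (Fin.last k)) s := by
    rw [(h.ac_u (Fin.last k)).integral_deriv_eq_sub]
  have h1 : |∫ s in a..t, deriv (fun r => (c r).1) s| ≤
      ∫ s in a..t, |deriv (fun r => (c r).1) s| := intervalIntegral.abs_integral_le_integral_abs ht.1
  have h2 : ∫ s in a..t, |deriv (fun r => (c r).1) s| ≤
      ∫ s in a..b, |deriv (fun r => (c r).1) s| := by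
    refine intervalIntegral.integral_mono_interval le_rfl ht.1 ht.2 ?_ hi.abs
    filter_upwards with s
    exact abs_nonneg _
  have h3 : ∫ s in a..b, |deriv (fun r => (c r).1) s| ≤
      ∫ s in a..b, (ε / 2 * speed c s +
        (speed c s - deriv (fun r => (c r).2 (Fin.last k)) s) * ε⁻¹) := by
    refine intervalIntegral.integral_mono_on hab hi.abs ?_ ?_
    · exact (h.speed_integrable.const_mul _).add ((h.speed_integrable.sub hi2).mul_const _)
    · intro s _
      set x' := deriv (fun r => (c r).1) s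
      set y' := deriv (fun r => (c r).2 (Fin.last k)) s
      have hv : speed c s ^ 2 = x' ^ 2 + y' ^ 2 := Real.sq_sqrt (by positivity)
      have hv0 := speed_nonneg c s
      set v := speed c s
      have hvy : y' ≤ v := by
        by_contra hcon
        push Not at hcon
        nlinarith [sq_nonneg x']
      have hvy2 : -v ≤ y' := by
        by_contra hcon
        push Not at hcon
        nlinarith [sq_nonneg x']
      have hε' : 0 < ε⁻¹ := inv_pos.mpr hε
      have hR : 0 ≤ ε / 2 * v + (v - y') * ε⁻¹ := by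
        have : 0 ≤ v - y' := by linarith
        positivity
      apply abs_le_of_sq_le_sq _ hR
      have key : (ε / 2 * v + (v - y') * ε⁻¹) ^ 2 =
          (ε / 2 * v - (v - y') * ε⁻¹) ^ 2 + 2 * v * (v - y') * (ε * ε⁻¹) := by ring
      rw [key, mul_inv_cancel₀ hε.ne']
      nlinarith [sq_nonneg (ε / 2 * v - (v - y') * ε⁻¹)]
  have h4 : ∫ s in a..b, (ε / 2 * speed c s +
        (speed c s - deriv (fun r => (c r).2 (Fin.last k)) s) * ε⁻¹) =
      ε / 2 * curveLength c a b +
      (curveLength c a b - ((c b).2 (Fin.last k) - (c a).2 (Fin.last k))) / ε := by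
    rw [intervalIntegral.integral_add (h.speed_integrable.const_mul _)
      ((h.speed_integrable.sub hi2).mul_const _), intervalIntegral.integral_const_mul,
      intervalIntegral.integral_mul_const, intervalIntegral.integral_sub h.speed_integrable hi2,
      e2, curveLength_eq]
    rw [div_eq_mul_inv _ ε]
  rw [e1, ← h4]
  exact h1.trans (h2.trans h3)

end Pool.Agent.Helper80.JetSpace
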