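import Mathlib

open MeasureTheory Set Polynomial
open scoped ENNReal

namespace Pool.Agent.Helper80.JetSpace

/-- The jet space `J^k(ℝ,ℝ) = ℝ^{k+2}` with coordinates `(x, (u_0, …, u_k))`. -/
abbrev Jet (k : ℕ) : Type := ℝ × (Fin (k + 1) → ℝ)

/-- The duality pairing between covectors `(p_x, (p_0, …, p_k))` and vectors
`(v_x, (v_0, …, v_k))` in the coordinates `(x, u_0, …, u_k)`. -/
noncomputable def pairing {k : ℕ} (p v : Jet k) : ℝ := p.1 * v.1 + ∑ j, p.2 j * v.2 j

/-- The vector field `X_1 = ∂_x + ∑_{j<k} u_{j+1} ∂_{u_j}`. -/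
noncomputable def X1 {k : ℕ} (q : Jet k) : Jet k :=
  (1, fun j => if h : j.1 < k then q.2 ⟨j.1 + 1, by omega⟩ else 0)

/-- The vector field `X_2 = ∂_{u_k}`. -/
noncomputable def X2 {k : ℕ} (_q : Jet k) : Jet k := (0, fun j => if j = Fin.last k then 1 else 0)

/-- The sub-Riemannian Hamiltonian `H = (⟨p,X_1⟩² + ⟨p,X_2⟩²)/2`. -/
noncomputable def Ham {k : ℕ} (q p : Jet k) : ℝ :=
  (1 / 2) * ((pairing p (X1 q)) ^ 2 + (pairing p (X2 q)) ^ 2)

/-- `(q(t), p(t))` is a trajectory (defined for all times) of the Hamiltonian flow of `Ham` on the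
level `Ham = 1/2`: Hamilton's equations `q' = ∂H/∂p`, `p' = -∂H/∂q`. -/
structure IsNormalExtremal {k : ℕ} (q p : ℝ → Jet k) : Prop where
  differentiable_q : Differentiable ℝ q
  differentiable_p : Differentiable ℝ p
  position_eq : ∀ (t : ℝ) (w : Jet k),
    pairing w (deriv q t) = fderiv ℝ (fun p' => Ham (q t) p') (p t) w
  momentum_eq : ∀ (t : ℝ) (v : Jet k),
    pairing (deriv p t) v = - fderiv ℝ (fun q' => Ham q' (p t)) (q t) v
  level : ∀ t : ℝ, Ham (q t) (p t) = 1 / 2

/-- Geodesics: projections of trajectories of the normal Hamiltonian flow on `H = 1/2`. -/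
def IsGeodesic {k : ℕ} (γ : ℝ → Jet k) : Prop := ∃ p : ℝ → Jet k, IsNormalExtremal γ p

/-- `c` is a horizontal curve on `[a,b]`: its coordinates are absolutely continuous on `[a,b]` and
`du_j - u_{j+1} dx = 0` (`j = 0, …, k-1`) holds along `c` for almost every time. -/
structure IsHorizontal {k : ℕ} (c : ℝ → Jet k) (a b : ℝ) : Prop where
  ac_x : AbsolutelyContinuousOnInterval (fun t => (c t).1) a b
  ac_u : ∀ j, AbsolutelyContinuousOnInterval (fun t => (c t).2 j) a b
  tangent : ∀ᵐ t : ℝ, t ∈ Icc a b → ∀ j : Fin k,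
    deriv (fun s => (c s).2 j.castSucc) t = (c t).2 j.succ * deriv (fun s => (c s).1) t

/-- The sub-Riemannian length on `[a,b]` of a horizontal curve: for the metric that makes `X_1, X_2`
orthonormal the velocity `x' X_1 + u_k' X_2` has norm `√(x'² + u_k'²)`. -/
noncomputable def curveLength {k : ℕ} (c : ℝ → Jet k) (a b : ℝ) : ℝ :=
  ∫ t in a..b, √((deriv (fun s => (c s).1) t) ^ 2 + (deriv (fun s => (c s).2 (Fin.last k)) t) ^ 2)

/-- The Carnot-Carathéodory distance: the infimum of the lengths of the horizontal curves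
joining `p` to `q`. -/
noncomputable def ccDist {k : ℕ} (p q : Jet k) : ℝ :=
  sInf {ℓ : ℝ | ∃ (c : ℝ → Jet k) (a b : ℝ), a ≤ b ∧ IsHorizontal c a b ∧ c a = p ∧ c b = q ∧
    curveLength c a b = ℓ}

/-- The restriction of `γ` to `[0,t]` realizes the distance between its endpoints. -/
def Realizes {k : ℕ} (γ : ℝ → Jet k) (t : ℝ) : Prop :=
  curveLength γ 0 t = ccDist (γ 0) (γ t)

/-- The cut time: the supremum in `[0,∞]` of all `t > 0` such that the restriction of `γ` to
`[0,t]` realizes the distance between its endpoints. -/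
noncomputable def cutTime {k : ℕ} (γ : ℝ → Jet k) : ℝ≥0∞ :=
  ⨆ (t : ℝ) (_ : 0 < t ∧ Realizes γ t), ENNReal.ofReal t

/-- The shifted curve `γ_s(t) = γ(t - s)`. -/
def shift {k : ℕ} (γ : ℝ → Jet k) (s : ℝ) : ℝ → Jet k := fun t => γ (t - s)

/-- `γ` is equi-optimal when the cut time of `γ_s` is the same for all `s`. -/
def EquiOptimal {k : ℕ} (γ : ℝ → Jet k) : Prop :=
  ∀ s s' : ℝ, cutTime (shift γ s) = cutTime (shift γ s')

end Pool.Agent.Helper80.JetSpace
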