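import Pool.Agent.Helper80.JetTurn

open MeasureTheory Set Polynomial Filter Topology
open scoped ENNReal

namespace Pool.Agent.Helper80.JetSpace

variable {k : ℕ}

/-! ### The geodesic -/

noncomputable def yg (t : ℝ) : ℝ := ∫ s in (0 : ℝ)..t, fg s

lemma hasDerivAt_yg (t : ℝ) : HasDerivAt yg (fg t) t :=
  intervalIntegral.integral_hasDerivAt_right (continuous_fg.intervalIntegrable _ _)
    continuous_fg.aestronglyMeasurable.stronglyMeasurableAtFilter continuous_fg.continuousAt

lemma xg_zero : xg 0 = 0 := by unfold xg Sg; simp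

lemma exists_gam (k : ℕ) : ∃ c : ℝ → Jet k, c 0 = 0 ∧ (∀ t, (c t).1 = xg t) ∧
    (∀ t, (c t).2 (Fin.last k) = yg t) ∧ Smooth c vg fg :=
  exists_lift hasDerivAt_xg continuous_vg hasDerivAt_yg continuous_fg 0 0
    (by simp [xg_zero]) (by simp [yg])

/-- covector along a curve -/
noncomputable def covec (c : ℝ → Jet k) (t : ℝ) : Jet k :=
  (vg t + Phi (derivative Fp) (c t),
    fun j => (-1) ^ (k - j.1) * (derivative^[k - j.1] Fp).eval (xg t))

lemma pairing_X1 (p q : Jet k) :
    pairing p (X1 q) = p.1 + ∑ j : Fin k, p.2 j.castSucc * q.2 j.succ := by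
  unfold pairing X1
  rw [Fin.sum_univ_castSucc]
  simp only [mul_one, Fin.val_castSucc, Fin.is_lt, dite_true, Fin.val_last, lt_irrefl, dite_false,
    mul_zero, add_zero]
  rfl

lemma pairing_X2 (p q : Jet k) : pairing p (X2 q) = p.2 (Fin.last k) := by
  unfold pairing X2
  simp

lemma phi_deriv (hk : 3 ≤ k) (q : Jet k) :
    Phi (derivative Fp) q = - ∑ j : Fin k,
      ((-1) ^ (k - j.castSucc.1) * (derivative^[k - j.castSucc.1] Fp).eval q.1) * q.2 j.succ := by
  unfold Phi
  rw [Fin.sum_univ_succ, ← Finset.sum_neg_distrib]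
  have h0 : (derivative^[k - (0 : Fin (k + 1)).1] (derivative Fp)).eval q.1 = 0 := by
    have := iter_deriv_zero (k := k) (P := Fp) (Fp_natDegree.trans hk)
    rw [← Function.iterate_succ_apply]
    simp [this]
  rw [h0]
  simp only [mul_zero, zero_mul, zero_add]
  refine Finset.sum_congr rfl (fun j _ => ?_)
  rw [← Function.iterate_succ_apply, coef_succ]
  ring

lemma pairing_covec (hk : 3 ≤ k) {c : ℝ → Jet k} (hx : ∀ t, (c t).1 = xg t) (t : ℝ) :
    pairing (covec c t) (X1 (c t)) = vg t := by
  rw [pairing_X1]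
  unfold covec
  simp only
  rw [phi_deriv hk, hx]
  ring

lemma Ham_line_p (q p w : Jet k) :
    fderiv ℝ (fun p' => Ham q p') p w =
      pairing p (X1 q) * pairing w (X1 q) + pairing p (X2 q) * pairing w (X2 q) := by
  have hd : DifferentiableAt ℝ (fun p' => Ham q p') p := by
    unfold Ham pairing
    fun_prop
  rw [← hd.lineDeriv_eq_fderiv]
  unfold lineDeriv
  have e : (fun s : ℝ => Ham q (p + s • w)) = fun s =>
      (1 / 2) * ((pairing p (X1 q) + s * pairing w (X1 q)) ^ 2 +
        (pairing p (X2 q) + s * pairing w (X2 q)) ^ 2) := by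
    funext s
    unfold Ham
    have : ∀ v : Jet k, pairing (p + s • w) v = pairing p v + s * pairing w v := by
      intro v
      unfold pairing
      simp only [Prod.fst_add, Prod.smul_fst, smul_eq_mul, Prod.snd_add, Prod.smul_snd,
        Pi.add_apply, Pi.smul_apply]
      rw [mul_add, Finset.mul_sum]
      have : ∀ j, (p.2 j + s * w.2 j) * v.2 j = p.2 j * v.2 j + s * (w.2 j * v.2 j) := by
        intro j; ring
      simp_rw [this]
      rw [Finset.sum_add_distrib]
      ring
    rw [this, this]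
  rw [e]
  have h1 : HasDerivAt (fun s : ℝ => pairing p (X1 q) + s * pairing w (X1 q))
      (pairing w (X1 q)) 0 := by
    simpa using ((hasDerivAt_id (0 : ℝ)).mul_const (pairing w (X1 q))).const_add
      (pairing p (X1 q))
  have h2 : HasDerivAt (fun s : ℝ => pairing p (X2 q) + s * pairing w (X2 q))
      (pairing w (X2 q)) 0 := by
    simpa using ((hasDerivAt_id (0 : ℝ)).mul_const (pairing w (X2 q))).const_add
      (pairing p (X2 q))
  have h3 := ((h1.pow 2).add (h2.pow 2)).const_mul (1 / 2)
  have h4 := h3.deriv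
  convert! h4 using 1
  simp
  ring

lemma Ham_line_q (q p v : Jet k) :
    fderiv ℝ (fun q' => Ham q' p) q v =
      pairing p (X1 q) * ∑ j : Fin k, p.2 j.castSucc * v.2 j.succ := by
  have hfun : (fun q' : Jet k => Ham q' p) = fun q' =>
      (1 / 2) * ((p.1 + ∑ j : Fin k, p.2 j.castSucc * q'.2 j.succ) ^ 2 +
        (p.2 (Fin.last k)) ^ 2) := by
    funext q'
    unfold Ham
    rw [pairing_X1, pairing_X2]
  have hd : DifferentiableAt ℝ (fun q' => Ham q' p) q := by
    rw [hfun]
    fun_prop
  rw [← hd.lineDeriv_eq_fderiv]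
  unfold lineDeriv
  have e : (fun s : ℝ => Ham (q + s • v) p) = fun s =>
      (1 / 2) * ((pairing p (X1 q) + s * ∑ j : Fin k, p.2 j.castSucc * v.2 j.succ) ^ 2 +
        (p.2 (Fin.last k)) ^ 2) := by
    funext s
    have := congrFun hfun (q + s • v)
    rw [this, pairing_X1]
    have h : ∀ j : Fin k, p.2 j.castSucc * (q + s • v).2 j.succ =
        p.2 j.castSucc * q.2 j.succ + s * (p.2 j.castSucc * v.2 j.succ) := by
      intro j
      simp only [Prod.snd_add, Prod.smul_snd, Pi.add_apply, Pi.smul_apply, smul_eq_mul]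
      ring
    simp_rw [h]
    rw [Finset.sum_add_distrib, Finset.mul_sum]
    ring_nf
  rw [e]
  have h1 : HasDerivAt (fun s : ℝ => pairing p (X1 q) + s *
      ∑ j : Fin k, p.2 j.castSucc * v.2 j.succ)
      (∑ j : Fin k, p.2 j.castSucc * v.2 j.succ) 0 := by
    simpa using ((hasDerivAt_id (0 : ℝ)).mul_const
      (∑ j : Fin k, p.2 j.castSucc * v.2 j.succ)).const_add (pairing p (X1 q))
  have h3 := ((h1.pow 2).add_const ((p.2 (Fin.last k)) ^ 2)).const_mul (1 / 2)
  have h4 := h3.deriv
  convert! h4 using 1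
  simp
  ring

lemma hasDerivAt_jet {c : ℝ → Jet k} {c' : Jet k} {t : ℝ}
    (h1 : HasDerivAt (fun s => (c s).1) c'.1 t)
    (h2 : ∀ j, HasDerivAt (fun s => (c s).2 j) (c'.2 j) t) : HasDerivAt c c' t := by
  have h3 : HasDerivAt (fun s => (c s).2) c'.2 t := hasDerivAt_pi.mpr h2
  exact h1.prodMk h3

lemma isGeodesic_gam (hk : 3 ≤ k) {c : ℝ → Jet k} (hx : ∀ t, (c t).1 = xg t)
    (hs : Smooth c vg fg) : IsGeodesic c := by
  have hdeg : Fp.natDegree ≤ k := Fp_natDegree.trans hk
  have hdeg' : (derivative Fp).natDegree ≤ k := (natDegree_derivative_le _).trans (by omega)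
  -- derivative of `c`
  let c' : ℝ → Jet k := fun t =>
    (vg t, Fin.lastCases (fg t) (fun j => (c t).2 j.succ * vg t))
  have hc' : ∀ t, HasDerivAt c (c' t) t := by
    intro t
    refine hasDerivAt_jet (hs.hx t) ?_
    intro j
    refine Fin.lastCases ?_ (fun i => ?_) j
    · simpa [c'] using hs.hy t
    · simpa [c'] using hs.hu t i
  -- derivative of the covector
  let p' : ℝ → Jet k := fun t =>
    (0, fun j => (-1) ^ (k - j.1) * (derivative^[k - j.1 + 1] Fp).eval (xg t) * vg t)
  have hp' : ∀ t, HasDerivAt (covec c) (p' t) t := by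
    intro t
    refine hasDerivAt_jet ?_ ?_
    · have h1 := hasDerivAt_Phi hdeg' (hs.hx t) (hs.hy t) (hs.hu t)
      have h2 := (hasDerivAt_vg t).add h1
      simp only [covec]
      convert! h2 using 1
      simp only [p', hx]
      ring
    · intro j
      exact hasDerivAt_coef Fp (k - j.1) (hasDerivAt_xg t)
  refine ⟨covec c, ⟨fun t => (hc' t).differentiableAt, fun t => (hp' t).differentiableAt,
    ?_, ?_, ?_⟩⟩
  · intro t w
    rw [Ham_line_p, (hc' t).deriv, pairing_covec hk hx, pairing_X1, pairing_X2, pairing_X2]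
    have hl : (covec c t).2 (Fin.last k) = fg t := by
      simp [covec, fg_eq]
    rw [hl]
    unfold pairing
    rw [Fin.sum_univ_castSucc]
    simp only [c', Fin.lastCases_last, Fin.lastCases_castSucc]
    rw [mul_add, Finset.mul_sum]
    have : ∀ j : Fin k, w.2 j.castSucc * ((c t).2 j.succ * vg t) =
        vg t * (w.2 j.castSucc * (c t).2 j.succ) := by intro j; ring
    simp_rw [this]
    ring
  · intro t v
    rw [Ham_line_q, (hp' t).deriv, pairing_covec hk hx]
    unfold pairing
    rw [Fin.sum_univ_succ]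
    have h0 : (p' t).2 0 = 0 := by
      simp only [p']
      have := iter_deriv_zero (k := k) hdeg
      have e : k - (0 : Fin (k + 1)).1 + 1 = k + 1 := by simp
      rw [e, this]; simp
    rw [h0]
    have h1 : (p' t).1 = 0 := rfl
    rw [h1]
    simp only [zero_mul, zero_add]
    rw [Finset.mul_sum, ← Finset.sum_neg_distrib]
    refine Finset.sum_congr rfl (fun j _ => ?_)
    simp only [p', covec]
    rw [coef_succ]
    ring
  · intro t
    unfold Ham
    rw [pairing_covec hk hx, pairing_X2]
    have hl : (covec c t).2 (Fin.last k) = fg t := by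
      simp [covec, fg_eq]
    rw [hl, vg_fg]
    norm_num

end Pool.Agent.Helper80.JetSpace
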