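import Pool.Agent.Helper80.JetCal

open MeasureTheory Set Polynomial Filter Topology
open scoped ENNReal

namespace Pool.Agent.Helper80.JetSpace

variable {k : ℕ}

/-! ### Far-out arcs are minimizing -/

lemma gam_length {c : ℝ → Jet k} (hs : Smooth c vg fg) (a b : ℝ) :
    curveLength c a b = b - a := by
  rw [hs.curveLength]
  simp_rw [vg_fg]
  simp

lemma hfun_xg (t : ℝ) : hfun (xg t) = vg t := by
  unfold hfun
  rw [← fg_eq]
  have h := vg_fg t
  have h2 : 1 - fg t ^ 2 = vg t ^ 2 := by linarith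
  rw [h2, Real.sqrt_sq (vg_pos t).le]

lemma gam_psi (hk : 3 ≤ k) {c : ℝ → Jet k} (hx : ∀ t, (c t).1 = xg t) (hs : Smooth c vg fg)
    (a b : ℝ) :
    (Phi Fp (c b) + Gfun (c b).1) - (Phi Fp (c a) + Gfun (c a).1) = b - a := by
  have h1 : ∀ t, HasDerivAt (fun t => Phi Fp (c t) + Gfun (c t).1) 1 t := by
    intro t
    have e1 := hasDerivAt_Phi (Fp_natDegree.trans hk) (hs.hx t) (hs.hy t) (hs.hu t)
    have e2 := (hasDerivAt_Gfun (c t).1).comp t (hs.hx t)
    have e3 := e1.add e2
    convert! e3 using 1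
    rw [hx, hfun_xg, ← fg_eq]
    have := vg_fg t
    linarith
  have := intervalIntegral.integral_eq_sub_of_hasDerivAt (a := a) (b := b) (fun t _ => h1 t)
    (continuous_const.intervalIntegrable a b)
  rw [← this]
  simp

lemma gam_y {c : ℝ → Jet k} (hy : ∀ t, (c t).2 (Fin.last k) = yg t) {s T : ℝ} (hs : 0 < s)
    (hT : 0 ≤ T) :
    T - T / s ^ 2 ≤ (c (s + T)).2 (Fin.last k) - (c s).2 (Fin.last k) := by
  rw [hy, hy]
  unfold yg
  rw [intervalIntegral.integral_interval_sub_left (continuous_fg.intervalIntegrable _ _)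
    (continuous_fg.intervalIntegrable _ _)]
  have h1 : ∫ t in s..(s + T), (1 - 1 / s ^ 2) ≤ ∫ t in s..(s + T), fg t := by
    refine intervalIntegral.integral_mono_on (by linarith)
      (continuous_const.intervalIntegrable _ _) (continuous_fg.intervalIntegrable _ _) ?_
    intro t ht
    have ht0 : 0 < t := hs.trans_le ht.1
    have := one_sub_fg_le' ht0
    have h2 : 1 / t ^ 2 ≤ 1 / s ^ 2 := by
      apply one_div_le_one_div_of_le (by positivity)
      exact pow_le_pow_left₀ hs.le ht.1 2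
    linarith
  simp only [intervalIntegral.integral_const, add_sub_cancel_left, smul_eq_mul] at h1
  have : T * (1 - 1 / s ^ 2) = T - T / s ^ 2 := by ring
  linarith

/-- the arc `[s, s+T]` of the geodesic is minimizing as soon as `s ≥ 2T`. -/
lemma far_minimizing (hk : 3 ≤ k) {γ : ℝ → Jet k} (hx : ∀ t, (γ t).1 = xg t)
    (hy : ∀ t, (γ t).2 (Fin.last k) = yg t) (hs : Smooth γ vg fg) {s T : ℝ} (hT : 0 < T)
    (hsT : 2 * T ≤ s) : T ≤ ccDist (γ s) (γ (s + T)) := by
  have hs0 : 0 < s := by linarith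
  refine le_ccDist (ℓ := curveLength γ s (s + T))
    ⟨γ, s, s + T, by linarith, hs.isHorizontal _ _, rfl, rfl, rfl⟩ ?_
  rintro ℓ ⟨c, a, b, hab, hc, hca, hcb, rfl⟩
  by_contra hcon
  push Not at hcon
  set ℓ := curveLength c a b with hℓ
  have hℓ0 : 0 ≤ ℓ := Reach.nonneg ⟨c, a, b, hab, hc, rfl, rfl, rfl⟩
  have hY := gam_y (k := k) hy hs0 hT.le
  -- the competitor stays in `|x| ≤ 2`
  have hbound : ∀ t ∈ Icc a b, |(c t).1| ≤ 2 := by
    intro t ht
    have h1 := osc_bound hc (ε := 1 / T) (by positivity) ht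
    rw [hca, hcb, ← hℓ] at h1
    have h2 : 1 / T / 2 * ℓ ≤ 1 / 2 := by
      have : 1 / T / 2 * ℓ ≤ 1 / T / 2 * T := by gcongr
      have e : 1 / T / 2 * T = 1 / 2 := by field_simp
      linarith
    have h3 : (ℓ - ((γ (s + T)).2 (Fin.last k) - (γ s).2 (Fin.last k))) / (1 / T) ≤ 1 / 4 := by
      rw [div_div_eq_mul_div, div_one]
      have h4 : ℓ - ((γ (s + T)).2 (Fin.last k) - (γ s).2 (Fin.last k)) ≤ T / s ^ 2 := by
        linarith
      have h5 : T / s ^ 2 * T ≤ 1 / 4 := by
        rw [div_mul_eq_mul_div, div_le_div_iff₀ (by positivity) (by norm_num)]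
        nlinarith
      calc _ ≤ T / s ^ 2 * T := by gcongr
        _ ≤ 1 / 4 := h5
    have h6 : |(γ s).1| < 1 := by rw [hx]; exact abs_xg_lt s
    have h7 : |(c t).1| ≤ |(c t).1 - (γ s).1| + |(γ s).1| := by
      have := abs_add_le ((c t).1 - (γ s).1) (γ s).1
      simpa using this
    linarith
  have h8 := calibrate hk hab hc hbound
  rw [hca, hcb, gam_psi hk hx hs] at h8
  linarith

/-! ### The symmetric arc is not minimizing -/

lemma basis_bound (Q : ℝ[X]) : ∃ M : ℝ, 0 ≤ M ∧ ∀ z : ℝ, |z| ≤ 1 →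
    |Q.divX.eval z| ≤ M := by
  obtain ⟨M, hM⟩ := (isCompact_Icc (a := (-1 : ℝ)) (b := 1)).exists_bound_of_continuousOn
    Q.divX.continuous.continuousOn
  refine ⟨max M 0, le_max_right _ _, fun z hz => ?_⟩
  have := hM z (abs_le.mp hz)
  exact this.trans (le_max_left _ _)

lemma integral_fg_symm (T : ℝ) : ∫ t in (-T)..T, fg t = 0 := by
  have h := intervalIntegral.integral_comp_neg (a := -T) (b := T) fg
  simp only [neg_neg] at h
  have h2 : ∫ t in (-T)..T, fg (-t) = - ∫ t in (-T)..T, fg t := by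
    rw [← intervalIntegral.integral_neg]
    congr 1
    funext t
    rw [fg_neg]
  linarith

/-- weights bound -/
lemma weight_bound (Q : ℝ[X]) {M : ℝ} (hM : ∀ z : ℝ, |z| ≤ 1 → |Q.divX.eval z| ≤ M)
    {lam T : ℝ} (hlam : 1 ≤ lam) (hT : 0 ≤ T) :
    |∫ t in (-T)..T, Q.eval (xg t / lam) * fg t| ≤ M / lam * (2 * T) := by
  have hl0 : 0 < lam := by linarith
  have hc1 : Continuous (fun t => Q.divX.eval (xg t / lam) * (xg t / lam) * fg t) :=
    ((Q.divX.continuous.comp (continuous_xg.div_const _)).mul (continuous_xg.div_const _)).mul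
      continuous_fg
  have e : ∫ t in (-T)..T, Q.eval (xg t / lam) * fg t =
      ∫ t in (-T)..T, Q.divX.eval (xg t / lam) * (xg t / lam) * fg t := by
    have h1 : ∀ t, Q.eval (xg t / lam) * fg t =
        Q.divX.eval (xg t / lam) * (xg t / lam) * fg t + Q.coeff 0 * fg t := by
      intro t
      conv_lhs => rw [← divX_mul_X_add Q]
      simp only [eval_add, eval_mul, eval_X, eval_C]
      ring
    have hc2 : Continuous (fun t => Q.coeff 0 * fg t) := continuous_const.mul continuous_fg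
    simp_rw [h1]
    rw [intervalIntegral.integral_add (hc1.intervalIntegrable _ _)
      (hc2.intervalIntegrable _ _),
      intervalIntegral.integral_const_mul, integral_fg_symm]
    ring
  rw [e]
  have h2 := intervalIntegral.norm_integral_le_of_norm_le_const (a := -T) (b := T) (C := M / lam)
    (f := fun t => Q.divX.eval (xg t / lam) * (xg t / lam) * fg t) (fun t _ => ?_)
  · rw [Real.norm_eq_abs] at h2
    refine h2.trans (le_of_eq ?_)
    rw [abs_of_nonneg (by linarith)]
    ring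
  · rw [Real.norm_eq_abs, abs_mul, abs_mul, abs_div, abs_of_pos hl0]
    have hz : |xg t / lam| ≤ 1 := by
      rw [abs_div, abs_of_pos hl0, div_le_one hl0]
      exact (abs_xg_lt t).le.trans hlam
    have hM0 : 0 ≤ M := (abs_nonneg _).trans (hM _ hz)
    calc |Q.divX.eval (xg t / lam)| * (|xg t| / lam) * |fg t|
        ≤ M * (1 / lam) * 1 := by
          gcongr
          · exact hM _ hz
          · exact (abs_xg_lt t).le
          · exact abs_fg_le t
      _ = M / lam := by ring

/-- Lagrange interpolation at the nodes `0, 1, …, k`, in scaled form. -/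
lemma lagrange_scaled {P : ℝ[X]} (hP : P.natDegree ≤ k) {lam : ℝ} (hl : 0 < lam) (x : ℝ) :
    P.eval x = ∑ i ∈ Finset.range (k + 1), P.eval (lam * i) *
      (Lagrange.basis (Finset.range (k + 1)) (fun i : ℕ => (i : ℝ)) i).eval (x / lam) := by
  set R : ℝ[X] := P.comp (C lam * X) with hR
  have hdeg : R.degree < ((Finset.range (k + 1)).card : WithBot ℕ) := by
    rw [Finset.card_range]
    have h1 : R.natDegree ≤ k := by
      rw [hR]
      refine natDegree_comp_le.trans ?_
      have : (C lam * X : ℝ[X]).natDegree ≤ 1 := by compute_degree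
      nlinarith
    refine lt_of_le_of_lt (degree_le_natDegree) ?_
    exact_mod_cast Nat.lt_succ_of_le h1
  have h := Lagrange.eq_interpolate (s := Finset.range (k + 1)) (v := fun i : ℕ => (i : ℝ))
    (f := R) (by intro i _ j _ hij; simpa using hij) hdeg
  have h2 : P.eval x = R.eval (x / lam) := by
    rw [hR, eval_comp]
    simp only [eval_mul, eval_C, eval_X]
    congr 1
    field_simp
  rw [h2]
  conv_lhs => rw [h]
  rw [Lagrange.interpolate_apply, eval_finsetSum]
  refine Finset.sum_congr rfl (fun i _ => ?_)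
  rw [eval_mul, eval_C, hR, eval_comp]
  simp

/-- The competitor curve. -/
lemma competitor_chain {A : Jet k} (hA : |A.1| ≤ 1) {lam : ℝ} (hl : 1 ≤ lam) (w : ℕ → ℝ) (n : ℕ) :
    ∃ (q : Jet k) (ℓ : ℝ), Reach A q ℓ ∧ ℓ ≤ n * (lam + 1) + ∑ i ∈ Finset.range n, |w i| ∧
      |lam * n - q.1| ≤ lam + 1 ∧
      ∀ P : ℝ[X], P.natDegree ≤ k →
        Phi P q = Phi P A + ∑ i ∈ Finset.range n, w i * P.eval (lam * i) := by
  induction n with
  | zero =>
    refine ⟨A, 0, ⟨fun _ => A, 0, 0, le_rfl, ⟨?_, ?_, ?_⟩, rfl, rfl, ?_⟩, ?_, ?_, ?_⟩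
    · exact ac_const _ _ _
    · intro j; exact ac_const _ _ _
    · filter_upwards with t _ j
      simp
    · simp [curveLength]
    · simp
    · simp only [Nat.cast_zero, mul_zero, zero_sub, abs_neg]
      linarith
    · intro P _
      simp
  | succ n ih =>
    obtain ⟨q, ℓ, hr, hℓ, hq, hphi⟩ := ih
    obtain ⟨q1, hr1, hx1, hp1⟩ := reach_x q (lam * n)
    obtain ⟨q2, hr2, hx2, hp2⟩ := reach_y q1 (w n)
    refine ⟨q2, _, (hr.trans hr1).trans hr2, ?_, ?_, ?_⟩
    · rw [Finset.sum_range_succ]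
      push_cast
      linarith
    · rw [hx2, hx1]
      push_cast
      rw [show lam * (n + 1) - lam * n = lam by ring, abs_of_pos (by linarith)]
      linarith
    · intro P hP
      rw [hp2 P hP, hp1 P hP, hphi P hP, hx1, Finset.sum_range_succ]
      ring

lemma symmetric_not_minimizing (γ : ℝ → Jet k) (hx : ∀ t, (γ t).1 = xg t)
    (hs : Smooth γ vg fg) : ∃ T : ℝ, 0 < T ∧ ∃ ℓ, Reach (γ (-T)) (γ T) ℓ ∧ ℓ < 2 * T := by
  classical
  set B : ℕ → ℝ[X] := fun i =>
    Lagrange.basis (Finset.range (k + 1)) (fun i : ℕ => (i : ℝ)) i with hB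
  choose M hM0 hM using fun i => basis_bound (B i)
  set S : ℝ := ∑ i ∈ Finset.range (k + 1), M i with hS
  have hS0 : 0 ≤ S := Finset.sum_nonneg (fun i _ => hM0 i)
  set lam : ℝ := 2 * S + 1 with hlam
  have hl : 1 ≤ lam := by linarith
  have hl0 : 0 < lam := by linarith
  set Cst : ℝ := (k + 1 : ℕ) * (lam + 1) + (lam * (k + 1 : ℕ) + (lam + 1) + 1) with hCst
  set T : ℝ := Cst + 1 with hT
  have hC0 : 0 ≤ Cst := by rw [hCst]; positivity
  have hT0 : 0 < T := by linarith
  refine ⟨T, hT0, ?_⟩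
  set w : ℕ → ℝ := fun i => ∫ t in (-T)..T, (B i).eval (xg t / lam) * fg t with hw
  have hAx : |(γ (-T)).1| ≤ 1 := by rw [hx]; exact (abs_xg_lt _).le
  obtain ⟨q, ℓ, hr, hℓ, hq, hphi⟩ := competitor_chain hAx hl w (k + 1)
  obtain ⟨q1, hr1, hx1, hp1⟩ := reach_x q (xg T)
  have hend : q1 = γ T := by
    refine eq_of_phi (by rw [hx1, hx]) ?_
    intro P hP
    rw [hp1 P hP, hphi P hP, hs.phi hP (-T) T]
    congr 1
    have h1 : ∀ t, P.eval (γ t).1 * fg t = ∑ i ∈ Finset.range (k + 1),
        P.eval (lam * i) * ((B i).eval (xg t / lam) * fg t) := by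
      intro t
      rw [hx, lagrange_scaled hP hl0 (xg t), Finset.sum_mul]
      refine Finset.sum_congr rfl (fun i _ => ?_)
      ring
    simp_rw [h1]
    rw [intervalIntegral.integral_finsetSum]
    · refine Finset.sum_congr rfl (fun i _ => ?_)
      rw [intervalIntegral.integral_const_mul, mul_comm]
    · intro i _
      exact (continuous_const.mul (((B i).continuous.comp
        (continuous_xg.div_const _)).mul continuous_fg)).intervalIntegrable _ _
  rw [hend] at hr1
  refine ⟨_, hr.trans hr1, ?_⟩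
  have hsum : ∑ i ∈ Finset.range (k + 1), |w i| ≤ T := by
    have h1 : ∀ i ∈ Finset.range (k + 1), |w i| ≤ M i / lam * (2 * T) := fun i _ =>
      weight_bound (B i) (hM i) hl hT0.le
    refine (Finset.sum_le_sum h1).trans ?_
    rw [← Finset.sum_mul, ← Finset.sum_div, ← hS, div_mul_eq_mul_div, div_le_iff₀ hl0]
    rw [hlam]
    nlinarith
  have hlast : |xg T - q.1| ≤ lam * (k + 1 : ℕ) + (lam + 1) + 1 := by
    have h1 := abs_xg_lt T
    have h2 : |xg T - q.1| ≤ |xg T| + |lam * (k + 1 : ℕ)| + |lam * (k + 1 : ℕ) - q.1| := by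
      have e : xg T - q.1 = xg T + (-(lam * (k + 1 : ℕ))) + (lam * (k + 1 : ℕ) - q.1) := by ring
      rw [e]
      refine (abs_add_three _ _ _).trans ?_
      rw [abs_neg]
    have h3 : |lam * ((k + 1 : ℕ) : ℝ)| = lam * (k + 1 : ℕ) := abs_of_nonneg (by positivity)
    rw [h3] at h2
    linarith
  linarith

/-! ### Conclusion -/

/-- For every `k ≥ 3` there is a geodesic of `J^k` that is not equi-optimal. -/
theorem main (k : ℕ) (hk : 3 ≤ k) :
    ∃ γ : ℝ → Jet k, IsGeodesic γ ∧
      ∃ s s' : ℝ, cutTime (shift γ s) ≠ ⊤ ∧ cutTime (shift γ s) < cutTime (shift γ s') := by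
  obtain ⟨γ, -, hx, hy, hs⟩ := exists_gam k
  refine ⟨γ, isGeodesic_gam hk hx hs, ?_⟩
  obtain ⟨T, hT, ℓ, hreach, hℓ⟩ := symmetric_not_minimizing γ hx hs
  -- length of shifted arcs
  have hlen : ∀ r t : ℝ, curveLength (shift γ r) 0 t = t := by
    intro r t
    have h := curveLength_shift γ (-r) (t - r) r
    rw [gam_length hs] at h
    simp only [neg_add_cancel, sub_add_cancel] at h
    unfold shift
    rw [h]; ring
  -- first cut time is at most `2T`
  have h1 : cutTime (shift γ T) ≤ ENNReal.ofReal (2 * T) := by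
    unfold cutTime
    refine iSup₂_le ?_
    rintro t ⟨ht, hreal⟩
    apply ENNReal.ofReal_le_ofReal
    by_contra hcon
    push Not at hcon
    unfold Realizes at hreal
    rw [hlen] at hreal
    have e0 : shift γ T 0 = γ (-T) := by simp [shift]
    have e1 : shift γ T t = γ (t - T) := rfl
    rw [e0, e1] at hreal
    have hr2 : Reach (γ T) (γ (t - T)) (t - T - T) :=
      ⟨γ, T, t - T, by linarith, hs.isHorizontal _ _, rfl, rfl, gam_length hs _ _⟩
    have := ccDist_le (hreach.trans hr2)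
    linarith
  -- second cut time is at least `2T + 1`
  set L : ℝ := 2 * T + 1 with hL
  have hL0 : 0 < L := by linarith
  have h2 : ENNReal.ofReal L ≤ cutTime (shift γ (-(2 * L))) := by
    unfold cutTime
    refine le_iSup₂_of_le L ⟨hL0, ?_⟩ le_rfl
    unfold Realizes
    rw [hlen]
    have e0 : shift γ (-(2 * L)) 0 = γ (2 * L) := by simp [shift]
    have e1 : shift γ (-(2 * L)) L = γ (2 * L + L) := by
      simp only [shift]; congr 1; ring
    rw [e0, e1]
    apply le_antisymm
    · exact far_minimizing hk hx hy hs hL0 le_rfl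
    · have hr : Reach (γ (2 * L)) (γ (2 * L + L)) L := by
        refine ⟨γ, 2 * L, 2 * L + L, by linarith, hs.isHorizontal _ _, rfl, rfl, ?_⟩
        rw [gam_length hs]; ring
      exact ccDist_le hr
  refine ⟨T, -(2 * L), (h1.trans_lt ENNReal.ofReal_lt_top).ne, ?_⟩
  refine h1.trans_lt (lt_of_lt_of_le ?_ h2)
  rw [ENNReal.ofReal_lt_ofReal_iff hL0]
  linarith

end Pool.Agent.Helper80.JetSpace
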