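import Pool.Agent.Helper80.JetBasic

open MeasureTheory Set Polynomial Filter Topology
open scoped ENNReal

namespace Pool.Agent.Helper80.JetSpace

variable {k : ℕ}

/-- `Φ_P(x,u) = ∑_j (-1)^{k-j} P^{(k-j)}(x) u_j`; along horizontal curves `dΦ_P = P(x) du_k`. -/
noncomputable def Phi (P : ℝ[X]) (q : Jet k) : ℝ :=
  ∑ j : Fin (k + 1), ((-1) ^ (k - j.1) * (derivative^[k - j.1] P).eval q.1) * q.2 j

lemma coef_succ (P : ℝ[X]) (x : ℝ) (j : Fin k) :
    ((-1 : ℝ) ^ (k - j.succ.1) * (derivative^[k - j.succ.1 + 1] P).eval x) =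
      - ((-1 : ℝ) ^ (k - j.castSucc.1) * (derivative^[k - j.castSucc.1] P).eval x) := by
  have h1 : k - j.castSucc.1 = (k - j.succ.1) + 1 := by
    simp only [Fin.val_castSucc, Fin.val_succ]; omega
  rw [h1, pow_succ]; ring

lemma hasDerivAt_coef (P : ℝ[X]) (m : ℕ) {x : ℝ → ℝ} {x' t : ℝ} (hx : HasDerivAt x x' t) :
    HasDerivAt (fun s => (-1 : ℝ) ^ m * (derivative^[m] P).eval (x s))
      ((-1 : ℝ) ^ m * (derivative^[m + 1] P).eval (x t) * x') t := by
  have h1 := ((derivative^[m] P).hasDerivAt (x t)).comp t hx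
  have h2 := h1.const_mul ((-1 : ℝ) ^ m)
  rw [Function.iterate_succ_apply']
  convert! h2 using 1
  ring

lemma iter_deriv_zero {P : ℝ[X]} (hP : P.natDegree ≤ k) : derivative^[k + 1] P = 0 :=
  Polynomial.iterate_derivative_eq_zero (by omega)

lemma hasDerivAt_Phi {P : ℝ[X]} (hP : P.natDegree ≤ k) {c : ℝ → Jet k} {t x' y' : ℝ}
    (hx : HasDerivAt (fun s => (c s).1) x' t)
    (hy : HasDerivAt (fun s => (c s).2 (Fin.last k)) y' t)
    (hu : ∀ j : Fin k, HasDerivAt (fun s => (c s).2 j.castSucc) ((c t).2 j.succ * x') t) :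
    HasDerivAt (fun s => Phi P (c s)) (P.eval (c t).1 * y') t := by
  unfold Phi
  -- derivative of every `u_j`
  let u' : Fin (k + 1) → ℝ := Fin.lastCases y' (fun j => (c t).2 j.succ * x')
  have hu' : ∀ j : Fin (k + 1), HasDerivAt (fun s => (c s).2 j) (u' j) t := by
    intro j
    refine Fin.lastCases ?_ (fun i => ?_) j
    · simpa [u'] using hy
    · simpa [u'] using hu i
  have hterm : ∀ j ∈ (Finset.univ : Finset (Fin (k + 1))), HasDerivAt
      (fun s => ((-1 : ℝ) ^ (k - j.1) * (derivative^[k - j.1] P).eval (c s).1) * (c s).2 j)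
      (((-1 : ℝ) ^ (k - j.1) * (derivative^[k - j.1 + 1] P).eval (c t).1 * x') * (c t).2 j +
        ((-1 : ℝ) ^ (k - j.1) * (derivative^[k - j.1] P).eval (c t).1) * u' j) t := by
    intro j _
    exact (hasDerivAt_coef P (k - j.1) hx).mul (hu' j)
  have hsum := HasDerivAt.fun_sum hterm
  convert! hsum using 1
  rw [Finset.sum_add_distrib]
  -- first sum
  have s1 : ∑ j : Fin (k + 1),
      ((-1 : ℝ) ^ (k - j.1) * (derivative^[k - j.1 + 1] P).eval (c t).1 * x') * (c t).2 j =
      ∑ j : Fin k, - (((-1 : ℝ) ^ (k - j.castSucc.1) *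
        (derivative^[k - j.castSucc.1] P).eval (c t).1) * ((c t).2 j.succ * x')) := by
    rw [Fin.sum_univ_succ]
    have h0 : (derivative^[k - (0 : Fin (k + 1)).1 + 1] P).eval (c t).1 = 0 := by
      simp [iter_deriv_zero hP]
    rw [h0]
    simp only [mul_zero, zero_mul, zero_add]
    refine Finset.sum_congr rfl (fun j _ => ?_)
    rw [coef_succ]; ring
  have s2 : ∑ j : Fin (k + 1),
      ((-1 : ℝ) ^ (k - j.1) * (derivative^[k - j.1] P).eval (c t).1) * u' j =
      (∑ j : Fin k, ((-1 : ℝ) ^ (k - j.castSucc.1) *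
        (derivative^[k - j.castSucc.1] P).eval (c t).1) * ((c t).2 j.succ * x')) +
        P.eval (c t).1 * y' := by
    rw [Fin.sum_univ_castSucc]
    simp [u']
  rw [s1, s2, Finset.sum_neg_distrib]
  ring

/-! ### Smooth horizontal curves -/

/-- `C^1` horizontal curves with prescribed derivatives `x', y'` of `x` and `u_k`. -/
structure Smooth (c : ℝ → Jet k) (x' y' : ℝ → ℝ) : Prop where
  hx : ∀ t, HasDerivAt (fun s => (c s).1) (x' t) t
  hy : ∀ t, HasDerivAt (fun s => (c s).2 (Fin.last k)) (y' t) t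
  hu : ∀ t (j : Fin k), HasDerivAt (fun s => (c s).2 j.castSucc) ((c t).2 j.succ * x' t) t
  cx : Continuous x'
  cy : Continuous y'

lemma Smooth.hasDerivAt_u {c : ℝ → Jet k} {x' y' : ℝ → ℝ} (h : Smooth c x' y')
    (j : Fin (k + 1)) : ∃ v : ℝ → ℝ, Continuous v ∧ ∀ t, HasDerivAt (fun s => (c s).2 j) (v t) t := by
  have hd : ∀ j : Fin (k + 1), Continuous (fun s => (c s).2 j) := by
    intro j
    refine Fin.lastCases ?_ (fun i => ?_) j
    · exact continuous_iff_continuousAt.mpr (fun t => (h.hy t).continuousAt)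
    · exact continuous_iff_continuousAt.mpr (fun t => (h.hu t i).continuousAt)
  refine Fin.lastCases ?_ (fun i => ?_) j
  · exact ⟨y', h.cy, h.hy⟩
  · exact ⟨fun t => (c t).2 i.succ * x' t, (hd _).mul h.cx, fun t => h.hu t i⟩

lemma ac_of_hasDerivAt {f f' : ℝ → ℝ} (h : ∀ t, HasDerivAt f (f' t) t) (hc : Continuous f')
    (a b : ℝ) : AbsolutelyContinuousOnInterval f a b := by
  have h1 : deriv f = f' := funext (fun t => (h t).deriv)
  have h2 : ContDiff ℝ 1 f := by
    rw [contDiff_one_iff_deriv]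
    exact ⟨fun t => (h t).differentiableAt, by rw [h1]; exact hc⟩
  exact h2.contDiffOn.absolutelyContinuousOnInterval

lemma Smooth.isHorizontal {c : ℝ → Jet k} {x' y' : ℝ → ℝ} (h : Smooth c x' y') (a b : ℝ) :
    IsHorizontal c a b := by
  refine ⟨ac_of_hasDerivAt h.hx h.cx a b, ?_, ?_⟩
  · intro j
    obtain ⟨v, hv, hj⟩ := h.hasDerivAt_u j
    exact ac_of_hasDerivAt hj hv a b
  · filter_upwards with t _ j
    rw [(h.hu t j).deriv, (h.hx t).deriv]

lemma Smooth.curveLength {c : ℝ → Jet k} {x' y' : ℝ → ℝ} (h : Smooth c x' y') (a b : ℝ) :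
    curveLength c a b = ∫ t in a..b, √((x' t) ^ 2 + (y' t) ^ 2) := by
  rw [curveLength_eq]
  congr 1
  funext t
  unfold speed
  rw [(h.hx t).deriv, (h.hy t).deriv]

lemma Smooth.phi {c : ℝ → Jet k} {x' y' : ℝ → ℝ} (h : Smooth c x' y') {P : ℝ[X]}
    (hP : P.natDegree ≤ k) (a b : ℝ) :
    Phi P (c b) = Phi P (c a) + ∫ t in a..b, P.eval (c t).1 * y' t := by
  have h1 : ∀ t, HasDerivAt (fun s => Phi P (c s)) (P.eval (c t).1 * y' t) t := fun t =>
    hasDerivAt_Phi hP (h.hx t) (h.hy t) (fun j => h.hu t j)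
  have hcx : Continuous (fun s => (c s).1) :=
    continuous_iff_continuousAt.mpr (fun t => (h.hx t).continuousAt)
  have hc : Continuous (fun t => P.eval (c t).1 * y' t) := (P.continuous.comp hcx).mul h.cy
  rw [intervalIntegral.integral_eq_sub_of_hasDerivAt (fun t _ => h1 t) (hc.intervalIntegrable a b)]
  ring

/-- iterated integrals used to lift a plane curve -/
noncomputable def liftU (x' y : ℝ → ℝ) (a : ℝ) (init : ℕ → ℝ) : ℕ → ℝ → ℝ
  | 0 => y
  | m + 1 => fun t => init (m + 1) + ∫ s in a..t, liftU x' y a init m s * x' s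

lemma continuous_liftU {x' y : ℝ → ℝ} (hx' : Continuous x') (hy : Continuous y) (a : ℝ)
    (init : ℕ → ℝ) (m : ℕ) : Continuous (liftU x' y a init m) := by
  induction m with
  | zero => exact hy
  | succ m ih =>
    have h : Continuous (fun s => liftU x' y a init m s * x' s) := ih.mul hx'
    exact continuous_const.add (intervalIntegral.continuous_primitive
      (fun _ _ => h.intervalIntegrable _ _) a)

lemma hasDerivAt_liftU {x' y : ℝ → ℝ} (hx' : Continuous x') (hy : Continuous y) (a : ℝ)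
    (init : ℕ → ℝ) (m : ℕ) (t : ℝ) :
    HasDerivAt (liftU x' y a init (m + 1)) (liftU x' y a init m t * x' t) t := by
  have h : Continuous (fun s => liftU x' y a init m s * x' s) :=
    (continuous_liftU hx' hy a init m).mul hx'
  have h1 := intervalIntegral.integral_hasDerivAt_right (h.intervalIntegrable a t)
    h.aestronglyMeasurable.stronglyMeasurableAtFilter h.continuousAt
  exact h1.const_add (init (m + 1))

lemma exists_lift {x y x' y' : ℝ → ℝ} (hx : ∀ t, HasDerivAt x (x' t) t) (cx : Continuous x')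
    (hy : ∀ t, HasDerivAt y (y' t) t) (cy : Continuous y') (a : ℝ) (q : Jet k)
    (h1 : x a = q.1) (h2 : y a = q.2 (Fin.last k)) :
    ∃ c : ℝ → Jet k, c a = q ∧ (∀ t, (c t).1 = x t) ∧ (∀ t, (c t).2 (Fin.last k) = y t) ∧
      Smooth c x' y' := by
  have hyc : Continuous y := continuous_iff_continuousAt.mpr (fun t => (hy t).continuousAt)
  set init : ℕ → ℝ := fun m => q.2 ⟨k - m, by omega⟩ with hinit
  refine ⟨fun t => (x t, fun j => liftU x' y a init (k - j.1) t), ?_, fun t => rfl, ?_, ?_⟩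
  · refine Prod.ext h1 ?_
    funext j
    simp only
    rcases Nat.eq_zero_or_pos (k - j.1) with h0 | hpos
    · have hj : j = Fin.last k := by
        apply Fin.ext; simp only [Fin.val_last]; omega
      subst hj
      rw [h0]; exact h2
    · obtain ⟨m, hm⟩ : ∃ m, k - j.1 = m + 1 := ⟨k - j.1 - 1, by omega⟩
      rw [hm]
      simp only [liftU, intervalIntegral.integral_same, add_zero, hinit]
      have hj : (⟨k - (m + 1), by omega⟩ : Fin (k + 1)) = j := by
        apply Fin.ext
        simp only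
        omega
      rw [hj]
  · intro t
    simp [liftU]
  · refine ⟨hx, ?_, ?_, cx, cy⟩
    · intro t
      simpa [liftU] using hy t
    · intro t j
      have e : k - j.castSucc.1 = (k - j.succ.1) + 1 := by
        simp only [Fin.val_castSucc, Fin.val_succ]; omega
      simp only [e]
      exact hasDerivAt_liftU cx hyc a init _ t

/-! ### Elementary moves -/

/-- A horizontal move in the direction of `X_1`. -/
lemma reach_x (q : Jet k) (x₁ : ℝ) :
    ∃ q' : Jet k, Reach q q' |x₁ - q.1| ∧ q'.1 = x₁ ∧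
      ∀ P : ℝ[X], P.natDegree ≤ k → Phi P q' = Phi P q := by
  obtain ⟨c, hc0, hcx, hcy, hs⟩ := exists_lift (k := k) (x := fun t => q.1 + (x₁ - q.1) * t)
    (x' := fun _ => x₁ - q.1) (y := fun _ => q.2 (Fin.last k)) (y' := fun _ => 0)
    (fun t => by simpa using ((hasDerivAt_id t).const_mul (x₁ - q.1)).const_add q.1)
    continuous_const (fun t => hasDerivAt_const t _) continuous_const 0 q (by simp) rfl
  refine ⟨c 1, ⟨c, 0, 1, zero_le_one, hs.isHorizontal 0 1, hc0, rfl, ?_⟩, by rw [hcx]; ring, ?_⟩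
  · rw [hs.curveLength]
    simp [Real.sqrt_sq_eq_abs]
  · intro P hP
    rw [hs.phi hP 0 1, hc0]
    simp

/-- A horizontal move in the direction of `X_2`. -/
lemma reach_y (q : Jet k) (w : ℝ) :
    ∃ q' : Jet k, Reach q q' |w| ∧ q'.1 = q.1 ∧
      ∀ P : ℝ[X], P.natDegree ≤ k → Phi P q' = Phi P q + w * P.eval q.1 := by
  obtain ⟨c, hc0, hcx, hcy, hs⟩ := exists_lift (k := k) (x := fun _ => q.1)
    (x' := fun _ => 0) (y := fun t => q.2 (Fin.last k) + w * t) (y' := fun _ => w)
    (fun t => hasDerivAt_const t _) continuous_const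
    (fun t => by simpa using ((hasDerivAt_id t).const_mul w).const_add (q.2 (Fin.last k)))
    continuous_const 0 q rfl (by simp)
  refine ⟨c 1, ⟨c, 0, 1, zero_le_one, hs.isHorizontal 0 1, hc0, rfl, ?_⟩, by rw [hcx], ?_⟩
  · rw [hs.curveLength]
    simp [Real.sqrt_sq_eq_abs]
  · intro P hP
    rw [hs.phi hP 0 1, hc0]
    simp [hcx]
    ring

/-- A point is determined by `x` and the values of all `Φ_P`. -/
lemma eq_of_phi {q q' : Jet k} (hx : q.1 = q'.1)
    (h : ∀ P : ℝ[X], P.natDegree ≤ k → Phi P q = Phi P q') : q = q' := by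
  refine Prod.ext hx ?_
  funext j
  have hP : ((X - C q.1) ^ (k - j.1) : ℝ[X]).natDegree ≤ k := by
    rw [natDegree_pow, natDegree_X_sub_C]; omega
  have key : ∀ r : Jet k, r.1 = q.1 → Phi ((X - C q.1) ^ (k - j.1) : ℝ[X]) r =
      (-1) ^ (k - j.1) * ((k - j.1).factorial : ℝ) * r.2 j := by
    intro r hr
    unfold Phi
    rw [Finset.sum_eq_single j]
    · rw [Polynomial.iterate_derivative_X_sub_pow, hr]
      simp [Nat.descFactorial_self]
    · intro i _ hij
      have hne : k - i.1 ≠ k - j.1 := by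
        intro e
        apply hij
        apply Fin.ext
        have := i.2; have := j.2; omega
      rw [Polynomial.iterate_derivative_X_sub_pow, hr]
      rcases lt_or_gt_of_ne hne with hlt | hgt
      · have : (k - j.1) - (k - i.1) ≠ 0 := by omega
        simp [this]
      · rw [Nat.descFactorial_of_lt hgt]
        simp
    · simp
  have h1 := h _ hP
  rw [key q rfl, key q' hx.symm] at h1
  have hne : ((-1 : ℝ) ^ (k - j.1) * ((k - j.1).factorial : ℝ)) ≠ 0 :=
    mul_ne_zero (pow_ne_zero _ (by norm_num)) (by exact_mod_cast Nat.factorial_ne_zero _)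
  exact mul_left_cancel₀ hne h1

end Pool.Agent.Helper80.JetSpace
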