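import Pool.Agent.Helper80.JetPhi

open MeasureTheory Set Polynomial Filter Topology
open scoped ENNReal

namespace Pool.Agent.Helper80.JetSpace

variable {k : ℕ}

/-- The polynomial `F(x) = (3x - x³)/2`. -/
noncomputable def Fp : ℝ[X] := C (3 / 2) * X - C (1 / 2) * X ^ 3

lemma Fp_natDegree : Fp.natDegree ≤ 3 := by
  unfold Fp; compute_degree

lemma Fp_eval (x : ℝ) : Fp.eval x = (3 * x - x ^ 3) / 2 := by
  unfold Fp; simp; ring

lemma Fp_deriv_eval (x : ℝ) : (derivative Fp).eval x = (3 - 3 * x ^ 2) / 2 := by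
  unfold Fp; simp; ring

noncomputable def om : ℝ := √3 / 2

lemma om_sq : om ^ 2 = 3 / 4 := by
  unfold om; rw [div_pow, Real.sq_sqrt (by norm_num)]; norm_num

lemma om_pos : 0 < om := by unfold om; positivity

noncomputable def Sg (t : ℝ) : ℝ := Real.sinh (om * t)
noncomputable def Cg (t : ℝ) : ℝ := Real.cosh (om * t)
noncomputable def Wg (t : ℝ) : ℝ := √(3 + 4 * Sg t ^ 2)
noncomputable def xg (t : ℝ) : ℝ := 2 * Sg t / Wg t
noncomputable def vg (t : ℝ) : ℝ := 6 * om * Cg t / Wg t ^ 3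
noncomputable def fg (t : ℝ) : ℝ := Sg t * (9 + 8 * Sg t ^ 2) / Wg t ^ 3

lemma Wg_pos (t : ℝ) : 0 < Wg t := Real.sqrt_pos.mpr (by positivity)

lemma Wg_sq (t : ℝ) : Wg t ^ 2 = 3 + 4 * Sg t ^ 2 := Real.sq_sqrt (by positivity)

lemma Cg_sq (t : ℝ) : Cg t ^ 2 = 1 + Sg t ^ 2 := by
  unfold Cg Sg; rw [Real.cosh_sq]; ring

lemma Cg_pos (t : ℝ) : 0 < Cg t := Real.cosh_pos _

lemma fg_eq (t : ℝ) : fg t = Fp.eval (xg t) := by
  rw [Fp_eval]
  unfold fg xg
  have hW := (Wg_pos t).ne'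
  have h2 := Wg_sq t
  field_simp
  rw [h2]
  ring

lemma vg_fg (t : ℝ) : vg t ^ 2 + fg t ^ 2 = 1 := by
  unfold vg fg
  have hW := (Wg_pos t).ne'
  have h2 := Wg_sq t
  have h3 := Cg_sq t
  have h4 := om_sq
  have h6 : (Wg t ^ 3) ^ 2 = (3 + 4 * Sg t ^ 2) ^ 3 := by rw [← h2]; ring
  rw [div_pow, div_pow, ← add_div, div_eq_one_iff_eq (by positivity), h6]
  have : (6 * om * Cg t) ^ 2 = 36 * om ^ 2 * Cg t ^ 2 := by ring
  rw [this, h3, h4]
  ring

lemma hasDerivAt_Sg (t : ℝ) : HasDerivAt Sg (om * Cg t) t := by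
  have h := ((hasDerivAt_id t).const_mul om).sinh
  unfold Sg Cg
  convert! h using 1
  simp; ring

lemma hasDerivAt_Cg (t : ℝ) : HasDerivAt Cg (om * Sg t) t := by
  have h := ((hasDerivAt_id t).const_mul om).cosh
  unfold Sg Cg
  convert! h using 1
  simp; ring

lemma hasDerivAt_Wg (t : ℝ) : HasDerivAt Wg (4 * Sg t * (om * Cg t) / Wg t) t := by
  have h1 : HasDerivAt (fun t => 3 + 4 * Sg t ^ 2) (8 * Sg t * (om * Cg t)) t := by
    have h := (((hasDerivAt_Sg t).pow 2).const_mul 4).const_add 3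
    convert! h using 1
    simp; ring
  have h2 := h1.sqrt (by positivity)
  unfold Wg
  convert! h2 using 1
  have hW := (Wg_pos t).ne'
  have : √(3 + 4 * Sg t ^ 2) ≠ 0 := hW
  field_simp
  ring

lemma hasDerivAt_xg (t : ℝ) : HasDerivAt xg (vg t) t := by
  have h := ((hasDerivAt_Sg t).const_mul 2).div (hasDerivAt_Wg t) (Wg_pos t).ne'
  unfold xg
  convert! h using 1
  unfold vg
  have hW := (Wg_pos t).ne'
  have h2 := Wg_sq t
  field_simp
  rw [h2]
  ring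

lemma hasDerivAt_vg (t : ℝ) :
    HasDerivAt vg (-(fg t * (derivative Fp).eval (xg t))) t := by
  have hW := (Wg_pos t).ne'
  have h := ((hasDerivAt_Cg t).const_mul (6 * om)).div ((hasDerivAt_Wg t).pow 3)
    (pow_ne_zero 3 hW)
  unfold vg
  convert! h using 1
  rw [Fp_deriv_eval]
  unfold fg xg
  have h2 := Wg_sq t
  have h3 := Cg_sq t
  have h4 := om_sq
  simp only [Nat.cast_ofNat, Pi.pow_apply]
  field_simp
  have e1 : (Wg t) ^ 4 = (3 + 4 * Sg t ^ 2) ^ 2 := by rw [← h2]; ring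
  ring_nf
  simp only [h2, h3, h4, e1]
  ring

/-! ### Elementary properties of the profile -/

lemma vg_pos (t : ℝ) : 0 < vg t := by
  unfold vg
  have := om_pos; have := Cg_pos t; have := Wg_pos t
  positivity

lemma continuous_xg : Continuous xg :=
  continuous_iff_continuousAt.mpr (fun t => (hasDerivAt_xg t).continuousAt)

lemma continuous_vg : Continuous vg :=
  continuous_iff_continuousAt.mpr (fun t => (hasDerivAt_vg t).continuousAt)

lemma continuous_fg : Continuous fg := by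
  have : fg = fun t => Fp.eval (xg t) := funext fg_eq
  rw [this]
  exact Fp.continuous.comp continuous_xg

lemma xg_sq (t : ℝ) : 1 - xg t ^ 2 = 3 / (3 + 4 * Sg t ^ 2) := by
  unfold xg
  have hW := (Wg_pos t).ne'
  have h2 := Wg_sq t
  rw [div_pow, h2]
  have : (3 + 4 * Sg t ^ 2) ≠ 0 := by positivity
  field_simp
  ring

lemma xg_sq_lt (t : ℝ) : xg t ^ 2 < 1 := by
  have h := xg_sq t
  have : 0 < 3 / (3 + 4 * Sg t ^ 2) := by positivity
  linarith

lemma abs_xg_lt (t : ℝ) : |xg t| < 1 := by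
  have := xg_sq_lt t
  exact (sq_lt_one_iff_abs_lt_one _).mp this

lemma Sg_neg (t : ℝ) : Sg (-t) = - Sg t := by
  unfold Sg; rw [mul_neg, Real.sinh_neg]

lemma Wg_neg (t : ℝ) : Wg (-t) = Wg t := by
  unfold Wg; rw [Sg_neg]; simp

lemma xg_neg (t : ℝ) : xg (-t) = - xg t := by
  unfold xg; rw [Sg_neg, Wg_neg]; ring

lemma fg_neg (t : ℝ) : fg (-t) = - fg t := by
  unfold fg; rw [Sg_neg, Wg_neg]; ring

lemma abs_fg_le (t : ℝ) : |fg t| ≤ 1 := by
  have := vg_fg t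
  have h : fg t ^ 2 ≤ 1 := by nlinarith [sq_nonneg (vg t)]
  exact (sq_le_one_iff_abs_le_one _).mp h

lemma Sg_ge {t : ℝ} (ht : 0 ≤ t) : om * t ≤ Sg t := by
  unfold Sg
  exact Real.self_le_sinh_iff.mpr (mul_nonneg om_pos.le ht)

lemma xg_nonneg {t : ℝ} (ht : 0 ≤ t) : 0 ≤ xg t := by
  unfold xg
  have := Wg_pos t
  have h1 : 0 ≤ Sg t := le_trans (mul_nonneg om_pos.le ht) (Sg_ge ht)
  positivity

lemma fg_nonneg {t : ℝ} (ht : 0 ≤ t) : 0 ≤ fg t := by
  unfold fg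
  have := Wg_pos t
  have h1 : 0 ≤ Sg t := le_trans (mul_nonneg om_pos.le ht) (Sg_ge ht)
  positivity

lemma one_sub_fg_le {t : ℝ} (ht : 0 ≤ t) : 1 - fg t ≤ 1 - xg t ^ 2 := by
  have h0 := xg_nonneg ht
  have h1 := xg_sq_lt t
  rw [fg_eq, Fp_eval]
  have h2 : xg t < 1 := by nlinarith
  nlinarith [mul_nonneg h0 (sq_nonneg (xg t - 1)), mul_nonneg h0 (sub_nonneg.mpr h2.le)]

lemma one_sub_fg_le' {t : ℝ} (ht : 0 < t) : 1 - fg t ≤ 1 / t ^ 2 := by
  refine (one_sub_fg_le ht.le).trans ?_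
  rw [xg_sq]
  have h1 := Sg_ge ht.le
  have h2 : om ^ 2 * t ^ 2 ≤ Sg t ^ 2 := by
    have := mul_nonneg om_pos.le ht.le
    nlinarith
  rw [om_sq] at h2
  rw [div_le_div_iff₀ (by positivity) (by positivity)]
  nlinarith

end Pool.Agent.Helper80.JetSpace
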