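import Mathlib

/-!
# Group rings, cosets and right-angled Artin groups

The Koszul type resolution attached to a right-angled Artin group.
-/

namespace Pool.Agent.Helper80.Kr

open MonoidAlgebra
open scoped commutatorElement

section cosets

variable {G : Type*} [Group G]

/-- The group element `g` as an element of the group ring. -/
noncomputable abbrev el (g : G) : MonoidAlgebra ℤ G := single g 1

theorem el_mul (g h : G) : el g * el h = el (g * h) := by simp [el]

theorem el_one : el (1 : G) = 1 := rfl

/-- Summation over the left cosets of `H`. -/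
noncomputable def piH (H : Subgroup G) : MonoidAlgebra ℤ G →+ (G ⧸ H →₀ ℤ) :=
  (Finsupp.mapDomain.addMonoidHom (QuotientGroup.mk : G → G ⧸ H)).comp
    (coeffAddEquiv (R := ℤ) (M := G)).toAddMonoidHom

theorem piH_single (H : Subgroup G) (x : G) (n : ℤ) :
    piH H (single x n) = Finsupp.single (QuotientGroup.mk x) n := by
  simp [piH, Finsupp.mapDomain_single]

/-- A linear section. -/
noncomputable def sec (H : Subgroup G) : (G ⧸ H →₀ ℤ) →+ MonoidAlgebra ℤ G :=
  Finsupp.liftAddHom fun q => singleAddHom q.out

theorem sec_single (H : Subgroup G) (q : G ⧸ H) (n : ℤ) :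
    sec H (Finsupp.single q n) = single q.out n := by
  simp [sec]

variable {V : Type*} [DecidableEq V]

/-- The right multiplication by `g - 1` applied to a family. -/
noncomputable def bd1 (gen : V → G) (W : Finset V) (y : V → MonoidAlgebra ℤ G) :
    MonoidAlgebra ℤ G := ∑ u ∈ W, y u * (el (gen u) - 1)

/-- The elements of the form `∑ y u (gen u - 1)`. -/
def Im1 (gen : V → G) (W : Finset V) : AddSubgroup (MonoidAlgebra ℤ G) where
  carrier := {z | ∃ y : V → MonoidAlgebra ℤ G, (∀ u, u ∉ W → y u = 0) ∧ bd1 gen W y = z}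
  zero_mem' := ⟨fun _ => 0, fun _ _ => rfl, by simp [bd1]⟩
  add_mem' := by
    rintro _ _ ⟨y, hy, rfl⟩ ⟨y', hy', rfl⟩
    refine ⟨fun u => y u + y' u, fun u hu => by simp [hy u hu, hy' u hu], ?_⟩
    simp [bd1, add_mul, Finset.sum_add_distrib]
  neg_mem' := by
    rintro _ ⟨y, hy, rfl⟩
    refine ⟨fun u => - y u, fun u hu => by simp [hy u hu], ?_⟩
    simp [bd1, Finset.sum_neg_distrib, neg_mul]

theorem mem_Im1 {gen : V → G} {W : Finset V} {u : V} (hu : u ∈ W) (y : MonoidAlgebra ℤ G) :
    y * (el (gen u) - 1) ∈ Im1 gen W := by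
  refine ⟨fun v => if v = u then y else 0, ?_, ?_⟩
  · intro v hv
    have : v ≠ u := fun h => hv (h ▸ hu)
    simp [this]
  · simp [bd1, ite_mul, Finset.sum_ite_eq', hu]

theorem single_sub_mem {gen : V → G} {W : Finset V} (h : G)
    (hh : h ∈ Subgroup.closure (gen '' (W : Set V))) (n : ℤ) :
    ∀ x : G, single (x * h) n - single x n ∈ Im1 gen W := by
  induction hh using Subgroup.closure_induction with
  | mem g hg =>
    obtain ⟨u, hu, rfl⟩ := hg
    intro x
    have := mem_Im1 (gen := gen) (W := W) (u := u) hu (single x n)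
    have h2 : single x n * (el (gen u) - 1) = single (x * gen u) n - single x n := by
      rw [mul_sub, mul_one, single_mul_single, mul_one]
    rwa [h2] at this
  | one => intro x; rw [mul_one, sub_self]; exact (Im1 gen W).zero_mem
  | mul a b _ _ ha hb =>
    intro x
    have := (Im1 gen W).add_mem (hb (x * a)) (ha x)
    rwa [sub_add_sub_cancel, mul_assoc] at this
  | inv a _ ha =>
    intro x
    have := (Im1 gen W).neg_mem (ha (x * a⁻¹))
    rwa [neg_sub, inv_mul_cancel_right] at this

/-- The kernel of the summation over cosets. -/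
theorem exists_bd1_of_piH {gen : V → G} {W : Finset V} {z : MonoidAlgebra ℤ G}
    (hz : piH (Subgroup.closure (gen '' (W : Set V))) z = 0) :
    ∃ y : V → MonoidAlgebra ℤ G, (∀ u, u ∉ W → y u = 0) ∧ bd1 gen W y = z := by
  set H := Subgroup.closure (gen '' (W : Set V)) with hH
  have key : ∀ z : MonoidAlgebra ℤ G, z - sec H (piH H z) ∈ Im1 gen W := by
    intro z
    induction z using MonoidAlgebra.induction_linear with
    | zero => simp
    | add x y hx hy =>
      have := (Im1 gen W).add_mem hx hy
      rw [map_add, map_add]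
      convert this using 1
      abel
    | single x n =>
      rw [piH_single, sec_single]
      obtain ⟨h, hh⟩ := QuotientGroup.mk_out_eq_mul H x
      rw [hh, ← neg_sub]
      exact (Im1 gen W).neg_mem (single_sub_mem (h : G) h.2 n x)
  have := key z
  rw [hz, map_zero, sub_zero] at this
  exact this

omit [DecidableEq V] in
theorem piH_bd1 {gen : V → G} {W : Finset V} (y : V → MonoidAlgebra ℤ G) :
    piH (Subgroup.closure (gen '' (W : Set V))) (bd1 gen W y) = 0 := by
  rw [bd1, map_sum]
  refine Finset.sum_eq_zero fun u hu => ?_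
  have : ∀ z : MonoidAlgebra ℤ G,
      piH (Subgroup.closure (gen '' (W : Set V))) (z * (el (gen u) - 1)) = 0 := by
    intro z
    induction z using MonoidAlgebra.induction_linear with
    | zero => simp
    | add x y hx hy => rw [add_mul, map_add, hx, hy, add_zero]
    | single x n =>
      rw [mul_sub, mul_one, single_mul_single, mul_one, map_sub, piH_single, piH_single, sub_eq_zero]
      congr 1
      rw [QuotientGroup.eq]
      have h1 : gen u ∈ Subgroup.closure (gen '' (W : Set V)) :=
        Subgroup.subset_closure ⟨u, hu, rfl⟩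
      simpa using (Subgroup.inv_mem _ h1)
  exact this (y u)

end cosets

section raag

variable {V : Type} [DecidableEq V] (adj : V → V → Prop)

/-- The commutation relations. -/
def rels : Set (FreeGroup V) := {r | ∃ u w, adj u w ∧ r = ⁅FreeGroup.of u, FreeGroup.of w⁆}

/-- The right-angled Artin group of a graph. -/
abbrev Raag := PresentedGroup (rels adj)

/-- The generators. -/
def gen (u : V) : Raag adj := PresentedGroup.of u

variable {adj}

omit [DecidableEq V] in
theorem gen_comm {u w : V} (h : adj u w) : gen adj u * gen adj w = gen adj w * gen adj u := by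
  have h1 : (PresentedGroup.mk (rels adj) ⁅FreeGroup.of u, FreeGroup.of w⁆) = 1 :=
    PresentedGroup.one_of_mem ⟨u, w, h, rfl⟩
  rw [map_commutatorElement, commutatorElement_eq_one_iff_mul_comm] at h1
  exact h1

/-- Homomorphisms out of a right-angled Artin group. -/
def lift {H : Type*} [Group H] (f : V → H) (hf : ∀ u w, adj u w → f u * f w = f w * f u) :
    Raag adj →* H :=
  PresentedGroup.toGroup (f := f) (by
    rintro r ⟨u, w, h, rfl⟩
    rw [map_commutatorElement, FreeGroup.lift_apply_of, FreeGroup.lift_apply_of,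
      commutatorElement_eq_one_iff_mul_comm]
    exact hf u w h)

omit [DecidableEq V] in
@[simp] theorem lift_gen {H : Type*} [Group H] (f : V → H)
    (hf : ∀ u w, adj u w → f u * f w = f w * f u) (u : V) : lift f hf (gen adj u) = f u := by
  simp [lift, gen]

omit [DecidableEq V] in
theorem closure_gen : Subgroup.closure (Set.range (gen adj)) = ⊤ := by
  have := PresentedGroup.closure_range_of (rels adj)
  exact this

variable (adj) in
/-- The subgroup generated by the vertices in `W`. -/
abbrev sg (W : Finset V) : Subgroup (Raag adj) := Subgroup.closure (gen adj '' (W : Set V))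

omit [DecidableEq V] in
theorem gen_mem {W : Finset V} {u : V} (hu : u ∈ W) : gen adj u ∈ sg adj W :=
  Subgroup.subset_closure ⟨u, hu, rfl⟩

/-- The retraction onto the subgroup generated by `W`. -/
def retr (W : Finset V) : Raag adj →* Raag adj :=
  lift (fun u => if u ∈ W then gen adj u else 1) (by
    intro u w h
    by_cases hu : u ∈ W <;> by_cases hw : w ∈ W <;> simp [hu, hw, gen_comm h])

theorem retr_of_mem {W : Finset V} {x : Raag adj} (hx : x ∈ sg adj W) : retr W x = x := by
  induction hx using Subgroup.closure_induction with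
  | mem g hg =>
    obtain ⟨u, hu, rfl⟩ := hg
    have : u ∈ W := hu
    simp [retr, this]
  | one => simp
  | mul a b _ _ ha hb => rw [map_mul, ha, hb]
  | inv a _ ha => rw [map_inv, ha]

/-- The action on formal sums of cosets. -/
noncomputable def act (H : Subgroup (Raag adj)) (g : Raag adj) :
    ((Raag adj ⧸ H) →₀ ℤ) →+ ((Raag adj ⧸ H) →₀ ℤ) :=
  Finsupp.mapDomain.addMonoidHom (fun q => g • q)

omit [DecidableEq V] in
theorem act_single (H : Subgroup (Raag adj)) (g : Raag adj) (q : Raag adj ⧸ H) (n : ℤ) :
    act H g (Finsupp.single q n) = Finsupp.single (g • q) n := by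
  simp [act, Finsupp.mapDomain_single]

omit [DecidableEq V] in
theorem act_mul (H : Subgroup (Raag adj)) (g h : Raag adj) (m : (Raag adj ⧸ H) →₀ ℤ) :
    act H (g * h) m = act H g (act H h m) := by
  have : act H (g * h) = (act H g).comp (act H h) := by
    refine Finsupp.addHom_ext fun q n => ?_
    rw [AddMonoidHom.comp_apply, act_single, act_single, act_single, mul_smul]
  rw [this]; rfl

omit [DecidableEq V] in
theorem act_one (H : Subgroup (Raag adj)) (m : (Raag adj ⧸ H) →₀ ℤ) :
    act H 1 m = m := by
  have : act H (1 : Raag adj) = AddMonoidHom.id _ := by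
    refine Finsupp.addHom_ext fun q n => ?_
    rw [act_single, one_smul]; rfl
  rw [this]; rfl

/-- An affine permutation. -/
noncomputable def aff (H : Subgroup (Raag adj)) (d : (Raag adj ⧸ H) →₀ ℤ) (g : Raag adj) :
    Equiv.Perm ((Raag adj ⧸ H) →₀ ℤ) where
  toFun m := d + act H g m
  invFun m := act H g⁻¹ (m - d)
  left_inv m := by
    show act H g⁻¹ (d + act H g m - d) = m
    rw [add_sub_cancel_left, ← act_mul, inv_mul_cancel, act_one]
  right_inv m := by
    show d + act H g (act H g⁻¹ (m - d)) = m
    rw [← act_mul, mul_inv_cancel, act_one, add_sub_cancel]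

omit [DecidableEq V] in
theorem aff_apply (H : Subgroup (Raag adj)) (d : (Raag adj ⧸ H) →₀ ℤ) (g : Raag adj)
    (m : (Raag adj ⧸ H) →₀ ℤ) : aff H d g m = d + act H g m := rfl

omit [DecidableEq V] in
theorem aff_mul (H : Subgroup (Raag adj)) (d d' : (Raag adj ⧸ H) →₀ ℤ) (g g' : Raag adj) :
    aff H d g * aff H d' g' = aff H (d + act H g d') (g * g') := by
  ext1 m
  rw [Equiv.Perm.mul_apply, aff_apply, aff_apply, aff_apply, map_add, act_mul, add_assoc]

open Classical in
/-- The neighbours of `v` in `W`. -/
noncomputable def nb (adj : V → V → Prop) (v : V) (W : Finset V) : Finset V :=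
  W.filter fun u => adj u v

omit [DecidableEq V] in
theorem mem_nb {v u : V} {W : Finset V} : u ∈ nb adj v W ↔ u ∈ W ∧ adj u v := by
  simp [nb]

/-- The crossed homomorphism, as a homomorphism to affine permutations. -/
noncomputable def Phi (hs : ∀ u w, adj u w → adj w u) (v : V) (W : Finset V) :
    Raag adj →* Equiv.Perm ((Raag adj ⧸ sg adj (nb adj v W)) →₀ ℤ) :=
  lift (fun u => aff _ (if u = v then Finsupp.single (QuotientGroup.mk 1) 1 else 0)
    (retr (insert v W) (gen adj u))) (by
    have key : ∀ u w : V, adj u w → u = v → w ≠ v →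
        act (sg adj (nb adj v W)) (retr (insert v W) (gen adj w))
          (Finsupp.single (QuotientGroup.mk 1) 1) = Finsupp.single (QuotientGroup.mk 1) 1 := by
      intro u w h hu hw
      subst hu
      rw [act_single]
      congr 1
      by_cases hw2 : w ∈ W
      · have h1 : retr (insert u W) (gen adj w) = gen adj w :=
          retr_of_mem (gen_mem (Finset.mem_insert_of_mem hw2))
        rw [h1]
        show QuotientGroup.mk (gen adj w * 1) = QuotientGroup.mk 1
        rw [mul_one, QuotientGroup.eq, mul_one]
        exact Subgroup.inv_mem _ (gen_mem (mem_nb.2 ⟨hw2, hs _ _ h⟩))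
      · have h1 : retr (insert u W) (gen adj w) = 1 := by
          simp [retr, hw, hw2]
        rw [h1, one_smul]
    intro u w h
    rw [aff_mul, aff_mul]
    have h1 : retr (insert v W) (gen adj u) * retr (insert v W) (gen adj w) =
        retr (insert v W) (gen adj w) * retr (insert v W) (gen adj u) := by
      rw [← map_mul, gen_comm h, map_mul]
    rw [h1]
    congr 1
    by_cases hu : u = v <;> by_cases hw : w = v
    · subst hu; subst hw; rfl
    · rw [if_pos hu, if_neg hw, map_zero, add_zero, zero_add]
      exact (key u w h hu hw).symm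
    · rw [if_neg hu, if_pos hw, map_zero, add_zero, zero_add]
      exact key w u (hs _ _ h) hw hu
    · rw [if_neg hu, if_neg hw, map_zero, map_zero])

theorem Phi_apply (hs : ∀ u w, adj u w → adj w u) (v : V) (W : Finset V) (x : Raag adj) :
    ∀ m, Phi hs v W x m = Phi hs v W x 0 + act _ (retr (insert v W) x) m := by
  have hx : x ∈ Subgroup.closure (Set.range (gen adj)) := by rw [closure_gen]; trivial
  induction hx using Subgroup.closure_induction with
  | mem g hg =>
    obtain ⟨u, rfl⟩ := hg
    intro m
    rw [Phi, lift_gen, aff_apply, aff_apply, map_zero, add_zero]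
  | one => intro m; rw [map_one, map_one, act_one]; simp
  | mul a b _ _ ha hb =>
    intro m
    rw [map_mul, Equiv.Perm.mul_apply, Equiv.Perm.mul_apply, ha (Phi hs v W b m), hb m,
      ha (Phi hs v W b 0), map_add, map_mul, act_mul, add_assoc]
  | inv a _ ha =>
    intro m
    rw [map_inv, Equiv.Perm.inv_def, Equiv.symm_apply_eq, ha, map_add, map_inv, ← act_mul,
      mul_inv_cancel, act_one, ← add_assoc, ← ha, Equiv.apply_symm_apply, zero_add]

/-- The crossed homomorphism. -/
noncomputable def Dc (hs : ∀ u w, adj u w → adj w u) (v : V) (W : Finset V) (x : Raag adj) :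
    (Raag adj ⧸ sg adj (nb adj v W)) →₀ ℤ := Phi hs v W x 0

theorem Dc_mul (hs : ∀ u w, adj u w → adj w u) (v : V) (W : Finset V) (x y : Raag adj) :
    Dc hs v W (x * y) = Dc hs v W x + act _ (retr (insert v W) x) (Dc hs v W y) := by
  rw [Dc, map_mul, Equiv.Perm.mul_apply, Phi_apply]
  rfl

theorem Dc_gen (hs : ∀ u w, adj u w → adj w u) (v : V) (W : Finset V) :
    Dc hs v W (gen adj v) = Finsupp.single (QuotientGroup.mk 1) 1 := by
  rw [Dc, Phi, lift_gen, aff_apply, map_zero, add_zero, if_pos rfl]

theorem Dc_one (hs : ∀ u w, adj u w → adj w u) (v : V) (W : Finset V) :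
    Dc hs v W 1 = 0 := by
  rw [Dc, map_one]; rfl

theorem Dc_of_mem (hs : ∀ u w, adj u w → adj w u) {v : V} {W : Finset V} (hv : v ∉ W)
    {x : Raag adj} (hx : x ∈ sg adj W) : Dc hs v W x = 0 := by
  induction hx using Subgroup.closure_induction with
  | mem g hg =>
    obtain ⟨u, hu, rfl⟩ := hg
    have huW : u ∈ W := hu
    have : u ≠ v := fun h => hv (h ▸ huW)
    rw [Dc, Phi, lift_gen, aff_apply, map_zero, add_zero, if_neg this]
  | one => exact Dc_one hs v W
  | mul a b _ _ ha hb => rw [Dc_mul, ha, hb, map_zero, add_zero]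
  | inv a _ ha =>
    have h := Dc_mul hs v W a⁻¹ a
    rw [inv_mul_cancel, Dc_one, ha, map_zero, add_zero] at h
    exact h.symm

/-- The extension of the crossed homomorphism to all cosets. -/
noncomputable def Dt (hs : ∀ u w, adj u w → adj w u) (v : V) (W : Finset V) (x : Raag adj) :
    (Raag adj ⧸ sg adj (nb adj v W)) →₀ ℤ :=
  act _ (QuotientGroup.mk x : Raag adj ⧸ sg adj (insert v W)).out
    (Dc hs v W ((QuotientGroup.mk x : Raag adj ⧸ sg adj (insert v W)).out⁻¹ * x))

omit [DecidableEq V] in
theorem sg_mono {W W' : Finset V} (h : W ⊆ W') : sg adj W ≤ sg adj W' :=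
  Subgroup.closure_mono (Set.image_mono h)

omit [DecidableEq V] in
theorem out_inv_mul_mem (W : Finset V) (x : Raag adj) :
    (QuotientGroup.mk x : Raag adj ⧸ sg adj W).out⁻¹ * x ∈ sg adj W := by
  rw [← QuotientGroup.eq]
  exact Quotient.out_eq _

theorem Dt_mul (hs : ∀ u w, adj u w → adj w u) (v : V) (W : Finset V) (x : Raag adj)
    {y : Raag adj} (hy : y ∈ sg adj (insert v W)) :
    Dt hs v W (x * y) = Dt hs v W x + act _ x (Dc hs v W y) := by
  have h1 : (QuotientGroup.mk (x * y) : Raag adj ⧸ sg adj (insert v W)) = QuotientGroup.mk x :=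
    (QuotientGroup.mk_mul_of_mem x hy)
  rw [Dt, h1, ← mul_assoc, Dc_mul, map_add, ← act_mul, retr_of_mem (out_inv_mul_mem _ x),
    mul_inv_cancel_left]
  rfl

theorem Dt_mul_of_mem (hs : ∀ u w, adj u w → adj w u) {v : V} {W : Finset V} (hv : v ∉ W)
    (x : Raag adj) {y : Raag adj} (hy : y ∈ sg adj W) : Dt hs v W (x * y) = Dt hs v W x := by
  rw [Dt_mul hs v W x (sg_mono (Finset.subset_insert v W) hy), Dc_of_mem hs hv hy, map_zero,
    add_zero]

/-- The left inverse of the boundary map of the Bass-Serre tree. -/
noncomputable def Tm (hs : ∀ u w, adj u w → adj w u) (v : V) (W : Finset V) :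
    ((Raag adj ⧸ sg adj W) →₀ ℤ) →+ ((Raag adj ⧸ sg adj (nb adj v W)) →₀ ℤ) :=
  Finsupp.liftAddHom fun q => (zmultiplesHom _ (Dt hs v W q.out))

theorem Tm_single (hs : ∀ u w, adj u w → adj w u) {v : V} {W : Finset V} (hv : v ∉ W)
    (x : Raag adj) (n : ℤ) :
    Tm hs v W (Finsupp.single (QuotientGroup.mk x) n) = n • Dt hs v W x := by
  rw [Tm, Finsupp.liftAddHom_apply_single, zmultiplesHom_apply]
  obtain ⟨h, hh⟩ := QuotientGroup.mk_out_eq_mul (sg adj W) x
  rw [hh, Dt_mul_of_mem hs hv x h.2]

theorem Tm_piH (hs : ∀ u w, adj u w → adj w u) {v : V} {W : Finset V} (hv : v ∉ W)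
    (y : MonoidAlgebra ℤ (Raag adj)) :
    Tm hs v W (piH (sg adj W) (y * (el (gen adj v) - 1))) = piH (sg adj (nb adj v W)) y := by
  induction y using MonoidAlgebra.induction_linear with
  | zero => simp
  | add x y hx hy => rw [add_mul, map_add, map_add, hx, hy, map_add]
  | single x n =>
    rw [mul_sub, mul_one, single_mul_single, mul_one, map_sub, piH_single, piH_single, map_sub,
      Tm_single hs hv, Tm_single hs hv, piH_single, ← smul_sub,
      Dt_mul hs v W x (gen_mem (Finset.mem_insert_self v W)), add_sub_cancel_left, Dc_gen,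
      act_single, Finsupp.smul_single]
    congr 1
    · show QuotientGroup.mk (x * 1) = _
      rw [mul_one]
    · simp

/-- **Injectivity.** -/
theorem piH_eq_zero (hs : ∀ u w, adj u w → adj w u) {v : V} {W : Finset V} (hv : v ∉ W)
    {y : MonoidAlgebra ℤ (Raag adj)}
    (h : piH (sg adj W) (y * (el (gen adj v) - 1)) = 0) : piH (sg adj (nb adj v W)) y = 0 := by
  rw [← Tm_piH hs hv, h, map_zero]

end raag

end Pool.Agent.Helper80.Kr
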