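import Mathlib
import Pool.Agent.Helper80.KrBase

/-!
# Exactness of the Koszul type complex of a right-angled Artin group
-/

namespace Pool.Agent.Helper80.Kr

open MonoidAlgebra

section exact

variable {V : Type} [DecidableEq V] {adj : V → V → Prop}

/-- The group ring. -/
abbrev RR (adj : V → V → Prop) := MonoidAlgebra ℤ (Raag adj)

/-- Alternating functions of two variables. -/
def Alt2 (X : V → V → RR adj) : Prop := ∀ u w, X u w = - X w u

/-- Alternating functions of three variables. -/
def Alt3 (Z : V → V → V → RR adj) : Prop :=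
  (∀ u w s, Z u w s = - Z w u s) ∧ ∀ u w s, Z u w s = - Z u s w

/-- Supported on the edges in `W`. -/
def Sup2 (W : Finset V) (X : V → V → RR adj) : Prop :=
  ∀ u w, X u w ≠ 0 → u ∈ W ∧ w ∈ W ∧ adj u w

/-- Supported on the triangles in `W`. -/
def Sup3 (W : Finset V) (Z : V → V → V → RR adj) : Prop :=
  ∀ u w s, Z u w s ≠ 0 → u ∈ W ∧ w ∈ W ∧ s ∈ W ∧ adj u w ∧ adj u s ∧ adj w s

omit [DecidableEq V] in
theorem bd1_subset {W W' : Finset V} (h : W ⊆ W') {y : V → RR adj}
    (hy : ∀ u, u ∉ W → y u = 0) : bd1 (gen adj) W' y = bd1 (gen adj) W y := by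
  rw [bd1, bd1]
  refine (Finset.sum_subset h fun u _ hu => ?_).symm
  rw [hy u hu, zero_mul]

omit [DecidableEq V] in
theorem two_torsion {x : RR adj} (h : x = - x) : x = 0 := by
  ext g
  have h1 : x.coeff g = - x.coeff g := by
    conv_lhs => rw [h]
    simp
  simp only [coeff_zero, Finsupp.coe_zero, Pi.zero_apply]
  omega

omit [DecidableEq V] in
theorem bd1_bd1 {W : Finset V} {X : V → V → RR adj} (ha : Alt2 X) (hs : Sup2 W X) :
    bd1 (gen adj) W (fun w => bd1 (gen adj) W (fun u => X u w)) = 0 := by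
  have key : ∀ u w, X u w * (el (gen adj u) - 1) * (el (gen adj w) - 1) =
      - (X w u * (el (gen adj w) - 1) * (el (gen adj u) - 1)) := by
    intro u w
    by_cases h : X u w = 0
    · have h2 : X w u = 0 := by rw [ha w u, h, neg_zero]
      rw [h, h2]; simp
    · obtain ⟨_, _, h3⟩ := hs u w h
      have hc : el (gen adj u) * el (gen adj w) = el (gen adj w) * el (gen adj u) := by
        rw [el_mul, el_mul, gen_comm h3]
      have hc2 : (el (gen adj u) - 1) * (el (gen adj w) - 1) =
          (el (gen adj w) - 1) * (el (gen adj u) - 1) := by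
        rw [sub_mul, mul_sub, mul_sub, hc, sub_mul, mul_sub, mul_sub]
        simp only [one_mul, mul_one]
        abel
      rw [mul_assoc, hc2, ha u w, mul_assoc, neg_mul]
  apply two_torsion
  simp only [bd1, Finset.sum_mul]
  conv_lhs => rw [Finset.sum_comm]
  rw [← Finset.sum_neg_distrib]
  refine Finset.sum_congr rfl fun u _ => ?_
  rw [← Finset.sum_neg_distrib]
  refine Finset.sum_congr rfl fun w _ => ?_
  exact key u w

omit [DecidableEq V] in
theorem bd1_sub (W : Finset V) (y y' : V → RR adj) :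
    bd1 (gen adj) W (fun u => y u - y' u) = bd1 (gen adj) W y - bd1 (gen adj) W y' := by
  simp [bd1, sub_mul, Finset.sum_sub_distrib]

omit [DecidableEq V] in
theorem bd1_add (W : Finset V) (y y' : V → RR adj) :
    bd1 (gen adj) W (fun u => y u + y' u) = bd1 (gen adj) W y + bd1 (gen adj) W y' := by
  simp [bd1, add_mul, Finset.sum_add_distrib]

omit [DecidableEq V] in
theorem bd1_neg (W : Finset V) (y : V → RR adj) :
    bd1 (gen adj) W (fun u => - y u) = - bd1 (gen adj) W y := by
  simp [bd1, neg_mul, Finset.sum_neg_distrib]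

omit [DecidableEq V] in
theorem bd1_only {W : Finset V} {v : V} (hv : v ∈ W) {y : V → RR adj}
    (hy : ∀ u, u ≠ v → y u = 0) : bd1 (gen adj) W y = y v * (el (gen adj v) - 1) := by
  rw [bd1, Finset.sum_eq_single v]
  · intro u _ hu; rw [hy u hu, zero_mul]
  · intro h; exact absurd hv h

/-- Exactness in degree one. -/
def E1 (adj : V → V → Prop) (W : Finset V) : Prop :=
  ∀ y : V → RR adj, (∀ u, u ∉ W → y u = 0) → bd1 (gen adj) W y = 0 →
    ∃ X : V → V → RR adj, Alt2 X ∧ Sup2 W X ∧ ∀ w, bd1 (gen adj) W (fun u => X u w) = y w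

/-- Exactness in degree two. -/
def E2 (adj : V → V → Prop) (W : Finset V) : Prop :=
  ∀ X : V → V → RR adj, Alt2 X → Sup2 W X → (∀ w, bd1 (gen adj) W (fun u => X u w) = 0) →
    ∃ Z : V → V → V → RR adj, Alt3 Z ∧ Sup3 W Z ∧
      ∀ w s, bd1 (gen adj) W (fun u => Z u w s) = X w s

/-- Exactness in degree three. -/
def E3 (adj : V → V → Prop) (W : Finset V) : Prop :=
  ∀ Z : V → V → V → RR adj, Alt3 Z → Sup3 W Z →
    (∀ w s, bd1 (gen adj) W (fun u => Z u w s) = 0) → ∀ u w s, Z u w s = 0

variable (hsym : ∀ u w, adj u w → adj w u) (hirr : ∀ u, ¬ adj u u)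
  (hK4 : ∀ a b c d, adj a b → adj a c → adj a d → adj b c → adj b d → adj c d → False)

include hsym hirr

theorem E1_step {v : V} {W : Finset V} (hv : v ∉ W) (h0 : E1 adj W) : E1 adj (insert v W) := by
  intro y hy hb
  have hvW : v ∈ insert v W := Finset.mem_insert_self v W
  have hKW : nb adj v W ⊆ W := fun u hu => (mem_nb.1 hu).1
  -- the component at `v`
  have h1 : bd1 (gen adj) (insert v W) y = y v * (el (gen adj v) - 1) + bd1 (gen adj) W y := by
    rw [bd1, Finset.sum_insert hv, bd1]
  have h2 : piH (sg adj W) (y v * (el (gen adj v) - 1)) = 0 := by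
    have h3 : y v * (el (gen adj v) - 1) = - bd1 (gen adj) W y := by
      rw [h1] at hb; exact eq_neg_of_add_eq_zero_left hb
    rw [h3, map_neg, piH_bd1, neg_zero]
  obtain ⟨z, hz, hzb⟩ := exists_bd1_of_piH (piH_eq_zero hsym hv h2)
  have hzv : z v = 0 := hz v fun h => hv (mem_nb.1 h).1
  -- the correction
  set X1 : V → V → RR adj := fun u w => if w = v then z u else if u = v then - z w else 0 with hX1
  have hX1a : Alt2 X1 := by
    intro u w
    simp only [hX1]
    by_cases hw : w = v <;> by_cases hu : u = v <;> simp [hw, hu, hzv]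
  have hX1s : Sup2 (insert v W) X1 := by
    intro u w h
    simp only [hX1] at h
    by_cases hw : w = v
    · rw [if_pos hw] at h
      have hu : u ∈ nb adj v W := by
        by_contra hu; exact h (hz u hu)
      rw [mem_nb] at hu
      exact ⟨Finset.mem_insert_of_mem hu.1, hw ▸ hvW, hw ▸ hu.2⟩
    · rw [if_neg hw] at h
      by_cases hu : u = v
      · rw [if_pos hu] at h
        have hw2 : w ∈ nb adj v W := by
          by_contra hw2; exact h (by rw [hz w hw2, neg_zero])
        rw [mem_nb] at hw2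
        exact ⟨hu ▸ hvW, Finset.mem_insert_of_mem hw2.1, hu ▸ hsym _ _ hw2.2⟩
      · rw [if_neg hu] at h; exact absurd rfl h
  have hbv : bd1 (gen adj) (insert v W) (fun u => X1 u v) = y v := by
    have : (fun u => X1 u v) = z := by funext u; simp [hX1]
    rw [this, ← hzb]
    exact bd1_subset (hKW.trans (Finset.subset_insert v W)) hz
  have hbw : ∀ w, w ∉ insert v W → bd1 (gen adj) (insert v W) (fun u => X1 u w) = 0 := by
    intro w hw
    rw [bd1]
    refine Finset.sum_eq_zero fun u _ => ?_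
    have : X1 u w = 0 := by
      by_contra h; exact hw (hX1s u w h).2.1
    rw [this, zero_mul]
  set y' : V → RR adj := fun w => y w - bd1 (gen adj) (insert v W) (fun u => X1 u w) with hy'
  have hy'W : ∀ u, u ∉ W → y' u = 0 := by
    intro u hu
    simp only [hy']
    by_cases huv : u = v
    · rw [huv, hbv, sub_self]
    · have : u ∉ insert v W := by simp [huv, hu]
      rw [hy u this, hbw u this, sub_zero]
  have hb' : bd1 (gen adj) W y' = 0 := by
    rw [← bd1_subset (Finset.subset_insert v W) hy'W, hy', bd1_sub, hb, bd1_bd1 hX1a hX1s,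
      sub_zero]
  obtain ⟨X0, hX0a, hX0s, hX0b⟩ := h0 y' hy'W hb'
  refine ⟨fun u w => X0 u w + X1 u w, ?_, ?_, ?_⟩
  · intro u w
    show X0 u w + X1 u w = - (X0 w u + X1 w u)
    rw [hX0a u w, hX1a u w]; abel
  · intro u w h
    by_cases h0' : X0 u w = 0
    · have : X1 u w ≠ 0 := fun h1 => h (by
        show X0 u w + X1 u w = 0
        rw [h0', h1, add_zero])
      exact hX1s u w this
    · obtain ⟨ha, hb, hc⟩ := hX0s u w h0'
      exact ⟨Finset.mem_insert_of_mem ha, Finset.mem_insert_of_mem hb, hc⟩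
  · intro w
    rw [bd1_add]
    have : bd1 (gen adj) (insert v W) (fun u => X0 u w) = y' w := by
      rw [← hX0b w]
      refine bd1_subset (Finset.subset_insert v W) fun u hu => ?_
      by_contra h; exact hu (hX0s u w h).1
    rw [this, hy']
    simp

theorem E2_step {v : V} {W : Finset V} (hv : v ∉ W) (h0 : E2 adj W)
    (hK : E1 adj (nb adj v W)) : E2 adj (insert v W) := by
  intro X hXa hXs hb
  have hvW : v ∈ insert v W := Finset.mem_insert_self v W
  have hKW : nb adj v W ⊆ W := fun u hu => (mem_nb.1 hu).1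
  have hKW' := hKW.trans (Finset.subset_insert v W)
  have hx1 : ∀ u, u ∉ nb adj v W → X u v = 0 := by
    intro u hu
    by_contra h
    obtain ⟨h1, _, h3⟩ := hXs u v h
    have : u ≠ v := fun e => hirr v (e ▸ h3)
    refine hu (mem_nb.2 ⟨?_, h3⟩)
    exact Finset.mem_of_mem_insert_of_ne h1 this
  obtain ⟨Y, hYa, hYs, hYb⟩ := hK (fun u => X u v) hx1 (by
    rw [← bd1_subset hKW' hx1]; exact hb v)
  have hYv : ∀ u, Y u v = 0 := by
    intro u; by_contra h; exact hv (hKW (hYs u v h).2.1)
  have hYv' : ∀ u, Y v u = 0 := by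
    intro u; rw [hYa, hYv, neg_zero]
  set Z1 : V → V → V → RR adj := fun u w s =>
    if s = v then Y u w else if w = v then - Y u s else if u = v then Y w s else 0 with hZ1
  have hZ1a : Alt3 Z1 := by
    constructor
    · intro u w s
      simp only [hZ1]
      by_cases hs : s = v
      · rw [if_pos hs, if_pos hs, hYa]
      · rw [if_neg hs, if_neg hs]
        by_cases hw : w = v <;> by_cases hu : u = v <;> simp [hw, hu, hYv']
    · intro u w s
      simp only [hZ1]
      by_cases hs : s = v <;> by_cases hw : w = v <;> by_cases hu : u = v <;>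
        simp [hs, hw, hu, hYv, hYv']
      exact hYa w s
  have hYs' : ∀ u w, Y u w ≠ 0 → u ∈ insert v W ∧ w ∈ insert v W ∧ adj u w ∧ adj u v ∧ adj w v := by
    intro u w h
    obtain ⟨h1, h2, h3⟩ := hYs u w h
    exact ⟨hKW' h1, hKW' h2, h3, (mem_nb.1 h1).2, (mem_nb.1 h2).2⟩
  have hZ1s : Sup3 (insert v W) Z1 := by
    intro u w s h
    simp only [hZ1] at h
    by_cases hs : s = v
    · rw [if_pos hs] at h
      obtain ⟨h1, h2, h3, h4, h5⟩ := hYs' u w h
      exact ⟨h1, h2, hs ▸ hvW, h3, hs ▸ h4, hs ▸ h5⟩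
    · rw [if_neg hs] at h
      by_cases hw : w = v
      · rw [if_pos hw] at h
        obtain ⟨h1, h2, h3, h4, h5⟩ := hYs' u s (fun h' => h (by rw [h', neg_zero]))
        exact ⟨h1, hw ▸ hvW, h2, hw ▸ h4, h3, hw ▸ hsym _ _ h5⟩
      · rw [if_neg hw] at h
        by_cases hu : u = v
        · rw [if_pos hu] at h
          obtain ⟨h1, h2, h3, h4, h5⟩ := hYs' w s h
          exact ⟨hu ▸ hvW, h1, h2, hu ▸ hsym _ _ h4, hu ▸ hsym _ _ h5, h3⟩
        · rw [if_neg hu] at h; exact absurd rfl h
  have hYb' : ∀ w, bd1 (gen adj) (insert v W) (fun u => Y u w) = X w v := by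
    intro w
    rw [← hYb w]
    refine bd1_subset hKW' fun u hu => ?_
    by_contra h; exact hu (hYs u w h).1
  have hb1 : ∀ w, bd1 (gen adj) (insert v W) (fun u => Z1 u w v) = X w v := by
    intro w
    have : (fun u => Z1 u w v) = fun u => Y u w := by funext u; simp [hZ1]
    rw [this, hYb']
  have hXvv : X v v = 0 := by
    by_contra h; exact hirr v (hXs v v h).2.2
  have hb2 : ∀ s, bd1 (gen adj) (insert v W) (fun u => Z1 u v s) = X v s := by
    intro s
    by_cases hs : s = v
    · rw [hs, hb1]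
    · have : (fun u => Z1 u v s) = fun u => - Y u s := by funext u; simp [hZ1, hs]
      rw [this, bd1_neg, hYb', hXa v s]
  have hb3 : ∀ w s, w ≠ v → s ≠ v → bd1 (gen adj) (insert v W) (fun u => Z1 u w s) =
      Y w s * (el (gen adj v) - 1) := by
    intro w s hw hs
    rw [bd1_only hvW (v := v)]
    · simp [hZ1, hw, hs]
    · intro u hu; simp [hZ1, hw, hs, hu]
  set X' : V → V → RR adj := fun w s => X w s - bd1 (gen adj) (insert v W) (fun u => Z1 u w s)
    with hX'
  have hX'v : ∀ w, X' w v = 0 := by intro w; simp only [hX']; rw [hb1, sub_self]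
  have hX'v' : ∀ s, X' v s = 0 := by intro s; simp only [hX']; rw [hb2, sub_self]
  have hX'a : Alt2 X' := by
    intro w s
    simp only [hX']
    have h1 : bd1 (gen adj) (insert v W) (fun u => Z1 u w s) =
        - bd1 (gen adj) (insert v W) (fun u => Z1 u s w) := by
      rw [← bd1_neg]; congr 1; funext u; exact hZ1a.2 u w s
    rw [h1, hXa w s]; abel
  have hX's : Sup2 W X' := by
    intro w s h
    by_cases hw : w = v
    · exact absurd (hw ▸ hX'v' s) h
    by_cases hs : s = v
    · exact absurd (hs ▸ hX'v w) h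
    simp only [hX'] at h
    rw [hb3 w s hw hs] at h
    by_cases hx : X w s = 0
    · have hy : Y w s ≠ 0 := fun h' => h (by rw [hx, h', zero_mul, sub_zero])
      obtain ⟨h1, h2, h3⟩ := hYs w s hy
      exact ⟨hKW h1, hKW h2, h3⟩
    · obtain ⟨h1, h2, h3⟩ := hXs w s hx
      exact ⟨Finset.mem_of_mem_insert_of_ne h1 hw, Finset.mem_of_mem_insert_of_ne h2 hs, h3⟩
  have hX'b : ∀ s, bd1 (gen adj) W (fun w => X' w s) = 0 := by
    intro s
    have h1 : ∀ u, u ∉ W → X' u s = 0 := by
      intro u hu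
      by_contra h
      exact hu (hX's u s h).1
    rw [← bd1_subset (Finset.subset_insert v W) h1]
    have h2 : bd1 (gen adj) (insert v W)
        (fun w => bd1 (gen adj) (insert v W) (fun u => Z1 u w s)) = 0 := by
      apply bd1_bd1 (X := fun u w => Z1 u w s)
      · intro u w; exact hZ1a.1 u w s
      · intro u w h
        obtain ⟨h1, h2, _, h3, _⟩ := hZ1s u w s h
        exact ⟨h1, h2, h3⟩
    simp only [hX']
    rw [bd1_sub, hb s, h2, sub_zero]
  obtain ⟨Z0, hZ0a, hZ0s, hZ0b⟩ := h0 X' hX'a hX's hX'b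
  refine ⟨fun u w s => Z0 u w s + Z1 u w s, ⟨?_, ?_⟩, ?_, ?_⟩
  · intro u w s
    show Z0 u w s + Z1 u w s = - (Z0 w u s + Z1 w u s)
    rw [hZ0a.1 u w s, hZ1a.1 u w s]; abel
  · intro u w s
    show Z0 u w s + Z1 u w s = - (Z0 u s w + Z1 u s w)
    rw [hZ0a.2 u w s, hZ1a.2 u w s]; abel
  · intro u w s h
    by_cases h0' : Z0 u w s = 0
    · have : Z1 u w s ≠ 0 := fun h1 => h (by
        show Z0 u w s + Z1 u w s = 0
        rw [h0', h1, add_zero])
      exact hZ1s u w s this
    · obtain ⟨ha, hb, hc, hd, he, hf⟩ := hZ0s u w s h0'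
      exact ⟨Finset.mem_insert_of_mem ha, Finset.mem_insert_of_mem hb,
        Finset.mem_insert_of_mem hc, hd, he, hf⟩
  · intro w s
    rw [bd1_add]
    have : bd1 (gen adj) (insert v W) (fun u => Z0 u w s) = X' w s := by
      rw [← hZ0b w s]
      refine bd1_subset (Finset.subset_insert v W) fun u hu => ?_
      by_contra h; exact hu (hZ0s u w s h).1
    rw [this, hX']
    simp

include hK4 in
omit hsym in
theorem E3_step {v : V} {W : Finset V} (hv : v ∉ W) (h0 : E3 adj W)
    (hK : E2 adj (nb adj v W)) : E3 adj (insert v W) := by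
  intro Z hZa hZs hb
  have hKW : nb adj v W ⊆ W := fun u hu => (mem_nb.1 hu).1
  have hKW' := hKW.trans (Finset.subset_insert v W)
  have hnb : ∀ u, u ∈ insert v W → adj u v → u ∈ nb adj v W := by
    intro u h1 h3
    have : u ≠ v := fun e => hirr v (e ▸ h3)
    exact mem_nb.2 ⟨Finset.mem_of_mem_insert_of_ne h1 this, h3⟩
  obtain ⟨T, _, hTs, hTb⟩ := hK (fun u w => Z u w v) (fun u w => hZa.1 u w v) (by
    intro u w h
    obtain ⟨h1, h2, _, h4, h5, h6⟩ := hZs u w v h
    exact ⟨hnb u h1 h5, hnb w h2 h6, h4⟩) (by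
    intro w
    rw [← hb w v]
    refine (bd1_subset hKW' fun u hu => ?_).symm
    by_contra h
    obtain ⟨h1, _, _, _, h5, _⟩ := hZs u w v h
    exact hu (hnb u h1 h5))
  have hT0 : ∀ u w s, T u w s = 0 := by
    intro u w s
    by_contra h
    obtain ⟨h1, h2, h3, h4, h5, h6⟩ := hTs u w s h
    exact hK4 u w s v h4 h5 (mem_nb.1 h1).2 h6 (mem_nb.1 h2).2 (mem_nb.1 h3).2
  have hZv : ∀ u w, Z u w v = 0 := by
    intro u w
    rw [← hTb u w, bd1]
    refine Finset.sum_eq_zero fun a _ => ?_
    rw [hT0, zero_mul]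
  have hZv2 : ∀ u s, Z u v s = 0 := by
    intro u s; rw [hZa.2, hZv, neg_zero]
  have hZv3 : ∀ w s, Z v w s = 0 := by
    intro w s; rw [hZa.1, hZv2, neg_zero]
  apply h0 Z hZa
  · intro u w s h
    obtain ⟨h1, h2, h3, h4, h5, h6⟩ := hZs u w s h
    refine ⟨Finset.mem_of_mem_insert_of_ne h1 ?_, Finset.mem_of_mem_insert_of_ne h2 ?_,
      Finset.mem_of_mem_insert_of_ne h3 ?_, h4, h5, h6⟩
    · rintro rfl; exact h (hZv3 w s)
    · rintro rfl; exact h (hZv2 u s)
    · rintro rfl; exact h (hZv u w)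
  · intro w s
    rw [← hb w s]
    refine (bd1_subset (Finset.subset_insert v W) fun u hu => ?_).symm
    by_contra h
    obtain ⟨h1, _⟩ := hZs u w s h
    rcases Finset.mem_insert.1 h1 with h2 | h2
    · subst h2; exact h (hZv3 w s)
    · exact hu h2

include hK4 in
/-- **Exactness.** -/
theorem exact_all (W : Finset V) : E1 adj W ∧ E2 adj W ∧ E3 adj W := by
  induction W using Finset.strongInduction with
  | H W ih =>
    rcases W.eq_empty_or_nonempty with hW | ⟨v, hv⟩
    · subst hW
      refine ⟨?_, ?_, ?_⟩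
      · intro y hy _
        refine ⟨fun _ _ => 0, fun _ _ => by simp, fun _ _ h => absurd rfl h, fun w => ?_⟩
        rw [hy w (Finset.notMem_empty w)]; simp [bd1]
      · intro X _ hs _
        refine ⟨fun _ _ _ => 0, ⟨fun _ _ _ => by simp, fun _ _ _ => by simp⟩,
          fun _ _ _ h => absurd rfl h, fun w s => ?_⟩
        have : X w s = 0 := by
          by_contra h; exact absurd (hs w s h).1 (Finset.notMem_empty w)
        rw [this]; simp [bd1]
      · intro Z _ hs _ u w s
        by_contra h; exact absurd (hs u w s h).1 (Finset.notMem_empty u)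
    · have hvn : v ∉ W.erase v := Finset.notMem_erase v W
      have hins : insert v (W.erase v) = W := Finset.insert_erase hv
      have hss : W.erase v ⊂ W := Finset.erase_ssubset hv
      have hK : nb adj v (W.erase v) ⊂ W :=
        lt_of_le_of_lt (fun u hu => (mem_nb.1 hu).1) hss
      obtain ⟨a1, a2, a3⟩ := ih _ hss
      obtain ⟨b1, b2, _⟩ := ih _ hK
      rw [← hins]
      exact ⟨E1_step hsym hirr hvn a1, E2_step hsym hirr hvn a2 b1,
        E3_step hirr hK4 hvn a3 b2⟩

end exact

end Pool.Agent.Helper80.Kr
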