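import Mathlib
import Pool.Agent.Helper80.KrExact

/-!
# The infinite graph

The vertex set is `ℤ × ZMod 5`.  Level `k` is a pentagon; the pentagon of level `k + 1` is wrapped
twice around the pentagon of level `k`.
-/

namespace Pool.Agent.Helper80.Kr

open MonoidAlgebra

/-- The vertices. -/
abbrev Vx := ℤ × ZMod 5

/-- Neighbours in the pentagon. -/
def nb0 (i j : ZMod 5) : Prop := j = i + 1 ∨ i = j + 1

/-- Neighbours in consecutive levels, `i` in the lower level. -/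
def nb1 (i j : ZMod 5) : Prop := i = 2 * j - 1 ∨ i = 2 * j ∨ i = 2 * j + 1

instance (i j : ZMod 5) : Decidable (nb0 i j) := by unfold nb0; infer_instance
instance (i j : ZMod 5) : Decidable (nb1 i j) := by unfold nb1; infer_instance

/-- The adjacency relation. -/
def adjN (p q : Vx) : Prop :=
  (q.1 = p.1 ∧ nb0 p.2 q.2) ∨ (q.1 = p.1 + 1 ∧ nb1 p.2 q.2) ∨ (p.1 = q.1 + 1 ∧ nb1 q.2 p.2)

theorem adjN_symm (p q : Vx) (h : adjN p q) : adjN q p := by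
  rcases h with ⟨h1, h2⟩ | h | h
  · exact Or.inl ⟨h1.symm, h2.symm⟩
  · exact Or.inr (Or.inr h)
  · exact Or.inr (Or.inl h)

theorem adjN_irrefl (p : Vx) : ¬ adjN p p := by
  have h0 : ∀ i : ZMod 5, ¬ nb0 i i := by decide
  rintro (⟨_, h2⟩ | ⟨h1, _⟩ | ⟨h1, _⟩)
  · exact h0 _ h2
  · omega
  · omega

/-- Adjacency in two consecutive levels. -/
def adjM (x y : Bool × ZMod 5) : Prop :=
  (x.1 = y.1 ∧ nb0 x.2 y.2) ∨ (x.1 = false ∧ y.1 = true ∧ nb1 x.2 y.2) ∨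
    (x.1 = true ∧ y.1 = false ∧ nb1 y.2 x.2)

instance (x y : Bool × ZMod 5) : Decidable (adjM x y) := by unfold adjM; infer_instance

/-- The vertex of level `m` or `m + 1`. -/
def em (m : ℤ) (x : Bool × ZMod 5) : Vx := (if x.1 then m + 1 else m, x.2)

theorem adjM_of_adjN {m : ℤ} {x y : Bool × ZMod 5} (h : adjN (em m x) (em m y)) : adjM x y := by
  obtain ⟨a, i⟩ := x
  obtain ⟨b, j⟩ := y
  cases a <;> cases b <;> rcases h with ⟨h1, h2⟩ | ⟨h1, h2⟩ | ⟨h1, h2⟩ <;>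
    simp only [em, Bool.false_eq_true, if_false, if_true] at h1 h2 <;>
    first
    | omega
    | exact Or.inl ⟨rfl, h2⟩
    | exact Or.inr (Or.inl ⟨rfl, rfl, h2⟩)
    | exact Or.inr (Or.inr ⟨rfl, rfl, h2⟩)

theorem exists_em {m : ℤ} {p : Vx} (h : p.1 = m ∨ p.1 = m + 1) : ∃ x, p = em m x := by
  rcases h with h | h
  · exact ⟨(false, p.2), by ext <;> simp [em, h]⟩
  · exact ⟨(true, p.2), by ext <;> simp [em, h]⟩

theorem adjN_level {p q : Vx} (h : adjN p q) : p.1 ≤ q.1 + 1 ∧ q.1 ≤ p.1 + 1 := by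
  rcases h with ⟨h1, _⟩ | ⟨h1, _⟩ | ⟨h1, _⟩ <;> omega

theorem noK4M : ∀ a b, adjM a b → ∀ c, adjM a c → adjM b c → ∀ d, adjM a d → adjM b d →
    ¬ adjM c d := by decide

theorem noK4 (a b c d : Vx) (hab : adjN a b) (hac : adjN a c) (had : adjN a d) (hbc : adjN b c)
    (hbd : adjN b d) (hcd : adjN c d) : False := by
  have h1 := adjN_level hab
  have h2 := adjN_level hac
  have h3 := adjN_level had
  have h4 := adjN_level hbc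
  have h5 := adjN_level hbd
  have h6 := adjN_level hcd
  obtain ⟨m, ha, hb, hc, hd⟩ : ∃ m : ℤ, (a.1 = m ∨ a.1 = m + 1) ∧ (b.1 = m ∨ b.1 = m + 1) ∧
      (c.1 = m ∨ c.1 = m + 1) ∧ (d.1 = m ∨ d.1 = m + 1) :=
    ⟨min (min a.1 b.1) (min c.1 d.1), by omega, by omega, by omega, by omega⟩
  obtain ⟨a, rfl⟩ := exists_em ha
  obtain ⟨b, rfl⟩ := exists_em hb
  obtain ⟨c, rfl⟩ := exists_em hc
  obtain ⟨d, rfl⟩ := exists_em hd
  exact noK4M a b (adjM_of_adjN hab) c (adjM_of_adjN hac) (adjM_of_adjN hbc) d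
    (adjM_of_adjN had) (adjM_of_adjN hbd) (adjM_of_adjN hcd)

/-- The canonical edges. -/
def Can2 (p q : Vx) : Prop :=
  (q.1 = p.1 ∧ q.2 = p.2 + 1) ∨ (q.1 = p.1 + 1 ∧ (p.2 = 2 * q.2 - 1 ∨ p.2 = 2 * q.2 ∨
    p.2 = 2 * q.2 + 1))

theorem can2_or {p q : Vx} (h : adjN p q) : Can2 p q ∨ Can2 q p := by
  rcases h with ⟨h1, h2 | h2⟩ | ⟨h1, h2⟩ | ⟨h1, h2⟩
  · exact Or.inl (Or.inl ⟨h1, h2⟩)
  · exact Or.inr (Or.inl ⟨h1.symm, h2⟩)
  · exact Or.inl (Or.inr ⟨h1, h2⟩)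
  · exact Or.inr (Or.inr ⟨h1, h2⟩)

theorem adjN_of_can2 {p q : Vx} (h : Can2 p q) : adjN p q := by
  rcases h with ⟨h1, h2⟩ | ⟨h1, h2⟩
  · exact Or.inl ⟨h1, Or.inl h2⟩
  · exact Or.inr (Or.inl ⟨h1, h2⟩)

/-- The canonical triangles. -/
def Can3 (p q s : Vx) : Prop :=
  (q.1 = p.1 ∧ s.1 = p.1 + 1 ∧ p.2 = 2 * s.2 ∧ q.2 = 2 * s.2 + 1) ∨
  (q.1 = p.1 ∧ s.1 = p.1 + 1 ∧ p.2 = 2 * s.2 - 1 ∧ q.2 = 2 * s.2) ∨
  (q.1 = p.1 + 1 ∧ s.1 = p.1 + 1 ∧ p.2 = 2 * q.2 + 1 ∧ s.2 = q.2 + 1)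

/-- The canonical triangles in two consecutive levels. -/
def CanM (p q s : Bool × ZMod 5) : Prop :=
  (p.1 = false ∧ q.1 = false ∧ s.1 = true ∧ p.2 = 2 * s.2 ∧ q.2 = 2 * s.2 + 1) ∨
  (p.1 = false ∧ q.1 = false ∧ s.1 = true ∧ p.2 = 2 * s.2 - 1 ∧ q.2 = 2 * s.2) ∨
  (p.1 = false ∧ q.1 = true ∧ s.1 = true ∧ p.2 = 2 * q.2 + 1 ∧ s.2 = q.2 + 1)

instance (p q s : Bool × ZMod 5) : Decidable (CanM p q s) := by unfold CanM; infer_instance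

/-- Some permutation is a canonical triangle. -/
def CanA (p q s : Bool × ZMod 5) : Prop :=
  CanM p q s ∨ CanM p s q ∨ CanM q p s ∨ CanM q s p ∨ CanM s p q ∨ CanM s q p

instance (p q s : Bool × ZMod 5) : Decidable (CanA p q s) := by unfold CanA; infer_instance

theorem canM_or : ∀ p q, adjM p q → ∀ s, adjM p s → adjM q s → CanA p q s := by decide

theorem can3_of_canM {m : ℤ} {p q s : Bool × ZMod 5} (h : CanM p q s) :
    Can3 (em m p) (em m q) (em m s) := by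
  rcases h with ⟨h1, h2, h3, h4, h5⟩ | ⟨h1, h2, h3, h4, h5⟩ | ⟨h1, h2, h3, h4, h5⟩
  · exact Or.inl (by simp [em, h1, h2, h3, h4, h5])
  · exact Or.inr (Or.inl (by simp [em, h1, h2, h3, h4, h5]))
  · exact Or.inr (Or.inr (by simp [em, h1, h2, h3, h4, h5]))

theorem can3_or {p q s : Vx} (hpq : adjN p q) (hps : adjN p s) (hqs : adjN q s) :
    Can3 p q s ∨ Can3 p s q ∨ Can3 q p s ∨ Can3 q s p ∨ Can3 s p q ∨ Can3 s q p := by
  have h1 := adjN_level hpq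
  have h2 := adjN_level hps
  have h3 := adjN_level hqs
  obtain ⟨m, ha, hb, hc⟩ : ∃ m : ℤ, (p.1 = m ∨ p.1 = m + 1) ∧ (q.1 = m ∨ q.1 = m + 1) ∧
      (s.1 = m ∨ s.1 = m + 1) :=
    ⟨min (min p.1 q.1) s.1, by omega, by omega, by omega⟩
  obtain ⟨p, rfl⟩ := exists_em ha
  obtain ⟨q, rfl⟩ := exists_em hb
  obtain ⟨s, rfl⟩ := exists_em hc
  rcases canM_or p q (adjM_of_adjN hpq) s (adjM_of_adjN hps) (adjM_of_adjN hqs) with
    h | h | h | h | h | h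
  · exact Or.inl (can3_of_canM h)
  · exact Or.inr (Or.inl (can3_of_canM h))
  · exact Or.inr (Or.inr (Or.inl (can3_of_canM h)))
  · exact Or.inr (Or.inr (Or.inr (Or.inl (can3_of_canM h))))
  · exact Or.inr (Or.inr (Or.inr (Or.inr (Or.inl (can3_of_canM h)))))
  · exact Or.inr (Or.inr (Or.inr (Or.inr (Or.inr (can3_of_canM h)))))

theorem adjN_of_can3 {p q s : Vx} (h : Can3 p q s) : adjN p q ∧ adjN p s ∧ adjN q s := by
  have d1 : ∀ i : ZMod 5, nb0 (2 * i) (2 * i + 1) ∧ nb0 (2 * i - 1) (2 * i) ∧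
    nb0 i (i + 1) ∧ nb1 (2 * i) i ∧ nb1 (2 * i + 1) i ∧ nb1 (2 * i - 1) i ∧
    nb1 (2 * i + 1) (i + 1) := by decide
  rcases h with ⟨h1, h2, h3, h4⟩ | ⟨h1, h2, h3, h4⟩ | ⟨h1, h2, h3, h4⟩
  · obtain ⟨e1, e2, e3, e4, e5, e6, e7⟩ := d1 s.2
    refine ⟨Or.inl ⟨h1, by rw [h3, h4]; exact e1⟩, Or.inr (Or.inl ⟨h2, by rw [h3]; exact e4⟩),
      Or.inr (Or.inl ⟨by rw [h2, h1], by rw [h4]; exact e5⟩)⟩
  · obtain ⟨e1, e2, e3, e4, e5, e6, e7⟩ := d1 s.2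
    refine ⟨Or.inl ⟨h1, by rw [h3, h4]; exact e2⟩, Or.inr (Or.inl ⟨h2, by rw [h3]; exact e6⟩),
      Or.inr (Or.inl ⟨by rw [h2, h1], by rw [h4]; exact e4⟩)⟩
  · obtain ⟨e1, e2, e3, e4, e5, e6, e7⟩ := d1 q.2
    refine ⟨Or.inr (Or.inl ⟨h1, by rw [h3]; exact e5⟩), Or.inr (Or.inl ⟨h2, by
      rw [h3, h4]; exact e7⟩), Or.inl ⟨by rw [h2, h1], by rw [h4]; exact e3⟩⟩

end Pool.Agent.Helper80.Kr
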