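import Mathlib

/-!
# Regular sequences in group rings
-/

namespace Pool.Agent.Helper80.Kr

open MonoidAlgebra

section reg

variable (K : Type) [CommRing K] {G : Type} [Group G]

/-- The group element `g` as an element of the group ring over `K`. -/
noncomputable abbrev ek (g : G) : MonoidAlgebra K G := single g 1

variable {K}

theorem ek_mul (g h : G) : ek K g * ek K h = ek K (g * h) := by simp [ek]

theorem ek_one : ek K (1 : G) = 1 := rfl

variable (K) in
/-- Summation over the left cosets of `H`. -/
noncomputable def piK (H : Subgroup G) : MonoidAlgebra K G →+ (G ⧸ H →₀ K) :=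
  (Finsupp.mapDomain.addMonoidHom (QuotientGroup.mk : G → G ⧸ H)).comp
    (coeffAddEquiv (R := K) (M := G)).toAddMonoidHom

theorem piK_single (H : Subgroup G) (x : G) (n : K) :
    piK K H (single x n) = Finsupp.single (QuotientGroup.mk x) n := by
  simp [piK, Finsupp.mapDomain_single]

variable (K) in
/-- A linear section. -/
noncomputable def secK (H : Subgroup G) : (G ⧸ H →₀ K) →+ MonoidAlgebra K G :=
  Finsupp.liftAddHom fun q => singleAddHom q.out

theorem secK_single (H : Subgroup G) (q : G ⧸ H) (n : K) :
    secK K H (Finsupp.single q n) = single q.out n := by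
  simp [secK]

variable (K) in
/-- The left ideal generated by the elements `s - 1`. -/
noncomputable def IS (S : Set G) : Submodule (MonoidAlgebra K G) (MonoidAlgebra K G) :=
  Submodule.span _ ((fun s => ek K s - 1) '' S)

theorem single_sub_mem_IS {S : Set G} (h : G) (hh : h ∈ Subgroup.closure S) (n : K) :
    ∀ x : G, single (x * h) n - single x n ∈ IS K S := by
  induction hh using Subgroup.closure_induction with
  | mem g hg =>
    intro x
    have : (single x n : MonoidAlgebra K G) • (ek K g - 1) ∈ IS K S :=
      Submodule.smul_mem _ _ (Submodule.subset_span ⟨g, hg, rfl⟩)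
    have h2 : (single x n : MonoidAlgebra K G) • (ek K g - 1) = single (x * g) n - single x n := by
      rw [smul_eq_mul, mul_sub, mul_one, single_mul_single, mul_one]
    rwa [h2] at this
  | one => intro x; rw [mul_one, sub_self]; exact (IS K S).zero_mem
  | mul a b _ _ ha hb =>
    intro x
    have := (IS K S).add_mem (hb (x * a)) (ha x)
    rwa [sub_add_sub_cancel, mul_assoc] at this
  | inv a _ ha =>
    intro x
    have := (IS K S).neg_mem (ha (x * a⁻¹))
    rwa [neg_sub, inv_mul_cancel_right] at this

/-- The kernel of the summation over cosets. -/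
theorem mem_IS_of_piK {S : Set G} {z : MonoidAlgebra K G}
    (hz : piK K (Subgroup.closure S) z = 0) : z ∈ IS K S := by
  have key : ∀ z : MonoidAlgebra K G,
      z - secK K (Subgroup.closure S) (piK K (Subgroup.closure S) z) ∈ IS K S := by
    intro z
    induction z using MonoidAlgebra.induction_linear with
    | zero => simp
    | add x y hx hy =>
      have := (IS K S).add_mem hx hy
      rw [map_add, map_add]
      convert this using 1
      abel
    | single x n =>
      rw [piK_single, secK_single]
      obtain ⟨h, hh⟩ := QuotientGroup.mk_out_eq_mul (Subgroup.closure S) x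
      rw [hh, ← neg_sub]
      exact (IS K S).neg_mem (single_sub_mem_IS (h : G) h.2 n x)
  have := key z
  rw [hz, map_zero, sub_zero] at this
  exact this

theorem piK_mul {H : Subgroup G} {s : G} (hs : s ∈ H) (y : MonoidAlgebra K G) :
    piK K H (y * (ek K s - 1)) = 0 := by
  induction y using MonoidAlgebra.induction_linear with
  | zero => simp
  | add x y hx hy => rw [add_mul, map_add, hx, hy, add_zero]
  | single x n =>
    rw [mul_sub, mul_one, single_mul_single, mul_one, map_sub, piK_single, piK_single, sub_eq_zero]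
    congr 1
    rw [QuotientGroup.eq]
    simpa using (Subgroup.inv_mem _ hs)

/-- Right multiplication by `r` on the cosets of a subgroup centralised by `r`. -/
def rmul (H : Subgroup G) (r : G) (hr : ∀ h ∈ H, h * r = r * h) : G ⧸ H → G ⧸ H :=
  Quotient.map' (fun g => g * r) (by
    intro a b hab
    rw [QuotientGroup.leftRel_apply] at hab ⊢
    have : (a * r)⁻¹ * (b * r) = r⁻¹ * ((a⁻¹ * b) * r) := by group
    rw [this, hr _ hab, inv_mul_cancel_left]
    exact hab)

theorem rmul_mk (H : Subgroup G) (r : G) (hr : ∀ h ∈ H, h * r = r * h) (g : G) :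
    rmul H r hr (QuotientGroup.mk g) = QuotientGroup.mk (g * r) := rfl

theorem piK_mul_ek (H : Subgroup G) (r : G) (hr : ∀ h ∈ H, h * r = r * h)
    (x : MonoidAlgebra K G) :
    piK K H (x * ek K r) = Finsupp.mapDomain (rmul H r hr) (piK K H x) := by
  induction x using MonoidAlgebra.induction_linear with
  | zero => simp
  | add x y hx hy => rw [add_mul, map_add, hx, hy, map_add, Finsupp.mapDomain_add]
  | single x n =>
    rw [single_mul_single, mul_one, piK_single, piK_single, Finsupp.mapDomain_single, rmul_mk]

theorem rmul_injective (H : Subgroup G) (r : G) (hr : ∀ h ∈ H, h * r = r * h) :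
    Function.Injective (rmul H r hr) := by
  intro a b
  induction a using QuotientGroup.induction_on with
  | H a =>
  induction b using QuotientGroup.induction_on with
  | H b =>
  intro h
  rw [rmul_mk, rmul_mk, QuotientGroup.eq] at h
  rw [QuotientGroup.eq]
  have h2 := hr _ h
  have h3 : (a * r)⁻¹ * (b * r) = r⁻¹ * ((a⁻¹ * b) * r) := by group
  have h4 : a⁻¹ * b = (a * r)⁻¹ * (b * r) := by
    have : r * ((a * r)⁻¹ * (b * r)) = (a⁻¹ * b) * r := by rw [h3]; group
    have h5 : (a⁻¹ * b) * r = ((a * r)⁻¹ * (b * r)) * r := by rw [← this, h2]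
    exact mul_right_cancel h5
  rw [h4]; exact h

/-- `r - 1` is regular modulo the ideal of a subgroup centralised by `r`. -/
theorem piK_eq_zero (H : Subgroup G) (r : G) (hr : ∀ h ∈ H, h * r = r * h)
    (hn : ∀ n : ℕ, r ^ n ∈ H → n = 0) {x : MonoidAlgebra K G}
    (hx : piK K H (x * (ek K r - 1)) = 0) : piK K H x = 0 := by
  rw [mul_sub, mul_one, map_sub, sub_eq_zero, piK_mul_ek H r hr] at hx
  set m := piK K H x with hm
  have h1 : ∀ q, m (rmul H r hr q) = m q := by
    intro q
    conv_lhs => rw [← hx]
    exact Finsupp.mapDomain_apply (rmul_injective H r hr) m q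
  ext q
  by_contra hq
  have h2 : ∀ n : ℕ, m ((rmul H r hr)^[n] q) ≠ 0 := by
    intro n
    induction n with
    | zero => exact hq
    | succ n ih => rw [Function.iterate_succ_apply', h1]; exact ih
  have h3 : ∀ n : ℕ, ∀ g : G, (rmul H r hr)^[n] (QuotientGroup.mk g) =
      QuotientGroup.mk (g * r ^ n) := by
    intro n
    induction n with
    | zero => intro g; simp
    | succ n ih => intro g; rw [Function.iterate_succ_apply', ih, rmul_mk, mul_assoc, pow_succ]
  have h4 : Function.Injective fun n : ℕ => (rmul H r hr)^[n] q := by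
    intro a b
    induction q using QuotientGroup.induction_on with
    | H g =>
    intro hab
    simp only [h3] at hab
    rw [QuotientGroup.eq] at hab
    have h5 : (g * r ^ a)⁻¹ * (g * r ^ b) = (r ^ a)⁻¹ * r ^ b := by group
    rw [h5] at hab
    rcases le_total a b with h | h
    · have h6 : (r ^ a)⁻¹ * r ^ b = r ^ (b - a) := by
        rw [inv_mul_eq_iff_eq_mul, ← pow_add]; congr 1; omega
      rw [h6] at hab
      have := hn _ hab; omega
    · have h6 : (r ^ a)⁻¹ * r ^ b = (r ^ (a - b))⁻¹ := by
        rw [inv_mul_eq_iff_eq_mul, eq_mul_inv_iff_mul_eq, ← pow_add]; congr 1; omega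
      rw [h6] at hab
      have := hn _ ((Subgroup.inv_mem_iff _).1 hab); omega
  have h5 : (Set.range fun n : ℕ => (rmul H r hr)^[n] q).Finite := by
    refine m.hasFiniteSupport.subset ?_
    rintro _ ⟨n, rfl⟩
    exact h2 n
  exact Set.infinite_range_of_injective h4 h5

/-- Right version of the first regularity. -/
theorem regR1 {r : G} (hn : ∀ n : ℕ, r ^ n = 1 → n = 0) {x : MonoidAlgebra K G}
    (hx : x * (ek K r - 1) = 0) : x = 0 := by
  have h1 : piK K (Subgroup.closure (∅ : Set G)) x = 0 := by
    refine piK_eq_zero _ r ?_ ?_ (by rw [hx, map_zero])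
    · intro h hh; rw [Subgroup.closure_empty, Subgroup.mem_bot] at hh; simp [hh]
    · intro n h; rw [Subgroup.closure_empty, Subgroup.mem_bot] at h; exact hn n h
  have h2 := mem_IS_of_piK h1
  simpa [IS] using h2

theorem comm_closure {S : Set G} {r : G} (h : ∀ s ∈ S, s * r = r * s) :
    ∀ x ∈ Subgroup.closure S, x * r = r * x := by
  intro x hx
  have h1 : Subgroup.closure S ≤ Subgroup.centralizer {r} := by
    rw [Subgroup.closure_le]
    intro s hs
    rw [SetLike.mem_coe, Subgroup.mem_centralizer_singleton_iff]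
    exact h s hs
  exact Subgroup.mem_centralizer_singleton_iff.1 (h1 hx)

/-- Right version of the second regularity. -/
theorem regR2 {p q : G} (hpq : q * p = p * q)
    (hn : ∀ n : ℕ, p ^ n ∈ Subgroup.closure {q} → n = 0) {x y : MonoidAlgebra K G}
    (hx : x * (ek K p - 1) = y * (ek K q - 1)) : ∃ z, x = z * (ek K q - 1) := by
  have h1 : piK K (Subgroup.closure {q}) x = 0 := by
    refine piK_eq_zero _ p (comm_closure (by rintro s rfl; exact hpq)) hn ?_
    rw [hx]
    exact piK_mul (Subgroup.subset_closure (Set.mem_singleton q)) y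
  have h2 := mem_IS_of_piK h1
  rw [IS, Set.image_singleton, Submodule.mem_span_singleton] at h2
  obtain ⟨a, ha⟩ := h2
  exact ⟨a, ha.symm⟩

/-- Right version of the third regularity. -/
theorem regR3 {p q r : G} (hpr : p * r = r * p) (hqr : q * r = r * q)
    (hn : ∀ n : ℕ, r ^ n ∈ Subgroup.closure {p, q} → n = 0) {x y z : MonoidAlgebra K G}
    (hx : x * (ek K r - 1) = y * (ek K p - 1) + z * (ek K q - 1)) :
    ∃ a b, x = a * (ek K p - 1) + b * (ek K q - 1) := by
  have h1 : piK K (Subgroup.closure {p, q}) x = 0 := by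
    refine piK_eq_zero _ r (comm_closure ?_) hn ?_
    · rintro s (rfl | rfl)
      · exact hpr
      · exact hqr
    · rw [hx, map_add, piK_mul (Subgroup.subset_closure (Set.mem_insert _ _)),
        piK_mul (Subgroup.subset_closure (Set.mem_insert_of_mem _ (Set.mem_singleton q))), add_zero]
  have h2 := mem_IS_of_piK h1
  rw [IS, Set.image_pair, Submodule.mem_span_pair] at h2
  obtain ⟨a, b, hab⟩ := h2
  exact ⟨a, b, hab.symm⟩

/-- The inversion. -/
noncomputable def st : MonoidAlgebra K G →+ MonoidAlgebra K G where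
  toFun := mapDomain (fun g => g⁻¹)
  map_zero' := mapDomain_zero _
  map_add' x y := mapDomain_add _ x y

theorem st_single (g : G) (n : K) : st (single g n : MonoidAlgebra K G) = single g⁻¹ n := by
  simp [st]

theorem st_mul (x y : MonoidAlgebra K G) : st (x * y) = st y * st x := by
  induction x using MonoidAlgebra.induction_linear with
  | zero => simp
  | add x x' hx hx' => rw [add_mul, map_add, hx, hx', map_add, mul_add]
  | single g n =>
    induction y using MonoidAlgebra.induction_linear with
    | zero => simp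
    | add x x' hx hx' => rw [mul_add, map_add, hx, hx', map_add, add_mul]
    | single h m =>
      rw [single_mul_single, st_single, st_single, st_single, single_mul_single, mul_inv_rev,
        mul_comm n m]

theorem st_st (x : MonoidAlgebra K G) : st (st x) = x := by
  induction x using MonoidAlgebra.induction_linear with
  | zero => simp
  | add x x' hx hx' => rw [map_add, map_add, hx, hx']
  | single g n => rw [st_single, st_single, inv_inv]

theorem st_ek_sub (g : G) : st (ek K g - 1) = ek K g⁻¹ - 1 := by
  rw [map_sub, st_single, ← ek_one, st_single, inv_one]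

theorem reg1 {r : G} (hn : ∀ n : ℕ, r ^ n = 1 → n = 0) {x : MonoidAlgebra K G}
    (hx : (ek K r - 1) * x = 0) : x = 0 := by
  have h1 : st x * (ek K r⁻¹ - 1) = 0 := by
    rw [← st_ek_sub, ← st_mul, hx, map_zero]
  have h2 := regR1 (r := r⁻¹) (by intro n h; rw [inv_pow, inv_eq_one] at h; exact hn n h) h1
  rw [← st_st x, h2, map_zero]

theorem closure_inv_singleton (q : G) :
    Subgroup.closure ({q⁻¹} : Set G) = Subgroup.closure {q} := by
  rw [← Set.inv_singleton, Subgroup.closure_inv]

theorem reg2 {p q : G} (hpq : q * p = p * q)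
    (hn : ∀ n : ℕ, p ^ n ∈ Subgroup.closure {q} → n = 0) {x y : MonoidAlgebra K G}
    (hx : (ek K p - 1) * x = (ek K q - 1) * y) : ∃ z, x = (ek K q - 1) * z := by
  have h1 : st x * (ek K p⁻¹ - 1) = st y * (ek K q⁻¹ - 1) := by
    rw [← st_ek_sub, ← st_mul, hx, st_mul, st_ek_sub]
  obtain ⟨z, hz⟩ := regR2 (p := p⁻¹) (q := q⁻¹) (by
    rw [← mul_inv_rev, ← mul_inv_rev, hpq]) (by
    intro n h
    rw [inv_pow, Subgroup.inv_mem_iff, closure_inv_singleton] at h
    exact hn n h) h1
  refine ⟨st z, ?_⟩
  rw [← st_st x, hz, st_mul, st_ek_sub, inv_inv]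

theorem reg3 {p q r : G} (hpr : p * r = r * p) (hqr : q * r = r * q)
    (hn : ∀ n : ℕ, r ^ n ∈ Subgroup.closure {p, q} → n = 0) {x y z : MonoidAlgebra K G}
    (hx : (ek K r - 1) * x = (ek K p - 1) * y + (ek K q - 1) * z) :
    ∃ a b, x = (ek K p - 1) * a + (ek K q - 1) * b := by
  have h1 : st x * (ek K r⁻¹ - 1) = st y * (ek K p⁻¹ - 1) + st z * (ek K q⁻¹ - 1) := by
    rw [← st_ek_sub, ← st_mul, hx, map_add, st_mul, st_mul, st_ek_sub, st_ek_sub]
  obtain ⟨a, b, hab⟩ := regR3 (p := p⁻¹) (q := q⁻¹) (r := r⁻¹) (by
    rw [← mul_inv_rev, ← mul_inv_rev, hpr]) (by rw [← mul_inv_rev, ← mul_inv_rev, hqr]) (by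
    intro n h
    have hc : Subgroup.closure ({p⁻¹, q⁻¹} : Set G) = Subgroup.closure {p, q} := by
      rw [← Subgroup.closure_inv, Set.inv_insert, Set.inv_singleton, inv_inv, inv_inv]
    rw [inv_pow, Subgroup.inv_mem_iff, hc] at h
    exact hn n h) h1
  refine ⟨st a, st b, ?_⟩
  rw [← st_st x, hab, map_add, st_mul, st_mul, st_ek_sub, st_ek_sub, inv_inv, inv_inv]

theorem coeff_ek_mul (t g : G) (x : MonoidAlgebra K G) :
    (ek K t * x).coeff g = x.coeff (t⁻¹ * g) := by
  rw [ek, coeff_single_mul_eq_mul_coeff (t⁻¹ * g), one_mul]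
  intro m _
  rw [eq_inv_mul_iff_mul_eq]

/-- `t - 2` is a non-zero-divisor. -/
theorem reg_two {t : G} (hn : ∀ n : ℕ, t ^ n = 1 → n = 0) {x : MonoidAlgebra K G}
    (hx : ek K t * x = x + x) : x = 0 := by
  have h1 : ∀ g, x.coeff g = x.coeff (t * g) + x.coeff (t * g) := by
    intro g
    have := congrArg (fun y => y.coeff (t * g)) hx
    simp only [coeff_ek_mul, inv_mul_cancel_left, coeff_add, Finsupp.coe_add, Pi.add_apply] at this
    exact this
  have h2 : ∀ n : ℕ, ∀ g, x.coeff g = 2 ^ n * x.coeff (t ^ n * g) := by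
    intro n
    induction n with
    | zero => intro g; simp
    | succ n ih =>
      intro g
      rw [ih g, h1 (t ^ n * g), ← mul_assoc, ← pow_succ', pow_succ]
      ring
  ext g
  by_contra hg
  have h3 : ∀ n : ℕ, x.coeff (t ^ n * g) ≠ 0 := by
    intro n h
    apply hg
    rw [h2 n g, h, mul_zero]; simp
  have h4 : Function.Injective fun n : ℕ => t ^ n * g := by
    intro a b hab
    have h5 : t ^ a = t ^ b := mul_right_cancel hab
    rcases le_total a b with h | h
    · have h6 : t ^ (b - a) = 1 := by
        have : t ^ a * t ^ (b - a) = t ^ a * 1 := by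
          rw [← pow_add, mul_one, h5]; congr 1; omega
        exact mul_left_cancel this
      have := hn _ h6; omega
    · have h6 : t ^ (a - b) = 1 := by
        have : t ^ b * t ^ (a - b) = t ^ b * 1 := by
          rw [← pow_add, mul_one, ← h5]; congr 1; omega
        exact mul_left_cancel this
      have := hn _ h6; omega
  have h5 : (Set.range fun n : ℕ => t ^ n * g).Finite := by
    refine x.coeff.hasFiniteSupport.subset ?_
    rintro _ ⟨n, rfl⟩
    exact h3 n
  exact Set.infinite_range_of_injective h4 h5

end reg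

end Pool.Agent.Helper80.Kr
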