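import Mathlib
import Pool.Agent.Helper80.KrGraph
import Pool.Agent.Helper80.KrReg

/-!
# The group
-/

namespace Pool.Agent.Helper80.Kr

open MonoidAlgebra SemidirectProduct

/-- The shift of the levels. -/
def shV (n : ℤ) (p : Vx) : Vx := (p.1 + n, p.2)

theorem adjN_shift {p q : Vx} (n : ℤ) (h : adjN p q) : adjN (shV n p) (shV n q) := by
  rcases h with ⟨h1, h2⟩ | ⟨h1, h2⟩ | ⟨h1, h2⟩
  · exact Or.inl ⟨by simp only [shV]; omega, h2⟩
  · exact Or.inr (Or.inl ⟨by simp only [shV]; omega, h2⟩)
  · exact Or.inr (Or.inr ⟨by simp only [shV]; omega, h2⟩)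

/-- The right-angled Artin group of the infinite graph. -/
abbrev AA := Raag adjN

/-- The automorphism induced by the shift. -/
def shA (n : ℤ) : AA →* AA :=
  lift (fun p => gen adjN (shV n p)) (fun _ _ h => gen_comm (adjN_shift n h))

@[simp] theorem shA_gen (n : ℤ) (p : Vx) : shA n (gen adjN p) = gen adjN (shV n p) := by
  simp [shA]

theorem hom_ext {H : Type} [Group H] {f g : AA →* H}
    (h : ∀ p, f (gen adjN p) = g (gen adjN p)) : f = g :=
  PresentedGroup.ext h

theorem shA_add (m n : ℤ) (x : AA) : shA (m + n) x = shA m (shA n x) := by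
  have : shA (m + n) = (shA m).comp (shA n) := by
    apply hom_ext
    intro p
    simp only [shA_gen, MonoidHom.comp_apply, shV]
    congr 2
    ring
  rw [this]; rfl

theorem shA_zero (x : AA) : shA 0 x = x := by
  have : shA 0 = MonoidHom.id AA := by
    apply hom_ext
    intro p
    simp [shV]
  rw [this]; rfl

/-- The shift as an automorphism. -/
def shE (n : ℤ) : MulAut AA where
  toFun := shA n
  invFun := shA (-n)
  left_inv x := by rw [← shA_add, neg_add_cancel, shA_zero]
  right_inv x := by rw [← shA_add, add_neg_cancel, shA_zero]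
  map_mul' := map_mul _

/-- The action of the integers. -/
def phi : Multiplicative ℤ →* MulAut AA where
  toFun n := shE (Multiplicative.toAdd n)
  map_one' := by ext x; exact shA_zero x
  map_mul' m n := by ext x; exact shA_add _ _ x

/-- The group. -/
abbrev GG := AA ⋊[phi] Multiplicative ℤ

/-- The vertex generators. -/
def aG (p : Vx) : GG := inl (gen adjN p)

/-- The powers of the stable letter. -/
def tk (k : ℤ) : GG := inr (Multiplicative.ofAdd k)

/-- The stable letter. -/
abbrev tG : GG := tk 1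

theorem tk_mul (k l : ℤ) : tk k * tk l = tk (k + l) := by
  rw [tk, tk, tk, ← map_mul]; rfl

theorem tk_zero : tk 0 = 1 := by
  rw [tk, ofAdd_zero, map_one]

theorem tk_inv (k : ℤ) : (tk k)⁻¹ = tk (-k) := by
  rw [inv_eq_iff_mul_eq_one, tk_mul, add_neg_cancel, tk_zero]

theorem tk_aG (k : ℤ) (p : Vx) : tk k * aG p = aG (shV k p) * tk k := by
  have : tk k * aG p * (tk k)⁻¹ = aG (shV k p) := by
    have h := SemidirectProduct.inl_aut (φ := phi) (Multiplicative.ofAdd k) (gen adjN p)
    have h2 : phi (Multiplicative.ofAdd k) (gen adjN p) = gen adjN (shV k p) := shA_gen k p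
    rw [h2] at h
    show tk k * inl (gen adjN p) * (tk k)⁻¹ = inl (gen adjN (shV k p))
    rw [h, tk, ← map_inv]
  rw [← this, inv_mul_cancel_right]

theorem aG_comm {p q : Vx} (h : adjN p q) : aG p * aG q = aG q * aG p := by
  rw [aG, aG, ← map_mul, ← map_mul, gen_comm h]

theorem eq_inl_inr (g : GG) : g = inl g.left * tk (Multiplicative.toAdd g.right) := by
  rw [tk, ofAdd_toAdd]
  exact (SemidirectProduct.inl_left_mul_inr_right g).symm

/-- The homomorphism counting the generator `v`. -/
def chi (v : Vx) : AA →* Multiplicative ℤ :=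
  lift (fun u => if u = v then Multiplicative.ofAdd 1 else 1) (fun _ _ _ => mul_comm _ _)

theorem chi_self (v : Vx) : chi v (gen adjN v) = Multiplicative.ofAdd 1 := by simp [chi]

theorem chi_ne {u v : Vx} (h : u ≠ v) : chi v (gen adjN u) = 1 := by simp [chi, h]

theorem pow_mem_closure {S : Set AA} {v : Vx} (hS : ∀ s ∈ S, chi v s = 1) {n : ℕ}
    (h : gen adjN v ^ n ∈ Subgroup.closure S) : n = 0 := by
  have h1 : Subgroup.closure S ≤ (chi v).ker := by
    rw [Subgroup.closure_le]
    intro s hs
    exact hS s hs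
  have h2 := h1 h
  rw [MonoidHom.mem_ker, map_pow, chi_self, ← ofAdd_nsmul] at h2
  have h3 : (n • (1 : ℤ)) = 0 := by
    have := congrArg Multiplicative.toAdd h2
    simpa using this
  simpa using h3

theorem aG_pow_mem {S : Set Vx} {v : Vx} (hv : v ∉ S) {n : ℕ}
    (h : aG v ^ n ∈ Subgroup.closure (aG '' S)) : n = 0 := by
  have h1 : Subgroup.closure (aG '' S) =
      (Subgroup.closure (gen adjN '' S)).map (inl : AA →* GG) := by
    rw [MonoidHom.map_closure, Set.image_image]
    rfl
  rw [h1] at h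
  obtain ⟨x, hx, hx2⟩ := h
  have h2 : x = gen adjN v ^ n := by
    apply SemidirectProduct.inl_injective (φ := phi)
    rw [hx2, aG, map_pow]
  rw [h2] at hx
  refine pow_mem_closure ?_ hx
  rintro _ ⟨u, hu, rfl⟩
  exact chi_ne fun e => hv (e ▸ hu)

theorem tG_pow {n : ℕ} (h : tG ^ n = 1) : n = 0 := by
  have h1 := congrArg (SemidirectProduct.rightHom : GG →* Multiplicative ℤ) h
  rw [map_pow, map_one, tG, tk, SemidirectProduct.rightHom_inr, ← ofAdd_nsmul] at h1
  have h3 : (n • (1 : ℤ)) = 0 := by
    have := congrArg Multiplicative.toAdd h1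
    simpa using this
  simpa using h3

/-- The generators of the group. -/
def gn : Option (ZMod 5) → GG
  | none => tG
  | some j => aG (0, j)

theorem closure_gn : Subgroup.closure (Set.range gn) = ⊤ := by
  have ht : tG ∈ Subgroup.closure (Set.range gn) := Subgroup.subset_closure ⟨none, rfl⟩
  have htk : ∀ k : ℤ, tk k ∈ Subgroup.closure (Set.range gn) := by
    intro k
    have : tk k = tG ^ k := by
      rw [tG, tk, tk, ← map_zpow, ← ofAdd_zsmul]; simp
    rw [this]
    exact Subgroup.zpow_mem _ ht k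
  have ha : ∀ p : Vx, aG p ∈ Subgroup.closure (Set.range gn) := by
    intro p
    have h1 : aG (0, p.2) ∈ Subgroup.closure (Set.range gn) :=
      Subgroup.subset_closure ⟨some p.2, rfl⟩
    have h2 : aG p = tk p.1 * aG (0, p.2) * (tk p.1)⁻¹ := by
      rw [tk_aG, mul_inv_cancel_right]
      congr 1
      ext <;> simp [shV]
    rw [h2]
    exact Subgroup.mul_mem _ (Subgroup.mul_mem _ (htk _) h1) (Subgroup.inv_mem _ (htk _))
  have hA : ∀ x : AA, (inl x : GG) ∈ Subgroup.closure (Set.range gn) := by
    intro x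
    have hx : x ∈ Subgroup.closure (Set.range (gen adjN)) := by rw [closure_gen]; trivial
    induction hx using Subgroup.closure_induction with
    | mem g hg => obtain ⟨u, rfl⟩ := hg; exact ha u
    | one => rw [map_one]; exact Subgroup.one_mem _
    | mul a b _ _ ha hb => rw [map_mul]; exact Subgroup.mul_mem _ ha hb
    | inv a _ ha => rw [map_inv]; exact Subgroup.inv_mem _ ha
  rw [eq_top_iff]
  intro g _
  rw [eq_inl_inr g]
  exact Subgroup.mul_mem _ (hA _) (htk _)

section reg

variable {K : Type} [CommRing K]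

variable (K) in
/-- The element `a_p - 1`. -/
noncomputable def Am (p : Vx) : MonoidAlgebra K GG := ek K (aG p) - 1

theorem adjN_ne {p q : Vx} (h : adjN p q) : p ≠ q := fun e => adjN_irrefl p (by
  conv => arg 2; rw [e]
  exact h)

theorem Am_comm {p q : Vx} (h : adjN p q) : Am K p * Am K q = Am K q * Am K p := by
  have : ek K (aG p) * ek K (aG q) = ek K (aG q) * ek K (aG p) := by
    rw [ek_mul, ek_mul, aG_comm h]
  rw [Am, Am, sub_mul, mul_sub, mul_sub, sub_mul, mul_sub, mul_sub, this]
  simp only [one_mul, mul_one]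
  abel

theorem tk_Am (k : ℤ) (p : Vx) : ek K (tk k) * Am K p = Am K (shV k p) * ek K (tk k) := by
  rw [Am, Am, mul_sub, sub_mul, mul_one, one_mul, ek_mul, ek_mul, tk_aG]

theorem Am_reg1 {p : Vx} {x : MonoidAlgebra K GG} (h : Am K p * x = 0) : x = 0 := by
  refine reg1 (r := aG p) ?_ h
  intro n hn
  refine aG_pow_mem (S := ∅) (Set.notMem_empty p) ?_
  rw [hn]; exact Subgroup.one_mem _

theorem Am_reg2 {p q : Vx} (hpq : adjN p q) {x y : MonoidAlgebra K GG}
    (h : Am K p * x = Am K q * y) : ∃ z, x = Am K q * z ∧ y = Am K p * z := by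
  obtain ⟨z, hz⟩ : ∃ z, x = Am K q * z := reg2 (p := aG p) (q := aG q) (aG_comm hpq).symm (by
    intro n hn
    refine aG_pow_mem (S := {q}) ?_ (by rwa [Set.image_singleton])
    exact adjN_ne hpq) h
  refine ⟨z, hz, ?_⟩
  have h1 : Am K q * (y - Am K p * z) = 0 := by
    rw [mul_sub, ← h, hz, ← mul_assoc, ← mul_assoc, Am_comm hpq, sub_self]
  have := Am_reg1 h1
  rwa [sub_eq_zero] at this

theorem Am_reg3 {p q r : Vx} (hpr : adjN p r) (hqr : adjN q r) {x y z : MonoidAlgebra K GG}
    (h : Am K r * x = Am K p * y + Am K q * z) : ∃ a b, x = Am K p * a + Am K q * b := by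
  refine reg3 (p := aG p) (q := aG q) (r := aG r) (aG_comm hpr) (aG_comm hqr) ?_ h
  intro n hn
  refine aG_pow_mem (S := {p, q}) ?_ (by rwa [Set.image_pair])
  rintro (e | e)
  · exact adjN_ne hpr e.symm
  · exact adjN_ne hqr e.symm

theorem tG_two {x : MonoidAlgebra K GG} (h : ek K tG * x = x + x) : x = 0 :=
  reg_two (fun _ hn => tG_pow hn) h

end reg

end Pool.Agent.Helper80.Kr
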