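import Mathlib
import Pool.Agent.Helper80.KrGroup

/-!
# The cochain complex
-/

namespace Pool.Agent.Helper80.Kr

open MonoidAlgebra

section coh

variable {K : Type} [CommRing K]

/-- The value on the lifted generator of level one. -/
noncomputable def pt1 (ψ : Option (ZMod 5) → MonoidAlgebra K GG) (j : ZMod 5) :
    MonoidAlgebra K GG := ek K tG * ψ (some j) - Am K (1, j) * ψ none

/-- The first coboundary. -/
noncomputable def cD1 (x : MonoidAlgebra K GG) : Option (ZMod 5) → MonoidAlgebra K GG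
  | none => (ek K tG - 1) * x
  | some j => Am K (0, j) * x

/-- The second coboundary. -/
noncomputable def cD2 (ψ : Option (ZMod 5) → MonoidAlgebra K GG) :
    Fin 4 × ZMod 5 → MonoidAlgebra K GG
  | (0, j) => Am K (0, j) * ψ (some (j + 1)) - Am K (0, j + 1) * ψ (some j)
  | (1, i) => Am K (0, 2 * i - 1) * pt1 ψ i - Am K (1, i) * ψ (some (2 * i - 1))
  | (2, i) => Am K (0, 2 * i) * pt1 ψ i - Am K (1, i) * ψ (some (2 * i))
  | (3, i) => Am K (0, 2 * i + 1) * pt1 ψ i - Am K (1, i) * ψ (some (2 * i + 1))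

/-- The third coboundary. -/
noncomputable def cD3 (φ : Fin 4 × ZMod 5 → MonoidAlgebra K GG) :
    Fin 3 × ZMod 5 → MonoidAlgebra K GG
  | (0, i) => Am K (0, 2 * i) * φ (3, i) - Am K (0, 2 * i + 1) * φ (2, i) +
      Am K (1, i) * φ (0, 2 * i)
  | (1, i) => Am K (0, 2 * i - 1) * φ (2, i) - Am K (0, 2 * i) * φ (1, i) +
      Am K (1, i) * φ (0, 2 * i - 1)
  | (2, i) => Am K (0, 2 * i + 1) * (ek K tG * φ (0, i)) - Am K (1, i) * φ (1, i + 1) +
      Am K (1, i + 1) * φ (3, i)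

/-! ### Combinatorics of the local picture -/

theorem z1 (i : ZMod 5) : 2 * i - 1 + 1 = 2 * i := by ring
theorem z2 (i : ZMod 5) : 2 * (i + 1) - 1 = 2 * i + 1 := by ring
theorem z3 (j : ZMod 5) : 2 * (3 * j) = j := by revert j; decide

theorem aI (i : ZMod 5) : adjN (0, 2 * i) (0, 2 * i + 1) ∧ adjN (0, 2 * i) (1, i) ∧
    adjN (0, 2 * i + 1) (1, i) :=
  adjN_of_can3 (Or.inl ⟨rfl, rfl, rfl, rfl⟩)

theorem aI' (i : ZMod 5) : adjN (0, 2 * i - 1) (0, 2 * i) ∧ adjN (0, 2 * i - 1) (1, i) ∧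
    adjN (0, 2 * i) (1, i) :=
  adjN_of_can3 (Or.inr (Or.inl ⟨rfl, rfl, rfl, rfl⟩))

theorem aII (i : ZMod 5) : adjN (0, 2 * i + 1) (1, i) ∧ adjN (0, 2 * i + 1) (1, i + 1) ∧
    adjN (1, i) (1, i + 1) :=
  adjN_of_can3 (Or.inr (Or.inr ⟨rfl, rfl, rfl, rfl⟩))

theorem aH (j : ZMod 5) : adjN (0, j) (0, j + 1) := Or.inl ⟨rfl, Or.inl rfl⟩

theorem tG_Am (j : ZMod 5) : ek K tG * Am K (0, j) = Am K (1, j) * ek K tG := tk_Am 1 (0, j)

theorem tG_Am_mul (j : ZMod 5) (x : MonoidAlgebra K GG) :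
    ek K tG * (Am K (0, j) * x) = Am K (1, j) * (ek K tG * x) := by
  rw [← mul_assoc, tG_Am, mul_assoc]

/-- Propagation along an edge of the link. -/
theorem prop {x y z : Vx} (hxy : adjN x y) (hyz : adjN y z)
    {fyz fxz fxy β : MonoidAlgebra K GG}
    (hrel : Am K x * fyz - Am K y * fxz + Am K z * fxy = 0)
    (hxz : adjN x z)
    (h : ∃ w, fxy + Am K y * β = Am K x * w) : ∃ w, fxz + Am K z * β = Am K x * w := by
  obtain ⟨w, hw⟩ := h
  have h1 : Am K y * (fxz + Am K z * β) = Am K x * (fyz + Am K z * w) := by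
    have h2 : Am K y * fxz = Am K x * fyz + Am K z * fxy := by
      have := hrel
      rw [sub_add_eq_add_sub, sub_eq_zero] at this
      exact this.symm
    rw [mul_add, h2, ← mul_assoc (Am K y), Am_comm hyz, mul_add, ← mul_assoc (Am K x) (Am K z),
      Am_comm hxz, mul_assoc (Am K z) (Am K x), ← hw, mul_add, mul_assoc]
    abel
  obtain ⟨z', hz', _⟩ := Am_reg2 (adjN_symm _ _ hxy) h1
  exact ⟨z', hz'⟩

theorem theta {u w : Vx} (huw : adjN u w) {f bu bw : MonoidAlgebra K GG}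
    (h1 : ∃ a, f + Am K w * bu = Am K u * a) (h2 : ∃ b, - f + Am K u * bw = Am K w * b) :
    ∃ θ, f - (Am K u * bw - Am K w * bu) = Am K u * (Am K w * θ) := by
  obtain ⟨a, ha⟩ := h1
  obtain ⟨b, hb⟩ := h2
  have e1 : f - (Am K u * bw - Am K w * bu) = Am K u * (a - bw) := by
    rw [mul_sub, ← ha]; abel
  have e2 : f - (Am K u * bw - Am K w * bu) = Am K w * (bu - b) := by
    rw [mul_sub, ← hb]; abel
  obtain ⟨θ, hθ, _⟩ := Am_reg2 huw (e1.symm.trans e2)
  exact ⟨θ, by rw [e1, hθ]⟩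

theorem rel3 {x y z : Vx} (hxy : adjN x y) (hxz : adjN x z) (hyz : adjN y z)
    {fyz fxz fxy θyz θxz θxy bx by' bz : MonoidAlgebra K GG}
    (h1 : fyz - (Am K y * bz - Am K z * by') = Am K y * (Am K z * θyz))
    (h2 : fxz - (Am K x * bz - Am K z * bx) = Am K x * (Am K z * θxz))
    (h3 : fxy - (Am K x * by' - Am K y * bx) = Am K x * (Am K y * θxy))
    (hrel : Am K x * fyz - Am K y * fxz + Am K z * fxy = 0) : θyz - θxz + θxy = 0 := by
  have g1 : fyz = Am K y * (Am K z * θyz) + (Am K y * bz - Am K z * by') := by rw [← h1]; abel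
  have g2 : fxz = Am K x * (Am K z * θxz) + (Am K x * bz - Am K z * bx) := by rw [← h2]; abel
  have g3 : fxy = Am K x * (Am K y * θxy) + (Am K x * by' - Am K y * bx) := by rw [← h3]; abel
  have c1 := Am_comm (K := K) hxy
  have c2 := Am_comm (K := K) hxz
  have c3 := Am_comm (K := K) hyz
  have k : ∀ a : MonoidAlgebra K GG, Am K y * (Am K x * a) = Am K x * (Am K y * a) := by
    intro a; rw [← mul_assoc, ← c1, mul_assoc]
  have k2 : ∀ a : MonoidAlgebra K GG, Am K z * (Am K x * a) = Am K x * (Am K z * a) := by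
    intro a; rw [← mul_assoc, ← c2, mul_assoc]
  have k3 : ∀ a : MonoidAlgebra K GG, Am K z * (Am K y * a) = Am K y * (Am K z * a) := by
    intro a; rw [← mul_assoc, ← c3, mul_assoc]
  have key : Am K x * (Am K y * (Am K z * (θyz - θxz + θxy))) = 0 := by
    rw [← hrel, g1, g2, g3]
    simp only [mul_add, mul_sub, k, k2, k3]
    abel
  exact Am_reg1 (Am_reg1 (Am_reg1 key))

/-- The second cohomology vanishes. -/
theorem H2_zero (φ : Fin 4 × ZMod 5 → MonoidAlgebra K GG) (h : cD3 φ = 0) :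
    ∃ ψ, cD2 ψ = φ := by
  have hI : ∀ i, Am K (0, 2 * i) * φ (3, i) - Am K (0, 2 * i + 1) * φ (2, i) +
      Am K (1, i) * φ (0, 2 * i) = 0 := fun i => congrFun h (0, i)
  have hI' : ∀ i, Am K (0, 2 * i - 1) * φ (2, i) - Am K (0, 2 * i) * φ (1, i) +
      Am K (1, i) * φ (0, 2 * i - 1) = 0 := fun i => congrFun h (1, i)
  have hII : ∀ i, Am K (0, 2 * i + 1) * (ek K tG * φ (0, i)) - Am K (1, i) * φ (1, i + 1) +
      Am K (1, i + 1) * φ (3, i) = 0 := fun i => congrFun h (2, i)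
  -- the classes at the vertices
  have hβ : ∀ j, ∃ β, ∃ w, φ (0, j) + Am K (0, j + 1) * β = Am K (0, j) * w := by
    intro j
    have h1 := hI (3 * j)
    rw [z3] at h1
    have h2 : Am K (1, 3 * j) * φ (0, j) =
        Am K (0, j) * (- φ (3, 3 * j)) + Am K (0, j + 1) * φ (2, 3 * j) := by
      rw [mul_neg]
      rw [← sub_eq_zero, ← h1]; abel
    obtain ⟨e1, e2, e3⟩ := aI (3 * j)
    rw [z3] at e1 e2 e3
    obtain ⟨a, b, hab⟩ := Am_reg3 e2 e3 h2
    refine ⟨-b, a, ?_⟩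
    rw [hab, mul_neg]; abel
  choose β hb using hβ
  -- propagation in the upper half of the link
  have S2 : ∀ i, ∃ w, φ (2, i) + Am K (1, i) * β (2 * i) = Am K (0, 2 * i) * w := by
    intro i
    obtain ⟨e1, e2, e3⟩ := aI i
    exact prop e1 e3 (hI i) e2 (hb (2 * i))
  have S0 : ∀ i, ∃ w, - φ (0, 2 * i - 1) + Am K (0, 2 * i - 1) * β (2 * i) =
      Am K (0, 2 * i) * w := by
    intro i
    obtain ⟨e1, e2, e3⟩ := aI' i
    refine prop (fyz := - φ (1, i)) e3 (adjN_symm _ _ e2) ?_ (adjN_symm _ _ e1) (S2 i)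
    rw [← hI' i, mul_neg, mul_neg]; abel
  have S0' : ∀ j, ∃ w, - φ (0, j) + Am K (0, j) * β (j + 1) = Am K (0, j + 1) * w := by
    intro j
    have h1 := S0 (3 * (j + 1))
    rw [z3, add_sub_cancel_right] at h1
    exact h1
  have S1 : ∀ i, ∃ w, φ (1, i) + Am K (1, i) * β (2 * i - 1) = Am K (0, 2 * i - 1) * w := by
    intro i
    obtain ⟨e1, e2, e3⟩ := aI' i
    have h1 := hb (2 * i - 1)
    rw [z1] at h1
    exact prop e1 e3 (hI' i) e2 h1
  have S3 : ∀ i, ∃ w, φ (3, i) + Am K (1, i) * β (2 * i + 1) = Am K (0, 2 * i + 1) * w := by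
    intro i
    obtain ⟨e1, e2, e3⟩ := aII i
    have h1 := S1 (i + 1)
    rw [z2] at h1
    refine prop (fyz := - (ek K tG * φ (0, i))) e2 (adjN_symm _ _ e3) ?_ e1 h1
    rw [← neg_eq_zero, ← hII i, mul_neg]; abel
  -- propagation in the lower half of the link
  have L0 : ∀ i, ∃ w, ek K tG * φ (0, i) + Am K (1, i + 1) * (ek K tG * β i) =
      Am K (1, i) * w := by
    intro i
    obtain ⟨w, hw⟩ := hb i
    refine ⟨ek K tG * w, ?_⟩
    rw [← tG_Am_mul, ← tG_Am_mul, ← mul_add, hw]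
  have L3 : ∀ i, ∃ w, - φ (3, i) + Am K (0, 2 * i + 1) * (ek K tG * β i) = Am K (1, i) * w := by
    intro i
    obtain ⟨e1, e2, e3⟩ := aII i
    refine prop (fyz := - φ (1, i + 1)) e3 (adjN_symm _ _ e2) ?_ (adjN_symm _ _ e1) (L0 i)
    rw [← hII i, mul_neg, mul_neg]; abel
  have L2 : ∀ i, ∃ w, - φ (2, i) + Am K (0, 2 * i) * (ek K tG * β i) = Am K (1, i) * w := by
    intro i
    obtain ⟨e1, e2, e3⟩ := aI i
    refine prop (fyz := - φ (0, 2 * i)) (adjN_symm _ _ e3) (adjN_symm _ _ e1) ?_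
      (adjN_symm _ _ e2) (L3 i)
    rw [← neg_eq_zero, ← hI i, mul_neg, mul_neg, mul_neg]; abel
  have L1 : ∀ i, ∃ w, - φ (1, i) + Am K (0, 2 * i - 1) * (ek K tG * β i) = Am K (1, i) * w := by
    intro i
    obtain ⟨e1, e2, e3⟩ := aI' i
    refine prop (fyz := - φ (0, 2 * i - 1)) (adjN_symm _ _ e3) (adjN_symm _ _ e1) ?_
      (adjN_symm _ _ e2) (L2 i)
    rw [← neg_eq_zero, ← hI' i, mul_neg, mul_neg, mul_neg]; abel
  -- the divided classes
  choose θ0 h0 using fun j => theta (aH j) (hb j) (S0' j)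
  choose θ1 h1 using fun i => theta (aI' i).2.1 (S1 i) (L1 i)
  choose θ2 h2 using fun i => theta (aI i).2.1 (S2 i) (L2 i)
  choose θ3 h3 using fun i => theta (aI i).2.2 (S3 i) (L3 i)
  have r1 : ∀ i, θ3 i - θ2 i + θ0 (2 * i) = 0 := fun i =>
    rel3 (aI i).1 (aI i).2.1 (aI i).2.2 (h3 i) (h2 i) (h0 (2 * i)) (hI i)
  have r2 : ∀ i, θ2 i - θ1 i + θ0 (2 * i - 1) = 0 := by
    intro i
    have g := h0 (2 * i - 1)
    rw [z1] at g
    exact rel3 (aI' i).1 (aI' i).2.1 (aI' i).2.2 (h2 i) (h1 i) g (hI' i)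
  have r3 : ∀ i, ek K tG * θ0 i - θ1 (i + 1) + θ3 i = 0 := by
    intro i
    have g1 : ek K tG * φ (0, i) - (Am K (1, i) * (ek K tG * β (i + 1)) -
        Am K (1, i + 1) * (ek K tG * β i)) = Am K (1, i) * (Am K (1, i + 1) * (ek K tG * θ0 i)) := by
      have := congrArg (fun x => ek K tG * x) (h0 i)
      simp only [mul_sub, tG_Am_mul] at this
      exact this
    have g2 := h1 (i + 1)
    rw [z2] at g2
    exact rel3 (aII i).1 (aII i).2.1 (aII i).2.2 g1 g2 (h3 i) (hII i)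
  have r4 : ∀ i, ek K tG * θ0 i = θ2 (i + 1) + θ0 (2 * i + 1) - θ2 i + θ0 (2 * i) := by
    intro i
    have a1 : ek K tG * θ0 i = θ1 (i + 1) - θ3 i := by
      have := r3 i
      rw [← sub_eq_zero, ← this]; abel
    have a2 : θ1 (i + 1) = θ2 (i + 1) + θ0 (2 * i + 1) := by
      have := r2 (i + 1)
      rw [z2] at this
      rw [← sub_eq_zero, ← neg_eq_zero, ← this]; abel
    have a3 : θ3 i = θ2 i - θ0 (2 * i) := by
      rw [← sub_eq_zero, ← r1 i]; abel
    rw [a1, a2, a3]; abel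
  -- the integral around the pentagon
  have hint : θ0 0 + θ0 1 + θ0 2 + θ0 3 + θ0 4 = 0 := by
    apply tG_two (K := K)
    have b0 := r4 0
    have b1 := r4 1
    have b2 := r4 2
    have b3 := r4 3
    have b4 := r4 4
    have e0 : (2 * 0 + 1 : ZMod 5) = 1 := by decide
    have e0' : (2 * 0 : ZMod 5) = 0 := by decide
    have e0'' : (0 + 1 : ZMod 5) = 1 := by decide
    have e1 : (2 * 1 + 1 : ZMod 5) = 3 := by decide
    have e1' : (2 * 1 : ZMod 5) = 2 := by decide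
    have e1'' : (1 + 1 : ZMod 5) = 2 := by decide
    have e2 : (2 * 2 + 1 : ZMod 5) = 0 := by decide
    have e2' : (2 * 2 : ZMod 5) = 4 := by decide
    have e2'' : (2 + 1 : ZMod 5) = 3 := by decide
    have e3 : (2 * 3 + 1 : ZMod 5) = 2 := by decide
    have e3' : (2 * 3 : ZMod 5) = 1 := by decide
    have e3'' : (3 + 1 : ZMod 5) = 4 := by decide
    have e4 : (2 * 4 + 1 : ZMod 5) = 4 := by decide
    have e4' : (2 * 4 : ZMod 5) = 3 := by decide
    have e4'' : (4 + 1 : ZMod 5) = 0 := by decide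
    rw [e0, e0', e0''] at b0
    rw [e1, e1', e1''] at b1
    rw [e2, e2', e2''] at b2
    rw [e3, e3', e3''] at b3
    rw [e4, e4', e4''] at b4
    rw [mul_add, mul_add, mul_add, mul_add, b0, b1, b2, b3, b4]
    abel
  obtain ⟨η, hη⟩ : ∃ η : ZMod 5 → MonoidAlgebra K GG, ∀ j, η (j + 1) - η j = θ0 j := by
    refine ⟨fun j => if j = 0 then 0 else if j = 1 then θ0 0 else if j = 2 then θ0 0 + θ0 1
      else if j = 3 then θ0 0 + θ0 1 + θ0 2 else θ0 0 + θ0 1 + θ0 2 + θ0 3, ?_⟩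
    have d : ∀ j : ZMod 5, j = 0 ∨ j = 1 ∨ j = 2 ∨ j = 3 ∨ j = 4 := by decide
    intro j
    rcases d j with rfl | rfl | rfl | rfl | rfl
    · have e1 : (0 + 1 : ZMod 5) = 1 := by decide
      have e2 : (1 : ZMod 5) ≠ 0 := by decide
      simp [e1, e2]
    · have e1 : (1 + 1 : ZMod 5) = 2 := by decide
      have e2 : (1 : ZMod 5) ≠ 0 := by decide
      have e3 : (2 : ZMod 5) ≠ 0 := by decide
      have e4 : (2 : ZMod 5) ≠ 1 := by decide
      simp [e1, e2, e3, e4]
    · have e1 : (2 + 1 : ZMod 5) = 3 := by decide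
      have e3 : (2 : ZMod 5) ≠ 0 := by decide
      have e4 : (2 : ZMod 5) ≠ 1 := by decide
      have e5 : (3 : ZMod 5) ≠ 0 := by decide
      have e6 : (3 : ZMod 5) ≠ 1 := by decide
      have e7 : (3 : ZMod 5) ≠ 2 := by decide
      simp [e1, e3, e4, e5, e6, e7]
    · have e1 : (3 + 1 : ZMod 5) = 4 := by decide
      have e5 : (3 : ZMod 5) ≠ 0 := by decide
      have e6 : (3 : ZMod 5) ≠ 1 := by decide
      have e7 : (3 : ZMod 5) ≠ 2 := by decide
      have e8 : (4 : ZMod 5) ≠ 0 := by decide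
      have e9 : (4 : ZMod 5) ≠ 1 := by decide
      have e10 : (4 : ZMod 5) ≠ 2 := by decide
      have e11 : (4 : ZMod 5) ≠ 3 := by decide
      simp [e1, e5, e6, e7, e8, e9, e10, e11]
    · have e1 : (4 + 1 : ZMod 5) = 0 := by decide
      have e8 : (4 : ZMod 5) ≠ 0 := by decide
      have e9 : (4 : ZMod 5) ≠ 1 := by decide
      have e10 : (4 : ZMod 5) ≠ 2 := by decide
      have e11 : (4 : ZMod 5) ≠ 3 := by decide
      simp only [e1, e8, e9, e10, e11, if_true, if_false]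
      have q : θ0 4 = -(θ0 0 + θ0 1 + θ0 2 + θ0 3) := by
        rw [eq_neg_iff_add_eq_zero, add_comm]; exact hint
      rw [q]; abel
  -- the constant
  have hg : ∀ i, θ2 (i + 1) + η (2 * (i + 1)) - ek K tG * η (i + 1) =
      θ2 i + η (2 * i) - ek K tG * η i := by
    intro i
    have a1 : ek K tG * η (i + 1) = ek K tG * η i + ek K tG * θ0 i := by
      rw [← mul_add, ← hη i]; congr 1; abel
    have a2 : η (2 * (i + 1)) = η (2 * i) + θ0 (2 * i) + θ0 (2 * i + 1) := by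
      rw [← hη (2 * i), ← hη (2 * i + 1)]
      have : (2 * (i + 1) : ZMod 5) = 2 * i + 1 + 1 := by ring
      rw [this]; abel
    rw [a1, a2, r4 i]; abel
  have hg0 : ∀ i, θ2 i + η (2 * i) - ek K tG * η i =
      θ2 0 + η (2 * 0) - ek K tG * η 0 := by
    have d : ∀ j : ZMod 5, j = 0 ∨ j = 1 ∨ j = 2 ∨ j = 3 ∨ j = 4 := by decide
    have c0 := hg 0
    have c1 := hg 1
    have c2 := hg 2
    have c3 := hg 3
    have e0 : (0 + 1 : ZMod 5) = 1 := by decide
    have e1 : (1 + 1 : ZMod 5) = 2 := by decide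
    have e2 : (2 + 1 : ZMod 5) = 3 := by decide
    have e3 : (3 + 1 : ZMod 5) = 4 := by decide
    rw [e0] at c0
    rw [e1] at c1
    rw [e2] at c2
    rw [e3] at c3
    intro i
    rcases d i with rfl | rfl | rfl | rfl | rfl
    · rfl
    · exact c0
    · exact c1.trans c0
    · exact c2.trans (c1.trans c0)
    · exact c3.trans (c2.trans (c1.trans c0))
  set f0 := θ2 0 + η (2 * 0) - ek K tG * η 0 with hf0
  have k2 : ∀ i, θ2 i = ek K tG * η i + f0 - η (2 * i) := by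
    intro i; rw [← hg0 i]; abel
  have k3 : ∀ i, θ3 i = ek K tG * η i + f0 - η (2 * i + 1) := by
    intro i
    have a3 : θ3 i = θ2 i - θ0 (2 * i) := by
      rw [← sub_eq_zero, ← r1 i]; abel
    rw [a3, k2, ← hη (2 * i)]; abel
  have k1 : ∀ i, θ1 i = ek K tG * η i + f0 - η (2 * i - 1) := by
    intro i
    have a2 : θ1 i = θ2 i + θ0 (2 * i - 1) := by
      rw [← sub_eq_zero, ← neg_eq_zero, ← r2 i]; abel
    rw [a2, k2, ← hη (2 * i - 1), z1]; abel
  refine ⟨fun v => match v with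
    | none => - f0
    | some j => β j + Am K (0, j) * η j, ?_⟩
  have hpt : ∀ i, pt1 (fun v : Option (ZMod 5) => match v with
      | none => - f0
      | some j => β j + Am K (0, j) * η j) i =
      ek K tG * β i + Am K (1, i) * (ek K tG * η i + f0) := by
    intro i
    simp only [pt1, mul_add, mul_neg, sub_neg_eq_add, tG_Am_mul]
    abel
  -- the verification on an edge
  have fin : ∀ {u w : Vx}, adjN u w → ∀ {f bu bw θ eu ew : MonoidAlgebra K GG},
      f - (Am K u * bw - Am K w * bu) = Am K u * (Am K w * θ) → θ = ew - eu →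
      Am K u * (bw + Am K w * ew) - Am K w * (bu + Am K u * eu) = f := by
    intro u w huw f bu bw θ eu ew g1 g2
    have c1 := Am_comm (K := K) huw
    have : Am K w * (Am K u * eu) = Am K u * (Am K w * eu) := by
      rw [← mul_assoc, ← c1, mul_assoc]
    have g3 : f = Am K u * (Am K w * θ) + (Am K u * bw - Am K w * bu) := by rw [← g1]; abel
    rw [g3, g2, mul_add, mul_add, this, mul_sub, mul_sub]
    abel
  funext ⟨c, i⟩
  fin_cases c
  · exact fin (aH i) (h0 i) (hη i).symm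
  · show Am K (0, 2 * i - 1) * pt1 _ i - _ = _
    rw [hpt]
    exact fin (aI' i).2.1 (h1 i) (k1 i)
  · show Am K (0, 2 * i) * pt1 _ i - _ = _
    rw [hpt]
    exact fin (aI i).2.1 (h2 i) (k2 i)
  · show Am K (0, 2 * i + 1) * pt1 _ i - _ = _
    rw [hpt]
    exact fin (aI i).2.2 (h3 i) (k3 i)

/-- The first cohomology vanishes. -/
theorem H1_zero (ψ : Option (ZMod 5) → MonoidAlgebra K GG) (h : cD2 ψ = 0) :
    ∃ x, cD1 x = ψ := by
  have hH : ∀ j, Am K (0, j) * ψ (some (j + 1)) = Am K (0, j + 1) * ψ (some j) := fun j =>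
    sub_eq_zero.1 (congrFun h (0, j))
  have h2 : ∀ i, Am K (0, 2 * i) * pt1 ψ i = Am K (1, i) * ψ (some (2 * i)) := fun i =>
    sub_eq_zero.1 (congrFun h (2, i))
  choose η hη1 hη2 using fun j => Am_reg2 (aH j) (hH j)
  have hs : ∀ j, η (j + 1) = η j := by
    intro j
    have h1 : Am K (0, j + 1) * (η (j + 1) - η j) = 0 := by
      rw [mul_sub, ← hη1 j, ← hη2 (j + 1), sub_self]
    have := Am_reg1 h1
    rwa [sub_eq_zero] at this
  have hs0 : ∀ i, η i = η 0 := by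
    have d : ∀ j : ZMod 5, j = 0 ∨ j = 1 ∨ j = 2 ∨ j = 3 ∨ j = 4 := by decide
    have c0 := hs 0
    have c1 := hs 1
    have c2 := hs 2
    have c3 := hs 3
    have e0 : (0 + 1 : ZMod 5) = 1 := by decide
    have e1 : (1 + 1 : ZMod 5) = 2 := by decide
    have e2 : (2 + 1 : ZMod 5) = 3 := by decide
    have e3 : (3 + 1 : ZMod 5) = 4 := by decide
    rw [e0] at c0
    rw [e1] at c1
    rw [e2] at c2
    rw [e3] at c3
    intro i
    rcases d i with rfl | rfl | rfl | rfl | rfl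
    · rfl
    · exact c0
    · exact c1.trans c0
    · exact c2.trans (c1.trans c0)
    · exact c3.trans (c2.trans (c1.trans c0))
  have hψ : ∀ j, ψ (some j) = Am K (0, j) * η 0 := by
    intro j; rw [hη2 j, hs0 j]
  refine ⟨η 0, ?_⟩
  funext v
  rcases v with _ | j
  · show (ek K tG - 1) * η 0 = ψ none
    have h3 := h2 0
    have h4 : Am K (0, 2 * 0) * (pt1 ψ 0 - Am K (1, 0) * η 0) = 0 := by
      rw [mul_sub, h3, hψ, ← mul_assoc, ← mul_assoc, Am_comm (aI 0).2.1, sub_self]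
    have h5 := Am_reg1 h4
    have h6 : Am K (1, 0) * (ek K tG * η 0 - ψ none - η 0) = 0 := by
      rw [← h5, pt1, hψ, tG_Am_mul, mul_sub, mul_sub]
    have h7 := Am_reg1 h6
    rw [sub_mul, one_mul, ← sub_eq_zero, ← h7]; abel
  · exact (hψ j).symm

theorem H0_zero (x : MonoidAlgebra K GG) (h : cD1 x = 0) : x = 0 :=
  Am_reg1 (congrFun h (some 0))

end coh

end Pool.Agent.Helper80.Kr
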