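import Mathlib
import Pool.Agent.Helper80.KrCoh

/-!
# The third cohomology is not free
-/

namespace Pool.Agent.Helper80.Kr

open MonoidAlgebra SemidirectProduct

section nf

variable {K : Type} [CommRing K]

/-- The cochain concentrated on one edge. -/
noncomputable def eC (r : Fin 4 × ZMod 5) (p q : Vx) (ν : MonoidAlgebra K GG) :
    Fin 4 × ZMod 5 → MonoidAlgebra K GG := fun s => if s = r then Am K p * (Am K q * ν) else 0

/-- The cochain concentrated on one triangle. -/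
noncomputable def tC (r : Fin 3 × ZMod 5) (p q s : Vx) (ν : MonoidAlgebra K GG) :
    Fin 3 × ZMod 5 → MonoidAlgebra K GG :=
  fun x => if x = r then Am K p * (Am K q * (Am K s * ν)) else 0

theorem Am_comm_mul {p q : Vx} (h : adjN p q) (x : MonoidAlgebra K GG) :
    Am K p * (Am K q * x) = Am K q * (Am K p * x) := by
  rw [← mul_assoc, Am_comm h, mul_assoc]

theorem cD3_c1 (i : ZMod 5) (ν : MonoidAlgebra K GG) :
    cD3 (eC (1, i) (0, 2 * i - 1) (1, i) ν) =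
      - tC (1, i) (0, 2 * i - 1) (0, 2 * i) (1, i) ν
      - tC (2, i - 1) (0, 2 * (i - 1) + 1) (1, i - 1) (1, i) ν := by
  obtain ⟨a1, a2, a3⟩ := aI' i
  obtain ⟨b1, b2, b3⟩ := aII (i - 1)
  funext ⟨c, j⟩
  fin_cases c
  · simp [cD3, eC, tC]
  · by_cases hj : j = i
    · subst hj
      simp [cD3, eC, tC, Am_comm_mul a1]
    · simp [cD3, eC, tC, hj]
  · by_cases hj : j = i - 1
    · subst hj
      have e : 2 * (i - 1) + 1 = 2 * i - 1 := by ring
      rw [e] at b1 b2 ⊢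
      rw [sub_add_cancel] at b2 b3
      simp [cD3, eC, tC, Am_comm_mul b1]
    · have hj2 : j + 1 ≠ i := fun e => hj (eq_sub_of_add_eq e)
      simp [cD3, eC, tC, hj, hj2]

theorem cD3_c2 (i : ZMod 5) (ν : MonoidAlgebra K GG) :
    cD3 (eC (2, i) (0, 2 * i) (1, i) ν) =
      - tC (0, i) (0, 2 * i) (0, 2 * i + 1) (1, i) ν
      + tC (1, i) (0, 2 * i - 1) (0, 2 * i) (1, i) ν := by
  obtain ⟨a1, a2, a3⟩ := aI i
  funext ⟨c, j⟩
  fin_cases c
  · by_cases hj : j = i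
    · subst hj
      simp [cD3, eC, tC, Am_comm_mul a1]
    · simp [cD3, eC, tC, hj]
  · by_cases hj : j = i
    · subst hj
      simp [cD3, eC, tC]
    · simp [cD3, eC, tC, hj]
  · simp [cD3, eC, tC]

theorem cD3_c3 (i : ZMod 5) (ν : MonoidAlgebra K GG) :
    cD3 (eC (3, i) (0, 2 * i + 1) (1, i) ν) =
      tC (0, i) (0, 2 * i) (0, 2 * i + 1) (1, i) ν
      + tC (2, i) (0, 2 * i + 1) (1, i) (1, i + 1) ν := by
  obtain ⟨b1, b2, b3⟩ := aII i
  funext ⟨c, j⟩
  fin_cases c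
  · by_cases hj : j = i
    · subst hj
      simp [cD3, eC, tC]
    · simp [cD3, eC, tC, hj]
  · simp [cD3, eC, tC]
  · by_cases hj : j = i
    · subst hj
      simp [cD3, eC, tC]
      rw [← Am_comm_mul b2, ← Am_comm_mul b3]
    · simp [cD3, eC, tC, hj]

theorem cD3_h (ν : MonoidAlgebra K GG) :
    cD3 (eC (0, 0) (0, 0) (0, 1) ν) =
      tC (0, 0) (0, 0) (0, 1) (1, 0) ν
      + tC (1, 3) (0, 0) (0, 1) (1, 3) ν
      + tC (2, 0) (0, 1) (1, 0) (1, 1) (ek K tG * ν) := by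
  obtain ⟨a1, a2, a3⟩ := aI 0
  obtain ⟨a1', a2', a3'⟩ := aI' 3
  obtain ⟨b1, b2, b3⟩ := aII 0
  have e3 : (2 * 3 - 1 : ZMod 5) = 0 := by decide
  have e4 : (2 * 3 : ZMod 5) = 1 := by decide
  rw [e3, e4] at a1'
  rw [e3] at a2'
  rw [e4] at a3'
  simp only [mul_zero, zero_add] at a1 a2 a3 b1 b2 b3
  funext ⟨c, j⟩
  fin_cases c
  · by_cases hj : j = 0
    · subst hj
      simp [cD3, eC, tC]
      rw [← Am_comm_mul a2, ← Am_comm_mul a3]
    · have h2 : ¬ (2 * j = 0) := fun e => hj (by revert j; decide)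
      simp [cD3, eC, tC, hj, h2]
  · by_cases hj : j = 3
    · subst hj
      simp [cD3, eC, tC, e3]
      rw [← Am_comm_mul a2', ← Am_comm_mul a3']
    · have h2 : ¬ (2 * j - 1 = 0) := fun e => hj (by revert j; decide)
      simp [cD3, eC, tC, hj, h2]
  · by_cases hj : j = 0
    · subst hj
      simp [cD3, eC, tC, tG_Am_mul]
    · simp [cD3, eC, tC, hj]

/-- The third coboundary as a homomorphism. -/
noncomputable def cD3H : (Fin 4 × ZMod 5 → MonoidAlgebra K GG) →+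
    (Fin 3 × ZMod 5 → MonoidAlgebra K GG) where
  toFun := cD3
  map_zero' := by
    funext ⟨c, j⟩
    fin_cases c <;> simp [cD3]
  map_add' f g := by
    funext ⟨c, j⟩
    fin_cases c <;> simp [cD3, mul_add] <;> abel

/-- The triangles. -/
noncomputable def TT (c : Fin 3) (i : ZMod 5) (ν : MonoidAlgebra K GG) :
    Fin 3 × ZMod 5 → MonoidAlgebra K GG :=
  match c with
  | 0 => tC (0, i) (0, 2 * i) (0, 2 * i + 1) (1, i) ν
  | 1 => tC (1, i) (0, 2 * i - 1) (0, 2 * i) (1, i) ν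
  | 2 => tC (2, i) (0, 2 * i + 1) (1, i) (1, i + 1) ν

theorem mem_c1 (i j : ZMod 5) (hj : j + 1 = i) (ν : MonoidAlgebra K GG) :
    - TT 1 i ν - TT 2 j ν ∈ (cD3H (K := K)).range := by
  subst hj
  refine ⟨_, (cD3_c1 (j + 1) ν).trans ?_⟩
  simp [TT]

theorem mem_c2 (i : ZMod 5) (ν : MonoidAlgebra K GG) :
    - TT 0 i ν + TT 1 i ν ∈ (cD3H (K := K)).range :=
  ⟨_, cD3_c2 i ν⟩

theorem mem_c3 (i : ZMod 5) (ν : MonoidAlgebra K GG) :
    TT 0 i ν + TT 2 i ν ∈ (cD3H (K := K)).range :=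
  ⟨_, cD3_c3 i ν⟩

theorem mem_h (ν : MonoidAlgebra K GG) :
    TT 0 0 ν + TT 1 3 ν + TT 2 0 (ek K tG * ν) ∈ (cD3H (K := K)).range := by
  refine ⟨_, (cD3_h ν).trans ?_⟩
  have e3 : (2 * 3 - 1 : ZMod 5) = 0 := by decide
  have e4 : (2 * 3 : ZMod 5) = 1 := by decide
  simp [TT, e4]

theorem two_U (ν : MonoidAlgebra K GG) :
    TT 0 0 ν + TT 0 0 ν - TT 0 0 (ek K tG * ν) ∈ (cD3H (K := K)).range := by
  have h := mem_h (K := K) ν
  have a := mem_c3 (K := K) 0 (ek K tG * ν)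
  have b1 := mem_c2 (K := K) 3 ν
  have b2 := mem_c3 (K := K) 3 ν
  have b3 := mem_c1 (K := K) 4 3 (by decide) ν
  have b4 := mem_c2 (K := K) 4 ν
  have b5 := mem_c3 (K := K) 4 ν
  have b6 := mem_c1 (K := K) 0 4 (by decide) ν
  have b7 := mem_c2 (K := K) 0 ν
  have key := sub_mem (sub_mem h a)
    (add_mem (add_mem (add_mem (add_mem (add_mem (add_mem b1 b2) b3) b4) b5) b6) b7)
  convert key using 1
  abel

theorem div_U (n : ℕ) : ∀ ν : MonoidAlgebra K GG,
    ∃ ν', TT 0 0 ν - 2 ^ n • TT 0 0 ν' ∈ (cD3H (K := K)).range := by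
  induction n with
  | zero => intro ν; exact ⟨ν, by rw [pow_zero, one_smul, sub_self]; exact zero_mem _⟩
  | succ n ih =>
    intro ν
    obtain ⟨ν', h⟩ := ih ν
    refine ⟨ek K (tk (-1)) * ν', ?_⟩
    have h2 := two_U (K := K) (ek K (tk (-1)) * ν')
    have e : ek K tG * (ek K (tk (-1)) * ν') = ν' := by
      rw [← mul_assoc, ek_mul, tk_mul]
      have : (1 : ℤ) + -1 = 0 := by norm_num
      rw [this, tk_zero, ek_one, one_mul]
    rw [e] at h2
    have h3 := sub_mem h (nsmul_mem h2 (2 ^ n))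
    convert h3 using 1
    rw [pow_succ, mul_smul, two_smul, smul_sub, smul_add]
    abel

/-- The character with value two on all generators. -/
noncomputable def rho0 : GG →* ℚˣ :=
  SemidirectProduct.lift (lift (fun _ => Units.mk0 2 two_ne_zero) (fun _ _ _ => mul_comm _ _))
    (zpowersHom _ (Units.mk0 2 two_ne_zero)) (by
      intro g
      apply hom_ext
      intro p
      have h1 : phi g (gen adjN p) = gen adjN (shV (Multiplicative.toAdd g) p) :=
        shA_gen (Multiplicative.toAdd g) p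
      rw [MonoidHom.comp_apply, MonoidHom.comp_apply]
      show (lift _ _) (phi g (gen adjN p)) = _
      rw [h1, lift_gen, lift_gen, MulEquiv.coe_toMonoidHom, MulAut.conj_apply,
        mul_inv_cancel_comm])

theorem rho0_aG (p : Vx) : ((rho0 (aG p) : ℚˣ) : ℚ) = 2 := by
  simp [rho0, aG]

theorem rho0_tG : ((rho0 tG : ℚˣ) : ℚ) = 2 := by
  simp [rho0, tk]

/-- The ring homomorphism. -/
noncomputable def rho : MonoidAlgebra ℤ GG →ₐ[ℤ] ℚ :=
  MonoidAlgebra.lift ℤ ℚ GG ((Units.coeHom ℚ).comp rho0)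

theorem rho_ek (g : GG) : rho (ek ℤ g) = ((rho0 g : ℚˣ) : ℚ) := by
  simp [rho, ek]

theorem rho_Am (p : Vx) : rho (Am ℤ p) = 1 := by
  rw [Am, map_sub, map_one, rho_ek, rho0_aG]; norm_num

/-- The functional. -/
noncomputable def FF (φ : Fin 3 × ZMod 5 → MonoidAlgebra ℤ GG) : ℚ :=
  ∑ i : ZMod 5, (rho (φ (0, i)) + rho (φ (1, i)) - rho (φ (2, i)))

theorem FF_add (φ ψ : Fin 3 × ZMod 5 → MonoidAlgebra ℤ GG) : FF (φ + ψ) = FF φ + FF ψ := by
  simp only [FF, Pi.add_apply, map_add]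
  rw [← Finset.sum_add_distrib]
  refine Finset.sum_congr rfl fun i _ => ?_
  ring

theorem FF_cD3 (φ : Fin 4 × ZMod 5 → MonoidAlgebra ℤ GG) : FF (cD3 φ) = 0 := by
  have d : ∀ f : ZMod 5 → ℚ, ∑ i, f i = f 0 + f 1 + f 2 + f 3 + f 4 := by
    intro f
    exact Fin.sum_univ_five f
  rw [FF, d]
  simp only [cD3, map_add, map_sub, map_mul, rho_Am, rho_ek, rho0_tG, one_mul]
  have e0 : (2 * 0 - 1 : ZMod 5) = 4 := by decide
  have e0' : (2 * 0 : ZMod 5) = 0 := by decide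
  have e0'' : (0 + 1 : ZMod 5) = 1 := by decide
  have e1 : (2 * 1 - 1 : ZMod 5) = 1 := by decide
  have e1' : (2 * 1 : ZMod 5) = 2 := by decide
  have e1'' : (1 + 1 : ZMod 5) = 2 := by decide
  have e2 : (2 * 2 - 1 : ZMod 5) = 3 := by decide
  have e2' : (2 * 2 : ZMod 5) = 4 := by decide
  have e2'' : (2 + 1 : ZMod 5) = 3 := by decide
  have e3 : (2 * 3 - 1 : ZMod 5) = 0 := by decide
  have e3' : (2 * 3 : ZMod 5) = 1 := by decide
  have e3'' : (3 + 1 : ZMod 5) = 4 := by decide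
  have e4 : (2 * 4 - 1 : ZMod 5) = 2 := by decide
  have e4' : (2 * 4 : ZMod 5) = 3 := by decide
  have e4'' : (4 + 1 : ZMod 5) = 0 := by decide
  rw [e0, e0', e0'', e1, e1', e1'', e2, e2', e2'', e3, e3', e3'', e4, e4', e4'']
  ring

theorem FF_U : FF (TT 0 0 1) = 1 := by
  have d : ∀ f : ZMod 5 → ℚ, ∑ i, f i = f 0 + f 1 + f 2 + f 3 + f 4 := by
    intro f
    exact Fin.sum_univ_five f
  rw [FF, d]
  have e1 : (1 : ZMod 5) ≠ 0 := by decide
  have e2 : (2 : ZMod 5) ≠ 0 := by decide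
  have e3 : (3 : ZMod 5) ≠ 0 := by decide
  have e4 : (4 : ZMod 5) ≠ 0 := by decide
  simp [TT, tC, e1, e2, e3, e4, rho_Am]

end nf

end Pool.Agent.Helper80.Kr
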