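import Mathlib
import Pool.Agent.Helper80.KrNF

/-!
# The third cohomology is torsion-free
-/

namespace Pool.Agent.Helper80.Kr

open MonoidAlgebra

section tf

variable {K : Type} [CommRing K]

/-- The basic cancellation. -/
theorem cancel3 {x y z : Vx} (hxy : adjN x y) (hxz : adjN x z) (hyz : adjN y z)
    (bx by' bz : MonoidAlgebra K GG) :
    Am K x * (Am K y * bz - Am K z * by') - Am K y * (Am K x * bz - Am K z * bx) +
      Am K z * (Am K x * by' - Am K y * bx) = 0 := by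
  simp only [mul_sub]
  rw [Am_comm_mul hxy bz, Am_comm_mul hxz by', Am_comm_mul hyz bx]
  abel

theorem cD3_cD2 (ψ : Option (ZMod 5) → MonoidAlgebra K GG) : cD3 (cD2 ψ) = 0 := by
  funext ⟨c, i⟩
  fin_cases c
  · exact cancel3 (aI i).1 (aI i).2.1 (aI i).2.2 _ _ _
  · have h := cancel3 (aI' i).1 (aI' i).2.1 (aI' i).2.2 (ψ (some (2 * i - 1))) (ψ (some (2 * i)))
      (pt1 ψ i)
    show Am K (0, 2 * i - 1) * cD2 ψ (2, i) - Am K (0, 2 * i) * cD2 ψ (1, i) +
      Am K (1, i) * cD2 ψ (0, 2 * i - 1) = 0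
    simp only [cD2]
    rw [z1]
    exact h
  · have h := cancel3 (aII i).1 (aII i).2.1 (aII i).2.2 (ψ (some (2 * i + 1))) (pt1 ψ i)
      (pt1 ψ (i + 1))
    have e1 : ek K tG * cD2 ψ (0, i) = Am K (1, i) * pt1 ψ (i + 1) - Am K (1, i + 1) * pt1 ψ i := by
      simp only [cD2, pt1, mul_sub, tG_Am_mul]
      rw [Am_comm_mul (aII i).2.2]
      abel
    show Am K (0, 2 * i + 1) * (ek K tG * cD2 ψ (0, i)) - Am K (1, i) * cD2 ψ (1, i + 1) +
      Am K (1, i + 1) * cD2 ψ (3, i) = 0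
    rw [e1]
    simp only [cD2]
    rw [z2]
    exact h

/-- The reduction of the coefficients. -/
noncomputable def red (k : ℕ) : MonoidAlgebra ℤ GG →+* MonoidAlgebra (ZMod k) GG :=
  mapRingHom GG (Int.castRingHom (ZMod k))

theorem red_surj (k : ℕ) : Function.Surjective (red k) :=
  map_surjective (Int.castRingHom (ZMod k) : ℤ →+ ZMod k) (ZMod.intCast_surjective)

theorem red_ker (k : ℕ) {x : MonoidAlgebra ℤ GG} (h : red k x = 0) :
    ∃ y : MonoidAlgebra ℤ GG, x = k • y := by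
  refine ⟨.ofCoeff (x.coeff.mapRange (fun n => n / (k : ℤ)) (by simp)), ?_⟩
  ext g
  have h1 : ((x.coeff g : ℤ) : ZMod k) = 0 := by
    have := congrArg (fun z => z.coeff g) h
    simpa [red] using this
  rw [ZMod.intCast_zmod_eq_zero_iff_dvd] at h1
  rw [coeff_smul, Finsupp.smul_apply, nsmul_eq_mul]
  exact (Int.mul_ediv_cancel' h1).symm

theorem red_ek (k : ℕ) (g : GG) : red k (ek ℤ g) = ek (ZMod k) g := by
  show MonoidAlgebra.map _ _ = _
  rw [MonoidAlgebra.map_single]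
  simp

theorem red_Am (k : ℕ) (p : Vx) : red k (Am ℤ p) = Am (ZMod k) p := by
  rw [Am, Am, map_sub, map_one, red_ek]

theorem red_cD3 (k : ℕ) (φ : Fin 4 × ZMod 5 → MonoidAlgebra ℤ GG) :
    (fun r => red k (cD3 φ r)) = cD3 (fun r => red k (φ r)) := by
  funext ⟨c, i⟩
  fin_cases c <;> simp [cD3, map_add, map_sub, map_mul, red_Am, red_ek]

theorem red_cD2 (k : ℕ) (φ : Option (ZMod 5) → MonoidAlgebra ℤ GG) :
    (fun r => red k (cD2 φ r)) = cD2 (fun r => red k (φ r)) := by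
  funext ⟨c, i⟩
  fin_cases c <;> simp [cD2, pt1, map_sub, map_mul, red_Am, red_ek]

theorem cD3_sub (φ ψ : Fin 4 × ZMod 5 → MonoidAlgebra K GG) :
    cD3 (φ - ψ) = cD3 φ - cD3 ψ := map_sub cD3H φ ψ

theorem cD3_nsmul (n : ℕ) (φ : Fin 4 × ZMod 5 → MonoidAlgebra K GG) :
    cD3 (n • φ) = n • cD3 φ := map_nsmul cD3H n φ

theorem torsion_free (k : ℕ) (hk : 0 < k) (f : Fin 4 × ZMod 5 → MonoidAlgebra ℤ GG)
    (g : Fin 3 × ZMod 5 → MonoidAlgebra ℤ GG) (h : cD3 f = k • g) : ∃ f', cD3 f' = g := by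
  have h1 : cD3 (fun r => red k (f r)) = 0 := by
    rw [← red_cD3, h]
    funext r
    rw [Pi.smul_apply, map_nsmul, Pi.zero_apply]
    ext x
    rw [coeff_smul, Finsupp.smul_apply, nsmul_eq_mul, ZMod.natCast_self, zero_mul]
    rfl
  obtain ⟨ψ, hψ⟩ := H2_zero _ h1
  choose ψ' hψ' using fun v => red_surj k (ψ v)
  have h2 : ∀ r, red k ((f - cD2 ψ') r) = 0 := by
    intro r
    have e1 := congrFun (red_cD2 k ψ') r
    have e2 : (fun v => red k (ψ' v)) = ψ := funext hψ'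
    rw [e2, hψ] at e1
    rw [Pi.sub_apply, map_sub, e1, sub_self]
  choose f' hf' using fun r => red_ker k (h2 r)
  refine ⟨f', ?_⟩
  have h3 : f - cD2 ψ' = k • f' := funext hf'
  have h4 : k • cD3 f' = k • g := by
    rw [← cD3_nsmul, ← h3, cD3_sub, cD3_cD2, sub_zero, h]
  have h5 : (k : ℤ) ≠ 0 := by exact_mod_cast hk.ne'
  funext r
  ext x
  have h6 := congrArg (fun z => (z r).coeff x) h4
  simp only [Pi.smul_apply] at h6
  rw [coeff_smul, coeff_smul, Finsupp.smul_apply, Finsupp.smul_apply, nsmul_eq_mul,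
    nsmul_eq_mul] at h6
  exact mul_left_cancel₀ h5 h6

end tf

end Pool.Agent.Helper80.Kr
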