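import Mathlib
import Pool.Agent.Helper80.KrTF

/-!
# The level components of an element of the group ring
-/

namespace Pool.Agent.Helper80.Kr

open MonoidAlgebra SemidirectProduct

section comp

/-- The embedding of a level. -/
def lev (k : ℤ) (a : AA) : GG := ⟨a, Multiplicative.ofAdd k⟩

theorem lev_inj (k : ℤ) : Function.Injective (lev k) := by
  intro a b h
  exact congrArg (fun g : GG => g.left) h

/-- The component of level `k`. -/
noncomputable def comp (k : ℤ) : MonoidAlgebra ℤ GG →+ RR adjN :=
  comapDomainAddMonoidHom (lev k) (lev_inj k)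

theorem coeff_comp (k : ℤ) (x : MonoidAlgebra ℤ GG) (a : AA) :
    (comp k x).coeff a = x.coeff (lev k a) := rfl

theorem comp_single (k : ℤ) (g : GG) (n : ℤ) :
    comp k (single g n) = if Multiplicative.toAdd g.right = k then single g.left n else 0 := by
  by_cases h : Multiplicative.toAdd g.right = k
  · rw [if_pos h]
    have h2 : g = lev k g.left := by
      rw [← h]; rfl
    conv_lhs => rw [h2]
    exact comapDomain_single_map (lev k) (lev_inj k) g.left n
  · rw [if_neg h]
    refine comapDomain_single_of_not_mem_range ?_ (lev_inj k)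
    rintro ⟨a, rfl⟩
    exact h rfl

theorem comp_mul_aG (k : ℤ) (x : MonoidAlgebra ℤ GG) (p : Vx) :
    comp k (x * ek ℤ (aG p)) = comp k x * el (gen adjN (shV k p)) := by
  induction x using MonoidAlgebra.induction_linear with
  | zero => simp
  | add x y hx hy => rw [add_mul, map_add, hx, hy, map_add, add_mul]
  | single g n =>
    rw [single_mul_single, mul_one, comp_single, comp_single]
    have h1 : (g * aG p).right = g.right := by simp [aG]
    have h2 : (g * aG p).left = g.left * gen adjN (shV (Multiplicative.toAdd g.right) p) := by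
      have : phi g.right (gen adjN p) = gen adjN (shV (Multiplicative.toAdd g.right) p) :=
        shA_gen _ p
      simp [aG, this]
    rw [h1, h2]
    by_cases h : Multiplicative.toAdd g.right = k
    · rw [if_pos h, if_pos h, h, single_mul_single, mul_one]
    · rw [if_neg h, if_neg h, zero_mul]

theorem comp_mul_tk (k l : ℤ) (x : MonoidAlgebra ℤ GG) :
    comp k (x * ek ℤ (tk l)) = comp (k - l) x := by
  induction x using MonoidAlgebra.induction_linear with
  | zero => simp
  | add x y hx hy => rw [add_mul, map_add, hx, hy, map_add]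
  | single g n =>
    rw [single_mul_single, mul_one, comp_single, comp_single]
    have h1 : Multiplicative.toAdd (g * tk l).right = Multiplicative.toAdd g.right + l := by
      simp [tk]
    have h2 : (g * tk l).left = g.left := by simp [tk]
    rw [h1, h2]
    by_cases h : Multiplicative.toAdd g.right = k - l
    · rw [if_pos h, if_pos (by omega)]
    · rw [if_neg h, if_neg (by omega)]

theorem comp_mul_Am (k : ℤ) (x : MonoidAlgebra ℤ GG) (p : Vx) :
    comp k (x * Am ℤ p) = comp k x * (el (gen adjN (shV k p)) - 1) := by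
  rw [Am, mul_sub, mul_one, map_sub, comp_mul_aG, mul_sub, mul_one]

theorem comp_ext {x y : MonoidAlgebra ℤ GG} (h : ∀ k, comp k x = comp k y) : x = y := by
  ext g
  have h1 := congrArg (fun z => z.coeff g.left) (h (Multiplicative.toAdd g.right))
  simp only [coeff_comp] at h1
  exact h1

/-- The levels of `x` are bounded by `N`. -/
def Bd (N : ℕ) (x : MonoidAlgebra ℤ GG) : Prop := ∀ k : ℤ, (N : ℤ) < |k| → comp k x = 0

theorem Bd.mono {N M : ℕ} {x : MonoidAlgebra ℤ GG} (h : Bd N x) (hNM : N ≤ M) : Bd M x := by
  intro k hk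
  exact h k (lt_of_le_of_lt (by exact_mod_cast hNM) hk)

theorem exists_Bd (x : MonoidAlgebra ℤ GG) : ∃ N, Bd N x := by
  induction x using MonoidAlgebra.induction_linear with
  | zero => exact ⟨0, fun k _ => by simp⟩
  | add x y hx hy =>
    obtain ⟨N, hN⟩ := hx
    obtain ⟨M, hM⟩ := hy
    refine ⟨max N M, fun k hk => ?_⟩
    rw [map_add, (hN.mono (le_max_left N M)) k hk, (hM.mono (le_max_right N M)) k hk, add_zero]
  | single g n =>
    refine ⟨(Multiplicative.toAdd g.right).natAbs, fun k hk => ?_⟩
    rw [comp_single, if_neg]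
    intro h
    rw [h, Int.natCast_natAbs] at hk
    exact lt_irrefl _ hk

theorem exists_Bd_fun {ι : Type} [Fintype ι] (x : ι → MonoidAlgebra ℤ GG) :
    ∃ N, ∀ i, Bd N (x i) := by
  choose f hf using fun i => exists_Bd (x i)
  refine ⟨∑ i, f i, fun i => (hf i).mono ?_⟩
  exact Finset.single_le_sum (f := f) (fun _ _ => Nat.zero_le _) (Finset.mem_univ i)

theorem comp_mapDomain (k l : ℤ) (y : RR adjN) :
    comp k (mapDomain (lev l) y) = if l = k then y else 0 := by
  induction y using MonoidAlgebra.induction_linear with
  | zero => simp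
  | add x y hx hy => rw [mapDomain_add, map_add, hx, hy]; split_ifs <;> simp
  | single g n => rw [mapDomain_single, comp_single]; rfl

theorem exists_comp (N : ℕ) (z : ℤ → RR adjN) (hz : ∀ k : ℤ, (N : ℤ) < |k| → z k = 0) :
    ∃ x, ∀ k, comp k x = z k := by
  refine ⟨∑ l ∈ Finset.Icc (-(N : ℤ)) N, mapDomain (lev l) (z l), fun k => ?_⟩
  rw [map_sum]
  simp only [comp_mapDomain]
  rw [Finset.sum_ite_eq']
  by_cases h : k ∈ Finset.Icc (-(N : ℤ)) N
  · rw [if_pos h]
  · rw [if_neg h, hz k]
    rw [Finset.mem_Icc, ← abs_le] at h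
    exact not_le.1 h

/-- The augmentation killing the stable letter. -/
noncomputable def alpha0 : MonoidAlgebra ℤ GG →+ RR adjN where
  toFun := mapDomain (fun g : GG => g.left)
  map_zero' := mapDomain_zero _
  map_add' := mapDomain_add _

theorem alpha0_single (g : GG) (n : ℤ) : alpha0 (single g n) = single g.left n :=
  mapDomain_single

theorem alpha0_mapDomain (l : ℤ) (y : RR adjN) : alpha0 (mapDomain (lev l) y) = y := by
  induction y using MonoidAlgebra.induction_linear with
  | zero => simp
  | add x y hx hy => rw [mapDomain_add, map_add, hx, hy]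
  | single g n => rw [mapDomain_single, alpha0_single]; rfl

theorem alpha0_eq_sum {N : ℕ} {x : MonoidAlgebra ℤ GG} (h : Bd N x) :
    alpha0 x = ∑ k ∈ Finset.Icc (-(N : ℤ)) N, comp k x := by
  have h1 : x = ∑ l ∈ Finset.Icc (-(N : ℤ)) N, mapDomain (lev l) (comp l x) := by
    apply comp_ext
    intro k
    rw [map_sum]
    simp only [comp_mapDomain]
    rw [Finset.sum_ite_eq']
    by_cases hk : k ∈ Finset.Icc (-(N : ℤ)) N
    · rw [if_pos hk]
    · rw [if_neg hk, h k]
      rw [Finset.mem_Icc, ← abs_le] at hk
      exact not_le.1 hk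
  conv_lhs => rw [h1]
  rw [map_sum]
  exact Finset.sum_congr rfl fun k _ => alpha0_mapDomain k _

theorem alpha0_tG (x : MonoidAlgebra ℤ GG) : alpha0 (x * (ek ℤ tG - 1)) = 0 := by
  induction x using MonoidAlgebra.induction_linear with
  | zero => simp
  | add x y hx hy => rw [add_mul, map_add, hx, hy, add_zero]
  | single g n =>
    rw [mul_sub, mul_one, single_mul_single, mul_one, map_sub, alpha0_single, alpha0_single]
    have h2 : (g * tG).left = g.left := by simp [tk]
    rw [h2, sub_self]

end comp

end Pool.Agent.Helper80.Kr
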