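import Mathlib
import Pool.Agent.Helper80.KrComp

/-!
# Chains on vertices, edges and triangles
-/

namespace Pool.Agent.Helper80.Kr

open MonoidAlgebra

section alpha

/-- The pair `(p, q)` is a shift of `(u, w)`. -/
def C2 (u w p q : Vx) : Prop := p.2 = u.2 ∧ q.2 = w.2 ∧ q.1 - w.1 = p.1 - u.1

instance (u w p q : Vx) : Decidable (C2 u w p q) := by unfold C2; infer_instance

/-- The triple `(p, q, r)` is a shift of `(u, w, s)`. -/
def C3 (u w s p q r : Vx) : Prop :=
  p.2 = u.2 ∧ q.2 = w.2 ∧ r.2 = s.2 ∧ q.1 - w.1 = p.1 - u.1 ∧ r.1 - s.1 = p.1 - u.1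

instance (u w s p q r : Vx) : Decidable (C3 u w s p q r) := by unfold C3; infer_instance

/-- The chain on vertices. -/
noncomputable def del1 (x : MonoidAlgebra ℤ GG) (u p : Vx) : RR adjN :=
  if p.2 = u.2 then comp (p.1 - u.1) x else 0

/-- The chain on ordered pairs. -/
noncomputable def del2 (x : MonoidAlgebra ℤ GG) (u w p q : Vx) : RR adjN :=
  if C2 u w p q then comp (p.1 - u.1) x else 0

/-- The chain on ordered triples. -/
noncomputable def del3 (x : MonoidAlgebra ℤ GG) (u w s p q r : Vx) : RR adjN :=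
  if C3 u w s p q r then comp (p.1 - u.1) x else 0

/-- The chain on edges. -/
noncomputable def D2 (x : MonoidAlgebra ℤ GG) (u w p q : Vx) : RR adjN :=
  del2 x u w p q - del2 x u w q p

/-- The chain on triangles. -/
noncomputable def D3 (x : MonoidAlgebra ℤ GG) (u w s p q r : Vx) : RR adjN :=
  del3 x u w s p q r - del3 x u w s q p r + del3 x u w s q r p - del3 x u w s p r q +
    del3 x u w s r p q - del3 x u w s r q p

/-- A large finite set of vertices. -/
noncomputable def WW (N : ℕ) : Finset Vx := Finset.Icc (-(N : ℤ) - 1) (N + 1) ×ˢ Finset.univ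

theorem mem_WW {N : ℕ} {p : Vx} : p ∈ WW N ↔ -(N : ℤ) - 1 ≤ p.1 ∧ p.1 ≤ N + 1 := by
  simp [WW]

theorem comp_of_notMem {N : ℕ} {x : MonoidAlgebra ℤ GG} (hx : Bd N x) {p : Vx} (hp : p ∉ WW N)
    {k : ℤ} (h1 : k ≤ p.1) (h2 : p.1 ≤ k + 1) : comp k x = 0 := by
  apply hx
  rw [mem_WW] at hp
  rw [lt_abs]
  omega

theorem bd1_one {W : Finset Vx} {f : Vx → RR adjN} {p0 : Vx} (h : ∀ p, p ≠ p0 → f p = 0)
    (h0 : p0 ∉ W → f p0 = 0) :
    bd1 (gen adjN) W f = f p0 * (el (gen adjN p0) - 1) := by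
  rw [bd1, Finset.sum_eq_single p0]
  · intro p _ hp; rw [h p hp, zero_mul]
  · intro hp; rw [h0 hp, zero_mul]

theorem bd1_zero' {W : Finset Vx} {f : Vx → RR adjN} (h : ∀ p, f p = 0) :
    bd1 (gen adjN) W f = 0 := by
  rw [bd1]; exact Finset.sum_eq_zero fun p _ => by rw [h, zero_mul]

variable {N : ℕ} {x : MonoidAlgebra ℤ GG} (hx : Bd N x)

include hx

theorem bd_del2_fst {u w : Vx} (hu : 0 ≤ u.1 ∧ u.1 ≤ 1) (q : Vx) :
    bd1 (gen adjN) (WW N) (fun p => del2 x u w p q) = del1 (x * Am ℤ u) w q := by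
  by_cases h : q.2 = w.2
  · have e1 : C2 u w (q.1 - w.1 + u.1, u.2) q := ⟨rfl, h, by simp⟩
    rw [bd1_one (p0 := (q.1 - w.1 + u.1, u.2))]
    · rw [del2, if_pos e1, del1, if_pos h, comp_mul_Am]
      simp only [shV, add_sub_cancel_right]
      rw [add_comm]
    · intro p hp
      rw [del2, if_neg]
      rintro ⟨h1, h2, h3⟩
      exact hp (Prod.ext (by simp only; omega) h1)
    · intro hp
      rw [del2, if_pos e1]
      exact comp_of_notMem hx hp (by simp only; omega) (by simp only; omega)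
  · rw [del1, if_neg h]
    apply bd1_zero'
    intro p
    rw [del2, if_neg]
    rintro ⟨h1, h2, h3⟩
    exact h h2

theorem bd_del2_snd {u w : Vx} (hw : 0 ≤ w.1 ∧ w.1 ≤ 1) (q : Vx) :
    bd1 (gen adjN) (WW N) (fun p => del2 x u w q p) = del1 (x * Am ℤ w) u q := by
  by_cases h : q.2 = u.2
  · have e1 : C2 u w q (q.1 - u.1 + w.1, w.2) := ⟨h, rfl, by simp⟩
    rw [bd1_one (p0 := (q.1 - u.1 + w.1, w.2))]
    · rw [del2, if_pos e1, del1, if_pos h, comp_mul_Am]
      simp only [shV]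
      rw [add_comm w.1]
    · intro p hp
      rw [del2, if_neg]
      rintro ⟨h1, h2, h3⟩
      exact hp (Prod.ext (by simp only; omega) h2)
    · intro hp
      rw [del2, if_pos e1]
      exact comp_of_notMem hx hp (by simp only; omega) (by simp only; omega)
  · rw [del1, if_neg h]
    apply bd1_zero'
    intro p
    rw [del2, if_neg]
    rintro ⟨h1, h2, h3⟩
    exact h h1

theorem bd_del3_fst {u w s : Vx} (hu : 0 ≤ u.1 ∧ u.1 ≤ 1) (q r : Vx) :
    bd1 (gen adjN) (WW N) (fun p => del3 x u w s p q r) = del2 (x * Am ℤ u) w s q r := by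
  by_cases h : C2 w s q r
  · have e1 : C3 u w s (q.1 - w.1 + u.1, u.2) q r :=
      ⟨rfl, h.1, h.2.1, by simp, by rw [h.2.2]; simp⟩
    rw [bd1_one (p0 := (q.1 - w.1 + u.1, u.2))]
    · rw [del3, if_pos e1, del2, if_pos h, comp_mul_Am]
      simp only [shV, add_sub_cancel_right]
      rw [add_comm]
    · intro p hp
      rw [del3, if_neg]
      rintro ⟨h1, h2, h3, h4, h5⟩
      exact hp (Prod.ext (by simp only; omega) h1)
    · intro hp
      rw [del3, if_pos e1]
      exact comp_of_notMem hx hp (by simp only; omega) (by simp only; omega)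
  · rw [del2, if_neg h]
    apply bd1_zero'
    intro p
    rw [del3, if_neg]
    rintro ⟨h1, h2, h3, h4, h5⟩
    exact h ⟨h2, h3, by omega⟩

theorem bd_del3_snd {u w s : Vx} (hw : 0 ≤ w.1 ∧ w.1 ≤ 1) (q r : Vx) :
    bd1 (gen adjN) (WW N) (fun p => del3 x u w s q p r) = del2 (x * Am ℤ w) u s q r := by
  by_cases h : C2 u s q r
  · have e1 : C3 u w s q (q.1 - u.1 + w.1, w.2) r :=
      ⟨h.1, rfl, h.2.1, by simp, h.2.2⟩
    rw [bd1_one (p0 := (q.1 - u.1 + w.1, w.2))]
    · rw [del3, if_pos e1, del2, if_pos h, comp_mul_Am]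
      simp only [shV]
      rw [add_comm w.1]
    · intro p hp
      rw [del3, if_neg]
      rintro ⟨h1, h2, h3, h4, h5⟩
      exact hp (Prod.ext (by simp only; omega) h2)
    · intro hp
      rw [del3, if_pos e1]
      exact comp_of_notMem hx hp (by simp only; omega) (by simp only; omega)
  · rw [del2, if_neg h]
    apply bd1_zero'
    intro p
    rw [del3, if_neg]
    rintro ⟨h1, h2, h3, h4, h5⟩
    exact h ⟨h1, h3, by omega⟩

theorem bd_del3_trd {u w s : Vx} (hs : 0 ≤ s.1 ∧ s.1 ≤ 1) (q r : Vx) :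
    bd1 (gen adjN) (WW N) (fun p => del3 x u w s q r p) = del2 (x * Am ℤ s) u w q r := by
  by_cases h : C2 u w q r
  · have e1 : C3 u w s q r (q.1 - u.1 + s.1, s.2) :=
      ⟨h.1, h.2.1, rfl, h.2.2, by simp⟩
    rw [bd1_one (p0 := (q.1 - u.1 + s.1, s.2))]
    · rw [del3, if_pos e1, del2, if_pos h, comp_mul_Am]
      simp only [shV]
      rw [add_comm s.1]
    · intro p hp
      rw [del3, if_neg]
      rintro ⟨h1, h2, h3, h4, h5⟩
      exact hp (Prod.ext (by simp only; omega) h3)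
    · intro hp
      rw [del3, if_pos e1]
      exact comp_of_notMem hx hp (by simp only; omega) (by simp only; omega)
  · rw [del2, if_neg h]
    apply bd1_zero'
    intro p
    rw [del3, if_neg]
    rintro ⟨h1, h2, h3, h4, h5⟩
    exact h ⟨h1, h2, by omega⟩

theorem bd_D2 {u w : Vx} (hu : 0 ≤ u.1 ∧ u.1 ≤ 1) (hw : 0 ≤ w.1 ∧ w.1 ≤ 1) (q : Vx) :
    bd1 (gen adjN) (WW N) (fun p => D2 x u w p q) =
      del1 (x * Am ℤ u) w q - del1 (x * Am ℤ w) u q := by
  rw [← bd_del2_fst hx hu q, ← bd_del2_snd hx hw q, ← bd1_sub]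
  rfl

theorem bd_D3 {u w s : Vx} (hu : 0 ≤ u.1 ∧ u.1 ≤ 1) (hw : 0 ≤ w.1 ∧ w.1 ≤ 1)
    (hs : 0 ≤ s.1 ∧ s.1 ≤ 1) (q r : Vx) :
    bd1 (gen adjN) (WW N) (fun p => D3 x u w s p q r) =
      D2 (x * Am ℤ u) w s q r - D2 (x * Am ℤ w) u s q r + D2 (x * Am ℤ s) u w q r := by
  have e : bd1 (gen adjN) (WW N) (fun p => D3 x u w s p q r) =
      bd1 (gen adjN) (WW N) (fun p => del3 x u w s p q r) -
      bd1 (gen adjN) (WW N) (fun p => del3 x u w s q p r) +
      bd1 (gen adjN) (WW N) (fun p => del3 x u w s q r p) -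
      bd1 (gen adjN) (WW N) (fun p => del3 x u w s p r q) +
      bd1 (gen adjN) (WW N) (fun p => del3 x u w s r p q) -
      bd1 (gen adjN) (WW N) (fun p => del3 x u w s r q p) := by
    rw [← bd1_sub, ← bd1_add, ← bd1_sub, ← bd1_add, ← bd1_sub]
    rfl
  rw [e, bd_del3_fst hx hu, bd_del3_fst hx hu, bd_del3_snd hx hw, bd_del3_snd hx hw,
    bd_del3_trd hx hs, bd_del3_trd hx hs, D2, D2, D2]
  abel

end alpha

end Pool.Agent.Helper80.Kr
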