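import Mathlib
import Pool.Agent.Helper80.KrAlpha

/-!
# The resolution
-/

namespace Pool.Agent.Helper80.Kr

open MonoidAlgebra

section res

/-- The first vertex of an edge. -/
def sr : Fin 4 × ZMod 5 → Vx
  | (0, j) => (0, j)
  | (1, i) => (0, 2 * i - 1)
  | (2, i) => (0, 2 * i)
  | (3, i) => (0, 2 * i + 1)

/-- The second vertex of an edge. -/
def tr : Fin 4 × ZMod 5 → Vx
  | (0, j) => (0, j + 1)
  | (1, i) => (1, i)
  | (2, i) => (1, i)
  | (3, i) => (1, i)

/-- The first vertex of a triangle. -/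
def v0 : Fin 3 × ZMod 5 → Vx
  | (0, i) => (0, 2 * i)
  | (1, i) => (0, 2 * i - 1)
  | (2, i) => (0, 2 * i + 1)

/-- The second vertex of a triangle. -/
def v1 : Fin 3 × ZMod 5 → Vx
  | (0, i) => (0, 2 * i + 1)
  | (1, i) => (0, 2 * i)
  | (2, i) => (1, i)

/-- The third vertex of a triangle. -/
def v2 : Fin 3 × ZMod 5 → Vx
  | (0, i) => (1, i)
  | (1, i) => (1, i)
  | (2, i) => (1, i + 1)

/-- The edge opposite to the first vertex. -/
def e12 : Fin 3 × ZMod 5 → ℤ × (Fin 4 × ZMod 5)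
  | (0, i) => (0, (3, i))
  | (1, i) => (0, (2, i))
  | (2, i) => (1, (0, i))

/-- The edge opposite to the second vertex. -/
def e02 : Fin 3 × ZMod 5 → Fin 4 × ZMod 5
  | (0, i) => (2, i)
  | (1, i) => (1, i)
  | (2, i) => (1, i + 1)

/-- The edge opposite to the third vertex. -/
def e01 : Fin 3 × ZMod 5 → Fin 4 × ZMod 5
  | (0, i) => (0, 2 * i)
  | (1, i) => (0, 2 * i - 1)
  | (2, i) => (3, i)

theorem e12_sr (r) : shV (e12 r).1 (sr (e12 r).2) = v1 r := by
  obtain ⟨c, i⟩ := r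
  fin_cases c <;> simp [shV, e12, sr, v1]

theorem e12_tr (r) : shV (e12 r).1 (tr (e12 r).2) = v2 r := by
  obtain ⟨c, i⟩ := r
  fin_cases c <;> simp [shV, e12, tr, v2]

theorem e02_sr (r) : sr (e02 r) = v0 r := by
  obtain ⟨c, i⟩ := r
  fin_cases c <;> simp [e02, sr, v0]
  ring

theorem e02_tr (r) : tr (e02 r) = v2 r := by
  obtain ⟨c, i⟩ := r
  fin_cases c <;> simp [e02, tr, v2]

theorem e01_sr (r) : sr (e01 r) = v0 r := by
  obtain ⟨c, i⟩ := r
  fin_cases c <;> simp [e01, sr, v0]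

theorem e01_tr (r) : tr (e01 r) = v1 r := by
  obtain ⟨c, i⟩ := r
  fin_cases c <;> simp [e01, tr, v1]

theorem sr_lev (r) : 0 ≤ (sr r).1 ∧ (sr r).1 ≤ 1 := by
  obtain ⟨c, i⟩ := r
  fin_cases c <;> simp [sr]

theorem tr_lev (r) : 0 ≤ (tr r).1 ∧ (tr r).1 ≤ 1 := by
  obtain ⟨c, i⟩ := r
  fin_cases c <;> simp [tr]

theorem v0_lev (r) : 0 ≤ (v0 r).1 ∧ (v0 r).1 ≤ 1 := by
  obtain ⟨c, i⟩ := r
  fin_cases c <;> simp [v0]

theorem v1_lev (r) : 0 ≤ (v1 r).1 ∧ (v1 r).1 ≤ 1 := by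
  obtain ⟨c, i⟩ := r
  fin_cases c <;> simp [v1]

theorem v2_lev (r) : 0 ≤ (v2 r).1 ∧ (v2 r).1 ≤ 1 := by
  obtain ⟨c, i⟩ := r
  fin_cases c <;> simp [v2]

theorem adj_st (r) : adjN (sr r) (tr r) := by
  obtain ⟨c, i⟩ := r
  fin_cases c
  · exact aH i
  · exact (aI' i).2.1
  · exact (aI i).2.1
  · exact (aI i).2.2

theorem adj_v (r) : adjN (v0 r) (v1 r) ∧ adjN (v0 r) (v2 r) ∧ adjN (v1 r) (v2 r) := by
  obtain ⟨c, i⟩ := r
  fin_cases c
  · exact aI i
  · exact aI' i
  · exact aII i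

/-- The group ring. -/
abbrev LL := MonoidAlgebra ℤ GG

/-- The first row. -/
noncomputable def row1 : Option (ZMod 5) → LL
  | none => ek ℤ tG - 1
  | some j => Am ℤ (0, j)

/-- The lift of a generator. -/
noncomputable def et (v : Vx) : Option (ZMod 5) → LL
  | none => - (if v.1 = 1 then Am ℤ v else 0)
  | some j => if j = v.2 then ek ℤ (tk v.1) else 0

/-- The second rows. -/
noncomputable def row2 (r : Fin 4 × ZMod 5) : Option (ZMod 5) → LL :=
  Am ℤ (sr r) • et (tr r) - Am ℤ (tr r) • et (sr r)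

/-- The lift of an edge. -/
noncomputable def eh (m : ℤ) (r : Fin 4 × ZMod 5) : Fin 4 × ZMod 5 → LL :=
  fun s => if s = r then ek ℤ (tk m) else 0

/-- The third rows. -/
noncomputable def row3 (r : Fin 3 × ZMod 5) : Fin 4 × ZMod 5 → LL :=
  Am ℤ (v0 r) • eh (e12 r).1 (e12 r).2 - Am ℤ (v1 r) • eh 0 (e02 r) + Am ℤ (v2 r) • eh 0 (e01 r)

/-- The first differential. -/
noncomputable def d1 : (Option (ZMod 5) → LL) →ₗ[LL] LL := Fintype.linearCombination LL row1

/-- The second differential. -/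
noncomputable def d2 : (Fin 4 × ZMod 5 → LL) →ₗ[LL] (Option (ZMod 5) → LL) :=
  Fintype.linearCombination LL row2

/-- The third differential. -/
noncomputable def d3 : (Fin 3 × ZMod 5 → LL) →ₗ[LL] (Fin 4 × ZMod 5 → LL) :=
  Fintype.linearCombination LL row3

/-! ### The comparison with the Koszul complex -/

/-- Chains on vertices. -/
noncomputable def al1 (y : Option (ZMod 5) → LL) (p : Vx) : RR adjN := comp p.1 (y (some p.2))

/-- Chains on edges. -/
noncomputable def al2 (x : Fin 4 × ZMod 5 → LL) (p q : Vx) : RR adjN :=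
  ∑ r, D2 (x r) (sr r) (tr r) p q

/-- Chains on triangles. -/
noncomputable def al3 (z : Fin 3 × ZMod 5 → LL) (p q s : Vx) : RR adjN :=
  ∑ r, D3 (z r) (v0 r) (v1 r) (v2 r) p q s

theorem al1_et (x : LL) (v p : Vx) : al1 (x • et v) p = del1 x v p := by
  rw [al1, Pi.smul_apply, smul_eq_mul, et, del1]
  by_cases h : p.2 = v.2
  · rw [if_pos h, if_pos h, comp_mul_tk]
  · rw [if_neg h, if_neg h, mul_zero, map_zero]

theorem al1_add (y y' : Option (ZMod 5) → LL) (p : Vx) : al1 (y + y') p = al1 y p + al1 y' p := by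
  simp [al1]

theorem al1_sub (y y' : Option (ZMod 5) → LL) (p : Vx) : al1 (y - y') p = al1 y p - al1 y' p := by
  simp [al1]

theorem al1_sum {ι : Type} (s : Finset ι) (y : ι → Option (ZMod 5) → LL) (p : Vx) :
    al1 (∑ i ∈ s, y i) p = ∑ i ∈ s, al1 (y i) p := by
  simp [al1, Finset.sum_apply]

theorem bd1_sum {ι : Type} (W : Finset Vx) (s : Finset ι) (f : ι → Vx → RR adjN) :
    bd1 (gen adjN) W (fun u => ∑ i ∈ s, f i u) = ∑ i ∈ s, bd1 (gen adjN) W (f i) := by
  simp only [bd1, Finset.sum_mul]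
  rw [Finset.sum_comm]

theorem al1_d2 {N : ℕ} {x : Fin 4 × ZMod 5 → LL} (hx : ∀ r, Bd N (x r)) (q : Vx) :
    bd1 (gen adjN) (WW N) (fun p => al2 x p q) = al1 (d2 x) q := by
  rw [d2, Fintype.linearCombination_apply, al1_sum]
  have : (fun p => al2 x p q) = fun p => ∑ r, (fun r p => D2 (x r) (sr r) (tr r) p q) r p := rfl
  rw [this, bd1_sum]
  refine Finset.sum_congr rfl fun r _ => ?_
  rw [bd_D2 (hx r) (sr_lev r) (tr_lev r) q, row2, smul_sub, al1_sub, smul_smul, smul_smul,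
    al1_et, al1_et]

theorem D2_add (x y : LL) (u w p q : Vx) : D2 (x + y) u w p q = D2 x u w p q + D2 y u w p q := by
  simp only [D2, del2]
  split_ifs <;> simp <;> abel

theorem D2_sub (x y : LL) (u w p q : Vx) : D2 (x - y) u w p q = D2 x u w p q - D2 y u w p q := by
  simp only [D2, del2]
  split_ifs <;> simp <;> abel

theorem D2_zero (u w p q : Vx) : D2 0 u w p q = 0 := by
  simp [D2, del2]

theorem D2_sum {ι : Type} (s : Finset ι) (x : ι → LL) (u w p q : Vx) :
    D2 (∑ i ∈ s, x i) u w p q = ∑ i ∈ s, D2 (x i) u w p q := by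
  classical
  induction s using Finset.induction_on with
  | empty => simp [D2_zero]
  | insert a s ha ih => rw [Finset.sum_insert ha, Finset.sum_insert ha, D2_add, ih]

theorem al2_add (x y : Fin 4 × ZMod 5 → LL) (p q : Vx) :
    al2 (x + y) p q = al2 x p q + al2 y p q := by
  simp only [al2, Pi.add_apply, D2_add, Finset.sum_add_distrib]

theorem al2_sub (x y : Fin 4 × ZMod 5 → LL) (p q : Vx) :
    al2 (x - y) p q = al2 x p q - al2 y p q := by
  simp only [al2, Pi.sub_apply, D2_sub, Finset.sum_sub_distrib]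

theorem al2_zero (p q : Vx) : al2 0 p q = 0 := by
  simp only [al2, Pi.zero_apply, D2_zero, Finset.sum_const_zero]

theorem al2_sum {ι : Type} (s : Finset ι) (x : ι → Fin 4 × ZMod 5 → LL) (p q : Vx) :
    al2 (∑ i ∈ s, x i) p q = ∑ i ∈ s, al2 (x i) p q := by
  simp only [al2, Finset.sum_apply, D2_sum]
  exact Finset.sum_comm

theorem D2_tk (x : LL) (m : ℤ) (u w p q : Vx) :
    D2 (x * ek ℤ (tk m)) u w p q = D2 x (shV m u) (shV m w) p q := by
  have key : ∀ p q, del2 (x * ek ℤ (tk m)) u w p q = del2 x (shV m u) (shV m w) p q := by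
    intro p q
    have h : C2 u w p q ↔ C2 (shV m u) (shV m w) p q := by
      simp only [C2, shV]
      constructor <;> rintro ⟨h1, h2, h3⟩ <;> exact ⟨h1, h2, by omega⟩
    rw [del2, del2, comp_mul_tk]
    simp only [h]
    have : p.1 - u.1 - m = p.1 - (shV m u).1 := by simp only [shV]; ring
    rw [this]
  rw [D2, D2, key, key]

theorem al2_eh (x : LL) (m : ℤ) (r : Fin 4 × ZMod 5) (p q : Vx) :
    al2 (x • eh m r) p q = D2 x (shV m (sr r)) (shV m (tr r)) p q := by
  rw [al2, Finset.sum_eq_single r]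
  · rw [← D2_tk, Pi.smul_apply, smul_eq_mul, eh, if_pos rfl]
  · intro s _ hs
    rw [Pi.smul_apply, smul_eq_mul, eh, if_neg hs, mul_zero, D2_zero]
  · intro h; exact absurd (Finset.mem_univ r) h

theorem shV_zero (p : Vx) : shV 0 p = p := by simp [shV]

theorem al2_d3 {N : ℕ} {z : Fin 3 × ZMod 5 → LL} (hz : ∀ r, Bd N (z r)) (q s : Vx) :
    bd1 (gen adjN) (WW N) (fun p => al3 z p q s) = al2 (d3 z) q s := by
  rw [d3, Fintype.linearCombination_apply, al2_sum]
  have : (fun p => al3 z p q s) =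
      fun p => ∑ r, (fun r p => D3 (z r) (v0 r) (v1 r) (v2 r) p q s) r p := rfl
  rw [this, bd1_sum]
  refine Finset.sum_congr rfl fun r _ => ?_
  rw [bd_D3 (hz r) (v0_lev r) (v1_lev r) (v2_lev r), row3, smul_add, smul_sub, al2_add, al2_sub,
    smul_smul, smul_smul, smul_smul, al2_eh, al2_eh, al2_eh, e12_sr, e12_tr, shV_zero, shV_zero,
    shV_zero, shV_zero, e02_sr, e02_tr, e01_sr, e01_tr]

end res

end Pool.Agent.Helper80.Kr
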