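import Mathlib
import Pool.Agent.Helper80.KrRes

/-!
# The comparison maps are bijective
-/

namespace Pool.Agent.Helper80.Kr

open MonoidAlgebra

section iso

theorem C2_shift (u w p q : Vx) (k : ℤ) : C2 u w (shV k p) (shV k q) ↔ C2 u w p q := by
  simp only [C2, shV]
  constructor <;> rintro ⟨h1, h2, h3⟩ <;> exact ⟨h1, h2, by omega⟩

theorem C3_shift (u w s p q r : Vx) (k : ℤ) :
    C3 u w s (shV k p) (shV k q) (shV k r) ↔ C3 u w s p q r := by
  simp only [C3, shV]
  constructor <;> rintro ⟨h1, h2, h3, h4, h5⟩ <;> exact ⟨h1, h2, h3, by omega, by omega⟩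

theorem fin2a : ∀ r s : Fin 4 × ZMod 5, C2 (sr s) (tr s) (sr r) (tr r) → s = r := by decide

theorem fin2b : ∀ r s : Fin 4 × ZMod 5, ¬ C2 (sr s) (tr s) (tr r) (sr r) := by decide

theorem fin3a : ∀ r s : Fin 3 × ZMod 5, C3 (v0 s) (v1 s) (v2 s) (v0 r) (v1 r) (v2 r) → s = r := by
  decide

theorem fin3b : ∀ r s : Fin 3 × ZMod 5, ¬ C3 (v0 s) (v1 s) (v2 s) (v1 r) (v0 r) (v2 r) := by
  decide

theorem fin3c : ∀ r s : Fin 3 × ZMod 5, ¬ C3 (v0 s) (v1 s) (v2 s) (v1 r) (v2 r) (v0 r) := by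
  decide

theorem fin3d : ∀ r s : Fin 3 × ZMod 5, ¬ C3 (v0 s) (v1 s) (v2 s) (v0 r) (v2 r) (v1 r) := by
  decide

theorem fin3e : ∀ r s : Fin 3 × ZMod 5, ¬ C3 (v0 s) (v1 s) (v2 s) (v2 r) (v0 r) (v1 r) := by
  decide

theorem fin3f : ∀ r s : Fin 3 × ZMod 5, ¬ C3 (v0 s) (v1 s) (v2 s) (v2 r) (v1 r) (v0 r) := by
  decide

theorem al2_eval (x : Fin 4 × ZMod 5 → LL) (k : ℤ) (r : Fin 4 × ZMod 5) :
    al2 x (shV k (sr r)) (shV k (tr r)) = comp k (x r) := by
  rw [al2, Finset.sum_eq_single r]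
  · rw [D2, del2, if_pos, del2, if_neg, sub_zero]
    · congr 2
      simp only [shV]; ring
    · rw [C2_shift]; exact fin2b r r
    · rw [C2_shift]; exact ⟨rfl, rfl, by ring⟩
  · intro s _ hs
    rw [D2, del2, if_neg, del2, if_neg, sub_zero]
    · rw [C2_shift]; exact fin2b r s
    · rw [C2_shift]; exact fun h => hs (fin2a r s h)
  · intro h; exact absurd (Finset.mem_univ r) h

theorem al3_eval (z : Fin 3 × ZMod 5 → LL) (k : ℤ) (r : Fin 3 × ZMod 5) :
    al3 z (shV k (v0 r)) (shV k (v1 r)) (shV k (v2 r)) = comp k (z r) := by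
  rw [al3, Finset.sum_eq_single r]
  · rw [D3, del3, if_pos, del3, if_neg, del3, if_neg, del3, if_neg, del3, if_neg, del3, if_neg]
    · simp only [sub_zero, add_zero]
      congr 2
      simp only [shV]; ring
    · rw [C3_shift]; exact fin3f r r
    · rw [C3_shift]; exact fin3e r r
    · rw [C3_shift]; exact fin3d r r
    · rw [C3_shift]; exact fin3c r r
    · rw [C3_shift]; exact fin3b r r
    · rw [C3_shift]; exact ⟨rfl, rfl, rfl, by ring, by ring⟩
  · intro s _ hs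
    rw [D3, del3, if_neg, del3, if_neg, del3, if_neg, del3, if_neg, del3, if_neg, del3, if_neg]
    · simp
    · rw [C3_shift]; exact fin3f r s
    · rw [C3_shift]; exact fin3e r s
    · rw [C3_shift]; exact fin3d r s
    · rw [C3_shift]; exact fin3c r s
    · rw [C3_shift]; exact fin3b r s
    · rw [C3_shift]; exact fun h => hs (fin3a r s h)
  · intro h; exact absurd (Finset.mem_univ r) h

theorem al1_inj {y y' : Option (ZMod 5) → LL} (h : ∀ p, al1 y p = al1 y' p) (j : ZMod 5) :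
    y (some j) = y' (some j) :=
  comp_ext fun k => h (k, j)

theorem al2_inj {x x' : Fin 4 × ZMod 5 → LL} (h : ∀ p q, al2 x p q = al2 x' p q) : x = x' := by
  funext r
  apply comp_ext
  intro k
  rw [← al2_eval, ← al2_eval, h]

theorem al3_inj {z z' : Fin 3 × ZMod 5 → LL} (h : ∀ p q s, al3 z p q s = al3 z' p q s) :
    z = z' := by
  funext r
  apply comp_ext
  intro k
  rw [← al3_eval, ← al3_eval, h]

theorem al2_alt (x : Fin 4 × ZMod 5 → LL) : Alt2 (al2 x) := by
  intro p q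
  rw [al2, al2, ← Finset.sum_neg_distrib]
  refine Finset.sum_congr rfl fun r _ => ?_
  rw [D2, D2]; abel

theorem al3_alt (z : Fin 3 × ZMod 5 → LL) : Alt3 (al3 z) := by
  constructor
  · intro p q s
    rw [al3, al3, ← Finset.sum_neg_distrib]
    refine Finset.sum_congr rfl fun r _ => ?_
    rw [D3, D3]; abel
  · intro p q s
    rw [al3, al3, ← Finset.sum_neg_distrib]
    refine Finset.sum_congr rfl fun r _ => ?_
    rw [D3, D3]; abel

theorem del2_supp {N : ℕ} {x : LL} (hx : Bd N x) {u w p q : Vx} (huw : adjN u w)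
    (hu : 0 ≤ u.1 ∧ u.1 ≤ 1) (hw : 0 ≤ w.1 ∧ w.1 ≤ 1) (h : del2 x u w p q ≠ 0) :
    p ∈ WW N ∧ q ∈ WW N ∧ adjN p q := by
  rw [del2] at h
  by_cases hc : C2 u w p q
  · rw [if_pos hc] at h
    obtain ⟨h1, h2, h3⟩ := hc
    have e1 : p = shV (p.1 - u.1) u := Prod.ext (by simp [shV]) h1
    have e2 : q = shV (p.1 - u.1) w := Prod.ext (by simp only [shV]; omega) h2
    refine ⟨?_, ?_, ?_⟩
    · by_contra hp
      exact h (comp_of_notMem hx hp (by omega) (by omega))
    · by_contra hq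
      exact h (comp_of_notMem hx hq (by omega) (by omega))
    · rw [e1, e2]
      simpa [shV] using adjN_shift (p.1 - u.1) huw
  · rw [if_neg hc] at h; exact absurd rfl h

theorem al2_supp {N : ℕ} {x : Fin 4 × ZMod 5 → LL} (hx : ∀ r, Bd N (x r)) :
    Sup2 (WW N) (al2 x) := by
  intro p q h
  obtain ⟨r, _, hr⟩ := Finset.exists_ne_zero_of_sum_ne_zero h
  rw [D2] at hr
  by_cases h1 : del2 (x r) (sr r) (tr r) p q = 0
  · have h2 : del2 (x r) (sr r) (tr r) q p ≠ 0 := by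
      intro h2; rw [h1, h2, sub_zero] at hr; exact hr rfl
    obtain ⟨a, b, c⟩ := del2_supp (hx r) (adj_st r) (sr_lev r) (tr_lev r) h2
    exact ⟨b, a, adjN_symm _ _ c⟩
  · exact del2_supp (hx r) (adj_st r) (sr_lev r) (tr_lev r) h1

/-- All three vertices are in `W` and pairwise adjacent. -/
def Tri (W : Finset Vx) (p q s : Vx) : Prop :=
  p ∈ W ∧ q ∈ W ∧ s ∈ W ∧ adjN p q ∧ adjN p s ∧ adjN q s

theorem Tri.swap1 {W : Finset Vx} {p q s : Vx} (h : Tri W p q s) : Tri W q p s :=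
  ⟨h.2.1, h.1, h.2.2.1, adjN_symm _ _ h.2.2.2.1, h.2.2.2.2.2, h.2.2.2.2.1⟩

theorem Tri.swap2 {W : Finset Vx} {p q s : Vx} (h : Tri W p q s) : Tri W p s q :=
  ⟨h.1, h.2.2.1, h.2.1, h.2.2.2.2.1, h.2.2.2.1, adjN_symm _ _ h.2.2.2.2.2⟩

theorem del3_supp {N : ℕ} {x : LL} (hx : Bd N x) (t : Fin 3 × ZMod 5) {p q s : Vx}
    (h : del3 x (v0 t) (v1 t) (v2 t) p q s ≠ 0) : Tri (WW N) p q s := by
  rw [del3] at h
  by_cases hc : C3 (v0 t) (v1 t) (v2 t) p q s
  · rw [if_pos hc] at h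
    obtain ⟨h1, h2, h3, h4, h5⟩ := hc
    have l0 := v0_lev t
    have l1 := v1_lev t
    have l2 := v2_lev t
    have e1 : p = shV (p.1 - (v0 t).1) (v0 t) := Prod.ext (by simp [shV]) h1
    have e2 : q = shV (p.1 - (v0 t).1) (v1 t) := Prod.ext (by simp only [shV]; omega) h2
    have e3 : s = shV (p.1 - (v0 t).1) (v2 t) := Prod.ext (by simp only [shV]; omega) h3
    obtain ⟨a1, a2, a3⟩ := adj_v t
    have b1 := adjN_shift (p.1 - (v0 t).1) a1
    have b2 := adjN_shift (p.1 - (v0 t).1) a2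
    have b3 := adjN_shift (p.1 - (v0 t).1) a3
    rw [← e1, ← e2] at b1
    rw [← e1, ← e3] at b2
    rw [← e2, ← e3] at b3
    refine ⟨?_, ?_, ?_, b1, b2, b3⟩
    · by_contra hp
      exact h (comp_of_notMem hx hp (by omega) (by omega))
    · by_contra hq
      exact h (comp_of_notMem hx hq (by omega) (by omega))
    · by_contra hq
      exact h (comp_of_notMem hx hq (by omega) (by omega))
  · rw [if_neg hc] at h; exact absurd rfl h

theorem al3_supp {N : ℕ} {z : Fin 3 × ZMod 5 → LL} (hz : ∀ r, Bd N (z r)) :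
    Sup3 (WW N) (al3 z) := by
  intro p q s h
  obtain ⟨r, _, hr⟩ := Finset.exists_ne_zero_of_sum_ne_zero h
  show Tri (WW N) p q s
  by_contra hT
  apply hr
  have key : ∀ a b c, (Tri (WW N) a b c → Tri (WW N) p q s) →
      del3 (z r) (v0 r) (v1 r) (v2 r) a b c = 0 := by
    intro a b c habc
    by_contra h0
    exact hT (habc (del3_supp (hz r) r h0))
  rw [D3, key p q s id, key q p s (fun h => h.swap1), key q s p (fun h => h.swap2.swap1),
    key p s q (fun h => h.swap2), key s p q (fun h => h.swap1.swap2),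
    key s q p (fun h => h.swap1.swap2.swap1)]
  simp

theorem exists_level (W : Finset Vx) : ∃ N : ℕ, ∀ p ∈ W, |p.1| ≤ N := by
  refine ⟨∑ p ∈ W, p.1.natAbs, fun p hp => ?_⟩
  rw [Int.abs_eq_natAbs]
  exact_mod_cast Finset.single_le_sum (f := fun p : Vx => p.1.natAbs) (fun _ _ => Nat.zero_le _) hp

theorem can2_shift {p q : Vx} (h : Can2 p q) : ∃ k r, p = shV k (sr r) ∧ q = shV k (tr r) := by
  rcases h with ⟨h1, h2⟩ | ⟨h1, h2 | h2 | h2⟩
  · exact ⟨p.1, (0, p.2), by simp [shV, sr], Prod.ext (by simp [shV, tr, h1]) (by simp [shV, tr, h2])⟩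
  · exact ⟨p.1, (1, q.2), Prod.ext (by simp [shV, sr]) (by simp [shV, sr, h2]),
      Prod.ext (by simp [shV, tr, h1, add_comm]) (by simp [shV, tr])⟩
  · exact ⟨p.1, (2, q.2), Prod.ext (by simp [shV, sr]) (by simp [shV, sr, h2]),
      Prod.ext (by simp [shV, tr, h1, add_comm]) (by simp [shV, tr])⟩
  · exact ⟨p.1, (3, q.2), Prod.ext (by simp [shV, sr]) (by simp [shV, sr, h2]),
      Prod.ext (by simp [shV, tr, h1, add_comm]) (by simp [shV, tr])⟩

theorem can3_shift {p q s : Vx} (h : Can3 p q s) :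
    ∃ k r, p = shV k (v0 r) ∧ q = shV k (v1 r) ∧ s = shV k (v2 r) := by
  rcases h with ⟨h1, h2, h3, h4⟩ | ⟨h1, h2, h3, h4⟩ | ⟨h1, h2, h3, h4⟩
  · exact ⟨p.1, (0, s.2), Prod.ext (by simp [shV, v0]) (by simp [shV, v0, h3]),
      Prod.ext (by simp [shV, v1, h1]) (by simp [shV, v1, h4]),
      Prod.ext (by simp [shV, v2, h2, add_comm]) (by simp [shV, v2])⟩
  · exact ⟨p.1, (1, s.2), Prod.ext (by simp [shV, v0]) (by simp [shV, v0, h3]),
      Prod.ext (by simp [shV, v1, h1]) (by simp [shV, v1, h4]),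
      Prod.ext (by simp [shV, v2, h2, add_comm]) (by simp [shV, v2])⟩
  · exact ⟨p.1, (2, q.2), Prod.ext (by simp [shV, v0]) (by simp [shV, v0, h3]),
      Prod.ext (by simp [shV, v1, h1, add_comm]) (by simp [shV, v1]),
      Prod.ext (by simp [shV, v2, h2, add_comm]) (by simp [shV, v2, h4])⟩

theorem al2_surj {W : Finset Vx} {X : Vx → Vx → RR adjN} (ha : Alt2 X) (hs : Sup2 W X) :
    ∃ x, ∀ p q, al2 x p q = X p q := by
  obtain ⟨N, hN⟩ := exists_level W
  have h1 : ∀ r : Fin 4 × ZMod 5, ∃ y : LL, ∀ k, comp k y = X (shV k (sr r)) (shV k (tr r)) := by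
    intro r
    refine exists_comp (N + 1) _ fun k hk => ?_
    by_contra h
    have h2 := hN _ (hs _ _ h).1
    have h3 := sr_lev r
    simp only [shV] at h2
    push_cast at hk
    rw [abs_le] at h2
    rw [lt_abs] at hk
    omega
  choose x hx using h1
  refine ⟨x, fun p q => ?_⟩
  have key : ∀ p q, Can2 p q → al2 x p q = X p q := by
    intro p q h
    obtain ⟨k, r, rfl, rfl⟩ := can2_shift h
    rw [al2_eval, hx]
  by_cases h : adjN p q
  · rcases can2_or h with h | h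
    · exact key p q h
    · rw [al2_alt x p q, key q p h, ← ha p q]
  · obtain ⟨M, hM⟩ := exists_Bd_fun x
    have h1 : al2 x p q = 0 := by
      by_contra h0; exact h (al2_supp hM p q h0).2.2
    have h2 : X p q = 0 := by
      by_contra h0; exact h (hs p q h0).2.2
    rw [h1, h2]

theorem al3_surj {W : Finset Vx} {Z : Vx → Vx → Vx → RR adjN} (ha : Alt3 Z) (hs : Sup3 W Z) :
    ∃ z, ∀ p q s, al3 z p q s = Z p q s := by
  obtain ⟨N, hN⟩ := exists_level W
  have h1 : ∀ r : Fin 3 × ZMod 5, ∃ y : LL,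
      ∀ k, comp k y = Z (shV k (v0 r)) (shV k (v1 r)) (shV k (v2 r)) := by
    intro r
    refine exists_comp (N + 1) _ fun k hk => ?_
    by_contra h
    have h2 := hN _ (hs _ _ _ h).1
    have h3 := v0_lev r
    simp only [shV] at h2
    push_cast at hk
    rw [abs_le] at h2
    rw [lt_abs] at hk
    omega
  choose z hz using h1
  refine ⟨z, ?_⟩
  have key : ∀ p q s, Can3 p q s → al3 z p q s = Z p q s := by
    intro p q s h
    obtain ⟨k, r, rfl, rfl, rfl⟩ := can3_shift h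
    rw [al3_eval, hz]
  have sw1 : ∀ p q s, al3 z p q s = Z p q s → al3 z q p s = Z q p s := by
    intro p q s h
    rw [(al3_alt z).1 q p s, h, ← ha.1 q p s]
  have sw2 : ∀ p q s, al3 z p q s = Z p q s → al3 z p s q = Z p s q := by
    intro p q s h
    rw [(al3_alt z).2 p s q, h, ← ha.2 p s q]
  intro p q s
  by_cases h : adjN p q ∧ adjN p s ∧ adjN q s
  · rcases can3_or h.1 h.2.1 h.2.2 with h | h | h | h | h | h
    · exact key p q s h
    · exact sw2 _ _ _ (key _ _ _ h)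
    · exact sw1 _ _ _ (key _ _ _ h)
    · exact sw1 _ _ _ (sw2 _ _ _ (key _ _ _ h))
    · exact sw2 _ _ _ (sw1 _ _ _ (key _ _ _ h))
    · exact sw1 _ _ _ (sw2 _ _ _ (sw1 _ _ _ (key _ _ _ h)))
  · obtain ⟨M, hM⟩ := exists_Bd_fun z
    have h1 : al3 z p q s = 0 := by
      by_contra h0
      have := al3_supp hM p q s h0
      exact h ⟨this.2.2.2.1, this.2.2.2.2.1, this.2.2.2.2.2⟩
    have h2 : Z p q s = 0 := by
      by_contra h0
      have := hs p q s h0
      exact h ⟨this.2.2.2.1, this.2.2.2.2.1, this.2.2.2.2.2⟩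
    rw [h1, h2]

end iso

end Pool.Agent.Helper80.Kr
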