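import Mathlib
import Pool.Agent.Helper80.KrIso

/-!
# Exactness of the resolution
-/

namespace Pool.Agent.Helper80.Kr

open MonoidAlgebra SemidirectProduct

section ex

theorem d1_apply (y : Option (ZMod 5) → LL) :
    d1 y = y none * (ek ℤ tG - 1) + ∑ j, y (some j) * Am ℤ (0, j) := by
  rw [d1, Fintype.linearCombination_apply, Fintype.sum_option]
  rfl

theorem d1_et {v : Vx} (hv : v.1 = 0 ∨ v.1 = 1) : d1 (et v) = Am ℤ v := by
  rw [d1_apply]
  have h1 : ∑ j, et v (some j) * Am ℤ (0, j) = Am ℤ v * ek ℤ (tk v.1) := by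
    rw [Finset.sum_eq_single v.2]
    · rw [et, if_pos rfl, tk_Am]
      congr 2
      simp [shV]
    · intro j _ hj
      rw [et, if_neg hj, zero_mul]
    · intro h; exact absurd (Finset.mem_univ _) h
  rw [h1]
  rcases hv with h | h
  · have h2 : v.1 ≠ 1 := by omega
    rw [et, if_neg h2, h, tk_zero, ek_one, neg_zero, zero_mul, mul_one, zero_add]
  · rw [et, if_pos h, h, mul_sub, mul_one, neg_mul]
    abel

theorem lev01 {v : Vx} (h : 0 ≤ v.1 ∧ v.1 ≤ 1) : v.1 = 0 ∨ v.1 = 1 := by omega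

theorem d1_row2 (r : Fin 4 × ZMod 5) : d1 (row2 r) = 0 := by
  rw [row2, map_sub, map_smul, map_smul, d1_et (lev01 (sr_lev r)), d1_et (lev01 (tr_lev r)),
    smul_eq_mul, smul_eq_mul, Am_comm (adj_st r), sub_self]

theorem d1_d2 (x : Fin 4 × ZMod 5 → LL) : d1 (d2 x) = 0 := by
  rw [d2, Fintype.linearCombination_apply, map_sum]
  refine Finset.sum_eq_zero fun r _ => ?_
  rw [map_smul, d1_row2, smul_zero]

theorem d2_eh (m : ℤ) (r : Fin 4 × ZMod 5) : d2 (eh m r) = ek ℤ (tk m) • row2 r := by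
  rw [d2, Fintype.linearCombination_apply, Finset.sum_eq_single r]
  · rw [eh, if_pos rfl]
  · intro s _ hs
    rw [eh, if_neg hs, zero_smul]
  · intro h; exact absurd (Finset.mem_univ r) h

theorem smul_row2_e12 (r : Fin 3 × ZMod 5) :
    ek ℤ (tk (e12 r).1) • row2 (e12 r).2 =
      Am ℤ (v1 r) • et (v2 r) - Am ℤ (v2 r) • et (v1 r) := by
  obtain ⟨c, i⟩ := r
  fin_cases c
  · show ek ℤ (tk 0) • row2 (3, i) = _
    rw [tk_zero, ek_one, one_smul]; rfl
  · show ek ℤ (tk 0) • row2 (2, i) = _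
    rw [tk_zero, ek_one, one_smul]; rfl
  · show ek ℤ (tk 1) • row2 (0, i) = Am ℤ (1, i) • et (1, i + 1) - Am ℤ (1, i + 1) • et (1, i)
    have h3 : Am ℤ (1, i) * Am ℤ (1, i + 1) = Am ℤ (1, i + 1) * Am ℤ (1, i) := Am_comm (aII i).2.2
    funext v
    rcases v with _ | j
    · simp [row2, et, sr, tr, h3]
    · have h1 : ∀ j : ZMod 5, ek ℤ tG * (Am ℤ (0, j) * ek ℤ (tk 0)) = Am ℤ (1, j) * ek ℤ (tk 1) := by
        intro j
        rw [tk_zero, ek_one, mul_one, tG_Am]
      by_cases ha : j = i + 1 <;> by_cases hb : j = i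
      · simp [row2, et, sr, tr, ha, hb, mul_sub, h1]
      · simp [row2, et, sr, tr, ha, hb, mul_sub, h1]
      · simp [row2, et, sr, tr, ha, hb, mul_sub, h1]
      · simp [row2, et, sr, tr, ha, hb, mul_sub, h1]

theorem row2_e02 (r : Fin 3 × ZMod 5) :
    row2 (e02 r) = Am ℤ (v0 r) • et (v2 r) - Am ℤ (v2 r) • et (v0 r) := by
  rw [row2, e02_sr, e02_tr]

theorem row2_e01 (r : Fin 3 × ZMod 5) :
    row2 (e01 r) = Am ℤ (v0 r) • et (v1 r) - Am ℤ (v1 r) • et (v0 r) := by
  rw [row2, e01_sr, e01_tr]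

theorem d2_row3 (r : Fin 3 × ZMod 5) : d2 (row3 r) = 0 := by
  obtain ⟨a1, a2, a3⟩ := adj_v r
  rw [row3, map_add, map_sub, map_smul, map_smul, map_smul, d2_eh, d2_eh, d2_eh, smul_row2_e12,
    tk_zero, ek_one, one_smul, one_smul, row2_e02, row2_e01]
  simp only [smul_sub, smul_smul]
  rw [Am_comm a1, Am_comm a2, Am_comm a3]
  abel

theorem d2_d3 (z : Fin 3 × ZMod 5 → LL) : d2 (d3 z) = 0 := by
  rw [d3, Fintype.linearCombination_apply, map_sum]
  refine Finset.sum_eq_zero fun r _ => ?_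
  rw [map_smul, d2_row3, smul_zero]

/-- Exactness of the Koszul complex. -/
theorem exK (W : Finset Vx) : E1 adjN W ∧ E2 adjN W ∧ E3 adjN W :=
  exact_all adjN_symm adjN_irrefl noK4 W

theorem ex3 {z : Fin 3 × ZMod 5 → LL} (h : d3 z = 0) : z = 0 := by
  obtain ⟨N, hN⟩ := exists_Bd_fun z
  have h1 : ∀ q s, bd1 (gen adjN) (WW N) (fun p => al3 z p q s) = 0 := by
    intro q s
    rw [al2_d3 hN, h, al2_zero]
  have h2 := (exK (WW N)).2.2 (al3 z) (al3_alt z) (al3_supp hN) h1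
  funext r
  apply comp_ext
  intro k
  rw [← al3_eval, h2, Pi.zero_apply, map_zero]

theorem bd1_WW {N M : ℕ} (hNM : N ≤ M) {y : Vx → RR adjN} (hy : ∀ u, u ∉ WW N → y u = 0) :
    bd1 (gen adjN) (WW M) y = bd1 (gen adjN) (WW N) y := by
  refine bd1_subset ?_ hy
  intro p hp
  rw [mem_WW] at hp ⊢
  omega

theorem al1_zero (p : Vx) : al1 0 p = 0 := by simp [al1]

theorem ex2 {x : Fin 4 × ZMod 5 → LL} (h : d2 x = 0) : ∃ z, d3 z = x := by
  obtain ⟨N, hN⟩ := exists_Bd_fun x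
  have h1 : ∀ q, bd1 (gen adjN) (WW N) (fun p => al2 x p q) = 0 := by
    intro q
    rw [al1_d2 hN, h, al1_zero]
  obtain ⟨Z, hZa, hZs, hZ⟩ := (exK (WW N)).2.1 (al2 x) (al2_alt x) (al2_supp hN) h1
  obtain ⟨z, hz⟩ := al3_surj hZa hZs
  obtain ⟨M, hM⟩ := exists_Bd_fun z
  have hM' : ∀ r, Bd (max N M) (z r) := fun r => (hM r).mono (le_max_right N M)
  refine ⟨z, al2_inj fun p q => ?_⟩
  rw [← al2_d3 hM', ← hZ p q, bd1_WW (le_max_left N M)]
  · congr 1
    funext u
    exact hz u p q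
  · intro u hu
    rw [hz]
    by_contra h0
    exact hu (hZs _ _ _ h0).1

theorem alpha0_Am {N : ℕ} {x : LL} (hx : Bd N x) (j : ZMod 5) :
    alpha0 (x * Am ℤ (0, j)) =
      ∑ k ∈ Finset.Icc (-(N : ℤ)) N, comp k x * (el (gen adjN (k, j)) - 1) := by
  have h1 : Bd N (x * Am ℤ (0, j)) := by
    intro k hk
    rw [comp_mul_Am, hx k hk, zero_mul]
  rw [alpha0_eq_sum h1]
  refine Finset.sum_congr rfl fun k _ => ?_
  rw [comp_mul_Am]
  simp [shV]

theorem alpha0_d1 {N : ℕ} {y : Option (ZMod 5) → LL} (hy : ∀ v, Bd N (y v)) :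
    alpha0 (d1 y) = bd1 (gen adjN) (WW N) (al1 y) := by
  rw [d1_apply, map_add, alpha0_tG, zero_add, map_sum, bd1, WW, Finset.sum_product_right]
  refine Finset.sum_congr rfl fun j _ => ?_
  rw [alpha0_Am (hy (some j))]
  simp only [al1]
  refine Finset.sum_subset ?_ ?_
  · intro k hk
    rw [Finset.mem_Icc] at hk ⊢
    omega
  · intro k _ hk
    rw [hy (some j) k, zero_mul]
    rw [Finset.mem_Icc, ← abs_le] at hk
    exact not_le.1 hk

theorem regR_tG {x : LL} (h : x * (ek ℤ tG - 1) = 0) : x = 0 :=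
  regR1 (fun _ hn => tG_pow hn) h

theorem ex1 {y : Option (ZMod 5) → LL} (h : d1 y = 0) : ∃ x, d2 x = y := by
  obtain ⟨N, hN⟩ := exists_Bd_fun y
  have h1 : bd1 (gen adjN) (WW N) (al1 y) = 0 := by
    rw [← alpha0_d1 hN, h, map_zero]
  have h0 : ∀ u, u ∉ WW N → al1 y u = 0 := by
    intro u hu
    rw [al1]
    exact comp_of_notMem (hN _) hu (by omega) (by omega)
  obtain ⟨X, hXa, hXs, hX⟩ := (exK (WW N)).1 (al1 y) h0 h1
  obtain ⟨x, hx⟩ := al2_surj hXa hXs
  obtain ⟨M, hM⟩ := exists_Bd_fun x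
  have hM' : ∀ r, Bd (max N M) (x r) := fun r => (hM r).mono (le_max_right N M)
  have h2 : ∀ p, al1 (d2 x) p = al1 y p := by
    intro p
    rw [← al1_d2 hM', ← hX p, bd1_WW (le_max_left N M)]
    · congr 1
      funext u
      exact hx u p
    · intro u hu
      rw [hx]
      by_contra h0
      exact hu (hXs _ _ h0).1
  have h3 := al1_inj h2
  refine ⟨x, ?_⟩
  have h4 : d1 (d2 x - y) = 0 := by rw [map_sub, d1_d2, h, sub_self]
  rw [d1_apply] at h4
  have h5 : ∑ j, (d2 x - y) (some j) * Am ℤ (0, j) = 0 := by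
    refine Finset.sum_eq_zero fun j _ => ?_
    rw [Pi.sub_apply, h3 j, sub_self, zero_mul]
  rw [h5, add_zero] at h4
  have h6 := regR_tG h4
  rw [Pi.sub_apply, sub_eq_zero] at h6
  funext v
  rcases v with _ | j
  · exact h6
  · exact h3 j

/-- The augmentation. -/
noncomputable def aug : LL →ₐ[ℤ] ℤ := MonoidAlgebra.lift ℤ ℤ GG 1

theorem aug_single (g : GG) (n : ℤ) : aug (single g n) = n := by
  simp [aug]

theorem aug_d1 (y : Option (ZMod 5) → LL) : aug (d1 y) = 0 := by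
  rw [d1_apply, map_add, map_mul, map_sub, map_one, aug_single, sub_self, mul_zero, zero_add,
    map_sum]
  refine Finset.sum_eq_zero fun j _ => ?_
  rw [map_mul, Am, map_sub, map_one, aug_single, sub_self, mul_zero]

theorem ex0 {x : LL} (h : aug x = 0) : ∃ y, d1 y = x := by
  have h1 : piK ℤ (Subgroup.closure (Set.range gn)) x = 0 := by
    have key : ∀ x : LL, piK ℤ (Subgroup.closure (Set.range gn)) x =
        Finsupp.single (QuotientGroup.mk 1) (aug x) := by
      intro x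
      induction x using MonoidAlgebra.induction_linear with
      | zero => simp
      | add x y hx hy => rw [map_add, hx, hy, map_add, Finsupp.single_add]
      | single g n =>
        rw [piK_single, aug_single]
        congr 1
        rw [QuotientGroup.eq, closure_gn]
        trivial
    rw [key, h, Finsupp.single_zero]
  have h2 := mem_IS_of_piK h1
  have h3 : IS ℤ (Set.range gn) = Submodule.span LL (Set.range row1) := by
    rw [IS, ← Set.range_comp]
    congr 2
    funext v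
    rcases v with _ | j <;> rfl
  rw [h3, ← Fintype.range_linearCombination] at h2
  exact h2

end ex

end Pool.Agent.Helper80.Kr
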