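import Mathlib
import Pool.Agent.Helper80.KrEx

/-!
# Assembly
-/

namespace Pool.Agent.Helper80.Kr

open MonoidAlgebra

section main

/-- The index types of the resolution. -/
def Ix : ℕ → Type
  | 0 => Unit
  | 1 => Option (ZMod 5)
  | 2 => Fin 4 × ZMod 5
  | 3 => Fin 3 × ZMod 5
  | _ => Empty

instance ixFin : ∀ i, Fintype (Ix i)
  | 0 => inferInstanceAs (Fintype Unit)
  | 1 => inferInstanceAs (Fintype (Option (ZMod 5)))
  | 2 => inferInstanceAs (Fintype (Fin 4 × ZMod 5))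
  | 3 => inferInstanceAs (Fintype (Fin 3 × ZMod 5))
  | _ + 4 => inferInstanceAs (Fintype Empty)

instance ixDec : ∀ i, DecidableEq (Ix i)
  | 0 => inferInstanceAs (DecidableEq Unit)
  | 1 => inferInstanceAs (DecidableEq (Option (ZMod 5)))
  | 2 => inferInstanceAs (DecidableEq (Fin 4 × ZMod 5))
  | 3 => inferInstanceAs (DecidableEq (Fin 3 × ZMod 5))
  | _ + 4 => inferInstanceAs (DecidableEq Empty)

/-- The modules of the resolution. -/
noncomputable abbrev PM (i : ℕ) : ModuleCat.{0} LL := ModuleCat.of LL (Ix i → LL)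

/-- The rows. -/
noncomputable def row : ∀ i, Ix (i + 1) → Ix i → LL
  | 0 => fun v _ => row1 v
  | 1 => row2
  | 2 => row3
  | _ + 3 => fun v => v.elim

/-- The differentials. -/
noncomputable def dd (i : ℕ) : (Ix (i + 1) → LL) →ₗ[LL] (Ix i → LL) :=
  Fintype.linearCombination LL (row i)

theorem ek1_mul (x : LL) : ek ℤ (1 : GG) * x = x := by rw [ek_one, one_mul]

/-- A homomorphism from its values on the basis. -/
noncomputable def homOf {ι : Type} [Fintype ι] (f : ι → LL) : (ι → LL) →ₗ[LL] LL :=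
  Fintype.linearCombination LL f

theorem hom_eq {ι : Type} [Fintype ι] [DecidableEq ι] (φ : (ι → LL) →ₗ[LL] LL) :
    φ = homOf (fun i => φ (Pi.single i 1)) := by
  apply LinearMap.pi_ext
  intro i x
  rw [homOf, Fintype.linearCombination_apply_single]
  have : (Pi.single i x : ι → LL) = x • Pi.single i 1 := by
    rw [← Pi.single_smul, smul_eq_mul, mul_one]
  rw [this, map_smul]

theorem homOf_inj {ι : Type} [Fintype ι] [DecidableEq ι] {f g : ι → LL} (h : homOf f = homOf g) :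
    f = g := by
  funext i
  have := LinearMap.congr_fun h (Pi.single i 1)
  rw [homOf, homOf, Fintype.linearCombination_apply_single,
    Fintype.linearCombination_apply_single, one_smul, one_smul] at this
  exact this

theorem homOf_add {ι : Type} [Fintype ι] (f g : ι → LL) : homOf (f + g) = homOf f + homOf g := by
  apply LinearMap.ext
  intro x
  simp [homOf, Fintype.linearCombination_apply, mul_add, Finset.sum_add_distrib]

theorem homOf_nsmul {ι : Type} [Fintype ι] (n : ℕ) (f : ι → LL) :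
    homOf (n • f) = n • homOf f := by
  apply LinearMap.ext
  intro x
  simp only [homOf, Fintype.linearCombination_apply, Pi.smul_apply, LinearMap.smul_apply,
    smul_eq_mul, Finset.smul_sum]
  refine Finset.sum_congr rfl fun i _ => ?_
  exact mul_smul_comm n (x i) (f i)

theorem homOf_comb {ι : Type} [Fintype ι] (a b : ι → LL) (n : ℕ) :
    homOf (a - n • b) = -(n • homOf b) + homOf a := by
  have h1 : homOf (n • b) + homOf (a - n • b) = homOf a := by
    rw [← homOf_add, add_sub_cancel]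
  rw [← homOf_nsmul, ← h1, neg_add_cancel_left]

theorem homOf_comp {ι κ : Type} [Fintype ι] [Fintype κ] [DecidableEq κ] (f : ι → LL)
    (R : κ → ι → LL) :
    homOf f ∘ₗ Fintype.linearCombination LL R = homOf (fun r => ∑ i, R r i * f i) := by
  apply LinearMap.pi_ext
  intro i x
  rw [LinearMap.comp_apply, Fintype.linearCombination_apply_single, map_smul, homOf, homOf,
    Fintype.linearCombination_apply_single, Fintype.linearCombination_apply]
  rfl

theorem co1 (f : Unit → LL) : (fun r => ∑ i, row 0 r i * f i) = cD1 (f ()) := by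
  funext v
  rcases v with _ | j
  · show ∑ i : Unit, row 0 none i * f i = _
    simp [row, row1, cD1]
  · show ∑ i : Unit, row 0 (some j) i * f i = _
    simp [row, row1, cD1]

theorem sum_et (v : Vx) (ψ : Option (ZMod 5) → LL) :
    ∑ i, et v i * ψ i = ek ℤ (tk v.1) * ψ (some v.2) - (if v.1 = 1 then Am ℤ v else 0) * ψ none := by
  rw [Fintype.sum_option]
  have h1 : ∑ j, et v (some j) * ψ (some j) = ek ℤ (tk v.1) * ψ (some v.2) := by
    rw [Finset.sum_eq_single v.2]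
    · rw [et, if_pos rfl]
    · intro j _ hj
      rw [et, if_neg hj, zero_mul]
    · intro h; exact absurd (Finset.mem_univ _) h
  rw [h1, et, neg_mul]
  abel

theorem sum_et0 (j : ZMod 5) (ψ : Option (ZMod 5) → LL) :
    ∑ i, et (0, j) i * ψ i = ψ (some j) := by
  rw [sum_et]
  simp [tk_zero, ek1_mul]

theorem sum_et1 (j : ZMod 5) (ψ : Option (ZMod 5) → LL) :
    ∑ i, et (1, j) i * ψ i = pt1 ψ j := by
  rw [sum_et]
  simp [pt1]

theorem co2 (ψ : Option (ZMod 5) → LL) : (fun r => ∑ i, row2 r i * ψ i) = cD2 ψ := by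
  have key : ∀ u w : Vx, ∑ i, (Am ℤ u • et w - Am ℤ w • et u) i * ψ i =
      Am ℤ u * ∑ i, et w i * ψ i - Am ℤ w * ∑ i, et u i * ψ i := by
    intro u w
    rw [Finset.mul_sum, Finset.mul_sum, ← Finset.sum_sub_distrib]
    refine Finset.sum_congr rfl fun i _ => ?_
    rw [Pi.sub_apply, Pi.smul_apply, Pi.smul_apply, smul_eq_mul, smul_eq_mul, sub_mul, mul_assoc,
      mul_assoc]
  funext ⟨c, i⟩
  rw [row2]
  rw [key]
  fin_cases c
  · show Am ℤ (0, i) * ∑ j, et (0, i + 1) j * ψ j - Am ℤ (0, i + 1) * ∑ j, et (0, i) j * ψ j = _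
    rw [sum_et0, sum_et0]; rfl
  · show Am ℤ (0, 2 * i - 1) * ∑ j, et (1, i) j * ψ j -
      Am ℤ (1, i) * ∑ j, et (0, 2 * i - 1) j * ψ j = _
    rw [sum_et0, sum_et1]; rfl
  · show Am ℤ (0, 2 * i) * ∑ j, et (1, i) j * ψ j -
      Am ℤ (1, i) * ∑ j, et (0, 2 * i) j * ψ j = _
    rw [sum_et0, sum_et1]; rfl
  · show Am ℤ (0, 2 * i + 1) * ∑ j, et (1, i) j * ψ j -
      Am ℤ (1, i) * ∑ j, et (0, 2 * i + 1) j * ψ j = _
    rw [sum_et0, sum_et1]; rfl

theorem sum_eh (m : ℤ) (s : Fin 4 × ZMod 5) (φ : Fin 4 × ZMod 5 → LL) :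
    ∑ i, eh m s i * φ i = ek ℤ (tk m) * φ s := by
  rw [Finset.sum_eq_single s]
  · rw [eh, if_pos rfl]
  · intro j _ hj
    rw [eh, if_neg hj, zero_mul]
  · intro h; exact absurd (Finset.mem_univ _) h

theorem co3 (φ : Fin 4 × ZMod 5 → LL) : (fun r => ∑ i, row3 r i * φ i) = cD3 φ := by
  have key : ∀ (a b c : LL) (f g h : Fin 4 × ZMod 5 → LL),
      ∑ i, (a • f - b • g + c • h) i * φ i =
      a * ∑ i, f i * φ i - b * ∑ i, g i * φ i + c * ∑ i, h i * φ i := by
    intro a b c f g h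
    rw [Finset.mul_sum, Finset.mul_sum, Finset.mul_sum, ← Finset.sum_sub_distrib,
      ← Finset.sum_add_distrib]
    refine Finset.sum_congr rfl fun i _ => ?_
    simp only [Pi.sub_apply, Pi.add_apply, Pi.smul_apply, smul_eq_mul, sub_mul, add_mul, mul_assoc]
  funext ⟨c, i⟩
  rw [row3]
  rw [key, sum_eh, sum_eh, sum_eh]
  fin_cases c <;> simp [cD3, v0, v1, v2, e12, e02, e01, tk_zero, ek1_mul]

/-- A nonzero element divisible by all powers of two is an obstruction to freeness. -/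
theorem not_free {H : Type} [AddCommGroup H] (u : H) (hu : u ≠ 0)
    (hd : ∀ n : ℕ, ∃ v : H, 2 ^ n • v = u) : ¬ Module.Free ℤ H := by
  intro hf
  apply hu
  have b := Module.Free.chooseBasis ℤ H
  apply b.repr.injective
  rw [map_zero]
  ext i
  obtain ⟨v, hv⟩ := hd (b.repr u i).natAbs
  have h1 : b.repr u i = 2 ^ (b.repr u i).natAbs * b.repr v i := by
    conv_lhs => rw [← hv]
    rw [map_nsmul, Finsupp.smul_apply, nsmul_eq_mul]
    push_cast
    rfl
  rw [Finsupp.zero_apply]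
  refine Int.eq_zero_of_abs_lt_dvd (Dvd.intro _ h1.symm) ?_
  rw [Int.abs_eq_natAbs]
  exact_mod_cast Nat.lt_two_pow_self

theorem dd0_apply (y : Option (ZMod 5) → LL) : dd 0 y = fun _ => d1 y := by
  funext u
  rw [dd, Fintype.linearCombination_apply, d1, Fintype.linearCombination_apply, Finset.sum_apply]
  rfl

theorem r5 (x : Ix 0 → LL) : aug (x ()) = 0 ↔ ∃ y, dd 0 y = x := by
  constructor
  · intro h
    obtain ⟨y, hy⟩ := ex0 h
    refine ⟨y, ?_⟩
    rw [dd0_apply, hy]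
    rfl
  · rintro ⟨y, rfl⟩
    rw [dd0_apply]
    exact aug_d1 y

theorem r6 : ∀ i : ℕ, ∀ x : Ix (i + 1) → LL, dd i x = 0 ↔ ∃ y, dd (i + 1) y = x
  | 0, x => by
    constructor
    · intro h
      have h2 : d1 x = 0 := by
        have := congrFun h ()
        rw [dd0_apply] at this
        exact this
      obtain ⟨y, hy⟩ := ex1 h2
      exact ⟨y, hy⟩
    · rintro ⟨y, rfl⟩
      rw [dd0_apply]
      have : d1 (dd (0 + 1) y) = 0 := d1_d2 y
      rw [this]; rfl
  | 1, x => by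
    constructor
    · intro h
      obtain ⟨y, hy⟩ := ex2 (x := x) h
      exact ⟨y, hy⟩
    · rintro ⟨y, rfl⟩
      exact d2_d3 y
  | 2, x => by
    constructor
    · intro h
      have h2 : x = 0 := ex3 (z := x) h
      exact ⟨0, by rw [map_zero, h2]⟩
    · rintro ⟨y, rfl⟩
      have : y = 0 := funext fun e => Empty.elim e
      rw [this, map_zero, map_zero]
  | n + 3, x => by
    have hx : x = 0 := funext fun e => Empty.elim e
    subst hx
    rw [map_zero]
    exact ⟨fun _ => ⟨0, map_zero _⟩, fun _ => rfl⟩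

theorem hom_dd (i : ℕ) (φ : (Ix i → LL) →ₗ[LL] LL) :
    φ ∘ₗ dd i = homOf (fun r => ∑ j, row i r j * φ (Pi.single j 1)) := by
  conv_lhs => rw [hom_eq φ]
  exact homOf_comp _ _

theorem homOf_zero {ι : Type} [Fintype ι] [DecidableEq ι] : (homOf (0 : ι → LL)) = 0 := by
  apply LinearMap.ext
  intro x
  simp [homOf, Fintype.linearCombination_apply]

theorem r7 (φ : (Ix 0 → LL) →ₗ[LL] LL) (h : φ ∘ₗ dd 0 = 0) : φ = 0 := by
  rw [hom_dd, ← homOf_zero] at h
  have h1 : cD1 (φ (Pi.single () 1)) = 0 := (co1 (fun j => φ (Pi.single j 1))).symm.trans (homOf_inj h)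
  have h2 := H0_zero _ h1
  rw [hom_eq φ, ← homOf_zero]
  congr 1
  funext j
  exact h2

theorem r8 : ∀ i : ℕ, i ≠ 2 → ∀ φ : (Ix (i + 1) → LL) →ₗ[LL] LL, φ ∘ₗ dd (i + 1) = 0 →
    ∃ ψ : (Ix i → LL) →ₗ[LL] LL, ψ ∘ₗ dd i = φ
  | 0, _, φ, h => by
    rw [hom_dd, ← homOf_zero] at h
    have h1 : cD2 (fun j => φ (Pi.single j 1)) = 0 := (co2 _).symm.trans (homOf_inj h)
    obtain ⟨x, hx⟩ := H1_zero _ h1
    refine ⟨homOf (fun _ => x), ?_⟩
    refine (homOf_comp _ _).trans ?_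
    rw [hom_eq φ]
    congr 1
    exact (co1 (fun _ => x)).trans hx
  | 1, _, φ, h => by
    rw [hom_dd, ← homOf_zero] at h
    have h1 : cD3 (fun j => φ (Pi.single j 1)) = 0 := (co3 _).symm.trans (homOf_inj h)
    obtain ⟨x, hx⟩ := H2_zero _ h1
    refine ⟨homOf x, ?_⟩
    refine (homOf_comp _ _).trans ?_
    rw [hom_eq φ]
    congr 1
    exact (co2 x).trans hx
  | 2, h, _, _ => absurd rfl h
  | n + 3, _, φ, _ => by
    refine ⟨0, ?_⟩
    apply LinearMap.ext
    intro x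
    have hx : x = 0 := funext fun e => Empty.elim e
    rw [hx, map_zero, map_zero]

theorem r9 (φ : (Ix 3 → LL) →ₗ[LL] LL) (k : ℕ) (hk : 0 < k)
    (h : ∃ ψ : (Ix 2 → LL) →ₗ[LL] LL, ψ ∘ₗ dd 2 = k • φ) :
    ∃ ψ : (Ix 2 → LL) →ₗ[LL] LL, ψ ∘ₗ dd 2 = φ := by
  obtain ⟨ψ, hψ⟩ := h
  rw [hom_dd, hom_eq φ, ← homOf_nsmul] at hψ
  have h1 : cD3 (fun j => ψ (Pi.single j 1)) = k • (fun j => φ (Pi.single j 1)) :=
    (co3 _).symm.trans (homOf_inj hψ)
  obtain ⟨f, hf⟩ := torsion_free k hk _ _ h1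
  refine ⟨homOf f, ?_⟩
  refine (homOf_comp _ _).trans ?_
  rw [hom_eq φ]
  congr 1
  exact (co3 f).trans hf

/-- The functional on homomorphisms. -/
noncomputable def FH (φ : (Ix 3 → LL) →ₗ[LL] LL) : ℚ := FF (fun r => φ (Pi.single r 1))

theorem FH_add (φ ψ : (Ix 3 → LL) →ₗ[LL] LL) : FH (φ + ψ) = FH φ + FH ψ := FF_add _ _

theorem FH_neg (φ : (Ix 3 → LL) →ₗ[LL] LL) : FH (- φ) = - FH φ := by
  have h0 : FH 0 = 0 := by
    have := FH_add 0 0
    rw [add_zero] at this
    linarith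
  have := FH_add φ (- φ)
  rw [add_neg_cancel, h0] at this
  linarith

theorem homOf_single {ι : Type} [Fintype ι] [DecidableEq ι] (f : ι → LL) (i : ι) :
    homOf f (Pi.single i 1) = f i := by
  rw [homOf, Fintype.linearCombination_apply_single, one_smul]

theorem FH_zero_of_mem {φ : (Ix 3 → LL) →ₗ[LL] LL}
    (h : φ ∈ AddSubgroup.closure {φ : (Ix 3 → LL) →ₗ[LL] LL |
      ∃ ψ : (Ix 2 → LL) →ₗ[LL] LL, ψ ∘ₗ dd 2 = φ}) : FH φ = 0 := by
  induction h using AddSubgroup.closure_induction with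
  | mem x hx =>
    obtain ⟨ψ, rfl⟩ := hx
    rw [hom_dd]
    have h1 : (fun r => ∑ j, row 2 r j * ψ (Pi.single j 1)) = cD3 (fun j => ψ (Pi.single j 1)) :=
      co3 _
    rw [h1, FH]
    simp only [homOf_single]
    exact FF_cD3 _
  | zero =>
    have := FH_add 0 0
    rw [add_zero] at this
    linarith
  | add x y _ _ hx hy => rw [FH_add, hx, hy, add_zero]
  | neg x _ hx => rw [FH_neg, hx, neg_zero]

theorem r10 : ¬ Module.Free ℤ
    (↥(AddSubgroup.closure {φ : (Ix 3 → LL) →ₗ[LL] LL | φ ∘ₗ dd 3 = 0}) ⧸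
      (AddSubgroup.closure {φ : (Ix 3 → LL) →ₗ[LL] LL |
        ∃ ψ : (Ix 2 → LL) →ₗ[LL] LL, ψ ∘ₗ dd 2 = φ}).addSubgroupOf
      (AddSubgroup.closure {φ : (Ix 3 → LL) →ₗ[LL] LL | φ ∘ₗ dd 3 = 0})) := by
  have hall : ∀ φ : (Ix 3 → LL) →ₗ[LL] LL,
      φ ∈ AddSubgroup.closure {φ : (Ix 3 → LL) →ₗ[LL] LL | φ ∘ₗ dd 3 = 0} := by
    intro φ
    apply AddSubgroup.subset_closure
    show φ ∘ₗ dd 3 = 0
    apply LinearMap.ext
    intro x
    have hx : x = 0 := funext fun e => Empty.elim e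
    rw [hx, map_zero, map_zero]
  refine not_free (QuotientAddGroup.mk ⟨homOf (TT 0 0 1), hall _⟩) ?_ ?_
  · intro h
    rw [QuotientAddGroup.eq_zero_iff, AddSubgroup.mem_addSubgroupOf] at h
    have h1 := FH_zero_of_mem h
    rw [FH] at h1
    simp only [homOf_single] at h1
    have h2 := FF_U
    rw [show FF (TT 0 0 1) = 0 from h1] at h2
    exact zero_ne_one h2
  · intro n
    obtain ⟨ν', f, hf⟩ := div_U (K := ℤ) n 1
    refine ⟨QuotientAddGroup.mk ⟨homOf (TT 0 0 ν'), hall _⟩, ?_⟩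
    rw [← QuotientAddGroup.mk_nsmul, QuotientAddGroup.eq, AddSubgroup.mem_addSubgroupOf]
    apply AddSubgroup.subset_closure
    refine ⟨homOf f, ?_⟩
    refine (homOf_comp _ _).trans ?_
    have h1 : (fun r => ∑ i, row 2 r i * f i) = cD3 f := co3 f
    rw [h1]
    have h2 : cD3 f = TT 0 0 1 - 2 ^ n • TT 0 0 ν' := hf
    rw [h2]
    exact homOf_comb (TT 0 0 1) (TT 0 0 ν') (2 ^ n)

end main

end Pool.Agent.Helper80.Kr
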