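import Mathlib

/-!
A finiteness criterion for abelian groups with a family of invariant subgroups.
-/

open Set

set_option linter.style.haveILetI false
set_option linter.unusedSectionVars false

namespace Pool.Agent.Helper80.PM

lemma exists_kill_torsion (M : Type*) [AddCommGroup M] [Module.Finite ℤ M] :
    ∃ m : ℕ, 0 < m ∧ ∀ (x : M) (n : ℕ), 0 < n → n • (m • x) = 0 → m • x = 0 := by
  have hfin : Finite (Submodule.torsion ℤ M) :=
    Module.finite_of_fg_torsion _ (Submodule.torsion_isTorsion (R := ℤ) (M := M))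
  refine ⟨Nat.card (Submodule.torsion ℤ M), Nat.card_pos, fun x n hn h => ?_⟩
  have hx : x ∈ Submodule.torsion ℤ M := by
    rw [Submodule.mem_torsion_iff]
    refine ⟨⟨((n * Nat.card (Submodule.torsion ℤ M) : ℕ) : ℤ), ?_⟩, ?_⟩
    · rw [mem_nonZeroDivisors_iff_ne_zero]
      have : 0 < n * Nat.card (Submodule.torsion ℤ M) := Nat.mul_pos hn Nat.card_pos
      exact_mod_cast this.ne'
    · show ((n * Nat.card (Submodule.torsion ℤ M) : ℕ) : ℤ) • x = 0
      rw [natCast_zsmul, mul_smul]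
      exact h
  have := card_nsmul_eq_zero' (x := (⟨x, hx⟩ : Submodule.torsion ℤ M))
  exact congrArg Subtype.val this

lemma exists_not_divisible (Q : Type*) [AddCommGroup Q] [Module.Finite ℤ Q] [Nontrivial Q] :
    ∃ m : ℕ, 0 < m ∧ ∃ x : Q, ∀ y : Q, m • y ≠ x := by
  by_contra hcon
  push Not at hcon
  have h2 : (⊤ : Submodule ℤ Q) ≤ (Ideal.span {(2 : ℤ)}) • (⊤ : Submodule ℤ Q) := by
    intro x _
    obtain ⟨y, rfl⟩ := hcon 2 (by norm_num) x
    have : (2 : ℕ) • y = (2 : ℤ) • y := by norm_num [two_smul]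
    rw [this]
    exact Submodule.smul_mem_smul (Ideal.mem_span_singleton_self _) trivial
  obtain ⟨r, hr1, hr2⟩ := Submodule.exists_sub_one_mem_and_smul_eq_zero_of_fg_of_le_smul
    (Ideal.span {(2 : ℤ)}) ⊤ Module.Finite.fg_top h2
  have hr0 : r ≠ 0 := by
    rintro rfl
    rw [Ideal.mem_span_singleton] at hr1
    norm_num at hr1
  obtain ⟨x, hx⟩ := exists_ne (0 : Q)
  obtain ⟨y, hy⟩ := hcon r.natAbs (Int.natAbs_pos.mpr hr0) x
  apply hx
  rw [← hy]
  have h3 := hr2 y trivial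
  rcases Int.natAbs_eq r with h | h
  · rw [h, natCast_zsmul] at h3
    exact h3
  · rw [h, neg_smul, natCast_zsmul, neg_eq_zero] at h3
    exact h3

section

variable {E : Type*} [AddCommGroup E]

/-- `n` times a submodule -/
def nMul (n : ℕ) (F : Submodule ℤ E) : Submodule ℤ E := F.map ((n : ℤ) • LinearMap.id)

lemma mem_nMul {n : ℕ} {F : Submodule ℤ E} {x : E} : x ∈ nMul n F ↔ ∃ y ∈ F, n • y = x := by
  unfold nMul
  rw [Submodule.mem_map]
  simp

/-- a stage of the construction -/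
structure Stage (Inv : Submodule ℤ E → Prop) where
  B : Submodule ℤ E
  S : Submodule ℤ E
  fg : B.FG
  invB : Inv B
  invS : Inv S
  le : S ≤ B
  tors : ∀ b ∈ B, ∃ n : ℕ, 0 < n ∧ n • b ∈ S

lemma exists_step (Inv : Submodule ℤ E → Prop)
    (hsup : ∀ F F', Inv F → Inv F' → Inv (F ⊔ F'))
    (hmul : ∀ F (n : ℕ), Inv F → Inv (nMul n F))
    (hfg : ∀ e, ∃ B : Submodule ℤ E, e ∈ B ∧ B.FG ∧ Inv B)
    (hnfg : ¬ (⊤ : Submodule ℤ E).FG) (p : Stage Inv) :
    ∃ q : Stage Inv, p.B ≤ q.B ∧ p.S ≤ q.S ∧ q.S ⊓ p.B ≤ p.S ∧ ∃ x ∈ q.B, x ∉ p.B ⊔ q.S := by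
  have hne : ∃ e, e ∉ p.B := by
    by_contra hcon
    push Not at hcon
    exact hnfg ((eq_top_iff.mpr (fun x _ => hcon x) : p.B = ⊤) ▸ p.fg)
  obtain ⟨e, he⟩ := hne
  obtain ⟨D, heD, hDfg, hDinv⟩ := hfg e
  set B' : Submodule ℤ E := p.B ⊔ D with hB'
  have hB'fg : B'.FG := p.fg.sup hDfg
  haveI : Module.Finite ℤ B' := Module.Finite.iff_fg.mpr hB'fg
  have heB' : e ∈ B' := Submodule.mem_sup_right heD
  -- the two auxiliary modules
  let M := B' ⧸ (p.S.comap B'.subtype)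
  let Q := B' ⧸ (p.B.comap B'.subtype)
  haveI : Nontrivial Q := by
    refine ⟨⟨Submodule.Quotient.mk ⟨e, heB'⟩, 0, fun h => he ?_⟩⟩
    rw [Submodule.Quotient.mk_eq_zero] at h
    exact h
  obtain ⟨m₀, hm₀, hM⟩ := exists_kill_torsion M
  obtain ⟨m₁, hm₁, q, hQ⟩ := exists_not_divisible Q
  obtain ⟨x, rfl⟩ := Submodule.Quotient.mk_surjective _ q
  refine ⟨⟨B', p.S ⊔ nMul (m₀ * m₁) B', hB'fg, hsup _ _ p.invB hDinv,
    hsup _ _ p.invS (hmul _ _ (hsup _ _ p.invB hDinv)), ?_, ?_⟩, le_sup_left, le_sup_left, ?_,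
    x, x.2, ?_⟩
  · refine sup_le (p.le.trans le_sup_left) ?_
    intro y hy
    obtain ⟨z, hz, rfl⟩ := mem_nMul.mp hy
    exact nsmul_mem hz _
  · intro b hb
    exact ⟨m₀ * m₁, Nat.mul_pos hm₀ hm₁, Submodule.mem_sup_right (mem_nMul.mpr ⟨b, hb, rfl⟩)⟩
  · rintro y ⟨hy1, hy2⟩
    obtain ⟨s, hs, z, hz, rfl⟩ := Submodule.mem_sup.mp hy1
    obtain ⟨b, hb, rfl⟩ := mem_nMul.mp hz
    have h1 : (m₀ * m₁) • b ∈ p.B := by
      have := p.B.sub_mem hy2 (p.le hs)
      rwa [add_sub_cancel_left] at this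
    obtain ⟨n, hn, h2⟩ := p.tors _ h1
    have h3 := hM (Submodule.Quotient.mk (m₁ • (⟨b, hb⟩ : B'))) n hn (by
      rw [← Submodule.Quotient.mk_smul, ← Submodule.Quotient.mk_smul,
        Submodule.Quotient.mk_eq_zero]
      show n • (m₀ • (m₁ • b)) ∈ p.S
      rw [← mul_smul m₀ m₁]
      exact h2)
    rw [← Submodule.Quotient.mk_smul, Submodule.Quotient.mk_eq_zero] at h3
    have h4 : m₀ • (m₁ • b) ∈ p.S := h3
    rw [← mul_smul] at h4
    exact p.S.add_mem hs h4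
  · intro hx
    have h1 : (x : E) ∈ p.B ⊔ nMul (m₀ * m₁) B' := by
      have h2 : p.B ⊔ (p.S ⊔ nMul (m₀ * m₁) B') ≤ p.B ⊔ nMul (m₀ * m₁) B' :=
        sup_le le_sup_left (sup_le (p.le.trans le_sup_left) le_sup_right)
      exact h2 hx
    obtain ⟨b, hb, z, hz, hbz⟩ := Submodule.mem_sup.mp h1
    obtain ⟨c, hc, rfl⟩ := mem_nMul.mp hz
    apply hQ (Submodule.Quotient.mk (m₀ • (⟨c, hc⟩ : B')))
    rw [← Submodule.Quotient.mk_smul, Submodule.Quotient.eq]
    show m₁ • (m₀ • c) - (x : E) ∈ p.B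
    rw [← hbz, ← mul_smul, mul_comm m₁ m₀]
    have : (m₀ * m₁) • c - (b + (m₀ * m₁) • c) = -b := by abel
    rw [this]
    exact p.B.neg_mem hb

/-- Finiteness criterion. -/
theorem fg_of_inv (Inv : Submodule ℤ E → Prop) (hbot : Inv ⊥)
    (hsup : ∀ F F', Inv F → Inv F' → Inv (F ⊔ F'))
    (hsSup : ∀ c : Set (Submodule ℤ E), c.Nonempty → DirectedOn (· ≤ ·) c → (∀ F ∈ c, Inv F) →
      Inv (sSup c))
    (hmul : ∀ F (n : ℕ), Inv F → Inv (nMul n F))
    (hfg : ∀ e, ∃ B : Submodule ℤ E, e ∈ B ∧ B.FG ∧ Inv B)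
    (hfin : ∀ F, Inv F → (∀ e, ∃ n : ℕ, 0 < n ∧ n • e ∈ F) → Finite (E ⧸ F)) :
    (⊤ : Submodule ℤ E).FG := by
  by_contra hnfg
  have hstep := exists_step Inv hsup hmul hfg hnfg
  choose f hf1 hf2 hf3 x hx1 hx2 using hstep
  let p₀ : Stage Inv := ⟨⊥, ⊥, Submodule.fg_bot, hbot, hbot, le_rfl, fun b hb => ⟨1, one_pos, by
    simpa using hb⟩⟩
  let p : ℕ → Stage Inv := fun n => f^[n] p₀
  have hp : ∀ n, p (n + 1) = f (p n) := fun n => Function.iterate_succ_apply' f n p₀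
  have hBmono : Monotone (fun n => (p n).B) := monotone_nat_of_le_succ fun n => by
    show (p n).B ≤ (p (n + 1)).B
    rw [hp]; exact hf1 _
  have hSmono : Monotone (fun n => (p n).S) := monotone_nat_of_le_succ fun n => by
    show (p n).S ≤ (p (n + 1)).S
    rw [hp]; exact hf2 _
  have hSB : ∀ k l, k ≤ l → (p l).S ⊓ (p k).B ≤ (p k).S := by
    intro k l hkl
    induction l, hkl using Nat.le_induction with
    | base => exact inf_le_left
    | succ l hkl ih =>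
      intro y hy
      apply ih
      refine ⟨?_, hy.2⟩
      have h1 : y ∈ (f (p l)).S := by
        have := hy.1
        rwa [hp] at this
      exact hf3 (p l) ⟨h1, hBmono hkl hy.2⟩
  set B : Submodule ℤ E := ⨆ n, (p n).B with hB
  set S : Submodule ℤ E := ⨆ n, (p n).S with hS
  have hmemB : ∀ y, y ∈ B ↔ ∃ n, y ∈ (p n).B := fun y =>
    Submodule.mem_iSup_of_directed _ hBmono.directed_le
  have hmemS : ∀ y, y ∈ S ↔ ∃ n, y ∈ (p n).S := fun y =>
    Submodule.mem_iSup_of_directed _ hSmono.directed_le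
  have hInvS : Inv S := by
    have : S = sSup (range fun n => (p n).S) := rfl
    rw [this]
    refine hsSup _ (range_nonempty _) ?_ ?_
    · rintro _ ⟨m, rfl⟩ _ ⟨n, rfl⟩
      exact ⟨_, ⟨max m n, rfl⟩, hSmono (le_max_left _ _), hSmono (le_max_right _ _)⟩
    · rintro _ ⟨n, rfl⟩
      exact (p n).invS
  have hSleB : S ≤ B := iSup_mono fun n => (p n).le
  -- Zorn
  obtain ⟨F, hSF, hF⟩ := zorn_le_nonempty₀ {F : Submodule ℤ E | Inv F ∧ F ⊓ B ≤ S} (by
    intro c hc hchain y hy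
    refine ⟨sSup c, ⟨hsSup c ⟨y, hy⟩ hchain.directedOn (fun F hF => (hc hF).1), ?_⟩,
      fun z hz => le_sSup hz⟩
    rintro z ⟨hz1, hz2⟩
    rw [SetLike.mem_coe, Submodule.mem_sSup_of_directed ⟨y, hy⟩ hchain.directedOn] at hz1
    obtain ⟨F, hF, hzF⟩ := hz1
    exact (hc hF).2 ⟨hzF, hz2⟩) S ⟨hInvS, inf_le_left⟩
  obtain ⟨⟨hFinv, hFB⟩, hFmax⟩ := hF
  have htors : ∀ e, ∃ n : ℕ, 0 < n ∧ n • e ∈ F := by
    intro e
    obtain ⟨D, heD, hDfg, hDinv⟩ := hfg e
    haveI : Module.Finite ℤ D := Module.Finite.iff_fg.mpr hDfg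
    obtain ⟨m, hm, hM⟩ := exists_kill_torsion (D ⧸ (F.comap D.subtype))
    refine ⟨m, hm, ?_⟩
    have hF' : F ⊔ nMul m D ∈ {F : Submodule ℤ E | Inv F ∧ F ⊓ B ≤ S} := by
      refine ⟨hsup _ _ hFinv (hmul _ _ hDinv), ?_⟩
      rintro y ⟨hy1, hy2⟩
      refine hFB ⟨?_, hy2⟩
      obtain ⟨a, ha, z, hz, rfl⟩ := Submodule.mem_sup.mp hy1
      obtain ⟨d, hd, rfl⟩ := mem_nMul.mp hz
      obtain ⟨k, hk⟩ := (hmemB _).mp hy2
      obtain ⟨n, hn, h2⟩ := (p k).tors _ hk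
      have h3 : n • (a + m • d) ∈ F := hSF ((hmemS _).mpr ⟨k, h2⟩)
      have h4 : n • (m • d) ∈ F := by
        have h5 : n • a ∈ F := nsmul_mem ha n
        have h6 := F.sub_mem h3 h5
        rwa [smul_add, add_sub_cancel_left] at h6
      have h7 := hM (Submodule.Quotient.mk (⟨d, hd⟩ : D)) n hn (by
        rw [← Submodule.Quotient.mk_smul, ← Submodule.Quotient.mk_smul,
          Submodule.Quotient.mk_eq_zero]
        exact h4)
      rw [← Submodule.Quotient.mk_smul, Submodule.Quotient.mk_eq_zero] at h7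
      exact F.add_mem ha h7
    exact hFmax hF' le_sup_left (Submodule.mem_sup_right (mem_nMul.mpr ⟨e, heD, rfl⟩))
  haveI := hfin F hFinv htors
  -- infinitely many classes
  have hinj : Function.Injective (fun k : ℕ => (Submodule.Quotient.mk (x (p k)) : E ⧸ F)) := by
    have key : ∀ k l : ℕ, k < l → (Submodule.Quotient.mk (x (p k)) : E ⧸ F) ≠
        Submodule.Quotient.mk (x (p l)) := by
      intro k l hkl h
      rw [eq_comm, Submodule.Quotient.eq] at h
      have hxk : x (p k) ∈ (p l).B := by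
        have h1 : x (p k) ∈ (p (k + 1)).B := by rw [hp]; exact hx1 _
        exact hBmono hkl h1
      have hxl : x (p l) ∈ (p (l + 1)).B := by rw [hp]; exact hx1 _
      have hd : x (p l) - x (p k) ∈ (p (l + 1)).B :=
        Submodule.sub_mem _ hxl (hBmono (Nat.le_succ l) hxk)
      have hdS : x (p l) - x (p k) ∈ S := hFB ⟨h, (hmemB _).mpr ⟨_, hd⟩⟩
      obtain ⟨n, hn⟩ := (hmemS _).mp hdS
      have hdS' : x (p l) - x (p k) ∈ (p (l + 1)).S := by
        rcases le_total n (l + 1) with h1 | h1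
        · exact hSmono h1 hn
        · exact hSB _ _ h1 ⟨hn, hd⟩
      apply hx2 (p l)
      have : x (p l) = x (p k) + (x (p l) - x (p k)) := by abel
      rw [this]
      refine Submodule.add_mem_sup hxk ?_
      rw [← hp]
      exact hdS'
    intro k l h
    by_contra hne
    rcases lt_or_gt_of_ne hne with h1 | h1
    · exact key _ _ h1 h
    · exact key _ _ h1 h.symm
  exact not_injective_infinite_finite _ hinj

end

end Pool.Agent.Helper80.PM
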