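import Pool.Agent.Helper80.PMDual
import Pool.Agent.Helper80.PMAlg

/-!
Closed normal abelian subgroups of a compact group all of whose closed normal totally disconnected
subgroups are finite.
-/

open Set Filter Topology

set_option linter.style.haveILetI false
set_option linter.unusedSectionVars false

namespace Pool.Agent.Helper80.PM

universe u

variable {K : Type u} [Group K] [TopologicalSpace K] [IsTopologicalGroup K] [CompactSpace K]
  [T2Space K]

/-- `K` acts on the characters of a normal subgroup -/
def conjHom (A : Subgroup K) (hA : A.Normal) (k : K) : A →ₜ* A where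
  toFun := fun a => ⟨k * a * k⁻¹, hA.conj_mem a a.2 k⟩
  map_one' := by ext; simp
  map_mul' := fun a b => by ext; simp
  continuous_toFun := by fun_prop

lemma conjHom_apply {A : Subgroup K} (hA : A.Normal) (k : K) (a : A) :
    ((conjHom A hA k a : A) : K) = k * a * k⁻¹ := rfl

lemma conjHom_mul {A : Subgroup K} (hA : A.Normal) (k l : K) (a : A) :
    conjHom A hA (k * l) a = conjHom A hA k (conjHom A hA l a) := by
  ext
  simp [conjHom_apply, mul_assoc]

/-- characters which are close are equal -/
lemma char_eq_of_close {A : Type*} [Group A] [TopologicalSpace A] (χ ψ : A →ₜ* Circle)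
    (h : ∀ a, ‖((χ a * (ψ a)⁻¹ : Circle) : ℂ) - 1‖ < 1) : χ = ψ := by
  refine ContinuousMonoidHom.ext fun a => ?_
  have h1 : χ a * (ψ a)⁻¹ = 1 := by
    refine circle_nss fun n => ?_
    have h2 := h (a ^ n)
    have h3 : χ (a ^ n) * (ψ (a ^ n))⁻¹ = (χ a * (ψ a)⁻¹) ^ n := by
      rw [map_pow, map_pow, mul_pow, inv_pow]
    rwa [h3] at h2
  exact mul_inv_eq_one.mp h1

/-- the stabiliser of a character is a neighbourhood of `1` -/
lemma eventually_conj_char {A : Subgroup K} (hA : CN A) (χ : A →ₜ* Circle) :
    ∀ᶠ k in 𝓝 (1 : K), χ.comp (conjHom A hA.1 k) = χ := by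
  haveI : CompactSpace A := isCompact_iff_compactSpace.mp hA.2.isCompact
  have h1 : ∀ᶠ k in 𝓝 (1 : K), ∀ a ∈ (univ : Set A),
      ‖((χ (conjHom A hA.1 k a) * (χ a)⁻¹ : Circle) : ℂ) - 1‖ < 1 := by
    refine isCompact_univ.eventually_forall_of_forall_eventually fun a _ => ?_
    have hc : Continuous (fun z : K × A =>
        ‖((χ (conjHom A hA.1 z.1 z.2) * (χ z.2)⁻¹ : Circle) : ℂ) - 1‖) := by
      have e1 : Continuous (fun z : K × A => conjHom A hA.1 z.1 z.2) := by
        refine Continuous.subtype_mk ?_ _
        fun_prop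
      have e2 : Continuous (fun z : K × A => χ (conjHom A hA.1 z.1 z.2)) :=
        χ.continuous_toFun.comp e1
      have e3 : Continuous (fun z : K × A => χ z.2) := χ.continuous_toFun.comp continuous_snd
      have e4 : Continuous (fun z : K × A =>
          ((χ (conjHom A hA.1 z.1 z.2) * (χ z.2)⁻¹ : Circle) : ℂ)) :=
        continuous_subtype_val.comp (e2.mul e3.inv)
      exact (e4.sub continuous_const).norm
    have h2 := hc.tendsto ((1 : K), a)
    refine h2.eventually_lt_const ?_
    have h3 : conjHom A hA.1 1 a = a := by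
      ext
      simp [conjHom_apply]
    show ‖((χ (conjHom A hA.1 1 a) * (χ a)⁻¹ : Circle) : ℂ) - 1‖ < 1
    rw [h3, mul_inv_cancel]
    simp
  filter_upwards [h1] with k hk
  exact char_eq_of_close _ _ fun a => hk a (mem_univ a)

lemma locConst_conj_char {A : Subgroup K} (hA : CN A) (χ : A →ₜ* Circle) :
    IsLocallyConstant (fun k : K => χ.comp (conjHom A hA.1 k)) := by
  rw [IsLocallyConstant.iff_eventually_eq]
  intro k₀
  have h1 : Tendsto (fun k : K => k * k₀⁻¹) (𝓝 k₀) (𝓝 1) := by
    have : Continuous (fun k : K => k * k₀⁻¹) := by fun_prop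
    have h2 := this.tendsto k₀
    rwa [mul_inv_cancel] at h2
  filter_upwards [h1.eventually (eventually_conj_char hA χ)] with k hk
  refine ContinuousMonoidHom.ext fun a => ?_
  have h3 : k = (k * k₀⁻¹) * k₀ := by group
  show χ (conjHom A hA.1 k a) = χ (conjHom A hA.1 k₀ a)
  conv_lhs => rw [h3]
  rw [conjHom_mul]
  exact congrArg (fun φ : A →ₜ* Circle => φ (conjHom A hA.1 k₀ a)) hk

/-- the dual group of `A`, written additively -/
abbrev Dual (A : Subgroup K) : Type u := Additive (A →ₜ* Circle)

/-- evaluation -/
noncomputable def evD {A : Subgroup K} (a : A) : Dual A →+ Additive Circle where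
  toFun := fun e => Additive.ofMul (Additive.toMul e a)
  map_zero' := rfl
  map_add' := fun _ _ => rfl

lemma toMul_nsmul {A : Subgroup K} (n : ℕ) (e : Dual A) (a : A) :
    Additive.toMul (n • e) a = (Additive.toMul e a) ^ n := by
  have := map_nsmul (evD a) n e
  exact congrArg Additive.toMul this

lemma toMul_zsmul {A : Subgroup K} (n : ℤ) (e : Dual A) (a : A) :
    Additive.toMul (n • e) a = (Additive.toMul e a) ^ n := by
  have := map_zsmul (evD a) n e
  exact congrArg Additive.toMul this

/-- the action of `K` on the dual group -/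
noncomputable def actL (A : Subgroup K) (hA : A.Normal) (k : K) : Dual A →ₗ[ℤ] Dual A :=
  AddMonoidHom.toIntLinearMap
    { toFun := fun e => Additive.ofMul ((Additive.toMul e).comp (conjHom A hA k))
      map_zero' := rfl
      map_add' := fun _ _ => rfl }

lemma actL_apply {A : Subgroup K} (hA : A.Normal) (k : K) (e : Dual A) (a : A) :
    Additive.toMul (actL A hA k e) a = Additive.toMul e (conjHom A hA k a) := rfl

lemma actL_actL {A : Subgroup K} (hA : A.Normal) (k l : K) (e : Dual A) :
    actL A hA k (actL A hA l e) = actL A hA (l * k) e := by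
  apply Additive.toMul.injective
  refine ContinuousMonoidHom.ext fun a => ?_
  rw [actL_apply, actL_apply, actL_apply, conjHom_mul]

/-- invariant subgroups of the dual -/
def InvD (A : Subgroup K) (hA : A.Normal) (F : Submodule ℤ (Dual A)) : Prop :=
  ∀ k, ∀ e ∈ F, actL A hA k e ∈ F

/-- annihilator of a subgroup of the dual, as a subgroup of `K` -/
def annih (A : Subgroup K) (F : Submodule ℤ (Dual A)) : Subgroup K where
  carrier := {x | ∃ hx : x ∈ A, ∀ e ∈ F, Additive.toMul e ⟨x, hx⟩ = 1}
  one_mem' := ⟨A.one_mem, fun e _ => map_one (Additive.toMul e)⟩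
  mul_mem' := by
    rintro a b ⟨ha, ha'⟩ ⟨hb, hb'⟩
    refine ⟨A.mul_mem ha hb, fun e he => ?_⟩
    have : (⟨a * b, A.mul_mem ha hb⟩ : A) = ⟨a, ha⟩ * ⟨b, hb⟩ := rfl
    rw [this, map_mul, ha' e he, hb' e he, one_mul]
  inv_mem' := by
    rintro a ⟨ha, ha'⟩
    refine ⟨A.inv_mem ha, fun e he => ?_⟩
    have : (⟨a⁻¹, A.inv_mem ha⟩ : A) = (⟨a, ha⟩ : A)⁻¹ := rfl
    rw [this, map_inv, ha' e he, inv_one]

lemma annih_le (A : Subgroup K) (F : Submodule ℤ (Dual A)) : annih A F ≤ A := fun _ hx => hx.1

lemma annih_cn {A : Subgroup K} (hA : CN A) {F : Submodule ℤ (Dual A)} (hF : InvD A hA.1 F) :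
    CN (annih A F) := by
  constructor
  · constructor
    rintro x ⟨hx, hx'⟩ k
    refine ⟨hA.1.conj_mem x hx k, fun e he => ?_⟩
    exact hx' _ (hF k e he)
  · have : (annih A F : Set K) = Subtype.val '' (⋂ e ∈ F, {a : A | Additive.toMul e a = 1}) := by
      ext x
      constructor
      · rintro ⟨hx, hx'⟩
        refine ⟨⟨x, hx⟩, ?_, rfl⟩
        simp only [mem_iInter]
        exact fun e he => hx' e he
      · rintro ⟨a, ha, rfl⟩
        simp only [mem_iInter] at ha
        exact ⟨a.2, fun e he => ha e he⟩
    rw [this]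
    refine (hA.2.isClosedEmbedding_subtypeVal.isClosed_iff_image_isClosed).mp ?_
    exact isClosed_biInter fun e _ =>
      isClosed_eq (Additive.toMul e).continuous_toFun continuous_const

lemma finite_pow_eq_one {n : ℕ} (hn : 0 < n) : {z : Circle | z ^ n = 1}.Finite := by
  have h1 : {z : ℂ | z ^ n = 1}.Finite := by
    refine ((Polynomial.nthRoots n (1 : ℂ)).toFinset.finite_toSet).subset ?_
    intro z hz
    simp only [Finset.mem_coe, Multiset.mem_toFinset]
    exact (Polynomial.mem_nthRoots hn).mpr hz
  refine Set.Finite.of_finite_image (f := fun z : Circle => (z : ℂ)) (h1.subset ?_)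
    (Subtype.val_injective.injOn)
  rintro _ ⟨z, hz, rfl⟩
  have : ((z ^ n : Circle) : ℂ) = 1 := by rw [hz]; rfl
  simpa using this

/-- the hypothesis that closed normal totally disconnected subgroups are finite -/
def TDFin (K : Type u) [Group K] [TopologicalSpace K] : Prop :=
  ∀ N : Subgroup K, CN N → IsTotallyDisconnected (N : Set K) → Finite N

/-- In a compact group whose closed normal totally disconnected subgroups are finite, a closed
normal abelian subgroup meets the kernel of some representation trivially. -/
theorem exists_rk_inf_abelian (hK : TDFin K) {A : Subgroup K} (hA : CN A)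
    (hcomm : ∀ x ∈ A, ∀ y ∈ A, x * y = y * x) : ∃ R : Subgroup K, RK R ∧ R ⊓ A = ⊥ := by
  haveI : CompactSpace A := isCompact_iff_compactSpace.mp hA.2.isCompact
  letI : CommGroup A := { (inferInstance : Group A) with
    mul_comm := fun a b => Subtype.ext (hcomm a a.2 b b.2) }
  have hsepA : ∀ a : A, a ≠ 1 → ∃ χ : A →ₜ* Circle, χ a ≠ 1 := fun a ha => exists_char_ne_one ha
  have hfg : (⊤ : Submodule ℤ (Dual A)).FG := by
    refine fg_of_inv (InvD A hA.1) ?_ ?_ ?_ ?_ ?_ ?_
    · intro k e he
      rw [Submodule.mem_bot] at he ⊢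
      rw [he, map_zero]
    · intro F F' hF hF' k e he
      obtain ⟨x, hx, y, hy, rfl⟩ := Submodule.mem_sup.mp he
      rw [map_add]
      exact Submodule.add_mem_sup (hF k x hx) (hF' k y hy)
    · intro c hc hdir hinv k e he
      rw [Submodule.mem_sSup_of_directed hc hdir] at he ⊢
      obtain ⟨F, hF, heF⟩ := he
      exact ⟨F, hF, hinv F hF k e heF⟩
    · intro F n hF k e he
      obtain ⟨y, hy, rfl⟩ := mem_nMul.mp he
      rw [map_nsmul]
      exact mem_nMul.mpr ⟨_, hF k y hy, rfl⟩
    · intro e
      have hfin : (range (fun k : K => actL A hA.1 k e)).Finite :=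
        (locConst_conj_char hA (Additive.toMul e)).range_finite
      refine ⟨Submodule.span ℤ (range (fun k : K => actL A hA.1 k e)), ?_,
        Submodule.fg_span hfin, ?_⟩
      · refine Submodule.subset_span ⟨1, ?_⟩
        apply Additive.toMul.injective
        refine ContinuousMonoidHom.ext fun a => ?_
        show Additive.toMul (actL A hA.1 1 e) a = _
        rw [actL_apply]
        congr 1
        ext
        simp [conjHom_apply]
      · intro k x hx
        induction hx using Submodule.span_induction with
        | mem x hx =>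
          obtain ⟨l, rfl⟩ := hx
          refine Submodule.subset_span ⟨l * k, ?_⟩
          exact (actL_actL hA.1 k l e).symm
        | zero => rw [map_zero]; exact Submodule.zero_mem _
        | add x y _ _ hx hy => rw [map_add]; exact Submodule.add_mem _ hx hy
        | smul c x _ hx => rw [map_smul]; exact Submodule.smul_mem _ c hx
    · intro F hF htors
      -- the annihilator is totally disconnected
      have htd : IsTotallyDisconnected (annih A F : Set K) := by
        intro T hT hTpre x hx y hy
        have hTA : T ⊆ A := fun z hz => annih_le A F (hT hz)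
        by_contra hne
        have hne' : (⟨x, hTA hx⟩ : A) * (⟨y, hTA hy⟩ : A)⁻¹ ≠ 1 := by
          intro h
          exact hne (congrArg Subtype.val (mul_inv_eq_one.mp h))
        obtain ⟨χ, hχ⟩ := hsepA _ hne'
        obtain ⟨n, hn, hnF⟩ := htors (Additive.ofMul χ)
        have hpre : IsPreconnected (χ '' (Subtype.val ⁻¹' T)) := by
          refine IsPreconnected.image ?_ _ χ.continuous_toFun.continuousOn
          refine (Topology.IsInducing.subtypeVal.isPreconnected_image).mp ?_
          have hTT : (Subtype.val '' (Subtype.val ⁻¹' T : Set A) : Set K) = T := by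
            ext z
            constructor
            · rintro ⟨w, hw, rfl⟩
              exact hw
            · intro hz
              exact ⟨⟨z, hTA hz⟩, hz, rfl⟩
          have h9 : IsPreconnected (Subtype.val '' (Subtype.val ⁻¹' T : Set A) : Set K) := by
            rw [hTT]
            exact hTpre
          exact h9
        have hsub : χ '' (Subtype.val ⁻¹' T) ⊆ {z : Circle | z ^ n = 1} := by
          rintro _ ⟨a, ha, rfl⟩
          obtain ⟨hx', h1⟩ := hT ha
          have h2 := h1 _ hnF
          rw [toMul_nsmul] at h2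
          exact h2
        have hss := (finite_pow_eq_one hn).countable.isTotallyDisconnected _ hsub hpre
        apply hχ
        rw [map_mul, map_inv]
        have h2 : χ ⟨x, hTA hx⟩ = χ ⟨y, hTA hy⟩ :=
          hss ⟨⟨x, hTA hx⟩, hx, rfl⟩ ⟨⟨y, hTA hy⟩, hy, rfl⟩
        rw [h2, mul_inv_cancel]
      haveI hfinP : Finite (annih A F) := hK _ (annih_cn hA hF) htd
      set n := Nat.card (annih A F) with hn
      have hn0 : 0 < n := Nat.card_pos
      -- restriction of characters to the annihilator
      have hr : ∀ e : Dual A, ∀ p : annih A F,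
          Additive.toMul e ⟨p, annih_le A F p.2⟩ ∈ {z : Circle | z ^ n = 1} := by
        intro e p
        show (Additive.toMul e ⟨p, annih_le A F p.2⟩) ^ n = 1
        rw [← map_pow]
        have h1 : (⟨p, annih_le A F p.2⟩ : A) ^ n = 1 := by
          apply Subtype.ext
          have h0 : p ^ n = 1 := pow_card_eq_one'
          have h01 : (p : K) ^ n = 1 := congrArg (Subtype.val : annih A F → K) h0
          exact h01
        rw [h1, map_one]
      haveI : Finite {z : Circle | z ^ n = 1} := (finite_pow_eq_one hn0).to_subtype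
      let r : Dual A ⧸ F → (annih A F → {z : Circle | z ^ n = 1}) :=
        fun q p => ⟨_, hr (Quotient.out q) p⟩
      refine Finite.of_injective r ?_
      intro q q' hq
      have h1 : ∀ p : annih A F, Additive.toMul (Quotient.out q) ⟨p, annih_le A F p.2⟩ =
          Additive.toMul (Quotient.out q') ⟨p, annih_le A F p.2⟩ := fun p =>
        congrArg Subtype.val (congrFun hq p)
      have h2 : Quotient.out q - Quotient.out q' ∈ F := by
        have h3 := mem_of_annihilator (A := A) (AddSubgroup.toSubgroup' F.toAddSubgroup)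
          (Additive.toMul (Quotient.out q - Quotient.out q')) (by
            intro a ha
            have hp : (a : K) ∈ annih A F := ⟨a.2, fun e he => ha _ he⟩
            have h4 := h1 ⟨a, hp⟩
            show Additive.toMul (Quotient.out q) a / Additive.toMul (Quotient.out q') a = 1
            rw [div_eq_one]
            exact h4)
        exact h3
      rw [← Submodule.Quotient.mk_out q, ← Submodule.Quotient.mk_out q', Submodule.Quotient.eq]
      exact h2
  obtain ⟨s, hs⟩ := hfg
  -- a neighbourhood without small subgroups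
  have hV : ∀ᶠ x in 𝓝 (1 : K), ∀ e ∈ s, ∀ hx : x ∈ A,
      ‖((Additive.toMul e ⟨x, hx⟩ : Circle) : ℂ) - 1‖ < 1 := by
    rw [Filter.eventually_all_finset]
    intro e _
    have h1 : Continuous (fun a : A => ‖((Additive.toMul e a : Circle) : ℂ) - 1‖) := by
      have : Continuous (fun a : A => ((Additive.toMul e a : Circle) : ℂ)) :=
        continuous_subtype_val.comp (Additive.toMul e).continuous_toFun
      exact (this.sub continuous_const).norm
    have h2 : ∀ᶠ a in 𝓝 (1 : A), ‖((Additive.toMul e a : Circle) : ℂ) - 1‖ < 1 := by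
      have h3 := h1.tendsto 1
      refine h3.eventually_lt_const ?_
      rw [map_one]
      simp
    rw [nhds_subtype, eventually_comap] at h2
    filter_upwards [h2] with x hx hxA
    exact hx ⟨x, hxA⟩ rfl
  obtain ⟨R, hR, hRV⟩ := exists_rk_subset hV
  refine ⟨R, hR, ?_⟩
  rw [eq_bot_iff]
  rintro x ⟨hxR, hxA⟩
  rw [Subgroup.mem_bot]
  have h1 : ∀ e ∈ s, Additive.toMul e (⟨x, hxA⟩ : A) = 1 := by
    intro e he
    refine circle_nss fun n => ?_
    have h2 := hRV (R.pow_mem hxR n) e he (A.pow_mem hxA n)
    have h3 : (⟨x ^ n, A.pow_mem hxA n⟩ : A) = (⟨x, hxA⟩ : A) ^ n := rfl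
    rw [h3, map_pow] at h2
    exact h2
  have h2 : ∀ e : Dual A, Additive.toMul e (⟨x, hxA⟩ : A) = 1 := by
    intro e
    have he : e ∈ Submodule.span ℤ (s : Set (Dual A)) := by rw [hs]; trivial
    induction he using Submodule.span_induction with
    | mem e he => exact h1 e he
    | zero => rfl
    | add e f _ _ he hf =>
      show Additive.toMul e (⟨x, hxA⟩ : A) * Additive.toMul f (⟨x, hxA⟩ : A) = 1
      rw [he, hf, one_mul]
    | smul c e _ he =>
      rw [toMul_zsmul, he, one_zpow]
  by_contra hx1
  have hx1' : (⟨x, hxA⟩ : A) ≠ 1 := fun h => hx1 (congrArg Subtype.val h)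
  obtain ⟨χ, hχ⟩ := hsepA _ hx1'
  exact hχ (h2 (Additive.ofMul χ))

end Pool.Agent.Helper80.PM
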