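import Pool.Agent.Helper80.PMKer

/-!
Characters of compact abelian groups.
-/

open Set Filter Topology

set_option linter.style.haveILetI false
set_option linter.unusedSectionVars false

namespace Pool.Agent.Helper80.PM

universe u

/-- the circle has no small subgroups -/
lemma circle_nss {z : Circle} (h : ∀ n : ℕ, ‖((z ^ n : Circle) : ℂ) - 1‖ < 1) : z = 1 := by
  by_contra hz
  -- real parts
  have hnorm : ∀ n : ℕ, ‖((z ^ n : Circle) : ℂ)‖ = 1 := fun n => Circle.norm_coe _
  have hre : ∀ n : ℕ, ‖((z ^ n : Circle) : ℂ) - 1‖ ^ 2 = 2 - 2 * ((z ^ n : Circle) : ℂ).re := by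
    intro n
    have h1 : ((z ^ n : Circle) : ℂ).re ^ 2 + ((z ^ n : Circle) : ℂ).im ^ 2 = 1 := by
      have := hnorm n
      rw [Complex.norm_eq_sqrt_sq_add_sq, Real.sqrt_eq_one] at this
      exact this
    rw [Complex.norm_eq_sqrt_sq_add_sq, Real.sq_sqrt (by positivity)]
    simp only [Complex.sub_re, Complex.one_re, Complex.sub_im, Complex.one_im]
    nlinarith
  let c : ℕ → ℝ := fun k => ((z ^ (2 ^ k) : Circle) : ℂ).re
  have hc1 : ∀ k, 1 / 2 < c k := by
    intro k
    have h1 := h (2 ^ k)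
    have h2 := hre (2 ^ k)
    have h3 : ‖((z ^ (2 ^ k) : Circle) : ℂ) - 1‖ ^ 2 < 1 := by
      have := norm_nonneg (((z ^ (2 ^ k) : Circle) : ℂ) - 1)
      nlinarith
    rw [h2] at h3
    show 1 / 2 < ((z ^ (2 ^ k) : Circle) : ℂ).re
    linarith
  have hcr : ∀ k, c (k + 1) = 2 * c k ^ 2 - 1 := by
    intro k
    have h1 : ((z ^ (2 ^ k) : Circle) : ℂ).re ^ 2 + ((z ^ (2 ^ k) : Circle) : ℂ).im ^ 2 = 1 := by
      have := hnorm (2 ^ k)
      rw [Complex.norm_eq_sqrt_sq_add_sq, Real.sqrt_eq_one] at this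
      exact this
    have h2 : (z ^ (2 ^ (k + 1)) : Circle) = z ^ (2 ^ k) * z ^ (2 ^ k) := by
      rw [← pow_add]
      congr 1
      ring
    show ((z ^ (2 ^ (k + 1)) : Circle) : ℂ).re = 2 * ((z ^ (2 ^ k) : Circle) : ℂ).re ^ 2 - 1
    rw [h2, Circle.coe_mul, Complex.mul_re]
    nlinarith
  have hgrow : ∀ k, 3 ^ k * (1 - c 0) ≤ 1 - c k := by
    intro k
    induction k with
    | zero => simp
    | succ k ih =>
      rw [hcr k, pow_succ]
      have h1 := hc1 k
      have hle : c k ≤ 1 := by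
        have := Complex.re_le_norm ((z ^ (2 ^ k) : Circle) : ℂ)
        rw [hnorm] at this
        exact this
      nlinarith
  have h0 : c 0 < 1 := by
    have hle : c 0 ≤ 1 := by
      have := Complex.re_le_norm ((z ^ (2 ^ 0) : Circle) : ℂ)
      rw [hnorm] at this
      exact this
    refine lt_of_le_of_ne hle fun h1 => hz ?_
    have h2 := hre (2 ^ 0)
    have h3 : ((z ^ (2 ^ 0) : Circle) : ℂ).re = 1 := h1
    rw [h3] at h2
    have h4 : ‖((z ^ (2 ^ 0) : Circle) : ℂ) - 1‖ = 0 := by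
      have : ‖((z ^ (2 ^ 0) : Circle) : ℂ) - 1‖ ^ 2 = 0 := by rw [h2]; ring
      exact pow_eq_zero_iff (two_ne_zero) |>.mp this
    rw [norm_eq_zero, sub_eq_zero] at h4
    have h5 : (z : ℂ) = 1 := by simpa using h4
    exact Circle.ext (by simpa using h5)
  obtain ⟨k, hk⟩ := pow_unbounded_of_one_lt (1 / (1 - c 0)) (by norm_num : (1 : ℝ) < 3)
  have h1 := hgrow k
  have h2 := hc1 k
  have h3 : 0 < 1 - c 0 := by linarith
  have h4 : 1 < 3 ^ k * (1 - c 0) := by
    rwa [div_lt_iff₀ h3] at hk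
  linarith

section rep

variable {A : Type u} [CommGroup A] [TopologicalSpace A]

open Matrix in
lemma exists_char_of_rep {n : ℕ} {ρ : A →* Matrix (Fin n) (Fin n) ℂ} (hρ : IsRep ρ) {a : A}
    (ha : ρ a ≠ 1) : ∃ χ : A →ₜ* Circle, χ a ≠ 1 := by
  by_contra hcon
  push Not at hcon
  apply ha
  let Φ : Matrix (Fin n) (Fin n) ℂ ≃ₐ[ℂ] Module.End ℂ (EuclideanSpace ℂ (Fin n)) :=
    Matrix.toLpLinAlgEquiv 2
  have hΦ : ∀ X, Φ X = Matrix.toEuclideanLin X := fun X => rfl
  let T : A × Bool → (EuclideanSpace ℂ (Fin n) →ₗ[ℂ] EuclideanSpace ℂ (Fin n)) := fun p =>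
    if p.2 then Φ (Complex.I • (ρ p.1 - ρ p.1⁻¹)) else Φ (ρ p.1 + ρ p.1⁻¹)
  have hstar : ∀ b, (ρ b)ᴴ = ρ b⁻¹ := fun b => (hρ.inv b).symm
  have hstar' : ∀ b, (ρ b⁻¹)ᴴ = ρ b := fun b => by rw [hstar, inv_inv]
  have hTs : ∀ i, (T i).IsSymmetric := by
    rintro ⟨b, t⟩
    cases t
    · show (Φ (ρ b + ρ b⁻¹)).IsSymmetric
      rw [hΦ, Matrix.isSymmetric_toEuclideanLin_iff, Matrix.IsHermitian,
        Matrix.conjTranspose_add, hstar, hstar', add_comm]
    · show (Φ (Complex.I • (ρ b - ρ b⁻¹))).IsSymmetric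
      rw [hΦ, Matrix.isSymmetric_toEuclideanLin_iff, Matrix.IsHermitian,
        Matrix.conjTranspose_smul, Matrix.conjTranspose_sub, hstar, hstar']
      simp [smul_sub]
      abel
  have hcm : ∀ b c, Commute (ρ b) (ρ c) := fun b c => (Commute.all b c).map ρ
  have hTc : Pairwise (Function.onFun Commute T) := by
    rintro ⟨b, s⟩ ⟨c, t⟩ -
    have h1 : ∀ (X Y : Matrix (Fin n) (Fin n) ℂ), Commute X Y → Commute (Φ X) (Φ Y) :=
      fun X Y h => h.map Φ
    have p1 : Commute (ρ b + ρ b⁻¹) (ρ c + ρ c⁻¹) :=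
      ((hcm _ _).add_right (hcm _ _)).add_left ((hcm _ _).add_right (hcm _ _))
    have p2 : Commute (ρ b + ρ b⁻¹) (ρ c - ρ c⁻¹) :=
      ((hcm _ _).sub_right (hcm _ _)).add_left ((hcm _ _).sub_right (hcm _ _))
    have p3 : Commute (ρ b - ρ b⁻¹) (ρ c + ρ c⁻¹) :=
      ((hcm _ _).add_right (hcm _ _)).sub_left ((hcm _ _).add_right (hcm _ _))
    have p4 : Commute (ρ b - ρ b⁻¹) (ρ c - ρ c⁻¹) :=
      ((hcm _ _).sub_right (hcm _ _)).sub_left ((hcm _ _).sub_right (hcm _ _))
    cases s <;> cases t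
    · exact h1 _ _ p1
    · exact h1 _ _ (p2.smul_right _)
    · exact h1 _ _ (p3.smul_left _)
    · exact h1 _ _ ((p4.smul_left _).smul_right _)
  have htop := LinearMap.IsSymmetric.iSup_iInf_eq_top_of_commute hTs hTc
  have hle : (⨆ χ : A × Bool → ℂ, ⨅ i, Module.End.eigenspace (T i) (χ i)) ≤
      LinearMap.ker (Φ (ρ a) - 1) := by
    refine iSup_le fun χ v hv => ?_
    rw [Submodule.mem_iInf] at hv
    rw [LinearMap.mem_ker, LinearMap.sub_apply]
    by_cases hv0 : v = 0
    · simp [hv0]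
    -- the character
    let c : A → ℂ := fun b => (χ (b, false) - Complex.I * χ (b, true)) / 2
    have hc : ∀ b, Φ (ρ b) v = c b • v := by
      intro b
      have e1 : Φ (ρ b + ρ b⁻¹) v = χ (b, false) • v :=
        Module.End.mem_eigenspace_iff.mp (hv (b, false))
      have e2 : Φ (Complex.I • (ρ b - ρ b⁻¹)) v = χ (b, true) • v :=
        Module.End.mem_eigenspace_iff.mp (hv (b, true))
      have e3 : ρ b = (1 / 2 : ℂ) • ((ρ b + ρ b⁻¹) - Complex.I • (Complex.I • (ρ b - ρ b⁻¹))) := by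
        rw [smul_smul, Complex.I_mul_I]
        rw [neg_smul, one_smul, sub_neg_eq_add]
        have : ρ b + ρ b⁻¹ + (ρ b - ρ b⁻¹) = (2 : ℂ) • ρ b := by
          rw [two_smul]; abel
        rw [this, smul_smul]
        norm_num
      have e4 : Φ (ρ b) v = (1 / 2 : ℂ) • ((Φ (ρ b + ρ b⁻¹)) v -
          Complex.I • (Φ (Complex.I • (ρ b - ρ b⁻¹))) v) := by
        conv_lhs => rw [e3]
        rw [map_smul, map_sub, map_smul Φ Complex.I (Complex.I • (ρ b - ρ b⁻¹))]
        rfl
      rw [e4, e1, e2, smul_smul, ← sub_smul, smul_smul]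
      congr 1
      show _ = (χ (b, false) - Complex.I * χ (b, true)) / 2
      ring
    have hcinj : ∀ x y : ℂ, x • v = y • v → x = y := fun x y h => smul_left_injective ℂ hv0 h
    have hc1 : c 1 = 1 := by
      apply hcinj
      rw [← hc, map_one, map_one, one_smul]
      rfl
    have hcmul : ∀ b b', c (b * b') = c b * c b' := by
      intro b b'
      apply hcinj
      rw [← hc, map_mul, map_mul]
      show Φ (ρ b) (Φ (ρ b') v) = _
      rw [hc b', map_smul, hc b, smul_smul, mul_comm]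
    have hcstar : ∀ b, (starRingEnd ℂ) (c b⁻¹) = c b := by
      intro b
      have h1 : inner ℂ v (Φ (ρ b) v) = inner ℂ (Φ (ρ b⁻¹) v) v := by
        have h2 : Φ (ρ b⁻¹) = LinearMap.adjoint (Φ (ρ b)) := by
          rw [hΦ, hΦ, ← Matrix.toEuclideanLin_conjTranspose_eq_adjoint, hstar]
        rw [h2, LinearMap.adjoint_inner_left]
      rw [hc, hc, inner_smul_right, inner_smul_left] at h1
      exact (mul_right_cancel₀ (inner_self_ne_zero.mpr hv0) h1).symm
    have hcnorm : ∀ b, ‖c b‖ = 1 := by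
      intro b
      have h1 : c b * c b⁻¹ = 1 := by rw [← hcmul, mul_inv_cancel, hc1]
      have h2 : c b⁻¹ = (starRingEnd ℂ) (c b) := by
        have := hcstar b
        rw [← this, Complex.conj_conj]
      rw [h2, Complex.mul_conj] at h1
      have h3 : Complex.normSq (c b) = 1 := by exact_mod_cast h1
      rw [Complex.normSq_eq_norm_sq] at h3
      nlinarith [norm_nonneg (c b)]
    have hccont : Continuous c := by
      have h1 : ∀ b, c b = inner ℂ v (Φ (ρ b) v) / inner ℂ v v := by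
        intro b
        rw [hc, inner_smul_right, mul_div_assoc, div_self (inner_self_ne_zero.mpr hv0), mul_one]
      have h2 : Continuous (fun X : Matrix (Fin n) (Fin n) ℂ => Φ X v) := by
        let f : Matrix (Fin n) (Fin n) ℂ →ₗ[ℂ] EuclideanSpace ℂ (Fin n) :=
          { toFun := fun X => Φ X v
            map_add' := fun X Y => by rw [map_add]; rfl
            map_smul' := fun r X => by rw [map_smul]; rfl }
        exact f.continuous_of_finiteDimensional
      have h3 : Continuous (fun b => Φ (ρ b) v) := h2.comp hρ.1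
      have h4 : c = fun b => inner ℂ v (Φ (ρ b) v) / inner ℂ v v := funext h1
      rw [h4]
      exact (continuous_const.inner h3).div_const _
    let χ' : A →ₜ* Circle :=
      { toFun := fun b => ⟨c b, mem_sphere_zero_iff_norm.mpr (hcnorm b)⟩
        map_one' := Circle.ext hc1
        map_mul' := fun b b' => Circle.ext (hcmul b b')
        continuous_toFun := hccont.subtype_mk _ }
    have h5 : χ' a = 1 := hcon χ'
    have h6 : c a = 1 := congrArg (fun z : Circle => (z : ℂ)) h5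
    rw [hc a, h6, one_smul]
    show v - v = 0
    rw [sub_self]
  rw [htop] at hle
  have h7 : Φ (ρ a) = 1 := by
    refine LinearMap.ext fun v => ?_
    have := hle (Submodule.mem_top (x := v))
    rw [LinearMap.mem_ker, LinearMap.sub_apply, sub_eq_zero] at this
    exact this
  exact Φ.injective (h7.trans (map_one Φ).symm)

end rep

end Pool.Agent.Helper80.PM
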