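import Pool.Agent.Helper80.PMProf3

open Set Filter Topology

set_option linter.style.haveILetI false
set_option linter.unusedSectionVars false

namespace Pool.Agent.Helper80.PM

universe u

/-- A first countable Hausdorff topological group is metrizable. -/
lemma metrizable_of_countable_nhds {H : Type u} [Group H] [TopologicalSpace H]
    [IsTopologicalGroup H] [T2Space H] (h : (𝓝 (1 : H)).IsCountablyGenerated) :
    TopologicalSpace.MetrizableSpace H := by
  letI : UniformSpace H := IsTopologicalGroup.rightUniformSpace H
  haveI : (uniformity H).IsCountablyGenerated := by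
    rw [uniformity_eq_comap_nhds_one' H]
    infer_instance
  exact UniformSpace.metrizableSpace

lemma countable_eventually_one {P : Type*} [Finite P] [One P] :
    {s : ℕ → P | ∀ᶠ n in atTop, s n = 1}.Countable := by
  have : {s : ℕ → P | ∀ᶠ n in atTop, s n = 1} ⊆
      ⋃ N : ℕ, {s : ℕ → P | ∀ n, N ≤ n → s n = 1} := by
    intro s hs
    rw [mem_iUnion]
    obtain ⟨N, hN⟩ := eventually_atTop.mp hs
    exact ⟨N, hN⟩
  refine Countable.mono this (countable_iUnion (fun N => Set.Finite.countable ?_))
  have h2 : {s : ℕ → P | ∀ n, N ≤ n → s n = 1} ⊆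
      range (fun (t : Fin N → P) (n : ℕ) => if h : n < N then t ⟨n, h⟩ else 1) := by
    intro s hs
    refine ⟨fun i => s i, ?_⟩
    funext n
    by_cases h : n < N
    · simp [h]
    · simp [h, hs n (not_lt.mp h)]
  exact (finite_range _).subset h2

section

variable {H : Type u} [Group H] [TopologicalSpace H] [IsTopologicalGroup H] [CompactSpace H]
  [T2Space H]

lemma countable_homs {x : ℕ → H} (hx : Tendsto x atTop (𝓝 1))
    (hgen : (Subgroup.closure (range x)).topologicalClosure = ⊤) (k : ℕ) :
    {φ : H →* Equiv.Perm (Fin k) | IsOpen (φ.ker : Set H)}.Countable := by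
  refine MapsTo.countable_of_injOn (f := fun (φ : H →* Equiv.Perm (Fin k)) (n : ℕ) => φ (x n))
    (t := {s : ℕ → Equiv.Perm (Fin k) | ∀ᶠ n in atTop, s n = 1}) ?_ ?_ countable_eventually_one
  · intro φ hφ
    have h1 : (φ.ker : Set H) ∈ 𝓝 (1 : H) := IsOpen.mem_nhds hφ (one_mem φ.ker)
    filter_upwards [hx h1] with n hn
    exact hn
  · intro φ hφ ψ hψ heq
    -- the equalizer is closed
    have hcl : IsClosed ((φ.eqLocus ψ : Subgroup H) : Set H) := by
      have hopen : IsOpen ((φ.ker ⊓ ψ.ker : Subgroup H) : Set H) := by
        rw [Subgroup.coe_inf]; exact IsOpen.inter hφ hψ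
      have hle : φ.ker ⊓ ψ.ker ≤ φ.eqLocus ψ := by
        rintro y ⟨h1, h2⟩
        have h1' : φ y = 1 := h1
        have h2' : ψ y = 1 := h2
        show φ y = ψ y
        rw [h1', h2']
      exact Subgroup.isClosed_of_isOpen _ (Subgroup.isOpen_mono hle hopen)
    have hle : Subgroup.closure (range x) ≤ φ.eqLocus ψ := by
      rw [Subgroup.closure_le]
      rintro _ ⟨n, rfl⟩
      exact congrFun heq n
    have htop := Subgroup.topologicalClosure_minimal _ hle hcl
    rw [hgen] at htop
    ext1 y
    exact htop (Subgroup.mem_top y)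

/-- A compact totally disconnected group topologically generated by a sequence converging to `1` is
metrizable. -/
lemma metrizable_of_seq [TotallyDisconnectedSpace H] {x : ℕ → H} (hx : Tendsto x atTop (𝓝 1))
    (hgen : (Subgroup.closure (range x)).topologicalClosure = ⊤) :
    TopologicalSpace.MetrizableSpace H := by
  apply metrizable_of_countable_nhds
  refine HasCountableBasis.isCountablyGenerated (ι := Σ k : ℕ, (H →* Equiv.Perm (Fin k)))
    (p := fun i => IsOpen ((i.2).ker : Set H)) (s := fun i => ((i.2).ker : Set H)) ⟨⟨?_⟩, ?_⟩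
  · intro V
    constructor
    · intro hV
      obtain ⟨O, hOV, hO, h1O⟩ := mem_nhds_iff.mp hV
      obtain ⟨U, hU⟩ := ProfiniteGrp.exist_openNormalSubgroup_sub_open_nhds_of_one hO h1O
      have hUo : IsOpen (U.toSubgroup : Set H) := U.isOpen'
      haveI : Finite (H ⧸ U.toSubgroup) := Subgroup.quotient_finite_of_isOpen _ hUo
      haveI : (U.toSubgroup).Normal := U.isNormal'
      -- Cayley representation of the finite quotient
      let e : (H ⧸ U.toSubgroup) ≃ Fin (Nat.card (H ⧸ U.toSubgroup)) := Finite.equivFin _
      let φ : H →* Equiv.Perm (Fin (Nat.card (H ⧸ U.toSubgroup))) :=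
        ((e.permCongrHom : Equiv.Perm (H ⧸ U.toSubgroup) ≃* _).toMonoidHom.comp
          (MulAction.toPermHom (H ⧸ U.toSubgroup) (H ⧸ U.toSubgroup))).comp
          (QuotientGroup.mk' U.toSubgroup)
      have hker : φ.ker = U.toSubgroup := by
        ext y
        rw [MonoidHom.mem_ker]
        simp only [φ, MonoidHom.comp_apply]
        constructor
        · intro h
          have h1 : MulAction.toPermHom (H ⧸ U.toSubgroup) (H ⧸ U.toSubgroup)
              (QuotientGroup.mk' U.toSubgroup y) = 1 := by
            exact (e.permCongrHom).injective (by rw [map_one]; exact h)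
          have h2 := congrArg (fun f : Equiv.Perm (H ⧸ U.toSubgroup) => f 1) h1
          simp only [MulAction.toPermHom_apply, MulAction.toPerm_apply, smul_eq_mul, mul_one,
            Equiv.Perm.coe_one, id] at h2
          exact (QuotientGroup.eq_one_iff y).mp h2
        · intro h
          have h1 : QuotientGroup.mk' U.toSubgroup y = 1 := (QuotientGroup.eq_one_iff y).mpr h
          show e.permCongrHom (MulAction.toPermHom (H ⧸ U.toSubgroup) (H ⧸ U.toSubgroup)
            (QuotientGroup.mk' U.toSubgroup y)) = 1
          rw [h1, map_one, map_one]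
      refine ⟨⟨_, φ⟩, ?_, ?_⟩
      · simp only [hker]; exact hUo
      · simp only [hker]; exact hU.trans hOV
    · rintro ⟨i, hi, hiV⟩
      exact mem_of_superset (IsOpen.mem_nhds hi (one_mem _)) hiV
  · have : (Set.ofPred fun i : (Σ k : ℕ, (H →* Equiv.Perm (Fin k))) =>
        IsOpen ((i.2).ker : Set H)) ⊆
        ⋃ k : ℕ, (Sigma.mk k) '' {φ : H →* Equiv.Perm (Fin k) | IsOpen (φ.ker : Set H)} := by
      rintro ⟨k, φ⟩ h
      rw [mem_iUnion]
      exact ⟨k, φ, h, rfl⟩
    exact Countable.mono this (countable_iUnion (fun k => (countable_homs hx hgen k).image _))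

end

/-- version for a closed subgroup of a bigger group -/
lemma metrizable_closure_of_seq {K : Type u} [Group K] [TopologicalSpace K] [IsTopologicalGroup K]
    [CompactSpace K] [T2Space K] {x : ℕ → K} (hx : Tendsto x atTop (𝓝 1))
    (htd : IsTotallyDisconnected
      ((Subgroup.closure (range x)).topologicalClosure : Set K)) :
    TopologicalSpace.MetrizableSpace (Subgroup.closure (range x)).topologicalClosure := by
  set H := (Subgroup.closure (range x)).topologicalClosure with hH
  have hcl : IsClosed (H : Set K) := Subgroup.isClosed_topologicalClosure _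
  haveI : CompactSpace H := isCompact_iff_compactSpace.mp hcl.isCompact
  haveI : TotallyDisconnectedSpace H := totallyDisconnectedSpace_subtype_iff.mpr htd
  have hxH : ∀ n, x n ∈ H := fun n =>
    Subgroup.le_topologicalClosure _ (Subgroup.subset_closure (mem_range_self n))
  let y : ℕ → H := fun n => ⟨x n, hxH n⟩
  have hy : Tendsto y atTop (𝓝 1) := by
    rw [tendsto_subtype_rng]
    simpa using hx
  refine metrizable_of_seq hy ?_
  rw [eq_top_iff]
  rintro ⟨z, hz⟩ -
  -- `z` is in the closure of the subgroup generated by the `x n`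
  have h1 : z ∈ closure ((Subgroup.closure (range x) : Subgroup K) : Set K) := hz
  show (⟨z, hz⟩ : H) ∈ closure ((Subgroup.closure (range y) : Subgroup H) : Set H)
  rw [closure_subtype]
  refine closure_mono ?_ h1
  intro w hw
  have hmap : (Subgroup.closure (range y)).map H.subtype = Subgroup.closure (range x) := by
    rw [MonoidHom.map_closure]
    congr 1
    rw [← range_comp]
    rfl
  have hw' : w ∈ (Subgroup.closure (range y)).map H.subtype := by rw [hmap]; exact hw
  obtain ⟨v, hv, rfl⟩ := hw'
  exact ⟨v, hv, rfl⟩

end Pool.Agent.Helper80.PM
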