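import Pool.Agent.Helper80.PMRep
import Pool.Agent.Helper80.PMMetr

/-!
Kernels of unitary representations of a compact group.
-/

open Set Filter Topology

set_option linter.style.haveILetI false
set_option linter.unusedSectionVars false

namespace Pool.Agent.Helper80.PM

universe u

/-- `N` is the kernel of a continuous finite-dimensional unitary representation. -/
def RK {K : Type u} [Group K] [TopologicalSpace K] (N : Subgroup K) : Prop :=
  ∃ (n : ℕ) (ρ : K →* Matrix (Fin n) (Fin n) ℂ), IsRep ρ ∧ ρ.ker = N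

section

variable {K : Type u} [Group K] [TopologicalSpace K]

lemma IsRep.inv {n : ℕ} {ρ : K →* Matrix (Fin n) (Fin n) ℂ} (h : IsRep ρ) (k : K) :
    ρ k⁻¹ = star (ρ k) := by
  have h1 : star (ρ k) * ρ k = 1 := Matrix.mem_unitaryGroup_iff'.mp (h.2 k)
  have h2 : ρ k * ρ k⁻¹ = 1 := by rw [← map_mul, mul_inv_cancel, map_one]
  calc ρ k⁻¹ = (star (ρ k) * ρ k) * ρ k⁻¹ := by rw [h1, one_mul]
    _ = star (ρ k) := by rw [mul_assoc, h2, mul_one]

lemma IsRep.comp {K' : Type*} [Group K'] [TopologicalSpace K'] {n : ℕ}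
    {ρ : K →* Matrix (Fin n) (Fin n) ℂ} (h : IsRep ρ) (f : K' →* K) (hf : Continuous f) :
    IsRep (ρ.comp f) :=
  ⟨h.1.comp hf, fun k => h.2 (f k)⟩

lemma RK.normal {N : Subgroup K} (h : RK N) : N.Normal := by
  obtain ⟨n, ρ, -, rfl⟩ := h
  infer_instance

lemma RK.isClosed {N : Subgroup K} (h : RK N) : IsClosed (N : Set K) := by
  obtain ⟨n, ρ, hρ, rfl⟩ := h
  exact isClosed_singleton.preimage hρ.1

lemma RK.cn {N : Subgroup K} (h : RK N) : CN N := ⟨h.normal, h.isClosed⟩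

lemma rk_top : RK (⊤ : Subgroup K) :=
  ⟨0, 1, ⟨continuous_const, fun _ => one_mem _⟩, by ext; simp⟩

lemma RK.comap {K' : Type*} [Group K'] [TopologicalSpace K'] {N : Subgroup K} (h : RK N)
    (f : K' →* K) (hf : Continuous f) : RK (N.comap f) := by
  obtain ⟨n, ρ, hρ, rfl⟩ := h
  exact ⟨n, ρ.comp f, hρ.comp f hf, by ext x; simp [MonoidHom.mem_ker]⟩

lemma RK.inf {N N' : Subgroup K} (h : RK N) (h' : RK N') : RK (N ⊓ N') := by
  obtain ⟨n, ρ, hρ, rfl⟩ := h
  obtain ⟨m, σ, hσ, rfl⟩ := h'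
  let e : (Fin n ⊕ Fin m) ≃ Fin (n + m) := finSumFinEquiv
  let τ : K →* Matrix (Fin (n + m)) (Fin (n + m)) ℂ :=
    { toFun := fun k => Matrix.reindex e e (Matrix.fromBlocks (ρ k) 0 0 (σ k))
      map_one' := by
        rw [map_one, map_one, Matrix.fromBlocks_one]
        simp
      map_mul' := fun k l => by
        rw [map_mul, map_mul]
        have : Matrix.fromBlocks (ρ k * ρ l) 0 0 (σ k * σ l) =
            Matrix.fromBlocks (ρ k) 0 0 (σ k) * Matrix.fromBlocks (ρ l) 0 0 (σ l) := by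
          rw [Matrix.fromBlocks_multiply]
          simp
        rw [this]
        simp [Matrix.submatrix_mul_equiv] }
  refine ⟨n + m, τ, ⟨?_, ?_⟩, ?_⟩
  · have h1 := hρ.1
    have h2 := hσ.1
    exact (h1.matrix_fromBlocks continuous_const continuous_const h2).matrix_reindex e e
  · intro k
    rw [Matrix.mem_unitaryGroup_iff']
    have h1 : star (ρ k) * ρ k = 1 := Matrix.mem_unitaryGroup_iff'.mp (hρ.2 k)
    have h2 : star (σ k) * σ k = 1 := Matrix.mem_unitaryGroup_iff'.mp (hσ.2 k)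
    show star (Matrix.reindex e e (Matrix.fromBlocks (ρ k) 0 0 (σ k))) *
      (Matrix.reindex e e (Matrix.fromBlocks (ρ k) 0 0 (σ k))) = 1
    rw [Matrix.star_eq_conjTranspose] at h1 h2 ⊢
    rw [Matrix.conjTranspose_reindex, Matrix.fromBlocks_conjTranspose]
    simp only [Matrix.reindex_apply, Matrix.submatrix_mul_equiv, Matrix.fromBlocks_multiply]
    simp [h1, h2]
  · ext k
    rw [Subgroup.mem_inf, MonoidHom.mem_ker, MonoidHom.mem_ker, MonoidHom.mem_ker]
    show Matrix.reindex e e (Matrix.fromBlocks (ρ k) 0 0 (σ k)) = 1 ↔ _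
    constructor
    · intro h
      have h1 : Matrix.fromBlocks (ρ k) 0 0 (σ k) = 1 := by
        apply (Matrix.reindex e e).injective
        rw [h]
        simp
      rw [← Matrix.fromBlocks_one, Matrix.fromBlocks_inj] at h1
      exact ⟨h1.1, h1.2.2.2⟩
    · rintro ⟨h1, h2⟩
      rw [h1, h2, Matrix.fromBlocks_one]
      simp

end

section

variable {K : Type u} [Group K] [TopologicalSpace K] [IsTopologicalGroup K] [CompactSpace K]
  [T2Space K]

lemma exists_rk_not_mem {g : K} (hg : g ≠ 1) : ∃ N : Subgroup K, RK N ∧ g ∉ N := by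
  obtain ⟨n, ρ, hρ, h⟩ := exists_rep_ne_one g hg
  exact ⟨ρ.ker, ⟨n, ρ, hρ, rfl⟩, h⟩

lemma exists_rk_disjoint {S : Set K} (hS : IsCompact S) (h1 : (1 : K) ∉ S) :
    ∃ N : Subgroup K, RK N ∧ Disjoint (N : Set K) S := by
  refine hS.induction_on (p := fun S => ∃ N : Subgroup K, RK N ∧ Disjoint (N : Set K) S)
    ⟨⊤, rk_top, by simp⟩ ?_ ?_ ?_
  · rintro s t hst ⟨N, hN, hd⟩
    exact ⟨N, hN, hd.mono_right hst⟩
  · rintro s t ⟨N, hN, hd⟩ ⟨N', hN', hd'⟩
    refine ⟨N ⊓ N', hN.inf hN', ?_⟩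
    rw [Set.disjoint_union_right]
    exact ⟨hd.mono_left (by simp), hd'.mono_left (by simp)⟩
  · intro x hx
    have hx1 : x ≠ 1 := fun h => h1 (h ▸ hx)
    obtain ⟨N, hN, hxN⟩ := exists_rk_not_mem hx1
    refine ⟨((N : Set K)ᶜ), ?_, N, hN, disjoint_compl_right⟩
    exact mem_nhdsWithin_of_mem_nhds (hN.isClosed.isOpen_compl.mem_nhds hxN)

lemma exists_rk_subset {V : Set K} (hV : V ∈ 𝓝 (1 : K)) :
    ∃ N : Subgroup K, RK N ∧ (N : Set K) ⊆ V := by
  obtain ⟨O, hOV, hO, h1O⟩ := mem_nhds_iff.mp hV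
  obtain ⟨N, hN, hd⟩ := exists_rk_disjoint (S := Oᶜ) hO.isClosed_compl.isCompact (by simpa using h1O)
  refine ⟨N, hN, fun x hx => hOV ?_⟩
  by_contra hxO
  exact Set.disjoint_left.mp hd hx hxO

/-- an element lying in all kernels is trivial -/
lemma eq_one_of_forall_rk {g : K} (h : ∀ N : Subgroup K, RK N → g ∈ N) : g = 1 := by
  by_contra hg
  obtain ⟨N, hN, hgN⟩ := exists_rk_not_mem hg
  exact hgN (h N hN)

/-- a closed set meeting every kernel-coset... : if a closed set `S` meets every `x * N` with `N`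
a kernel then `x ∈ S`. -/
lemma mem_of_forall_rk {S : Set K} (hS : IsClosed S) {x : K}
    (h : ∀ N : Subgroup K, RK N → ∃ y ∈ N, x * y ∈ S) : x ∈ S := by
  by_contra hx
  have hV : (fun y => x * y) ⁻¹' Sᶜ ∈ 𝓝 (1 : K) := by
    refine (hS.isOpen_compl.preimage (continuous_const.mul continuous_id)).mem_nhds ?_
    simpa using hx
  obtain ⟨N, hN, hNV⟩ := exists_rk_subset hV
  obtain ⟨y, hy, hxy⟩ := h N hN
  exact hNV hy hxy

/-- if a subgroup `F` is finite then some kernel meets it trivially -/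
lemma exists_rk_inf_finite {F : Subgroup K} (hF : Finite F) :
    ∃ N : Subgroup K, RK N ∧ N ⊓ F = ⊥ := by
  have hS : IsCompact ((F : Set K) \ {1}) := by
    have : ((F : Set K) \ {1}).Finite := (Set.toFinite (F : Set K)).subset sdiff_subset
    exact this.isCompact
  obtain ⟨N, hN, hd⟩ := exists_rk_disjoint hS (by simp)
  refine ⟨N, hN, ?_⟩
  rw [eq_bot_iff]
  rintro x ⟨hxN, hxF⟩
  by_contra hx
  exact Set.disjoint_left.mp hd hxN ⟨hxF, hx⟩

/-- a compact group with a faithful representation is metrizable -/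
lemma metrizable_of_rk_bot (h : RK (⊥ : Subgroup K)) : TopologicalSpace.MetrizableSpace K := by
  obtain ⟨n, ρ, hρ, hker⟩ := h
  have hinj : Function.Injective ρ := (MonoidHom.ker_eq_bot_iff ρ).mp hker
  haveI : TopologicalSpace.MetrizableSpace (Matrix (Fin n) (Fin n) ℂ) :=
    inferInstanceAs (TopologicalSpace.MetrizableSpace (Fin n → Fin n → ℂ))
  exact (hρ.1.isClosedEmbedding hinj).isEmbedding.metrizableSpace

end

end Pool.Agent.Helper80.PM
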