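import Pool.Agent.Helper80.PMTors
import Pool.Agent.Helper80.PMKer

/-!
Applications of the linear theory to compact groups.
-/

open Set Filter Topology
open scoped commutatorElement

set_option linter.style.haveILetI false
set_option linter.unusedSectionVars false

namespace Pool.Agent.Helper80.PM

universe u

section trace

variable {n : ℕ}

/-- real trace form -/
noncomputable def trForm (n : ℕ) : LinearMap.BilinForm ℝ (Matrix (Fin n) (Fin n) ℂ) :=
  LinearMap.mk₂ ℝ (fun X Y => (Matrix.trace (star X * Y)).re)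
    (fun X X' Y => by simp [add_mul])
    (fun c X Y => by simp [star_smul, Matrix.trace_smul])
    (fun X Y Y' => by simp [mul_add])
    (fun c X Y => by simp [Matrix.trace_smul])

lemma trForm_apply (X Y : Matrix (Fin n) (Fin n) ℂ) :
    trForm n X Y = (Matrix.trace (star X * Y)).re := rfl

lemma trForm_self (X : Matrix (Fin n) (Fin n) ℂ) :
    trForm n X X = ∑ i, ∑ j, Complex.normSq (X j i) := by
  rw [trForm_apply, Matrix.trace, Complex.re_sum]
  refine Finset.sum_congr rfl fun i _ => ?_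
  rw [Matrix.diag_apply, Matrix.mul_apply, Complex.re_sum]
  refine Finset.sum_congr rfl fun j _ => ?_
  rw [Matrix.star_apply]
  show ((starRingEnd ℂ) (X j i) * X j i).re = _
  rw [← Complex.normSq_eq_conj_mul_self]
  simp

lemma trForm_pos (X : Matrix (Fin n) (Fin n) ℂ) (hX : X ≠ 0) : 0 < trForm n X X := by
  rw [trForm_self]
  have h1 : ∃ i j, X j i ≠ 0 := by
    by_contra hcon
    push Not at hcon
    exact hX (Matrix.ext fun i j => hcon j i)
  obtain ⟨i, j, hij⟩ := h1
  refine Finset.sum_pos' (fun i _ => Finset.sum_nonneg fun j _ => Complex.normSq_nonneg _)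
    ⟨i, Finset.mem_univ _, ?_⟩
  exact Finset.sum_pos' (fun j _ => Complex.normSq_nonneg _)
    ⟨j, Finset.mem_univ _, Complex.normSq_pos.mpr hij⟩

lemma trForm_symm (X Y : Matrix (Fin n) (Fin n) ℂ) : trForm n X Y = trForm n Y X := by
  rw [trForm_apply, trForm_apply]
  have h1 : star (star X * Y) = star Y * X := by rw [star_mul, star_star]
  have h2 : Matrix.trace (star (star X * Y)) = star (Matrix.trace (star X * Y)) := by
    rw [Matrix.star_eq_conjTranspose (star X * Y), Matrix.trace_conjTranspose]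
  rw [← h1, h2]
  show _ = ((starRingEnd ℂ) _).re
  rw [Complex.conj_re]

lemma trForm_conj {g g' : Matrix (Fin n) (Fin n) ℂ} (h : g' * g = 1) (hs : star g = g')
    (X Y : Matrix (Fin n) (Fin n) ℂ) :
    trForm n (g * X * g') (g * Y * g') = trForm n X Y := by
  rw [trForm_apply, trForm_apply]
  have hs' : star g' = g := by rw [← hs, star_star]
  have h1 : star (g * X * g') * (g * Y * g') = g * (star X * Y * g') := by
    rw [star_mul, star_mul, hs, hs']
    calc g * (star X * g') * (g * Y * g') = g * (star X * ((g' * g) * Y) * g') := by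
          simp only [mul_assoc]
      _ = g * (star X * Y * g') := by rw [h, one_mul]
  rw [h1, Matrix.trace_mul_comm, mul_assoc, h, mul_one]

end trace

section grp

variable {M : Type u} [Group M] [TopologicalSpace M] [IsTopologicalGroup M] [CompactSpace M]
  [T2Space M]

attribute [local instance] Matrix.linftyOpNormedRing Matrix.linftyOpNormedAlgebra

lemma split_rk [ConnectedSpace M] {N R : Subgroup M} (hN : CN N) (hR : RK R) (m : M) :
    ∃ n ∈ N, ∀ y ∈ N, ⁅n⁻¹ * m, y⁆ ∈ R := by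
  obtain ⟨k, ρ, hρ, rfl⟩ := hR
  obtain ⟨n, hn, h⟩ := linear_split ρ hρ.1 (trForm k) trForm_pos trForm_symm
    (fun m X Y => trForm_conj (rho_inv_mul ρ m) (hρ.inv m).symm X Y) hN m
  refine ⟨n, hn, fun y hy => ?_⟩
  rw [MonoidHom.mem_ker, commutatorElement_def, map_mul, map_mul, map_mul]
  rw [(h y hy).eq, mul_assoc (ρ y), rho_mul_inv, mul_one, rho_mul_inv]

theorem torsion_rk [ConnectedSpace M] (hR : RK (⊥ : Subgroup M))
    (hfin : Finite (Subgroup.center M)) {Y : Subgroup M} (hY : Y.Normal) (hY1 : Y ≠ ⊥) :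
    ∃ y ∈ Y, y ≠ 1 ∧ ∃ n : ℕ, 0 < n ∧ y ^ n = 1 := by
  obtain ⟨k, ρ, hρ, hker⟩ := hR
  exact linear_torsion ρ hρ.1 ((MonoidHom.ker_eq_bot_iff ρ).mp hker) (trForm k) trForm_pos
    trForm_symm (fun m X Y => trForm_conj (rho_inv_mul ρ m) (hρ.inv m).symm X Y) hfin hY hY1

/-- **Splitting of compact connected groups**: a closed normal subgroup `N` of a compact connected
group `M` satisfies `M = N C_M(N)`. -/
theorem split_compact [ConnectedSpace M] {N : Subgroup M} (hN : CN N) (m : M) :
    ∃ n ∈ N, ∀ y ∈ N, ⁅n⁻¹ * m, y⁆ = 1 := by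
  let S : {R : Subgroup M // RK R} → Set M := fun R =>
    (N : Set M) ∩ {n | ∀ y ∈ N, ⁅n⁻¹ * m, y⁆ ∈ (R : Subgroup M)}
  have hcl : ∀ R, IsClosed (S R) := by
    intro R
    refine hN.2.inter ?_
    have : {n | ∀ y ∈ N, ⁅n⁻¹ * m, y⁆ ∈ (R : Subgroup M)} =
        ⋂ y ∈ N, {n | ⁅n⁻¹ * m, y⁆ ∈ (R : Subgroup M)} := by
      ext; simp
    rw [this]
    refine isClosed_biInter fun y _ => ?_
    have hc : Continuous (fun n : M => ⁅n⁻¹ * m, y⁆) := by
      simp only [commutatorElement_def]
      fun_prop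
    exact R.2.isClosed.preimage hc
  haveI : Nonempty {R : Subgroup M // RK R} := ⟨⟨⊤, rk_top⟩⟩
  have hne : (⋂ R, S R).Nonempty := by
    refine IsCompact.nonempty_iInter_of_directed_nonempty_isCompact_isClosed S ?_ ?_
      (fun R => (hcl R).isCompact) hcl
    · intro R R'
      refine ⟨⟨R.1 ⊓ R'.1, R.2.inf R'.2⟩, ?_, ?_⟩
      · rintro n ⟨h1, h2⟩
        exact ⟨h1, fun y hy => (h2 y hy).1⟩
      · rintro n ⟨h1, h2⟩
        exact ⟨h1, fun y hy => (h2 y hy).2⟩
    · intro R
      obtain ⟨n, hn, h⟩ := split_rk hN R.2 m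
      exact ⟨n, hn, h⟩
  obtain ⟨n, hn⟩ := hne
  rw [mem_iInter] at hn
  refine ⟨n, (hn ⟨⊤, rk_top⟩).1, fun y hy => ?_⟩
  exact eq_one_of_forall_rk fun R hR => (hn ⟨R, hR⟩).2 y hy

end grp

section comm

lemma false_of_noncomm {𝔸 : Type*} [Ring 𝔸] [Algebra ℂ 𝔸] [FiniteDimensional ℂ 𝔸] (a b : ℕ → 𝔸)
    (h1 : ∀ i j, i ≠ j → Commute (a i) (b j)) (h2 : ∀ i, ¬ Commute (a i) (b i)) : False := by
  let V : ℕ →o (Submodule ℂ 𝔸)ᵒᵈ :=
    { toFun := fun k => OrderDual.toDual
        { carrier := {x | ∀ j < k, Commute x (b j)}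
          zero_mem' := fun j _ => Commute.zero_left _
          add_mem' := fun {x y} hx hy j hj => (hx j hj).add_left (hy j hj)
          smul_mem' := fun c x hx j hj => (hx j hj).smul_left c }
      monotone' := by
        intro k l hkl x hx j hj
        exact hx j (lt_of_lt_of_le hj hkl) }
  obtain ⟨n, hn⟩ := IsArtinian.monotone_stabilizes V
  have h3 := hn (n + 1) (Nat.le_succ n)
  have h4 : a n ∈ (OrderDual.ofDual (V n) : Submodule ℂ 𝔸) := by
    intro j hj
    exact h1 n j hj.ne'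
  rw [h3] at h4
  exact h2 n (h4 n (Nat.lt_succ_self n))

variable {K : Type u} [Group K] [TopologicalSpace K]

/-- pairwise commuting subgroups have commutative image in a given representation, with finitely
many exceptions -/
lemma eventually_commutator_le {R : Subgroup K} (hR : RK R) (X : ℕ → Subgroup K)
    (hX : ∀ i j, i < j → ∀ x ∈ X i, ∀ y ∈ X j, ⁅x, y⁆ = 1) :
    ∀ᶠ i in atTop, ⁅X i, X i⁆ ≤ R := by
  by_contra hcon
  rw [Filter.not_eventually] at hcon
  obtain ⟨φ, hφ, hP⟩ := Filter.extraction_of_frequently_atTop hcon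
  obtain ⟨k, ρ, hρ, rfl⟩ := hR
  have hab : ∀ i, ∃ x y : K, x ∈ X (φ i) ∧ y ∈ X (φ i) ∧ ¬ Commute (ρ x) (ρ y) := by
    intro i
    have h1 := hP i
    rw [Subgroup.commutator_le] at h1
    push Not at h1
    obtain ⟨x, hx, y, hy, hxy⟩ := h1
    refine ⟨x, y, hx, hy, fun hc => hxy ?_⟩
    rw [MonoidHom.mem_ker, commutatorElement_def, map_mul, map_mul, map_mul, hc.eq,
      mul_assoc (ρ y)]
    have h2 : ∀ z : K, ρ z * ρ z⁻¹ = 1 := fun z => by rw [← map_mul, mul_inv_cancel, map_one]
    rw [h2, mul_one, h2]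
  choose x y hx hy hxy using hab
  have hcomm : ∀ i j, i ≠ j → Commute (x i) (y j) := by
    intro i j hij
    rcases lt_or_gt_of_ne hij with h | h
    · exact (commutatorElement_eq_one_iff_commute.mp (hX _ _ (hφ h) _ (hx i) _ (hy j)))
    · exact (commutatorElement_eq_one_iff_commute.mp (hX _ _ (hφ h) _ (hy j) _ (hx i))).symm
  exact false_of_noncomm (fun i => ρ (x i)) (fun i => ρ (y i))
    (fun i j hij => (hcomm i j hij).map ρ) hxy

end comm

end Pool.Agent.Helper80.PM
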