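import Pool.Agent.Helper80.PMAbel
import Pool.Agent.Helper80.PMMat

/-!
Identity components of closed normal subgroups.
-/

open Set Filter Topology
open scoped commutatorElement

set_option linter.style.haveILetI false
set_option linter.unusedSectionVars false

namespace Pool.Agent.Helper80.PM

universe u

variable {K : Type u} [Group K] [TopologicalSpace K] [IsTopologicalGroup K]

/-- identity component of a subgroup -/
def idc (N : Subgroup K) : Subgroup K where
  carrier := connectedComponentIn (N : Set K) 1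
  one_mem' := mem_connectedComponentIn (one_mem N)
  mul_mem' := by
    intro a b ha hb
    -- `a * C` is connected, contains `a`
    have h1 : IsPreconnected ((fun x => a * x) '' connectedComponentIn (N : Set K) 1) :=
      isPreconnected_connectedComponentIn.image _ (by fun_prop)
    have haN : a ∈ N := connectedComponentIn_subset _ _ ha
    have h2 : (fun x => a * x) '' connectedComponentIn (N : Set K) 1 ⊆ (N : Set K) := by
      rintro _ ⟨x, hx, rfl⟩
      exact N.mul_mem haN (connectedComponentIn_subset _ _ hx)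
    have h3 : a ∈ (fun x => a * x) '' connectedComponentIn (N : Set K) 1 :=
      ⟨1, mem_connectedComponentIn (one_mem N), by simp⟩
    have h4 := h1.subset_connectedComponentIn h3 h2
    rw [connectedComponentIn_eq ha]
    exact h4 ⟨b, hb, rfl⟩
  inv_mem' := by
    intro a ha
    have h1 : IsPreconnected ((fun x => a⁻¹ * x) '' connectedComponentIn (N : Set K) 1) :=
      isPreconnected_connectedComponentIn.image _ (by fun_prop)
    have haN : a ∈ N := connectedComponentIn_subset _ _ ha
    have h2 : (fun x => a⁻¹ * x) '' connectedComponentIn (N : Set K) 1 ⊆ (N : Set K) := by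
      rintro _ ⟨x, hx, rfl⟩
      exact N.mul_mem (N.inv_mem haN) (connectedComponentIn_subset _ _ hx)
    have h3 : (1 : K) ∈ (fun x => a⁻¹ * x) '' connectedComponentIn (N : Set K) 1 :=
      ⟨a, ha, by simp⟩
    have h4 := h1.subset_connectedComponentIn h3 h2
    exact h4 ⟨1, mem_connectedComponentIn (one_mem N), by simp⟩

lemma idc_le (N : Subgroup K) : idc N ≤ N := connectedComponentIn_subset _ _

lemma isPreconnected_idc (N : Subgroup K) : IsPreconnected (idc N : Set K) :=
  isPreconnected_connectedComponentIn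

lemma subset_idc {N : Subgroup K} {T : Set K} (hT : IsPreconnected T) (h1 : (1 : K) ∈ T)
    (hTN : T ⊆ N) : T ⊆ idc N :=
  hT.subset_connectedComponentIn h1 hTN

lemma idc_mono {N M : Subgroup K} (h : N ≤ M) : idc N ≤ idc M :=
  subset_idc (isPreconnected_idc N) (one_mem _) ((idc_le N).trans h)

lemma td_of_idc {N : Subgroup K} (h : idc N = ⊥) : IsTotallyDisconnected (N : Set K) := by
  intro T hTN hT x hx y hy
  have h1 : IsPreconnected ((fun z => x⁻¹ * z) '' T) := hT.image _ (by fun_prop)
  have h2 : (1 : K) ∈ (fun z => x⁻¹ * z) '' T := ⟨x, hx, by simp⟩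
  have h3 : (fun z => x⁻¹ * z) '' T ⊆ (N : Set K) := by
    rintro _ ⟨z, hz, rfl⟩
    exact N.mul_mem (N.inv_mem (hTN hx)) (hTN hz)
  have h4 := subset_idc h1 h2 h3 ⟨y, hy, rfl⟩
  rw [h] at h4
  have h5 : x⁻¹ * y = 1 := h4
  exact (inv_mul_eq_one.mp h5)

lemma isClosed_idc {N : Subgroup K} (hN : IsClosed (N : Set K)) : IsClosed (idc N : Set K) := by
  have h1 : IsPreconnected (closure (idc N : Set K)) := (isPreconnected_idc N).closure
  have h2 : closure (idc N : Set K) ⊆ N := closure_minimal (idc_le N) hN
  have h3 := subset_idc h1 (subset_closure (one_mem (idc N))) h2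
  exact isClosed_of_closure_subset h3

lemma normal_idc {N : Subgroup K} (hN : N.Normal) : (idc N).Normal := by
  constructor
  intro n hn g
  have h1 : IsPreconnected ((fun z => g * z * g⁻¹) '' (idc N : Set K)) :=
    (isPreconnected_idc N).image _ (by fun_prop)
  have h2 : (1 : K) ∈ (fun z => g * z * g⁻¹) '' (idc N : Set K) := ⟨1, one_mem _, by simp⟩
  have h3 : (fun z => g * z * g⁻¹) '' (idc N : Set K) ⊆ (N : Set K) := by
    rintro _ ⟨z, hz, rfl⟩
    exact hN.conj_mem z (idc_le N hz) g
  exact subset_idc h1 h2 h3 ⟨n, hn, rfl⟩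

lemma CN.idc {N : Subgroup K} (hN : CN N) : CN (idc N) := ⟨normal_idc hN.1, isClosed_idc hN.2⟩

lemma CN.centralizer [T2Space K] {N : Subgroup K} (hN : CN N) :
    CN (Subgroup.centralizer (N : Set K)) := by
  haveI := hN.1
  refine ⟨inferInstance, ?_⟩
  exact Set.isClosed_centralizer (N : Set K)

lemma CN.cl {N : Subgroup K} (hN : N.Normal) : CN N.topologicalClosure :=
  ⟨Subgroup.is_normal_topologicalClosure N, N.isClosed_topologicalClosure⟩

variable [CompactSpace K] [T2Space K]

/-- A closed normal abelian subgroup is centralised by the identity component. -/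
lemma central_of_abelian {A : Subgroup K} (hA : CN A)
    (hcomm : ∀ x ∈ A, ∀ y ∈ A, x * y = y * x) {k a : K} (hk : k ∈ idc (⊤ : Subgroup K))
    (ha : a ∈ A) : k * a = a * k := by
  haveI : CompactSpace A := isCompact_iff_compactSpace.mp hA.2.isCompact
  letI : CommGroup A := { (inferInstance : Group A) with
    mul_comm := fun a b => Subtype.ext (hcomm a a.2 b b.2) }
  by_contra hne
  have h1 : conjHom A hA.1 k ⟨a, ha⟩ * (⟨a, ha⟩ : A)⁻¹ ≠ 1 := by
    intro h
    apply hne
    have h2 : k * a * k⁻¹ = a := congrArg Subtype.val (mul_inv_eq_one.mp h)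
    calc k * a = (k * a * k⁻¹) * k := by group
      _ = a * k := by rw [h2]
  obtain ⟨χ, hχ⟩ := exists_char_ne_one h1
  have h2 := (locConst_conj_char hA χ).apply_eq_of_isPreconnected
    (isPreconnected_idc (⊤ : Subgroup K)) hk (one_mem _)
  apply hχ
  rw [map_mul, map_inv]
  have h3 : χ (conjHom A hA.1 k ⟨a, ha⟩) = χ (conjHom A hA.1 1 ⟨a, ha⟩) :=
    congrArg (fun φ : A →ₜ* Circle => φ ⟨a, ha⟩) h2
  have h4 : conjHom A hA.1 1 ⟨a, ha⟩ = ⟨a, ha⟩ := by
    ext
    simp [conjHom_apply]
  rw [h3, h4, mul_inv_cancel]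

end Pool.Agent.Helper80.PM
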