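import Mathlib

/-!
# Pseudocompact minimal groups: definitions used in the statements on `MP_dc204c_gt`
-/

open Topology

namespace Pool.Agent.Helper80.PM

universe u

/-- A space is pseudocompact if every continuous real-valued function on it is bounded. -/
def PseudoCompact (X : Type*) [TopologicalSpace X] : Prop :=
  ∀ f : X → ℝ, Continuous f → ∃ C : ℝ, ∀ x, |f x| ≤ C

/-- A space is zero-dimensional if it has a base of sets that are both open and closed. -/
def ZeroDim (X : Type*) [TopologicalSpace X] : Prop :=
  TopologicalSpace.IsTopologicalBasis {s : Set X | IsClopen s}

/-- A topological group `G` is minimal if every continuous group isomorphism from `G` onto a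
Hausdorff topological group is a topological isomorphism. -/
def MinimalGroup (G : Type u) [Group G] [TopologicalSpace G] : Prop :=
  ∀ (H : Type u) [Group H] [TopologicalSpace H] [IsTopologicalGroup H] [T2Space H] (f : G ≃* H),
    Continuous f → Continuous f.symm

/-- A topological group `G` is totally minimal if every Hausdorff quotient `G / N` (`N` a closed
normal subgroup) is minimal. -/
def TotallyMinimalGroup (G : Type u) [Group G] [TopologicalSpace G] : Prop :=
  ∀ (N : Subgroup G) [N.Normal], IsClosed (N : Set G) → MinimalGroup (G ⧸ N)

/-- Property `Z`: each closed zero-dimensional subgroup is discrete. -/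
def PropZ (G : Type u) [Group G] [TopologicalSpace G] : Prop :=
  ∀ H : Subgroup G, IsClosed (H : Set G) → ZeroDim H → DiscreteTopology H

/-- Property `Z_m`: each closed zero-dimensional metrizable subgroup is discrete. -/
def PropZm (G : Type u) [Group G] [TopologicalSpace G] : Prop :=
  ∀ H : Subgroup G, IsClosed (H : Set G) → ZeroDim H → TopologicalSpace.MetrizableSpace H →
    DiscreteTopology H

/-- `G` is a compact Lie group, in the following (equivalent) form: `G` is compact and has a
faithful continuous finite-dimensional unitary representation. -/
def CompactLie (G : Type u) [Group G] [TopologicalSpace G] : Prop :=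
  CompactSpace G ∧ ∃ (n : ℕ) (ρ : G →* Matrix (Fin n) (Fin n) ℂ), Continuous ρ ∧
    (∀ g, ρ g ∈ Matrix.unitaryGroup (Fin n) ℂ) ∧ Function.Injective ρ

end Pool.Agent.Helper80.PM
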