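import Pool.Agent.Helper80.PMChar

/-!
Duality for compact abelian groups.
-/

open Set Filter Topology MeasureTheory

set_option linter.style.haveILetI false
set_option linter.unusedSectionVars false

namespace Pool.Agent.Helper80.PM

universe u

variable {A : Type u} [CommGroup A] [TopologicalSpace A] [IsTopologicalGroup A] [CompactSpace A]
  [T2Space A]

lemma exists_char_ne_one {a : A} (ha : a ≠ 1) : ∃ χ : A →ₜ* Circle, χ a ≠ 1 := by
  obtain ⟨n, ρ, hρ, h⟩ := exists_rep_ne_one a ha
  exact exists_char_of_rep hρ h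

/-- orthogonality -/
lemma integral_char [MeasurableSpace A] [BorelSpace A] (μ : Measure A) [μ.IsMulLeftInvariant]
    {χ : A →ₜ* Circle} (hχ : χ ≠ 1) : ∫ a, ((χ a : Circle) : ℂ) ∂μ = 0 := by
  have h1 : ∃ b, χ b ≠ 1 := by
    by_contra hcon
    push Not at hcon
    exact hχ (ContinuousMonoidHom.ext hcon)
  obtain ⟨b, hb⟩ := h1
  have h2 := integral_mul_left_eq_self (μ := μ) (fun a => ((χ a : Circle) : ℂ)) b
  have h3 : (fun a => ((χ (b * a) : Circle) : ℂ)) = fun a => ((χ b : Circle) : ℂ) * (χ a : ℂ) := by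
    funext a
    rw [map_mul, Circle.coe_mul]
  rw [h3, integral_const_mul] at h2
  have h4 : (((χ b : Circle) : ℂ) - 1) * ∫ a, ((χ a : Circle) : ℂ) ∂μ = 0 := by
    rw [sub_mul, h2, one_mul, sub_self]
  rcases mul_eq_zero.mp h4 with h5 | h5
  · exfalso
    apply hb
    exact Circle.ext (by simpa using sub_eq_zero.mp h5)
  · exact h5

/-- A character trivial on the annihilator of a group `F` of characters belongs to `F`. -/
theorem mem_of_annihilator (F : Subgroup (A →ₜ* Circle)) (χ : A →ₜ* Circle)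
    (h : ∀ a, (∀ ψ ∈ F, ψ a = 1) → χ a = 1) : χ ∈ F := by
  by_contra hχ
  borelize A
  let μ : Measure A := Measure.haarMeasure ⊤
  haveI : IsProbabilityMeasure μ := ⟨Measure.haarMeasure_self⟩
  let P : Subgroup A :=
    { carrier := {a | ∀ ψ ∈ F, ψ a = 1}
      one_mem' := fun ψ _ => map_one ψ
      mul_mem' := fun {a b} ha hb ψ hψ => by rw [map_mul, ha ψ hψ, hb ψ hψ, one_mul]
      inv_mem' := fun {a} ha ψ hψ => by rw [map_inv, ha ψ hψ, inv_one] }
  have hmemP : ∀ a, a ∈ P ↔ ∀ ψ ∈ F, ψ a = 1 := fun a => Iff.rfl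
  haveI hPcl : IsClosed (P : Set A) := by
    have : (P : Set A) = ⋂ ψ ∈ F, {a | ψ a = 1} := by
      ext a
      simp [hmemP]
    rw [this]
    exact isClosed_biInter fun ψ _ => isClosed_eq ψ.continuous_toFun continuous_const
  -- lift of a character trivial on `P`
  have hlift : ∀ ψ : A →ₜ* Circle, (∀ a ∈ P, ψ a = 1) →
      ∃ f : C(A ⧸ P, ℂ), ∀ a : A, f (QuotientGroup.mk a) = ((ψ a : Circle) : ℂ) := by
    intro ψ hψ
    let g : A ⧸ P →* Circle := QuotientGroup.lift P ψ.toMonoidHom hψ
    have hg : Continuous g := by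
      rw [(QuotientGroup.isQuotientMap_mk P).continuous_iff]
      exact ψ.continuous_toFun
    refine ⟨⟨fun x => ((g x : Circle) : ℂ), continuous_subtype_val.comp hg⟩, fun a => rfl⟩
  let S : Set C(A ⧸ P, ℂ) := {f | ∃ ψ ∈ F, ∀ a : A, f (QuotientGroup.mk a) = ((ψ a : Circle) : ℂ)}
  have hSmul : ∀ f ∈ S, ∀ g ∈ S, f * g ∈ S := by
    rintro f ⟨ψ, hψ, hf⟩ g ⟨φ, hφ, hg⟩
    refine ⟨ψ * φ, F.mul_mem hψ hφ, fun a => ?_⟩
    rw [ContinuousMap.mul_apply, hf, hg]
    rfl
  have hSstar : ∀ f ∈ S, star f ∈ S := by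
    rintro f ⟨ψ, hψ, hf⟩
    refine ⟨ψ⁻¹, F.inv_mem hψ, fun a => ?_⟩
    rw [ContinuousMap.star_apply, hf]
    show (starRingEnd ℂ) ((ψ a : Circle) : ℂ) = (((ψ a)⁻¹ : Circle) : ℂ)
    rw [Circle.coe_inv_eq_conj]
  have hS1 : (1 : C(A ⧸ P, ℂ)) ∈ S := ⟨1, F.one_mem, fun a => rfl⟩
  let W : Submodule ℂ C(A ⧸ P, ℂ) := Submodule.span ℂ S
  have hWmul : ∀ f ∈ W, ∀ g ∈ W, f * g ∈ W := by
    intro f hf g hg
    have h1 : f * g ∈ W * W := Submodule.mul_mem_mul hf hg
    have h2 : W * W ≤ W := by
      rw [Submodule.span_mul_span]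
      refine Submodule.span_mono ?_
      rintro _ ⟨f, hf, g, hg, rfl⟩
      exact hSmul f hf g hg
    exact h2 h1
  have hWstar : ∀ f ∈ W, star f ∈ W := by
    intro f hf
    induction hf using Submodule.span_induction with
    | mem x hx => exact Submodule.subset_span (hSstar x hx)
    | zero => rw [star_zero]; exact W.zero_mem
    | add x y _ _ hx hy => rw [star_add]; exact W.add_mem hx hy
    | smul c x _ hx => rw [star_smul]; exact W.smul_mem _ hx
  let 𝒜 : StarSubalgebra ℂ C(A ⧸ P, ℂ) :=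
    { carrier := W
      mul_mem' := fun {f g} hf hg => hWmul f hf g hg
      one_mem' := Submodule.subset_span hS1
      add_mem' := fun {f g} hf hg => W.add_mem hf hg
      zero_mem' := W.zero_mem
      algebraMap_mem' := fun c => by
        have : algebraMap ℂ C(A ⧸ P, ℂ) c = c • 1 := Algebra.algebraMap_eq_smul_one c
        rw [this]
        exact W.smul_mem _ (Submodule.subset_span hS1)
      star_mem' := fun {f} hf => hWstar f hf }
  have hsep : 𝒜.SeparatesPoints := by
    intro x y hxy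
    obtain ⟨a, rfl⟩ := QuotientGroup.mk_surjective x
    obtain ⟨b, rfl⟩ := QuotientGroup.mk_surjective y
    have h1 : a⁻¹ * b ∉ P := fun h => hxy ((QuotientGroup.eq).mpr h)
    rw [hmemP] at h1
    push Not at h1
    obtain ⟨ψ, hψ, hne⟩ := h1
    obtain ⟨f, hf⟩ := hlift ψ (fun a ha => ha ψ hψ)
    refine ⟨f, ⟨f, Submodule.subset_span ⟨ψ, hψ, hf⟩, rfl⟩, ?_⟩
    rw [hf, hf]
    intro h2
    apply hne
    have h3 : ψ a = ψ b := Circle.ext h2
    rw [map_mul, map_inv, h3, inv_mul_cancel]
  have hdense := ContinuousMap.starSubalgebra_topologicalClosure_eq_top_of_separatesPoints 𝒜 hsep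
  -- the functional
  have hint : ∀ f : C(A ⧸ P, ℂ), Integrable
      (fun a : A => f (QuotientGroup.mk a) * (starRingEnd ℂ) ((χ a : Circle) : ℂ)) μ := by
    intro f
    refine Continuous.integrable_of_hasCompactSupport ?_ (HasCompactSupport.of_compactSpace _)
    have h1 : Continuous (fun a : A => f (QuotientGroup.mk a)) :=
      f.continuous.comp QuotientGroup.continuous_mk
    have h2 : Continuous (fun a : A => (starRingEnd ℂ) ((χ a : Circle) : ℂ)) :=
      Complex.continuous_conj.comp (continuous_subtype_val.comp χ.continuous_toFun)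
    exact h1.mul h2
  let I : C(A ⧸ P, ℂ) →L[ℂ] ℂ := LinearMap.mkContinuous
    { toFun := fun f => ∫ a, f (QuotientGroup.mk a) * (starRingEnd ℂ) ((χ a : Circle) : ℂ) ∂μ
      map_add' := fun f g => by
        rw [← integral_add (hint f) (hint g)]
        congr 1
        funext a
        rw [ContinuousMap.add_apply, add_mul]
      map_smul' := fun c f => by
        rw [RingHom.id_apply, smul_eq_mul, ← integral_const_mul]
        congr 1
        funext a
        rw [ContinuousMap.smul_apply, smul_eq_mul, mul_assoc] } 1 (fun f => by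
      have h1 : ∀ a : A, ‖f (QuotientGroup.mk a) * (starRingEnd ℂ) ((χ a : Circle) : ℂ)‖ ≤ ‖f‖ := by
        intro a
        rw [norm_mul, RCLike.norm_conj, Circle.norm_coe, mul_one]
        exact f.norm_coe_le_norm _
      have h2 := norm_integral_le_of_norm_le_const (μ := μ) (Eventually.of_forall h1)
      rw [one_mul]
      simpa using h2)
  have hIapp : ∀ f, I f = ∫ a, f (QuotientGroup.mk a) * (starRingEnd ℂ) ((χ a : Circle) : ℂ) ∂μ :=
    fun f => rfl
  have hIS : ∀ f ∈ S, I f = 0 := by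
    rintro f ⟨ψ, hψ, hf⟩
    rw [hIapp]
    have h1 : (fun a : A => f (QuotientGroup.mk a) * (starRingEnd ℂ) ((χ a : Circle) : ℂ)) =
        fun a => (((ψ * χ⁻¹) a : Circle) : ℂ) := by
      funext a
      rw [hf, ← Circle.coe_inv_eq_conj]
      rfl
    rw [h1]
    refine integral_char μ fun h2 => hχ ?_
    have h3 : ψ = χ := by rwa [mul_inv_eq_one] at h2
    rwa [← h3]
  have hIW : ∀ f ∈ W, I f = 0 := by
    intro f hf
    induction hf using Submodule.span_induction with
    | mem x hx => exact hIS x hx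
    | zero => exact map_zero I
    | add x y _ _ hx hy => rw [map_add, hx, hy, add_zero]
    | smul c x _ hx => rw [map_smul, hx, smul_zero]
  have hIall : ∀ f, I f = 0 := by
    intro f
    have h1 : f ∈ 𝒜.topologicalClosure := by rw [hdense]; trivial
    have h2 : (𝒜.topologicalClosure : Set C(A ⧸ P, ℂ)) ⊆ {f | I f = 0} := by
      rw [StarSubalgebra.topologicalClosure_coe]
      refine closure_minimal ?_ (isClosed_eq I.continuous continuous_const)
      exact fun f hf => hIW f hf
    exact h2 h1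
  obtain ⟨f, hf⟩ := hlift χ (fun a ha => h a ha)
  have h1 := hIall f
  rw [hIapp] at h1
  have h2 : (fun a : A => f (QuotientGroup.mk a) * (starRingEnd ℂ) ((χ a : Circle) : ℂ)) =
      fun _ => (1 : ℂ) := by
    funext a
    rw [hf, Complex.mul_conj, Complex.normSq_eq_norm_sq, Circle.norm_coe]
    norm_num
  rw [h2] at h1
  simp at h1

end Pool.Agent.Helper80.PM
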