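import Pool.Agent.Helper80.PMConn

/-!
The structure theorem at the level of the completion.
-/

open Set Filter Topology
open scoped commutatorElement

set_option linter.style.haveILetI false
set_option linter.unusedSectionVars false

namespace Pool.Agent.Helper80.PM

universe u

variable {K : Type u} [Group K] [TopologicalSpace K] [IsTopologicalGroup K] [CompactSpace K]
  [T2Space K]

/-- the properties of a dense subgroup used in the proof -/
structure GHyp (Gs : Subgroup K) : Prop where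
  ess : ∀ N : Subgroup K, CN N → N ≠ ⊥ → ∃ x ∈ Gs, x ∈ N ∧ x ≠ 1
  inv : ∀ D R : Subgroup K, CN D → RK R → R ⊓ D = ⊥ → ∀ d ∈ Gs, d ∈ D → ∀ k, k * d * k⁻¹ ∈ Gs
  zm : ∀ x : ℕ → K, (∀ n, x n ∈ Gs ∧ x n ≠ 1) → Tendsto x atTop (𝓝 1) →
    ¬ IsTotallyDisconnected ((Subgroup.closure (range x)).topologicalClosure : Set K)

lemma IsTotallyDisconnected.mono' {S T : Set K} (h : IsTotallyDisconnected T) (hST : S ⊆ T) :
    IsTotallyDisconnected S := fun U hU hUp => h U (hU.trans hST) hUp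

lemma tdfin_of_hyp {Gs : Subgroup K} (h : GHyp Gs) : TDFin K := by
  intro N hN htd
  by_contra hinf
  rw [not_finite_iff_infinite] at hinf
  obtain ⟨M, hM, hV⟩ := seqNorm_of_infinite hN htd hinf
  have hx : ∀ n, ∃ x ∈ Gs, x ∈ M n ∧ x ≠ 1 := fun n => h.ess _ (hM n).1 (hM n).2.2
  choose x hxG hxM hx1 using hx
  refine h.zm x (fun n => ⟨hxG n, hx1 n⟩) ?_ ?_
  · intro V hVn
    show ∀ᶠ n in atTop, x n ∈ V
    filter_upwards [hV V hVn] with n hn
    exact hn (hxM n)
  · refine IsTotallyDisconnected.mono' htd ?_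
    refine Subgroup.topologicalClosure_minimal _ ?_ hN.2
    rw [Subgroup.closure_le]
    rintro _ ⟨n, rfl⟩
    exact (hM n).2.1 (hxM n)

lemma exists_rk_of_td (hK : TDFin K) {N : Subgroup K} (hN : CN N) (h : idc N = ⊥) :
    ∃ R : Subgroup K, RK R ∧ R ⊓ N = ⊥ :=
  exists_rk_inf_finite (hK N hN (td_of_idc h))

/-- no nontrivial connected abelian part below `R` -/
def Small (R : Subgroup K) : Prop :=
  ∀ B : Subgroup K, CN B → (∀ x ∈ B, ∀ y ∈ B, x * y = y * x) → B ≤ idc (⊤ : Subgroup K) →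
    B ≤ R → B = ⊥

lemma Small.mono {R R' : Subgroup K} (h : Small R) (hR : R' ≤ R) : Small R' :=
  fun B h1 h2 h3 h4 => h B h1 h2 h3 (h4.trans hR)

lemma exists_small (hK : TDFin K) : ∃ R : Subgroup K, RK R ∧ Small R := by
  have hT : CN (⊤ : Subgroup K) := ⟨inferInstance, isClosed_univ⟩
  set Z : Subgroup K := idc (⊤ : Subgroup K) ⊓ Subgroup.centralizer (idc (⊤ : Subgroup K) : Set K)
    with hZ
  have hZcn : CN Z := hT.idc.inf hT.idc.centralizer
  have hZcomm : ∀ x ∈ Z, ∀ y ∈ Z, x * y = y * x := by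
    intro x hx y hy
    exact ((Subgroup.mem_centralizer_iff.mp hy.2) x hx.1)
  obtain ⟨R, hR, hRZ⟩ := exists_rk_inf_abelian hK hZcn hZcomm
  refine ⟨R, hR, ?_⟩
  intro B hB hcomm hBle hBR
  rw [eq_bot_iff, ← hRZ]
  intro b hb
  refine ⟨hBR hb, hBle hb, Subgroup.mem_centralizer_iff.mpr ?_⟩
  intro k hk
  exact central_of_abelian hB hcomm hk hb

/-- consequences for a closed normal connected abelian subgroup -/
lemma Small.idc_eq_bot {R N : Subgroup K} (h : Small R) (hN : CN N) (hNR : idc N ≤ R)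
    (hcomm : ∀ x ∈ idc N, ∀ y ∈ idc N, x * y = y * x) : idc N = ⊥ :=
  h _ hN.idc hcomm (idc_mono le_top) hNR

lemma exists_noncomm (hK : TDFin K) (hno : ¬ RK (⊥ : Subgroup K)) {R : Subgroup K} (hR : RK R)
    (hs : Small R) : ∃ x ∈ idc R, ∃ y ∈ idc R, ⁅x, y⁆ ≠ 1 := by
  by_contra hcon
  push Not at hcon
  have hcomm : ∀ x ∈ idc R, ∀ y ∈ idc R, x * y = y * x := fun x hx y hy =>
    (commutatorElement_eq_one_iff_mul_comm.mp (hcon x hx y hy))
  have h1 := hs.idc_eq_bot hR.cn (idc_le R) hcomm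
  obtain ⟨R', hR', h2⟩ := exists_rk_of_td hK hR.cn h1
  exact hno (h2 ▸ hR'.inf hR)

lemma exists_next (hK : TDFin K) (hno : ¬ RK (⊥ : Subgroup K)) {R : Subgroup K} (hR : RK R)
    (hs : Small R) : ∃ R' : Subgroup K, RK R' ∧ R' ≤ R ∧
      ∃ x ∈ idc R, ∃ y ∈ idc R, ⁅x, y⁆ ∉ R' := by
  obtain ⟨x, hx, y, hy, hxy⟩ := exists_noncomm hK hno hR hs
  obtain ⟨S, hS, hSx⟩ := exists_rk_not_mem hxy
  exact ⟨R ⊓ S, hR.inf hS, inf_le_left, x, hx, y, hy, fun h => hSx h.2⟩

/-- the new part between `R'` and `R` -/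
def part (R R' : Subgroup K) : Subgroup K := idc R ⊓ Subgroup.centralizer (idc R' : Set K)

lemma part_cn {R R' : Subgroup K} (hR : CN R) (hR' : CN R') : CN (part R R') :=
  hR.idc.inf hR'.idc.centralizer

lemma part_comm {R R' : Subgroup K} {x y : K} (hx : x ∈ part R R') (hy : y ∈ idc R') :
    y * x = x * y := (Subgroup.mem_centralizer_iff.mp hx.2) y hy

/-- splitting -/
lemma split_part {R R' : Subgroup K} (hR : CN R) (hR' : CN R') (hle : R' ≤ R) {m : K}
    (hm : m ∈ idc R) : ∃ n ∈ idc R', n⁻¹ * m ∈ part R R' := by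
  haveI : CompactSpace (idc R) := isCompact_iff_compactSpace.mp hR.idc.2.isCompact
  haveI : ConnectedSpace (idc R) := by
    refine isConnected_iff_connectedSpace.mp ?_
    exact ⟨⟨1, one_mem _⟩, isPreconnected_idc R⟩
  have hN : CN ((idc R').subgroupOf (idc R)) := by
    haveI := hR'.idc.1
    refine ⟨inferInstance, ?_⟩
    exact hR'.idc.2.preimage continuous_subtype_val
  obtain ⟨n, hn, h⟩ := split_compact hN ⟨m, hm⟩
  refine ⟨n, hn, ?_, ?_⟩
  · exact (idc R).mul_mem ((idc R).inv_mem n.2) hm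
  · refine Subgroup.mem_centralizer_iff.mpr ?_
    intro y hy
    have hy' : y ∈ idc R := idc_mono hle hy
    have h1 := h ⟨y, hy'⟩ hy
    have h2 : ⁅(n : K)⁻¹ * m, y⁆ = 1 := congrArg Subtype.val h1
    exact (commutatorElement_eq_one_iff_mul_comm.mp h2).symm

lemma part_noncomm {R R' : Subgroup K} (hR : CN R) (hR' : CN R') (hle : R' ≤ R)
    (h : ∃ x ∈ idc R, ∃ y ∈ idc R, ⁅x, y⁆ ∉ R') :
    ∃ x ∈ part R R', ∃ y ∈ part R R', ⁅x, y⁆ ≠ 1 := by
  obtain ⟨x, hx, y, hy, hxy⟩ := h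
  obtain ⟨n, hn, hnx⟩ := split_part hR hR' hle hx
  obtain ⟨m, hm, hmy⟩ := split_part hR hR' hle hy
  refine ⟨_, hnx, _, hmy, fun h1 => hxy ?_⟩
  haveI := hR'.1
  have e1 : QuotientGroup.mk' R' (n⁻¹ * x) = QuotientGroup.mk' R' x := by
    rw [map_mul, map_inv, (QuotientGroup.eq_one_iff n).mpr (idc_le R' hn) |> fun h =>
      (show QuotientGroup.mk' R' n = 1 from h), inv_one, one_mul]
  have e2 : QuotientGroup.mk' R' (m⁻¹ * y) = QuotientGroup.mk' R' y := by
    rw [map_mul, map_inv, (QuotientGroup.eq_one_iff m).mpr (idc_le R' hm) |> fun h =>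
      (show QuotientGroup.mk' R' m = 1 from h), inv_one, one_mul]
  have e3 : QuotientGroup.mk' R' ⁅x, y⁆ = 1 := by
    rw [map_commutatorElement, ← e1, ← e2, ← map_commutatorElement, h1, map_one]
  exact (QuotientGroup.eq_one_iff _).mp e3

lemma part_small {R₀ R R' : Subgroup K} (hs : Small R₀) (hR : CN R) (hR' : CN R')
    (hR'0 : R' ≤ R₀) : idc (part R R' ⊓ R') = ⊥ := by
  refine hs.idc_eq_bot ((part_cn hR hR').inf hR') ?_ ?_
  · exact (idc_le _).trans (inf_le_right.trans hR'0)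
  · intro x hx y hy
    have hx' : x ∈ idc R' := idc_mono inf_le_right hx
    have hy' : y ∈ part R R' := (idc_le _ hy).1
    exact part_comm hy' hx'

lemma part_rk (hK : TDFin K) {R₀ R R' : Subgroup K} (hs : Small R₀) (hR : CN R) (hR' : RK R')
    (hR'0 : R' ≤ R₀) : ∃ S : Subgroup K, RK S ∧ S ⊓ part R R' = ⊥ := by
  obtain ⟨S, hS, h⟩ := exists_rk_of_td hK ((part_cn hR hR'.cn).inf hR'.cn)
    (part_small hs hR hR'.cn hR'0)
  refine ⟨S ⊓ R', hS.inf hR', ?_⟩
  rw [eq_bot_iff, ← h]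
  rintro x ⟨⟨h1, h2⟩, h3⟩
  exact ⟨h1, h3, h2⟩

/-- closed commutator subgroup -/
def dsub (X : Subgroup K) : Subgroup K := (⁅X, X⁆ : Subgroup K).topologicalClosure

lemma dsub_cn {X : Subgroup K} (hX : CN X) : CN (dsub X) := by
  haveI := hX.1
  exact CN.cl (inferInstance : (⁅X, X⁆ : Subgroup K).Normal)

lemma dsub_le {X : Subgroup K} (hX : CN X) : dsub X ≤ X := by
  refine Subgroup.topologicalClosure_minimal _ ?_ hX.2
  haveI := hX.1
  exact Subgroup.commutator_le_left X X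

lemma comm_mem_dsub {X : Subgroup K} {x y : K} (hx : x ∈ X) (hy : y ∈ X) : ⁅x, y⁆ ∈ dsub X :=
  Subgroup.le_topologicalClosure _ (Subgroup.commutator_mem_commutator hx hy)

lemma dsub_conn {R R' : Subgroup K} (hR : CN R) (hR' : CN R') (hle : R' ≤ R) :
    IsPreconnected (dsub (part R R') : Set K) := by
  have hX := part_cn hR hR'
  have hD := dsub_cn hX
  have key : dsub (part R R') ≤ idc (dsub (part R R')) := by
    refine Subgroup.topologicalClosure_minimal _ ?_ hD.idc.2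
    rw [Subgroup.commutator_le]
    intro x₁ hx₁ x hx
    have h1 : IsPreconnected ((fun p => ⁅p, x⁆) '' (idc R : Set K)) := by
      refine (isPreconnected_idc R).image _ ?_
      simp only [commutatorElement_def]
      fun_prop
    have h2 : (1 : K) ∈ (fun p => ⁅p, x⁆) '' (idc R : Set K) :=
      ⟨1, one_mem _, by simp⟩
    have h3 : (fun p => ⁅p, x⁆) '' (idc R : Set K) ⊆ (dsub (part R R') : Set K) := by
      rintro _ ⟨q, hq, rfl⟩
      obtain ⟨n, hn, hnq⟩ := split_part hR hR' hle hq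
      have e1 : ⁅q, x⁆ = ⁅n⁻¹ * q, x⁆ := by
        set z := n⁻¹ * q with hz
        have hq' : q = n * z := by rw [hz]; group
        have hzx : z * x * z⁻¹ ∈ part R R' :=
          (part R R').mul_mem ((part R R').mul_mem hnq hx) ((part R R').inv_mem hnq)
        have hcm := part_comm hzx hn
        rw [commutatorElement_def, commutatorElement_def, hq']
        calc n * z * x * (n * z)⁻¹ * x⁻¹ = (n * (z * x * z⁻¹)) * n⁻¹ * x⁻¹ := by group
          _ = ((z * x * z⁻¹) * n) * n⁻¹ * x⁻¹ := by rw [hcm]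
          _ = z * x * z⁻¹ * x⁻¹ := by group
      show ⁅q, x⁆ ∈ dsub (part R R')
      rw [e1]
      exact comm_mem_dsub hnq hx
    exact subset_idc h1 h2 h3 ⟨x₁, hx₁.1, rfl⟩
  have heq : dsub (part R R') = idc (dsub (part R R')) := le_antisymm key (idc_le _)
  rw [heq]
  exact isPreconnected_idc _

lemma center_finite (hK : TDFin K) {R₀ D : Subgroup K} (hs : Small R₀) (hD : CN D)
    (hDR : D ≤ R₀) : Finite (Subgroup.center D) := by
  have hZ : CN (D ⊓ Subgroup.centralizer (D : Set K)) := hD.inf hD.centralizer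
  have hZ1 : idc (D ⊓ Subgroup.centralizer (D : Set K)) = ⊥ := by
    refine hs.idc_eq_bot hZ ((idc_le _).trans (inf_le_left.trans hDR)) ?_
    intro x hx y hy
    exact (Subgroup.mem_centralizer_iff.mp (idc_le _ hy).2) x (idc_le _ hx).1
  haveI := hK _ hZ (td_of_idc hZ1)
  let f : Subgroup.center D → (D ⊓ Subgroup.centralizer (D : Set K) : Subgroup K) := fun z =>
    ⟨z, z.1.2, Subgroup.mem_centralizer_iff.mpr fun y hy =>
      congrArg Subtype.val ((Subgroup.mem_center_iff.mp z.2) ⟨y, hy⟩)⟩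
  refine Finite.of_injective f fun a b h => ?_
  have h1 : ((a : D) : K) = ((b : D) : K) :=
    congrArg (fun z : (D ⊓ Subgroup.centralizer (D : Set K) : Subgroup K) => (z : K)) h
  exact Subtype.ext (Subtype.ext h1)

/-- torsion elements of the dense subgroup inside a connected part -/
lemma exists_torsion_part {Gs : Subgroup K} (hG : GHyp Gs) {R₀ D S : Subgroup K} (hs : Small R₀)
    (hD : CN D) (hDR : D ≤ R₀) (hD1 : D ≠ ⊥) (hconn : IsPreconnected (D : Set K)) (hS : RK S)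
    (hSD : S ⊓ D = ⊥) : ∃ x ∈ Gs, x ∈ D ∧ x ≠ 1 ∧ ∃ n : ℕ, 0 < n ∧ x ^ n = 1 := by
  haveI : CompactSpace D := isCompact_iff_compactSpace.mp hD.2.isCompact
  haveI : ConnectedSpace D := isConnected_iff_connectedSpace.mp ⟨⟨1, one_mem _⟩, hconn⟩
  have hrk : RK (⊥ : Subgroup D) := by
    have h1 := hS.comap D.subtype continuous_subtype_val
    have h2 : S.comap D.subtype = ⊥ := by
      rw [eq_bot_iff]
      intro x hx
      have h3 : (x : K) ∈ S ⊓ D := ⟨hx, x.2⟩
      rw [hSD, Subgroup.mem_bot] at h3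
      exact Subtype.ext h3
    rwa [h2] at h1
  have hfin := center_finite (tdfin_of_hyp hG) hs hD hDR
  have hY : (Gs.subgroupOf D).Normal := by
    constructor
    intro y hy g
    exact hG.inv D S hD hS hSD y hy y.2 g
  have hY1 : Gs.subgroupOf D ≠ ⊥ := by
    intro h
    obtain ⟨x, hxG, hxD, hx1⟩ := hG.ess D hD hD1
    have : (⟨x, hxD⟩ : D) ∈ Gs.subgroupOf D := hxG
    rw [h, Subgroup.mem_bot] at this
    exact hx1 (congrArg Subtype.val this)
  obtain ⟨y, hy, hy1, n, hn, hyn⟩ := torsion_rk hrk hfin hY hY1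
  exact ⟨y, hy, y.2, fun h => hy1 (Subtype.ext h), n, hn, congrArg Subtype.val hyn⟩

lemma finite_closure_of_comm {G : Type*} [Group G] {s : Set G} (hs : s.Finite)
    (hcomm : ∀ x ∈ s, ∀ y ∈ s, x * y = y * x) (htors : ∀ x ∈ s, IsOfFinOrder x) :
    Finite (Subgroup.closure s) := by
  haveI : Finite s := hs
  have hic := Subgroup.isMulCommutative_closure hcomm
  letI : CommGroup (Subgroup.closure s) := { (inferInstance : Group (Subgroup.closure s)) with
    mul_comm := fun a b => hic.is_comm.comm a b }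
  have hc : ∀ x ∈ Subgroup.closure s, ∀ y ∈ Subgroup.closure s, x * y = y * x := by
    intro x hx y hy
    have := mul_comm (⟨x, hx⟩ : Subgroup.closure s) ⟨y, hy⟩
    exact congrArg Subtype.val this
  have h1 : ∀ x ∈ Subgroup.closure s, IsOfFinOrder x := by
    intro x hx
    induction hx using Subgroup.closure_induction with
    | mem x hx => exact htors x hx
    | one => exact IsOfFinOrder.one
    | mul x y hx hy ihx ihy => exact (show Commute x y from hc x hx y hy).isOfFinOrder_mul ihx ihy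
    | inv x hx ih => exact ih.inv
  refine CommGroup.finite_of_fg_isMulTorsion (G := Subgroup.closure s) ?_
  intro g
  obtain ⟨n, hn, h2⟩ := isOfFinOrder_iff_pow_eq_one.mp (h1 g g.2)
  exact isOfFinOrder_iff_pow_eq_one.mpr ⟨n, hn, Subtype.ext h2⟩

/-- The closed subgroup generated by a commuting sequence of torsion elements converging to `1`
(in the strong sense below) is totally disconnected. -/
lemma td_closure {x : ℕ → K} (hcomm : ∀ i j, x i * x j = x j * x i)
    (htors : ∀ i, ∃ n : ℕ, 0 < n ∧ x i ^ n = 1)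
    (hev : ∀ R : Subgroup K, RK R → ∀ᶠ i in atTop, x i ∈ R) :
    IsTotallyDisconnected ((Subgroup.closure (range x)).topologicalClosure : Set K) := by
  intro T hT hpre a ha b hb
  have key : ∀ R : Subgroup K, RK R → a⁻¹ * b ∈ R := by
    intro R hR
    obtain ⟨N, hN⟩ := eventually_atTop.mp (hev R hR)
    have hRcn := hR.cn
    haveI := hRcn.1
    obtain ⟨k, ρ, hρ, rfl⟩ := hR
    set F : Subgroup K := Subgroup.closure (x '' Iio N) with hF
    have hFfin : Finite F := by
      refine finite_closure_of_comm ((finite_Iio N).image x) ?_ ?_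
      · rintro _ ⟨i, -, rfl⟩ _ ⟨j, -, rfl⟩
        exact hcomm i j
      · rintro _ ⟨i, -, rfl⟩
        obtain ⟨n, hn, h⟩ := htors i
        exact isOfFinOrder_iff_pow_eq_one.mpr ⟨n, hn, h⟩
    have hρF : (ρ '' (F : Set K)).Finite := (Set.toFinite (F : Set K)).image ρ
    have hmem : ∀ h, h ∈ F ⊔ ρ.ker → ρ h ∈ ρ '' (F : Set K) := by
      intro h hh
      obtain ⟨f, hf, r, hr, rfl⟩ := mem_sup_normal.mp hh
      refine ⟨f, hf, ?_⟩
      rw [map_mul, MonoidHom.mem_ker.mp hr, mul_one]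
    have hmem' : ∀ h, ρ h ∈ ρ '' (F : Set K) → h ∈ F ⊔ ρ.ker := by
      rintro h ⟨f, hf, hfh⟩
      refine mem_sup_normal.mpr ⟨f, hf, f⁻¹ * h, ?_, by group⟩
      rw [MonoidHom.mem_ker, map_mul, ← hfh, ← map_mul, inv_mul_cancel, map_one]
    have hcl : IsClosed ((F ⊔ ρ.ker : Subgroup K) : Set K) := by
      have : ((F ⊔ ρ.ker : Subgroup K) : Set K) = ρ ⁻¹' (ρ '' (F : Set K)) := by
        ext h
        exact ⟨hmem h, hmem' h⟩
      rw [this]
      exact hρF.isClosed.preimage hρ.1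
    have hle : (Subgroup.closure (range x)).topologicalClosure ≤ F ⊔ ρ.ker := by
      refine Subgroup.topologicalClosure_minimal _ ?_ hcl
      rw [Subgroup.closure_le]
      rintro _ ⟨i, rfl⟩
      rcases lt_or_ge i N with h | h
      · exact Subgroup.mem_sup_left (Subgroup.subset_closure ⟨i, h, rfl⟩)
      · exact Subgroup.mem_sup_right (hN i h)
    have himg : IsPreconnected (ρ '' T) := hpre.image _ hρ.1.continuousOn
    have hsub : ρ '' T ⊆ ρ '' (F : Set K) := by
      rintro _ ⟨t, ht, rfl⟩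
      exact hmem t (hle (hT ht))
    letI := Matrix.linftyOpNormedRing (n := Fin k) (α := ℂ)
    have hss := hρF.countable.isTotallyDisconnected _ hsub himg
    have h1 : ρ a = ρ b := hss ⟨a, ha, rfl⟩ ⟨b, hb, rfl⟩
    rw [MonoidHom.mem_ker, map_mul, ← h1, ← map_mul, inv_mul_cancel, map_one]
  exact inv_mul_eq_one.mp (eq_one_of_forall_rk key)

/-- The completion has a faithful representation. -/
theorem rk_bot_of_hyp {Gs : Subgroup K} (hG : GHyp Gs) : RK (⊥ : Subgroup K) := by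
  by_contra hno
  have hK := tdfin_of_hyp hG
  obtain ⟨R₀, hR₀, hs₀⟩ := exists_small hK
  -- the sequence of kernels
  have hstep : ∀ p : {R : Subgroup K // RK R ∧ R ≤ R₀}, ∃ q : {R : Subgroup K // RK R ∧ R ≤ R₀},
      q.1 ≤ p.1 ∧ ∃ x ∈ idc p.1, ∃ y ∈ idc p.1, ⁅x, y⁆ ∉ q.1 := by
    intro p
    obtain ⟨R', hR', hle, h⟩ := exists_next hK hno p.2.1 (hs₀.mono p.2.2)
    exact ⟨⟨R', hR', hle.trans p.2.2⟩, hle, h⟩
  choose f hf1 hf2 using hstep
  let r : ℕ → {R : Subgroup K // RK R ∧ R ≤ R₀} := fun n => f^[n] ⟨R₀, hR₀, le_rfl⟩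
  have hr : ∀ n, r (n + 1) = f (r n) := fun n => Function.iterate_succ_apply' f n _
  let Rn : ℕ → Subgroup K := fun n => (r n).1
  have hRn : ∀ n, RK (Rn n) := fun n => (r n).2.1
  have hRn0 : ∀ n, Rn n ≤ R₀ := fun n => (r n).2.2
  have hRs : ∀ n, Rn (n + 1) ≤ Rn n := fun n => by
    show (r (n + 1)).1 ≤ (r n).1
    rw [hr]; exact hf1 _
  have hanti : Antitone Rn := antitone_nat_of_succ_le hRs
  have hnc : ∀ n, ∃ x ∈ idc (Rn n), ∃ y ∈ idc (Rn n), ⁅x, y⁆ ∉ Rn (n + 1) := fun n => by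
    have := hf2 (r n)
    rw [← hr] at this
    exact this
  let X : ℕ → Subgroup K := fun n => part (Rn n) (Rn (n + 1))
  have hXcn : ∀ n, CN (X n) := fun n => part_cn (hRn n).cn (hRn (n + 1)).cn
  have hXcomm : ∀ i j, i < j → ∀ x ∈ X i, ∀ y ∈ X j, ⁅x, y⁆ = 1 := by
    intro i j hij x hx y hy
    have hy' : y ∈ idc (Rn (i + 1)) := idc_mono (hanti hij) hy.1
    exact commutatorElement_eq_one_iff_mul_comm.mpr (part_comm hx hy').symm
  have htor : ∀ n, ∃ x ∈ Gs, x ∈ dsub (X n) ∧ x ≠ 1 ∧ ∃ m : ℕ, 0 < m ∧ x ^ m = 1 := by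
    intro n
    obtain ⟨S, hS, hSX⟩ := part_rk hK hs₀ (hRn n).cn (hRn (n + 1)) (hRn0 (n + 1))
    have hDle : dsub (X n) ≤ X n := dsub_le (hXcn n)
    refine exists_torsion_part hG hs₀ (dsub_cn (hXcn n)) ?_ ?_ ?_ hS ?_
    · exact hDle.trans (inf_le_left.trans ((idc_le _).trans (hRn0 n)))
    · obtain ⟨x, hx, y, hy, hxy⟩ := part_noncomm (hRn n).cn (hRn (n + 1)).cn (hRs n) (hnc n)
      intro h
      have h1 : ⁅x, y⁆ ∈ dsub (X n) := comm_mem_dsub hx hy
      rw [h, Subgroup.mem_bot] at h1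
      exact hxy h1
    · exact dsub_conn (hRn n).cn (hRn (n + 1)).cn (hRs n)
    · rw [eq_bot_iff, ← hSX]
      exact inf_le_inf_left _ hDle
  choose x hxG hxD hx1 hxt using htor
  have hev : ∀ R : Subgroup K, RK R → ∀ᶠ i in atTop, x i ∈ R := by
    intro R hR
    filter_upwards [eventually_commutator_le hR X hXcomm] with i hi
    exact Subgroup.topologicalClosure_minimal _ hi hR.isClosed (hxD i)
  refine hG.zm x (fun n => ⟨hxG n, hx1 n⟩) ?_ ?_
  · intro V hV
    obtain ⟨R, hR, hRV⟩ := exists_rk_subset hV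
    show ∀ᶠ n in atTop, x n ∈ V
    filter_upwards [hev R hR] with n hn
    exact hRV hn
  · refine td_closure ?_ hxt hev
    intro i j
    rcases lt_trichotomy i j with h | h | h
    · exact commutatorElement_eq_one_iff_mul_comm.mp
        (hXcomm i j h _ (dsub_le (hXcn i) (hxD i)) _ (dsub_le (hXcn j) (hxD j)))
    · rw [h]
    · exact (commutatorElement_eq_one_iff_mul_comm.mp
        (hXcomm j i h _ (dsub_le (hXcn j) (hxD j)) _ (dsub_le (hXcn i) (hxD i)))).symm

end Pool.Agent.Helper80.PM
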