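import Mathlib

/-!
Linear Lie theory: the Lie algebra of a compact group of invertible elements in a
finite-dimensional real normed algebra, and the local structure theorem of Cartan.
-/

open Set Filter Topology NormedSpace

set_option linter.style.haveILetI false
set_option linter.unusedSectionVars false

namespace Pool.Agent.Helper80.PM

section Lie

variable {𝔸 : Type*} [NormedRing 𝔸] [NormedAlgebra ℝ 𝔸] [CompleteSpace 𝔸]

lemma ex_add {x y : 𝔸} (h : Commute x y) : exp (x + y) = exp x * exp y := by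
  letI : NormedAlgebra ℚ 𝔸 := NormedAlgebra.restrictScalars ℚ ℝ 𝔸
  exact exp_add_of_commute h

lemma ex_cont : Continuous (exp : 𝔸 → 𝔸) := by
  letI : NormedAlgebra ℚ 𝔸 := NormedAlgebra.restrictScalars ℚ ℝ 𝔸
  exact exp_continuous

lemma ex_nsmul (n : ℕ) (x : 𝔸) : exp (n • x) = exp x ^ n := by
  letI : NormedAlgebra ℚ 𝔸 := NormedAlgebra.restrictScalars ℚ ℝ 𝔸
  exact exp_nsmul n x

lemma ex_mul_neg (x : 𝔸) : exp x * exp (-x) = 1 := by
  rw [← ex_add (Commute.refl x).neg_right, add_neg_cancel, exp_zero]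

lemma ex_neg_mul (x : 𝔸) : exp (-x) * exp x = 1 := by
  rw [← ex_add (Commute.refl x).neg_left, neg_add_cancel, exp_zero]

lemma ex_conj {g g' : 𝔸} (h : g * g' = 1) (h' : g' * g = 1) (x : 𝔸) :
    exp (g * x * g') = g * exp x * g' := by
  letI : NormedAlgebra ℚ 𝔸 := NormedAlgebra.restrictScalars ℚ ℝ 𝔸
  exact exp_units_conj ⟨g, g', h, h'⟩ x

/-- a closed group of invertible elements of `𝔸` -/
structure CLG (L : Submonoid 𝔸) : Prop where
  closed : IsClosed (L : Set 𝔸)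
  inv : ∀ g ∈ L, ∃ g' ∈ L, g * g' = 1 ∧ g' * g = 1

/-- the set of `X` with `exp (t X)` in `L` for all real `t` -/
def lieSet (L : Submonoid 𝔸) : Set 𝔸 := {X | ∀ t : ℝ, exp (t • X) ∈ L}

lemma CLG.inv_mem {L : Submonoid 𝔸} (hL : CLG L) {g g' : 𝔸} (hg : g ∈ L) (h : g * g' = 1) :
    g' ∈ L := by
  obtain ⟨g'', hg'', h1, h2⟩ := hL.inv g hg
  have : g' = g'' := by
    calc g' = (g'' * g) * g' := by rw [h2, one_mul]
      _ = g'' := by rw [mul_assoc, h, mul_one]
  rw [this]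
  exact hg''

/-- limits of rescaled logarithms are in the Lie algebra -/
lemma CLG.lim_mem {L : Submonoid 𝔸} (hL : CLG L) {x : ℕ → 𝔸} {r : ℕ → ℝ} {X : 𝔸}
    (hx : ∀ᶠ k in atTop, exp (x k) ∈ L) (hr : Tendsto r atTop atTop)
    (hX : Tendsto (fun k => r k • x k) atTop (𝓝 X)) : X ∈ lieSet L := by
  have key : ∀ t : ℝ, 0 ≤ t → exp (t • X) ∈ L := by
    intro t ht
    have h1 : Tendsto (fun k => ((⌊t * r k⌋₊ : ℝ) / r k) • (r k • x k)) atTop (𝓝 (t • X)) := by
      have h2 : Tendsto (fun k => (⌊t * r k⌋₊ : ℝ) / r k) atTop (𝓝 t) :=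
        (tendsto_nat_floor_mul_div_atTop ht).comp hr
      exact h2.smul hX
    have h3 : Tendsto (fun k => exp (((⌊t * r k⌋₊ : ℝ) / r k) • (r k • x k))) atTop
        (𝓝 (exp (t • X))) := (ex_cont.tendsto _).comp h1
    refine hL.closed.mem_of_tendsto h3 ?_
    filter_upwards [hx, hr.eventually_gt_atTop 0] with k hk hrk
    have h4 : ((⌊t * r k⌋₊ : ℝ) / r k) • (r k • x k) = ⌊t * r k⌋₊ • x k := by
      rw [smul_smul, div_mul_cancel₀ _ hrk.ne', Nat.cast_smul_eq_nsmul]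
    rw [h4, ex_nsmul]
    exact pow_mem hk _
  intro t
  rcases le_total 0 t with ht | ht
  · exact key t ht
  · have h1 := key (-t) (by linarith)
    refine hL.inv_mem h1 ?_
    have : t • X = -((-t) • X) := by rw [neg_smul, neg_neg]
    rw [this]
    exact ex_mul_neg _

/-- a local logarithm -/
lemma exists_log : ∃ lg : 𝔸 → 𝔸, HasFDerivAt lg (ContinuousLinearMap.id ℝ 𝔸) 1 ∧ lg 1 = 0 ∧
    ∀ᶠ g in 𝓝 (1 : 𝔸), exp (lg g) = g := by
  have h0 : HasStrictFDerivAt (exp : 𝔸 → 𝔸)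
      ((ContinuousLinearEquiv.refl ℝ 𝔸 : 𝔸 ≃L[ℝ] 𝔸) : 𝔸 →L[ℝ] 𝔸) 0 := hasStrictFDerivAt_exp_zero
  have h1 := h0.to_localInverse
  refine ⟨h0.localInverse exp _ 0, ?_, ?_, ?_⟩
  · rw [exp_zero] at h1
    exact h1.hasFDerivAt
  · have := h0.localInverse_apply_image
    rwa [exp_zero] at this
  · have := h0.eventually_right_inverse
    rwa [exp_zero] at this

/-- tangent vectors of curves in `L` are in the Lie algebra -/
lemma CLG.tangent_mem {L : Submonoid 𝔸} (hL : CLG L) {c : ℝ → 𝔸} {X : 𝔸}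
    (hc : HasDerivAt c X 0) (hc0 : c 0 = 1) (hcL : ∀ t, c t ∈ L) : X ∈ lieSet L := by
  obtain ⟨lg, hd, hlg1, hlg⟩ := exists_log (𝔸 := 𝔸)
  have h1 : HasDerivAt (fun t => lg (c t)) X 0 := by
    have h2 : HasFDerivAt lg (ContinuousLinearMap.id ℝ 𝔸) (c 0) := by rw [hc0]; exact hd
    exact h2.comp_hasDerivAt 0 hc
  have hu : Tendsto (fun k : ℕ => (1 / ((k : ℝ) + 1))) atTop (𝓝 0) :=
    tendsto_one_div_add_atTop_nhds_zero_nat
  refine hL.lim_mem (x := fun k => lg (c (1 / ((k : ℝ) + 1)))) (r := fun k => (k : ℝ) + 1) ?_ ?_ ?_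
  · have h3 : Tendsto (fun k : ℕ => c (1 / ((k : ℝ) + 1))) atTop (𝓝 1) := by
      have := hc.continuousAt.tendsto.comp hu
      rwa [hc0] at this
    filter_upwards [h3.eventually hlg] with k hk
    rw [hk]
    exact hcL _
  · exact tendsto_atTop_add_const_right _ _ tendsto_natCast_atTop_atTop
  · have h4 := h1.tendsto_slope_zero
    have h5 : Tendsto (fun k : ℕ => (1 / ((k : ℝ) + 1))) atTop (𝓝[≠] 0) := by
      rw [tendsto_nhdsWithin_iff]
      refine ⟨hu, Eventually.of_forall fun k => ?_⟩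
      have : (0 : ℝ) < 1 / ((k : ℝ) + 1) := by positivity
      exact this.ne'
    have h6 := h4.comp h5
    refine h6.congr fun k => ?_
    simp [hc0, hlg1]

/-- the Lie algebra of a closed group, a real subspace -/
def CLG.lie {L : Submonoid 𝔸} (hL : CLG L) : Submodule ℝ 𝔸 where
  carrier := lieSet L
  zero_mem' := fun t => by rw [smul_zero, exp_zero]; exact one_mem L
  smul_mem' := fun c X hX t => by rw [smul_smul]; exact hX _
  add_mem' := by
    intro X Y hX hY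
    refine hL.tangent_mem (c := fun t => exp (t • X) * exp (t • Y)) ?_ ?_ ?_
    · have h1 : HasDerivAt (fun t : ℝ => exp (t • X)) X 0 := by
        have := hasDerivAt_exp_smul_const (𝕂 := ℝ) X (0 : ℝ)
        simpa using this
      have h2 : HasDerivAt (fun t : ℝ => exp (t • Y)) Y 0 := by
        have := hasDerivAt_exp_smul_const (𝕂 := ℝ) Y (0 : ℝ)
        simpa using this
      have h3 : HasDerivAt (fun t : ℝ => exp (t • X) * exp (t • Y))
          (X * exp ((0 : ℝ) • Y) + exp ((0 : ℝ) • X) * Y) 0 := h1.mul h2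
      simpa using h3
    · simp
    · intro t
      exact L.mul_mem (hX t) (hY t)

lemma CLG.mem_lie {L : Submonoid 𝔸} (hL : CLG L) {X : 𝔸} :
    X ∈ hL.lie ↔ ∀ t : ℝ, exp (t • X) ∈ L := Iff.rfl

lemma CLG.exp_mem {L : Submonoid 𝔸} (hL : CLG L) {X : 𝔸} (hX : X ∈ hL.lie) : exp X ∈ L := by
  have := hX 1
  rwa [one_smul] at this

lemma CLG.conj_mem_lie {L : Submonoid 𝔸} (hL : CLG L) {X : 𝔸} (hX : X ∈ hL.lie) {g g' : 𝔸}
    (h : g * g' = 1) (h' : g' * g = 1) (hconj : ∀ x ∈ L, g * x * g' ∈ L) :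
    g * X * g' ∈ hL.lie := by
  intro t
  have : t • (g * X * g') = g * (t • X) * g' := by
    rw [mul_smul_comm, smul_mul_assoc]
  rw [this, ex_conj h h']
  exact hconj _ (hX t)

/-- Cartan's theorem in a general form: a map into `L` whose derivative at `0` is onto the Lie
algebra covers a neighbourhood of `1` in `L`. -/
theorem CLG.local_surj [FiniteDimensional ℝ 𝔸] {L : Submonoid 𝔸} (hL : CLG L) {E : Type*}
    [NormedAddCommGroup E] [NormedSpace ℝ E] [CompleteSpace E] {F : E → 𝔸} {F' : E →L[ℝ] 𝔸}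
    (hF : HasStrictFDerivAt F F' 0) (hF0 : F 0 = 1) (hFL : ∀ e, F e ∈ L)
    (hrange : ∀ X ∈ hL.lie, ∃ e, F' e = X) {U : Set E} (hU : U ∈ 𝓝 (0 : E)) :
    F '' U ∈ 𝓝[(L : Set 𝔸)] 1 := by
  obtain ⟨W, hW⟩ := Submodule.exists_isCompl hL.lie
  let Ψ : E × W → 𝔸 := fun p => F p.1 * exp (p.2 : 𝔸)
  have hΨ : HasStrictFDerivAt Ψ (F'.comp (ContinuousLinearMap.fst ℝ E W) +
      (W.subtypeL).comp (ContinuousLinearMap.snd ℝ E W)) 0 := by
    have h1 : HasStrictFDerivAt (fun p : E × W => F p.1) (F'.comp (ContinuousLinearMap.fst ℝ E W))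
        0 := by
      have : HasStrictFDerivAt F F' (((0 : E × W)).1) := hF
      exact this.comp 0 hasStrictFDerivAt_fst
    have h2 : HasStrictFDerivAt (fun p : E × W => exp (p.2 : 𝔸))
        ((1 : 𝔸 →L[ℝ] 𝔸).comp ((W.subtypeL).comp (ContinuousLinearMap.snd ℝ E W))) 0 := by
      have h3 : HasStrictFDerivAt (exp : 𝔸 → 𝔸) (1 : 𝔸 →L[ℝ] 𝔸)
          (((W.subtypeL).comp (ContinuousLinearMap.snd ℝ E W)) 0) := by
        rw [map_zero]
        exact hasStrictFDerivAt_exp_zero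
      exact h3.comp 0 ((W.subtypeL).comp (ContinuousLinearMap.snd ℝ E W)).hasStrictFDerivAt
    have h4 := h1.mul' h2
    have h5 : (F (0 : E × W).1 • ((1 : 𝔸 →L[ℝ] 𝔸).comp
        ((W.subtypeL).comp (ContinuousLinearMap.snd ℝ E W))) +
      MulOpposite.op (exp (((0 : E × W).2 : W) : 𝔸)) • (F'.comp (ContinuousLinearMap.fst ℝ E W))) =
      (F'.comp (ContinuousLinearMap.fst ℝ E W) +
      (W.subtypeL).comp (ContinuousLinearMap.snd ℝ E W)) := by
      ext p
      · simp [hF0]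
      · simp [hF0]
    rw [← h5]
    exact h4
  have hΨ0 : Ψ 0 = 1 := by simp [Ψ, hF0]
  have hsurj : (F'.comp (ContinuousLinearMap.fst ℝ E W) +
      (W.subtypeL).comp (ContinuousLinearMap.snd ℝ E W)).range = ⊤ := by
    rw [eq_top_iff]
    intro Y _
    have hY : Y ∈ hL.lie ⊔ W := by rw [hW.sup_eq_top]; trivial
    obtain ⟨X, hX, w, hw, rfl⟩ := Submodule.mem_sup.mp hY
    obtain ⟨e, rfl⟩ := hrange X hX
    exact ⟨(e, ⟨w, hw⟩), rfl⟩
  have hmap := hΨ.map_nhds_eq_of_surj hsurj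
  rw [hΨ0] at hmap
  by_contra hcon
  -- choose bad points
  have hbad : ∀ k : ℕ, ∃ p : E × W, ‖p.2‖ < 1 / ((k : ℝ) + 1) ∧ p.2 ≠ 0 ∧ exp (p.2 : 𝔸) ∈ L := by
    intro k
    have hnb : {p : E × W | p.1 ∈ U ∧ ‖p.2‖ < 1 / ((k : ℝ) + 1)} ∈ 𝓝 (0 : E × W) := by
      have h1 : {p : E × W | p.1 ∈ U} ∈ 𝓝 (0 : E × W) := continuous_fst.continuousAt hU
      have h2 : {p : E × W | ‖p.2‖ < 1 / ((k : ℝ) + 1)} ∈ 𝓝 (0 : E × W) := by
        have : Continuous (fun p : E × W => ‖p.2‖) := by fun_prop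
        have h3 := this.tendsto (0 : E × W)
        refine h3.eventually_lt_const ?_
        simp
        positivity
      exact inter_mem h1 h2
    have hi := image_mem_map (m := Ψ) hnb
    rw [hmap] at hi
    by_contra hno
    push Not at hno
    apply hcon
    rw [mem_nhdsWithin_iff_exists_mem_nhds_inter]
    refine ⟨_, hi, ?_⟩
    rintro _ ⟨⟨p, ⟨hp1, hp2⟩, rfl⟩, hpL⟩
    have hex : exp (p.2 : 𝔸) ∈ L := by
      obtain ⟨g', hg', h1, h2⟩ := hL.inv _ (hFL p.1)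
      have : exp (p.2 : 𝔸) = g' * Ψ p := by
        show _ = g' * (F p.1 * exp (p.2 : 𝔸))
        rw [← mul_assoc, h2, one_mul]
      rw [this]
      exact L.mul_mem hg' hpL
    have hp0 : p.2 = 0 := by
      by_contra h0
      exact hno p hp2 h0 hex
    refine ⟨p.1, hp1, ?_⟩
    simp [Ψ, hp0]
  choose p hp1 hp2 hp3 using hbad
  -- normalise
  have hnpos : ∀ k, 0 < ‖(p k).2‖ := fun k => norm_pos_iff.mpr (hp2 k)
  have hto0 : Tendsto (fun k => ‖(p k).2‖) atTop (𝓝 0) :=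
    squeeze_zero (fun k => norm_nonneg _) (fun k => (hp1 k).le)
      tendsto_one_div_add_atTop_nhds_zero_nat
  have hrt : Tendsto (fun k => (‖(p k).2‖)⁻¹) atTop atTop := by
    refine tendsto_inv_nhdsGT_zero.comp ?_
    rw [tendsto_nhdsWithin_iff]
    exact ⟨hto0, Eventually.of_forall hnpos⟩
  have hsph : ∀ k, (‖(p k).2‖)⁻¹ • (p k).2 ∈ Metric.sphere (0 : W) 1 := by
    intro k
    rw [mem_sphere_zero_iff_norm, norm_smul, norm_inv, norm_norm, inv_mul_cancel₀ (hnpos k).ne']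
  obtain ⟨w, hw1, φ, hφ, hφt⟩ := (isCompact_sphere (0 : W) 1).tendsto_subseq hsph
  have hwL : (w : 𝔸) ∈ hL.lie := by
    refine hL.lim_mem (x := fun k => ((p (φ k)).2 : 𝔸)) (r := fun k => (‖(p (φ k)).2‖)⁻¹)
      (Eventually.of_forall fun k => hp3 _) (hrt.comp hφ.tendsto_atTop) ?_
    exact (continuous_subtype_val.tendsto w).comp hφt
  have hw0 : (w : 𝔸) = 0 := by
    have := hW.disjoint.le_bot ⟨hwL, w.2⟩
    simpa using this
  have : w = 0 := Subtype.ext hw0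
  rw [this] at hw1
  simp at hw1

end Lie

end Pool.Agent.Helper80.PM
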