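import Pool.Agent.Helper80.PMLie

/-!
Linear Lie theory, continued: closures, elements of the kernel of the exponential map.
-/

open Set Filter Topology NormedSpace

set_option linter.style.haveILetI false
set_option linter.unusedSectionVars false

namespace Pool.Agent.Helper80.PM

section Lie

variable {𝔸 : Type*} [NormedRing 𝔸] [NormedAlgebra ℝ 𝔸] [CompleteSpace 𝔸]

/-- The closure of a group of invertible elements inside a compact group is a closed group. -/
lemma clg_closure {C S : Submonoid 𝔸} (hC : IsCompact (C : Set 𝔸)) (hSC : S ≤ C)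
    (hS : ∀ g ∈ S, ∃ g' ∈ S, g * g' = 1 ∧ g' * g = 1) : CLG S.topologicalClosure := by
  have hcl : IsClosed (S.topologicalClosure : Set 𝔸) := S.isClosed_topologicalClosure
  have hle : S.topologicalClosure ≤ C := S.topologicalClosure_minimal hSC hC.isClosed
  have hcomp : IsCompact (S.topologicalClosure : Set 𝔸) := hC.of_isClosed_subset hcl hle
  refine ⟨hcl, ?_⟩
  let D : Set (𝔸 × 𝔸) := ((S.topologicalClosure : Set 𝔸) ×ˢ (S.topologicalClosure : Set 𝔸)) ∩
    {p | p.1 * p.2 = 1 ∧ p.2 * p.1 = 1}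
  have hD : IsCompact D := by
    refine (hcomp.prod hcomp).inter_right ?_
    refine IsClosed.inter ?_ ?_
    · exact isClosed_eq (by fun_prop) continuous_const
    · exact isClosed_eq (by fun_prop) continuous_const
  have hD1 : IsClosed (Prod.fst '' D) := (hD.image continuous_fst).isClosed
  have hsub : (S : Set 𝔸) ⊆ Prod.fst '' D := by
    intro g hg
    obtain ⟨g', hg', h1, h2⟩ := hS g hg
    exact ⟨(g, g'), ⟨⟨S.le_topologicalClosure hg, S.le_topologicalClosure hg'⟩, h1, h2⟩, rfl⟩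
  intro g hg
  have : g ∈ Prod.fst '' D := closure_minimal hsub hD1 hg
  obtain ⟨⟨a, b⟩, ⟨⟨-, hb⟩, h1, h2⟩, rfl⟩ := this
  exact ⟨b, hb, h1, h2⟩

lemma CLG.lie_mono {L M : Submonoid 𝔸} (hL : CLG L) (hM : CLG M) (h : L ≤ M) :
    hL.lie ≤ hM.lie := fun _ hX t => h (hX t)

lemma hasDerivAt_ex (X : 𝔸) : HasDerivAt (fun t : ℝ => exp (t • X)) X 0 := by
  have := hasDerivAt_exp_smul_const (𝕂 := ℝ) X (0 : ℝ)
  simpa using this

/-- if `exp (t X) = 1` for all `t` in a sequence tending to `0` then `X = 0`. -/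
lemma eventually_ex_ne_one {X : 𝔸} (hX : X ≠ 0) :
    ∀ᶠ p : ℕ in atTop, exp ((1 / ((p : ℝ) + 1)) • X) ≠ 1 := by
  have h4 := (hasDerivAt_ex X).tendsto_slope_zero
  have hu : Tendsto (fun k : ℕ => (1 / ((k : ℝ) + 1))) atTop (𝓝 0) :=
    tendsto_one_div_add_atTop_nhds_zero_nat
  have h5 : Tendsto (fun k : ℕ => (1 / ((k : ℝ) + 1))) atTop (𝓝[≠] 0) := by
    rw [tendsto_nhdsWithin_iff]
    refine ⟨hu, Eventually.of_forall fun k => ?_⟩
    have : (0 : ℝ) < 1 / ((k : ℝ) + 1) := by positivity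
    exact this.ne'
  have h6 := (h4.comp h5).eventually_ne hX
  filter_upwards [h6] with p hp h1
  apply hp
  simp only [Function.comp, zero_add, zero_smul, exp_zero]
  rw [h1, sub_self, smul_zero]

lemma eq_zero_of_ex_eq_one {X : 𝔸} (h : ∀ t : ℝ, exp (t • X) = 1) : X = 0 := by
  by_contra hX
  obtain ⟨p, hp⟩ := (eventually_ex_ne_one hX).exists
  exact hp (h _)

lemma commute_of_forall_ex {a X : 𝔸} (h : ∀ t : ℝ, Commute a (exp (t • X))) : Commute a X := by
  have h1 : HasDerivAt (fun t : ℝ => a * exp (t • X)) (a * X) 0 := (hasDerivAt_ex X).const_mul a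
  have h2 : HasDerivAt (fun t : ℝ => exp (t • X) * a) (X * a) 0 := (hasDerivAt_ex X).mul_const a
  have h3 : (fun t : ℝ => a * exp (t • X)) = (fun t : ℝ => exp (t • X) * a) := by
    funext t
    exact h t
  rw [h3] at h1
  exact h1.unique h2

lemma ex_commute {a X : 𝔸} (h : Commute a X) (t : ℝ) : Commute a (exp (t • X)) :=
  (h.smul_right t).exp_right

/-- The exponential map covers a neighbourhood of `1`. -/
lemma CLG.exp_nhds [FiniteDimensional ℝ 𝔸] {L : Submonoid 𝔸} (hL : CLG L) {ε : ℝ} (hε : 0 < ε) :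
    {g : 𝔸 | ∃ X ∈ hL.lie, ‖X‖ < ε ∧ exp X = g} ∈ 𝓝[(L : Set 𝔸)] 1 := by
  let F : hL.lie → 𝔸 := fun X => exp (X : 𝔸)
  have hF : HasStrictFDerivAt F hL.lie.subtypeL 0 := by
    have h1 : HasStrictFDerivAt (exp : 𝔸 → 𝔸) (1 : 𝔸 →L[ℝ] 𝔸) (hL.lie.subtypeL 0) := by
      rw [map_zero]
      exact hasStrictFDerivAt_exp_zero
    have h2 := h1.comp 0 hL.lie.subtypeL.hasStrictFDerivAt
    exact h2
  have hU : Metric.ball (0 : hL.lie) ε ∈ 𝓝 (0 : hL.lie) := Metric.ball_mem_nhds _ hε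
  have := hL.local_surj hF (by simp [F]) (fun X => hL.exp_mem X.2)
    (fun X hX => ⟨⟨X, hX⟩, rfl⟩) hU
  refine mem_of_superset this ?_
  rintro _ ⟨X, hX, rfl⟩
  refine ⟨X, X.2, ?_, rfl⟩
  simpa using hX

/-- In a compact group with nonzero Lie algebra there is a nonzero `Z` with `exp Z = 1`. -/
theorem CLG.exists_exp_eq_one [FiniteDimensional ℝ 𝔸] {C : Submonoid 𝔸} (hC : CLG C)
    (hcomp : IsCompact (C : Set 𝔸)) {X : 𝔸} (hX : X ∈ hC.lie) (hX0 : X ≠ 0) :
    ∃ Z ∈ hC.lie, Z ≠ 0 ∧ exp Z = 1 := by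
  -- the one parameter subgroup and its closure
  let S : Submonoid 𝔸 :=
    { carrier := range (fun t : ℝ => exp (t • X))
      one_mem' := ⟨0, by simp⟩
      mul_mem' := by
        rintro _ _ ⟨s, rfl⟩ ⟨t, rfl⟩
        refine ⟨s + t, ?_⟩
        show exp ((s + t) • X) = exp (s • X) * exp (t • X)
        rw [add_smul]
        exact ex_add (((Commute.refl X).smul_left s).smul_right t) }
  have hSC : S ≤ C := by
    rintro _ ⟨t, rfl⟩
    exact hX t
  have hSinv : ∀ g ∈ S, ∃ g' ∈ S, g * g' = 1 ∧ g' * g = 1 := by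
    rintro _ ⟨t, rfl⟩
    refine ⟨exp ((-t) • X), ⟨-t, rfl⟩, ?_, ?_⟩
    · show exp (t • X) * exp ((-t) • X) = 1
      rw [neg_smul]
      exact ex_mul_neg _
    · show exp ((-t) • X) * exp (t • X) = 1
      rw [neg_smul]
      exact ex_neg_mul _
  have hB : CLG S.topologicalClosure := clg_closure hcomp hSC hSinv
  have hBC : S.topologicalClosure ≤ C := S.topologicalClosure_minimal hSC hcomp.isClosed
  -- elements of the closure commute with `X`
  have hBX : ∀ g ∈ S.topologicalClosure, Commute g X := by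
    intro g hg
    have hcl : IsClosed {g : 𝔸 | g * X = X * g} := isClosed_eq (by fun_prop) (by fun_prop)
    have hsub : (S : Set 𝔸) ⊆ {g : 𝔸 | g * X = X * g} := by
      rintro _ ⟨t, rfl⟩
      exact ((ex_commute (Commute.refl X) t).symm).eq
    exact closure_minimal hsub hcl hg
  -- recurrence
  have hnb := hB.exp_nhds (ε := ‖X‖) (norm_pos_iff.mpr hX0)
  obtain ⟨O, hO, hOs⟩ := mem_nhdsWithin_iff_exists_mem_nhds_inter.mp hnb
  have hseq : ∀ k : ℕ, exp ((k : ℝ) • X) ∈ (C : Set 𝔸) := fun k => hX k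
  obtain ⟨a, ha, φ, hφ, hlim⟩ := hcomp.tendsto_subseq hseq
  obtain ⟨a', ha', haa, haa'⟩ := hC.inv a ha
  -- exp ((φ (k+1) - φ k) X) → 1
  have hexp1 : ∀ i j : ℕ, exp (((j : ℝ) - (i : ℝ)) • X) * exp ((i : ℝ) • X) =
      exp ((j : ℝ) • X) := by
    intro i j
    rw [← ex_add (((Commute.refl X).smul_left _).smul_right _), ← add_smul]
    simp
  have hlim2 : Tendsto (fun k => exp ((((φ (k + 1) : ℕ) : ℝ) - ((φ k : ℕ) : ℝ)) • X)) atTop
      (𝓝 1) := by
    have h1 : Tendsto (fun k => exp (((φ (k + 1) : ℕ) : ℝ) • X)) atTop (𝓝 a) :=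
      hlim.comp (tendsto_add_atTop_nat 1)
    -- inverses of `exp (φ k X)` converge to `a'`
    have h2 : Tendsto (fun k => exp (-(((φ k : ℕ) : ℝ) • X))) atTop (𝓝 a') := by
      have hu : ∀ k, exp (-(((φ k : ℕ) : ℝ) • X)) = Ring.inverse (exp (((φ k : ℕ) : ℝ) • X)) := by
        intro k
        let u : 𝔸ˣ := ⟨exp (((φ k : ℕ) : ℝ) • X), exp (-(((φ k : ℕ) : ℝ) • X)), ex_mul_neg _,
          ex_neg_mul _⟩
        exact (Ring.inverse_unit u).symm
      have ha2 : a' = Ring.inverse a := by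
        let u : 𝔸ˣ := ⟨a, a', haa, haa'⟩
        exact (Ring.inverse_unit u).symm
      simp_rw [hu]
      rw [ha2]
      have hcont : ContinuousAt Ring.inverse a := NormedRing.inverse_continuousAt ⟨a, a', haa, haa'⟩
      exact hcont.tendsto.comp hlim
    have h3 := h1.mul h2
    rw [haa] at h3
    refine h3.congr fun k => ?_
    rw [← hexp1 (φ k) (φ (k + 1)), mul_assoc, ex_mul_neg, mul_one]
  obtain ⟨k, hk⟩ := (hlim2.eventually hO).exists
  set m : ℝ := ((φ (k + 1) : ℕ) : ℝ) - ((φ k : ℕ) : ℝ) with hm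
  have hm1 : 1 ≤ m := by
    have : φ k < φ (k + 1) := hφ (Nat.lt_succ_self k)
    have h2 : (φ k : ℕ) + 1 ≤ φ (k + 1) := this
    have h3 : ((φ k : ℕ) : ℝ) + 1 ≤ ((φ (k + 1) : ℕ) : ℝ) := by exact_mod_cast h2
    rw [hm]
    linarith
  have hmem : exp (m • X) ∈ S.topologicalClosure := S.le_topologicalClosure ⟨m, rfl⟩
  obtain ⟨W, hW, hWn, hWe⟩ := hOs ⟨hk, hmem⟩
  have hWX : Commute X W := by
    refine commute_of_forall_ex fun t => ?_
    exact (hBX _ (hW t)).symm
  refine ⟨m • X - W, ?_, ?_, ?_⟩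
  · exact Submodule.sub_mem _ (Submodule.smul_mem _ _ hX) (hB.lie_mono hC hBC hW)
  · intro h0
    have h1 : m • X = W := sub_eq_zero.mp h0
    have h2 : ‖m • X‖ < ‖X‖ := by rw [h1]; exact hWn
    rw [norm_smul, Real.norm_eq_abs, abs_of_pos (by linarith)] at h2
    have : 0 < ‖X‖ := norm_pos_iff.mpr hX0
    nlinarith
  · rw [sub_eq_add_neg, ex_add ((hWX.smul_left m).neg_right), ← hWe, ex_mul_neg]

end Lie

end Pool.Agent.Helper80.PM
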