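import Mathlib

/-!
# Small closed normal subgroups inside an infinite totally disconnected closed normal subgroup

Let `K` be a compact Hausdorff group and `N` an infinite totally disconnected closed normal
subgroup. Then there is a sequence of nontrivial closed normal subgroups of `K`, contained in `N`,
that converges to `1`.
-/

open Set Filter Topology

namespace Pool.Agent.Helper80.PM

set_option linter.style.haveILetI false
set_option linter.unusedSectionVars false

universe u

variable {K : Type u} [Group K] [TopologicalSpace K]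

/-- closed and normal -/
def CN (X : Subgroup K) : Prop := X.Normal ∧ IsClosed (X : Set K)

/-- `U` is a closed normal subgroup of `K`, maximal among the proper ones of finite index
in `X`. -/
structure Chief (X U : Subgroup K) : Prop where
  cn : CN U
  lt : U < X
  fin : U.relIndex X ≠ 0
  max : ∀ Y : Subgroup K, Y.Normal → U ≤ Y → Y ≤ X → Y = U ∨ Y = X

/-- intersection of all the chief subgroups of `X` (and of `X`) -/
def rad (X : Subgroup K) : Subgroup K := X ⊓ ⨅ (U : Subgroup K) (_ : Chief X U), U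

lemma rad_le (X : Subgroup K) : rad X ≤ X := inf_le_left

lemma rad_le_of_chief {X U : Subgroup K} (h : Chief X U) : rad X ≤ U :=
  inf_le_right.trans (iInf₂_le U h)

lemma mem_rad {X : Subgroup K} {x : K} : x ∈ rad X ↔ x ∈ X ∧ ∀ U, Chief X U → x ∈ U := by
  unfold rad
  simp [Subgroup.mem_inf, Subgroup.mem_iInf]

lemma CN.inf {X Y : Subgroup K} (hX : CN X) (hY : CN Y) : CN (X ⊓ Y) := by
  haveI := hX.1
  haveI := hY.1
  refine ⟨inferInstance, ?_⟩
  rw [Subgroup.coe_inf]
  exact hX.2.inter hY.2

lemma CN.rad {X : Subgroup K} (hX : CN X) : CN (rad X) := by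
  constructor
  · constructor
    intro n hn g
    rw [mem_rad] at hn ⊢
    refine ⟨hX.1.conj_mem n hn.1 g, fun U hU => ?_⟩
    exact hU.cn.1.conj_mem n (hn.2 U hU) g
  · have : ((PM.rad X : Subgroup K) : Set K) =
        (X : Set K) ∩ ⋂ (U : Subgroup K) (_ : Chief X U), (U : Set K) := by
      ext x
      simp only [SetLike.mem_coe, mem_rad, mem_inter_iff, mem_iInter]
    rw [this]
    exact hX.2.inter (isClosed_biInter (fun U hU => hU.cn.2))

/-- A subgroup containing a closed subgroup of finite relative index is closed. -/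
lemma isClosed_of_relIndex [IsTopologicalGroup K] {H U : Subgroup K} (hH : IsClosed (H : Set K))
    (hHU : H ≤ U) (hfin : H.relIndex U ≠ 0) : IsClosed (U : Set K) := by
  have hf : (H.subgroupOf U).FiniteIndex := ⟨hfin⟩
  haveI : Finite (U ⧸ H.subgroupOf U) := inferInstance
  have : (U : Set K) = ⋃ q : U ⧸ H.subgroupOf U, (fun x => (q.out : K) * x) '' (H : Set K) := by
    ext x
    simp only [mem_iUnion, mem_image, SetLike.mem_coe]
    constructor
    · intro hx
      refine ⟨QuotientGroup.mk (⟨x, hx⟩ : U), ?_⟩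
      set q : U ⧸ H.subgroupOf U := QuotientGroup.mk (⟨x, hx⟩ : U)
      refine ⟨(q.out : K)⁻¹ * x, ?_, by group⟩
      have h1 : (QuotientGroup.mk q.out : U ⧸ H.subgroupOf U) = QuotientGroup.mk (⟨x, hx⟩ : U) :=
        QuotientGroup.out_eq' q
      rw [QuotientGroup.eq] at h1
      rw [Subgroup.mem_subgroupOf] at h1
      simpa using h1
    · rintro ⟨q, y, hy, rfl⟩
      exact U.mul_mem q.out.2 (hHU hy)
  rw [this]
  exact isClosed_iUnion_of_finite (fun q => (Homeomorph.mulLeft (q.out : K)).isClosedMap _ hH)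

/-- Elements of a supremum with a normal subgroup. -/
lemma mem_sup_normal {A B : Subgroup K} [B.Normal] {x : K} :
    x ∈ A ⊔ B ↔ ∃ a ∈ A, ∃ b ∈ B, a * b = x := by
  rw [← SetLike.mem_coe, Subgroup.mul_normal, Set.mem_mul]
  simp

lemma exists_chief_between [IsTopologicalGroup K] {X W : Subgroup K} (hX : CN X) (hW : CN W)
    (hfin : W.relIndex X ≠ 0) (hle : ¬ X ≤ W) : ∃ U, Chief X U ∧ X ⊓ W ≤ U := by
  classical
  -- choose a proper normal subgroup above `X ⊓ W` of least index
  let P : ℕ → Prop := fun n => ∃ U : Subgroup K, U.Normal ∧ X ⊓ W ≤ U ∧ U < X ∧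
    U.relIndex X = n
  have hcn := hX.inf hW
  have hfin' : (X ⊓ W).relIndex X ≠ 0 := by
    rw [inf_comm, Subgroup.inf_relIndex_right]; exact hfin
  have hP : ∃ n, P n := by
    refine ⟨_, X ⊓ W, hcn.1, le_rfl, lt_of_le_of_ne inf_le_left ?_, rfl⟩
    intro h
    exact hle (by rw [← h]; exact inf_le_right)
  obtain ⟨U, hUn, hle1, hlt, hidx⟩ := Nat.find_spec hP
  have hUfin : U.relIndex X ≠ 0 := by
    have := Subgroup.relIndex_dvd_of_le_left X hle1
    intro h0
    rw [h0] at this
    exact hfin' (Nat.eq_zero_of_zero_dvd this)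
  have hUfin2 : (X ⊓ W).relIndex U ≠ 0 := by
    have := Subgroup.relIndex_mul_relIndex (X ⊓ W) U X hle1 hlt.le
    intro h0
    rw [h0, zero_mul] at this
    exact hfin' this.symm
  refine ⟨U, ⟨⟨hUn, isClosed_of_relIndex hcn.2 hle1 hUfin2⟩, hlt, hUfin, ?_⟩, hle1⟩
  intro Y hY hUY hYX
  by_contra hcon
  push Not at hcon
  have hYlt : Y < X := lt_of_le_of_ne hYX hcon.2
  have h1 : Nat.find hP ≤ Y.relIndex X :=
    Nat.find_min' hP ⟨Y, hY, hle1.trans hUY, hYlt, rfl⟩
  have h2 := Subgroup.relIndex_mul_relIndex U Y X hUY hYX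
  have h3 : U.relIndex Y ≠ 1 := by
    intro h
    rw [Subgroup.relIndex_eq_one] at h
    exact hcon.1 (le_antisymm h hUY)
  have h4 : U.relIndex Y ≠ 0 := by
    intro h
    rw [h, zero_mul] at h2
    exact hUfin h2.symm
  have h5 : 2 ≤ U.relIndex Y := by omega
  have h6 : Y.relIndex X ≠ 0 := by
    intro h
    rw [h, mul_zero] at h2
    exact hUfin h2.symm
  have h7 : 0 < Y.relIndex X := Nat.pos_of_ne_zero h6
  rw [← hidx, ← h2] at h1
  nlinarith

/-- The iterated radicals eventually enter every closed normal subgroup of finite index. -/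
lemma exists_iter_rad_le [IsTopologicalGroup K] {W : Subgroup K} (hW : CN W) :
    ∀ (m : ℕ) (X : Subgroup K), CN X → W.relIndex X ≠ 0 → W.relIndex X ≤ m →
      ∃ n : ℕ, rad^[n] X ≤ W := by
  intro m
  induction m with
  | zero => intro X _ h1 h2; omega
  | succ m ih =>
    intro X hX h1 h2
    by_cases hle : X ≤ W
    · exact ⟨0, hle⟩
    obtain ⟨U, hU, hUle⟩ := exists_chief_between hX hW h1 hle
    have hrad : rad X ≤ U := rad_le_of_chief hU
    have e1 : W.relIndex U * U.relIndex X = W.relIndex X := by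
      have h3 := Subgroup.relIndex_mul_relIndex (X ⊓ W) U X hUle hU.lt.le
      have h4 : (X ⊓ W).relIndex U = W.relIndex U := by
        have : X ⊓ W = W ⊓ U := by
          apply le_antisymm
          · exact le_inf inf_le_right hUle
          · exact le_inf (inf_le_right.trans hU.lt.le) inf_le_left
        rw [this, Subgroup.inf_relIndex_right]
      have h5 : (X ⊓ W).relIndex X = W.relIndex X := by
        rw [inf_comm, Subgroup.inf_relIndex_right]
      rw [h4, h5] at h3
      exact h3
    have h6 : U.relIndex X ≠ 1 := by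
      intro h
      rw [Subgroup.relIndex_eq_one] at h
      exact absurd hU.lt (not_lt_of_ge h)
    have h7 : W.relIndex U ≠ 0 := by
      intro h; rw [h, zero_mul] at e1; exact h1 e1.symm
    have h8 : 2 ≤ U.relIndex X := by
      have := hU.fin; omega
    have h9 : W.relIndex U ≤ m := by
      have : 0 < W.relIndex U := Nat.pos_of_ne_zero h7
      nlinarith
    have h10 : W.relIndex (rad X) ≤ W.relIndex U := Subgroup.relIndex_le_of_le_right hrad h7
    have h11 : W.relIndex (rad X) ≠ 0 := fun h => h7 (Subgroup.relIndex_eq_zero_of_le_right hrad h)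
    obtain ⟨n, hn⟩ := ih (rad X) hX.rad h11 (h10.trans h9)
    exact ⟨n + 1, by rw [Function.iterate_succ_apply]; exact hn⟩

/-- There are arbitrarily small closed normal subgroups of finite relative index in a totally
disconnected closed normal subgroup. -/
lemma exists_small_cn [IsTopologicalGroup K] [CompactSpace K] {N : Subgroup K} (hN : CN N)
    (htd : IsTotallyDisconnected (N : Set K)) {V : Set K} (hV : V ∈ 𝓝 (1 : K)) :
    ∃ W : Subgroup K, CN W ∧ W ≤ N ∧ W.relIndex N ≠ 0 ∧ (W : Set K) ⊆ V := by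
  haveI := hN.1
  haveI : CompactSpace N := isCompact_iff_compactSpace.mp hN.2.isCompact
  haveI : TotallyDisconnectedSpace N :=
    totallyDisconnectedSpace_subtype_iff.mpr htd
  obtain ⟨O, hOV, hO, h1O⟩ := mem_nhds_iff.mp hV
  have hO' : IsOpen ((↑) ⁻¹' O : Set N) := hO.preimage continuous_subtype_val
  obtain ⟨H, hH⟩ := ProfiniteGrp.exist_openNormalSubgroup_sub_open_nhds_of_one hO'
    (by simpa using h1O)
  -- the normal core in `K` of the image of `H`
  set H' : Subgroup K := (H.toSubgroup).map N.subtype with hH'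
  have hH'mem : ∀ x : K, x ∈ H' ↔ ∃ h : x ∈ N, (⟨x, h⟩ : N) ∈ H := by
    intro x
    constructor
    · rintro ⟨y, hy, rfl⟩
      exact ⟨y.2, hy⟩
    · rintro ⟨h, hx⟩
      exact ⟨⟨x, h⟩, hx, rfl⟩
  have hHcl : IsClosed ((H : Set N)) := by
    have : IsOpen (H.toSubgroup : Set N) := H.isOpen'
    exact Subgroup.isClosed_of_isOpen _ this
  have hH'cl : IsClosed (H' : Set K) := by
    have : (H' : Set K) = (↑) '' (H : Set N) := by
      ext x; simp only [SetLike.mem_coe, hH'mem, mem_image]
      constructor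
      · rintro ⟨h, hx⟩; exact ⟨⟨x, h⟩, hx, rfl⟩
      · rintro ⟨y, hy, rfl⟩; exact ⟨y.2, hy⟩
    rw [this]
    exact (hN.2.isClosedEmbedding_subtypeVal.isClosedMap) _ hHcl
  set W : Subgroup K := H'.normalCore with hW
  have hWmem : ∀ x : K, x ∈ W ↔ ∀ b : K, b * x * b⁻¹ ∈ H' := fun x => Iff.rfl
  have hWN : W ≤ N := by
    intro x hx
    have := (hWmem x).mp hx 1
    simp only [one_mul, inv_one, mul_one] at this
    exact ((hH'mem x).mp this).1
  refine ⟨W, ⟨Subgroup.normalCore_normal _, ?_⟩, hWN, ?_, ?_⟩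
  · have : (W : Set K) = ⋂ b : K, (fun x => b * x * b⁻¹) ⁻¹' (H' : Set K) := by
      ext x
      simp only [SetLike.mem_coe, hWmem, mem_iInter, mem_preimage]
    rw [this]
    exact isClosed_iInter (fun b => hH'cl.preimage (by fun_prop))
  · -- openness of `W` in `N` by the tube lemma
    let f : K × N → N := fun p => ⟨p.1 * p.2 * p.1⁻¹, hN.1.conj_mem _ p.2.2 p.1⟩
    have hf : Continuous f := by
      refine Continuous.subtype_mk ?_ _
      fun_prop
    have hopen : IsOpen (f ⁻¹' (H : Set N)) := H.isOpen'.preimage hf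
    have hsub : (univ : Set K) ×ˢ ({1} : Set N) ⊆ f ⁻¹' (H : Set N) := by
      rintro ⟨k, x⟩ ⟨-, hx⟩
      rw [mem_singleton_iff] at hx
      subst hx
      simp only [mem_preimage, f]
      have : (⟨k * ((1 : N) : K) * k⁻¹, hN.1.conj_mem _ (1 : N).2 k⟩ : N) = 1 := by
        apply Subtype.ext; simp
      rw [this]
      exact H.one_mem'
    obtain ⟨A, B, hA, hB, hAsub, hBsub, hAB⟩ :=
      generalized_tube_lemma isCompact_univ isCompact_singleton hopen hsub
    have hWB : B ⊆ ((W.subgroupOf N : Subgroup N) : Set N) := by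
      intro x hx
      rw [SetLike.mem_coe, Subgroup.mem_subgroupOf, hWmem]
      intro b
      have := hAB (mk_mem_prod (hAsub (mem_univ b)) hx)
      rw [hH'mem]
      exact ⟨_, this⟩
    have hWopen : IsOpen ((W.subgroupOf N : Subgroup N) : Set N) :=
      Subgroup.isOpen_of_mem_nhds _ (g := 1)
        (mem_of_superset (hB.mem_nhds (hBsub (mem_singleton _))) hWB)
    haveI : Finite (N ⧸ W.subgroupOf N) := Subgroup.quotient_finite_of_isOpen _ hWopen
    exact Subgroup.index_ne_zero_of_finite
  · intro x hx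
    have := (hWmem x).mp hx 1
    simp only [one_mul, inv_one, mul_one] at this
    obtain ⟨h, hx'⟩ := (hH'mem x).mp this
    exact hOV (hH hx')

end Pool.Agent.Helper80.PM
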