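import Pool.Agent.Helper80.PMLie2
import Pool.Agent.Helper80.PMProf

/-!
Structure of compact connected linear groups: splitting off a closed normal subgroup, and torsion
elements in normal subgroups.
-/

open Set Filter Topology NormedSpace

set_option linter.style.haveILetI false
set_option linter.unusedSectionVars false

namespace Pool.Agent.Helper80.PM

universe u

section form

variable {𝔸 : Type*} [NormedRing 𝔸] [NormedAlgebra ℝ 𝔸] [FiniteDimensional ℝ 𝔸]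

lemma exists_orth (B : LinearMap.BilinForm ℝ 𝔸) (hpos : ∀ X, X ≠ 0 → 0 < B X X)
    (hsymm : ∀ X Y, B X Y = B Y X) {W V : Submodule ℝ 𝔸} (hWV : W ≤ V) {v : 𝔸} (hv : v ∈ V) :
    ∃ w ∈ W, v - w ∈ V ⊓ B.orthogonal W := by
  have hrefl : B.IsRefl := by
    intro x y h
    rw [hsymm, h]
  have hnd : (B.restrict W).Nondegenerate := by
    constructor
    · intro x hx
      by_contra h0
      have h1 : (x : 𝔸) ≠ 0 := fun h => h0 (Subtype.ext h)
      exact (hpos _ h1).ne' (hx x)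
    · intro x hx
      by_contra h0
      have h1 : (x : 𝔸) ≠ 0 := fun h => h0 (Subtype.ext h)
      exact (hpos _ h1).ne' (hx x)
  have hc := LinearMap.BilinForm.isCompl_orthogonal_of_restrict_nondegenerate hrefl hnd
  have hv' : v ∈ W ⊔ B.orthogonal W := by rw [hc.sup_eq_top]; trivial
  obtain ⟨w, hw, z, hz, rfl⟩ := Submodule.mem_sup.mp hv'
  refine ⟨w, hw, ?_, ?_⟩
  · have : w + z - w = z := by abel
    rw [this]
    have h2 := V.sub_mem hv (hWV hw)
    rwa [this] at h2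
  · have : w + z - w = z := by abel
    rw [this]
    exact hz

lemma orth_disjoint (B : LinearMap.BilinForm ℝ 𝔸) (hpos : ∀ X, X ≠ 0 → 0 < B X X)
    {W : Submodule ℝ 𝔸} {X : 𝔸} (h1 : X ∈ W) (h2 : X ∈ B.orthogonal W) : X = 0 := by
  by_contra h0
  exact (hpos X h0).ne' (h2 X h1)

variable [CompleteSpace 𝔸]

/-- splitting coordinates near `1` -/
lemma CLG.split_nhds {L : Submonoid 𝔸} (hL : CLG L) (B : LinearMap.BilinForm ℝ 𝔸)
    (hpos : ∀ X, X ≠ 0 → 0 < B X X) (hsymm : ∀ X Y, B X Y = B Y X) {W : Submodule ℝ 𝔸}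
    (hW : W ≤ hL.lie) :
    {g : 𝔸 | ∃ X ∈ W, ∃ Z ∈ hL.lie ⊓ B.orthogonal W, exp X * exp Z = g} ∈ 𝓝[(L : Set 𝔸)] 1 := by
  let P : Submodule ℝ 𝔸 := hL.lie ⊓ B.orthogonal W
  let F : W × P → 𝔸 := fun p => exp (p.1 : 𝔸) * exp (p.2 : 𝔸)
  have hF : HasStrictFDerivAt F ((W.subtypeL).comp (ContinuousLinearMap.fst ℝ W P) +
      (P.subtypeL).comp (ContinuousLinearMap.snd ℝ W P)) 0 := by
    have h1 : HasStrictFDerivAt (fun p : W × P => exp (p.1 : 𝔸))
        ((1 : 𝔸 →L[ℝ] 𝔸).comp ((W.subtypeL).comp (ContinuousLinearMap.fst ℝ W P))) 0 := by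
      have h3 : HasStrictFDerivAt (exp : 𝔸 → 𝔸) (1 : 𝔸 →L[ℝ] 𝔸)
          (((W.subtypeL).comp (ContinuousLinearMap.fst ℝ W P)) 0) := by
        rw [map_zero]
        exact hasStrictFDerivAt_exp_zero
      exact h3.comp 0 ((W.subtypeL).comp (ContinuousLinearMap.fst ℝ W P)).hasStrictFDerivAt
    have h2 : HasStrictFDerivAt (fun p : W × P => exp (p.2 : 𝔸))
        ((1 : 𝔸 →L[ℝ] 𝔸).comp ((P.subtypeL).comp (ContinuousLinearMap.snd ℝ W P))) 0 := by
      have h3 : HasStrictFDerivAt (exp : 𝔸 → 𝔸) (1 : 𝔸 →L[ℝ] 𝔸)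
          (((P.subtypeL).comp (ContinuousLinearMap.snd ℝ W P)) 0) := by
        rw [map_zero]
        exact hasStrictFDerivAt_exp_zero
      exact h3.comp 0 ((P.subtypeL).comp (ContinuousLinearMap.snd ℝ W P)).hasStrictFDerivAt
    have h4 := h1.mul' h2
    have h5 : (exp (((0 : W × P).1 : W) : 𝔸) • ((1 : 𝔸 →L[ℝ] 𝔸).comp
        ((P.subtypeL).comp (ContinuousLinearMap.snd ℝ W P))) +
      MulOpposite.op (exp (((0 : W × P).2 : P) : 𝔸)) • ((1 : 𝔸 →L[ℝ] 𝔸).comp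
        ((W.subtypeL).comp (ContinuousLinearMap.fst ℝ W P)))) =
      ((W.subtypeL).comp (ContinuousLinearMap.fst ℝ W P) +
      (P.subtypeL).comp (ContinuousLinearMap.snd ℝ W P)) := by
      ext p
      · simp
      · simp
    rw [← h5]
    exact h4
  have hF0 : F 0 = 1 := by simp [F]
  have hFL : ∀ e, F e ∈ L := fun e => L.mul_mem (hL.exp_mem (hW e.1.2)) (hL.exp_mem e.2.2.1)
  have := hL.local_surj hF hF0 hFL (fun X hX => by
    obtain ⟨w, hw, hz⟩ := exists_orth B hpos hsymm hW hX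
    refine ⟨(⟨w, hw⟩, ⟨X - w, hz⟩), ?_⟩
    simp) (U := univ) univ_mem
  refine mem_of_superset this ?_
  rintro _ ⟨p, -, rfl⟩
  exact ⟨p.1, p.1.2, p.2, p.2.2, rfl⟩

end form

section grp

variable {𝔸 : Type*} [NormedRing 𝔸] [NormedAlgebra ℝ 𝔸] [FiniteDimensional ℝ 𝔸] [CompleteSpace 𝔸]
  {M : Type u} [Group M] [TopologicalSpace M] [IsTopologicalGroup M] [CompactSpace M]

lemma rho_mul_inv (ρ : M →* 𝔸) (m : M) : ρ m * ρ m⁻¹ = 1 := by
  rw [← map_mul, mul_inv_cancel, map_one]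

lemma rho_inv_mul (ρ : M →* 𝔸) (m : M) : ρ m⁻¹ * ρ m = 1 := by
  rw [← map_mul, inv_mul_cancel, map_one]

lemma isCompact_map (ρ : M →* 𝔸) (hρ : Continuous ρ) {N : Subgroup M}
    (hN : IsClosed (N : Set M)) : IsCompact ((N.toSubmonoid.map ρ : Submonoid 𝔸) : Set 𝔸) := by
  rw [Submonoid.coe_map]
  exact hN.isCompact.image hρ

lemma clg_map (ρ : M →* 𝔸) (hρ : Continuous ρ) {N : Subgroup M}
    (hN : IsClosed (N : Set M)) : CLG (N.toSubmonoid.map ρ) := by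
  refine ⟨(isCompact_map ρ hρ hN).isClosed, ?_⟩
  rintro _ ⟨n, hn, rfl⟩
  exact ⟨ρ n⁻¹, ⟨n⁻¹, N.inv_mem hn, rfl⟩, rho_mul_inv ρ n, rho_inv_mul ρ n⟩

/-- the derivative at `0` of `exp (t Z) n exp (-t Z) n⁻¹` -/
lemma hasDerivAt_comm {n n' : 𝔸} (h : n * n' = 1) (Z : 𝔸) :
    HasDerivAt (fun t : ℝ => exp (t • Z) * n * exp (-(t • Z)) * n') (Z - n * Z * n') 0 := by
  have h1 : HasDerivAt (fun t : ℝ => exp (t • Z)) Z 0 := hasDerivAt_ex Z
  have h2 : HasDerivAt (fun t : ℝ => exp (-(t • Z))) (-Z) 0 := by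
    have := hasDerivAt_ex (-Z)
    simpa using this
  have h3 := ((h1.mul_const n).mul h2).mul_const n'
  have h4 : ((Z * n) * exp (-((0 : ℝ) • Z)) + (exp ((0 : ℝ) • Z) * n) * (-Z)) * n' =
      Z - n * Z * n' := by
    simp only [zero_smul, neg_zero, exp_zero, mul_one, one_mul]
    rw [add_mul, mul_assoc Z n n', h, mul_one]
    simp only [mul_neg, neg_mul, sub_eq_add_neg]
  rw [h4] at h3
  exact h3

/-- derivative at `0` of `y exp (t Z) y⁻¹ exp (-t Z)` -/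
lemma hasDerivAt_comm' {n n' : 𝔸} (h : n * n' = 1) (Z : 𝔸) :
    HasDerivAt (fun t : ℝ => n * exp (t • Z) * n' * exp (-(t • Z))) (n * Z * n' - Z) 0 := by
  have h1 : HasDerivAt (fun t : ℝ => exp (t • Z)) Z 0 := hasDerivAt_ex Z
  have h2 : HasDerivAt (fun t : ℝ => exp (-(t • Z))) (-Z) 0 := by
    have := hasDerivAt_ex (-Z)
    simpa using this
  have h3 := ((h1.const_mul n).mul_const n').mul h2
  have h4 : ((n * Z) * n') * exp (-((0 : ℝ) • Z)) + ((n * exp ((0 : ℝ) • Z)) * n') * (-Z) =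
      n * Z * n' - Z := by
    simp only [zero_smul, neg_zero, exp_zero, mul_one]
    rw [h]
    simp only [one_mul, sub_eq_add_neg]
  rw [h4] at h3
  exact h3

/-- **Splitting, linear version.** -/
theorem linear_split [ConnectedSpace M] (ρ : M →* 𝔸) (hρ : Continuous ρ)
    (B : LinearMap.BilinForm ℝ 𝔸) (hpos : ∀ X, X ≠ 0 → 0 < B X X)
    (hsymm : ∀ X Y, B X Y = B Y X)
    (hinv : ∀ m X Y, B (ρ m * X * ρ m⁻¹) (ρ m * Y * ρ m⁻¹) = B X Y)
    {N : Subgroup M} (hN : CN N) (m : M) :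
    ∃ n ∈ N, ∀ y ∈ N, Commute (ρ (n⁻¹ * m)) (ρ y) := by
  have hL : CLG ((⊤ : Subgroup M).toSubmonoid.map ρ) := clg_map ρ hρ isClosed_univ
  have hNL : CLG (N.toSubmonoid.map ρ) := clg_map ρ hρ hN.2
  have hle : N.toSubmonoid.map ρ ≤ (⊤ : Subgroup M).toSubmonoid.map ρ :=
    by rintro _ ⟨n, -, rfl⟩; exact ⟨n, trivial, rfl⟩
  have hlie := hNL.lie_mono hL hle
  haveI := hN.1
  -- the centraliser modulo `ρ`
  let C : Subgroup M :=
    { carrier := {c | ∀ y ∈ N, Commute (ρ c) (ρ y)}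
      one_mem' := fun y _ => by rw [map_one]; exact Commute.one_left _
      mul_mem' := fun {a b} ha hb y hy => by rw [map_mul]; exact (ha y hy).mul_left (hb y hy)
      inv_mem' := fun {a} ha y hy => by
        have h1 := ha y hy
        show ρ a⁻¹ * ρ y = ρ y * ρ a⁻¹
        calc ρ a⁻¹ * ρ y = ρ a⁻¹ * (ρ y * ρ a) * ρ a⁻¹ := by
              rw [mul_assoc, mul_assoc, rho_mul_inv, mul_one]
          _ = ρ a⁻¹ * (ρ a * ρ y) * ρ a⁻¹ := by rw [h1.eq]
          _ = ρ y * ρ a⁻¹ := by rw [← mul_assoc, rho_inv_mul, one_mul] }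
  have hopen : ((C ⊔ N : Subgroup M) : Set M) ∈ 𝓝 (1 : M) := by
    have h1 := hL.split_nhds B hpos hsymm hlie
    have h2 : Tendsto ρ (𝓝 1) (𝓝[(((⊤ : Subgroup M).toSubmonoid.map ρ : Submonoid 𝔸) : Set 𝔸)]
        1) := by
      rw [tendsto_nhdsWithin_iff]
      refine ⟨?_, Eventually.of_forall fun x => ⟨x, trivial, rfl⟩⟩
      have := hρ.tendsto 1
      rwa [map_one] at this
    filter_upwards [h2 h1] with x hx
    obtain ⟨X, hX, Z, ⟨hZ, hZo⟩, hXZ⟩ := hx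
    -- `exp Z` commutes with `ρ N`
    have hZc : ∀ y ∈ N, Commute Z (ρ y) := by
      intro y hy
      have h3 : Z - ρ y * Z * ρ y⁻¹ ∈ hNL.lie := by
        refine hNL.tangent_mem (hasDerivAt_comm (rho_mul_inv ρ y) Z) ?_ ?_
        · simp [rho_mul_inv]
        · intro t
          obtain ⟨x', -, hx'⟩ := hZ t
          have h5 : exp (-(t • Z)) = ρ x'⁻¹ := by
            calc exp (-(t • Z)) = exp (-(t • Z)) * (ρ x' * ρ x'⁻¹) := by
                  rw [rho_mul_inv, mul_one]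
              _ = ρ x'⁻¹ := by rw [← mul_assoc, hx', ex_neg_mul, one_mul]
          refine ⟨x' * y * x'⁻¹ * y⁻¹, N.mul_mem (hN.1.conj_mem y hy x') (N.inv_mem hy), ?_⟩
          rw [map_mul, map_mul, map_mul, hx', h5]
      have h4 : Z - ρ y * Z * ρ y⁻¹ ∈ B.orthogonal hNL.lie := by
        intro X hX
        have h5 : B X Z = 0 := hZo X hX
        have h6 : B X (ρ y * Z * ρ y⁻¹) = 0 := by
          have h7 : ρ y⁻¹ * X * ρ y ∈ hNL.lie := by
            refine hNL.conj_mem_lie hX (rho_inv_mul ρ y) (rho_mul_inv ρ y) ?_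
            rintro _ ⟨n, hn, rfl⟩
            exact ⟨y⁻¹ * n * y, N.mul_mem (N.mul_mem (N.inv_mem hy) hn) hy, by simp⟩
          have h8 : B (ρ y⁻¹ * X * ρ y) Z = 0 := hZo _ h7
          rw [← hinv y] at h8
          have h9 : ρ y * (ρ y⁻¹ * X * ρ y) * ρ y⁻¹ = X := by
            calc ρ y * (ρ y⁻¹ * X * ρ y) * ρ y⁻¹ = (ρ y * ρ y⁻¹) * X * (ρ y * ρ y⁻¹) := by
                  simp only [mul_assoc]
              _ = X := by rw [rho_mul_inv, one_mul, mul_one]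
          rwa [h9] at h8
        show B X (Z - ρ y * Z * ρ y⁻¹) = 0
        rw [map_sub, h5, h6, sub_zero]
      have h5 := orth_disjoint B hpos h3 h4
      have h6 : Z = ρ y * Z * ρ y⁻¹ := sub_eq_zero.mp h5
      show Z * ρ y = ρ y * Z
      calc Z * ρ y = (ρ y * Z * ρ y⁻¹) * ρ y := by rw [← h6]
        _ = ρ y * Z := by rw [mul_assoc, rho_inv_mul, mul_one]
    obtain ⟨n, hn, hnX⟩ := hNL.exp_mem hX
    show x ∈ C ⊔ N
    rw [sup_comm]
    have h3 : ρ (n⁻¹ * x) = exp Z := by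
      rw [map_mul, ← hXZ, ← hnX, ← mul_assoc, rho_inv_mul, one_mul]
    have h4 : n⁻¹ * x ∈ C := by
      intro y hy
      rw [h3]
      have := (hZc y hy).symm
      exact (this.exp_right).symm
    have : x = n * (n⁻¹ * x) := by group
    rw [this]
    exact Subgroup.mul_mem_sup hn h4
  have htop : C ⊔ N = ⊤ := by
    have h1 : IsOpen ((C ⊔ N : Subgroup M) : Set M) := Subgroup.isOpen_of_mem_nhds _ hopen
    have h2 : IsClosed ((C ⊔ N : Subgroup M) : Set M) := Subgroup.isClosed_of_isOpen _ h1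
    have h3 := IsClopen.eq_univ (s := ((C ⊔ N : Subgroup M) : Set M)) ⟨h2, h1⟩ ⟨1, one_mem _⟩
    exact SetLike.coe_injective h3
  have hm : m ∈ C ⊔ N := by rw [htop]; trivial
  obtain ⟨c, hc, n, hn, rfl⟩ := mem_sup_normal.mp hm
  refine ⟨c * n * c⁻¹, hN.1.conj_mem n hn c, ?_⟩
  have : (c * n * c⁻¹)⁻¹ * (c * n) = c := by group
  rw [this]
  exact hc

end grp

end Pool.Agent.Helper80.PM
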