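import Pool.Agent.Helper80.PMTop

/-!
# Pseudocompact minimal groups with property `Z_m`

The main theorem: a pseudocompact minimal group satisfying `Z_m` is a compact Lie group.
-/

open Set Filter Topology

set_option linter.style.haveILetI false
set_option linter.unusedSectionVars false

namespace Pool.Agent.Helper80.PM

universe u

variable {G : Type u} [Group G] [TopologicalSpace G] [IsTopologicalGroup G] [T2Space G]
  {K : Type u} [Group K] [TopologicalSpace K] [IsTopologicalGroup K] [CompactSpace K] [T2Space K]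

/-- minimality gives essentiality of the dense subgroup -/
lemma essential_of_minimal (hmin : MinimalGroup G) (ι : G →* K) (hι : IsEmbedding ι)
    (hd : DenseRange ι) {N : Subgroup K} (hN : CN N) (htriv : ∀ g, ι g ∈ N → g = 1) : N = ⊥ := by
  haveI := hN.1
  haveI : IsClosed (N : Set K) := hN.2
  let φ : G →* K ⧸ N := (QuotientGroup.mk' N).comp ι
  have hφc : Continuous φ := QuotientGroup.continuous_mk.comp hι.continuous
  have hφinj : Function.Injective φ := by
    rw [injective_iff_map_eq_one]
    intro g hg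
    exact htriv g ((QuotientGroup.eq_one_iff (ι g)).mp hg)
  let e : G ≃* φ.range := MonoidHom.ofInjective hφinj
  have hec : Continuous e := hφc.subtype_mk _
  have hesc := hmin φ.range e hec
  have heind : IsInducing φ := by
    let eh : G ≃ₜ φ.range := ⟨e.toEquiv, hec, hesc⟩
    have h1 : IsInducing (Subtype.val ∘ eh) := IsInducing.subtypeVal.comp eh.isInducing
    exact h1
  rw [eq_bot_iff]
  intro n hn
  rw [Subgroup.mem_bot]
  haveI : (comap ι (𝓝 n)).NeBot :=
    (show IsDenseInducing ι from ⟨hι.isInducing, hd⟩).comap_nhds_neBot n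
  have h1 : Tendsto ι (comap ι (𝓝 n)) (𝓝 n) := tendsto_comap
  have h2 : Tendsto φ (comap ι (𝓝 n)) (𝓝 (QuotientGroup.mk' N n)) :=
    (QuotientGroup.continuous_mk.tendsto n).comp h1
  have h3 : QuotientGroup.mk' N n = φ 1 := by
    rw [map_one]
    exact (QuotientGroup.eq_one_iff n).mpr hn
  rw [h3] at h2
  have h4 : comap ι (𝓝 n) ≤ 𝓝 (1 : G) := by
    rw [heind.nhds_eq_comap]
    exact tendsto_iff_comap.mp h2
  have h5 : Tendsto ι (comap ι (𝓝 n)) (𝓝 1) := by
    have := (hι.continuous.tendsto 1).mono_left h4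
    rwa [map_one] at this
  exact tendsto_nhds_unique h1 h5

/-- zero property -/
lemma exists_zero (hps : PseudoCompact G) (ι : G →* K) (hι : IsEmbedding ι)
    (hd : DenseRange ι) {f : K → ℝ} (hf : Continuous f) {k : K} (hk : f k = 0) :
    ∃ g, f (ι g) = 0 := by
  by_contra hcon
  push Not at hcon
  have hc : Continuous (fun g => (f (ι g))⁻¹) := (hf.comp hι.continuous).inv₀ hcon
  obtain ⟨C, hC⟩ := hps _ hc
  have hC' : ∀ g, 1 ≤ |f (ι g)| * (|C| + 1) := by
    intro g
    have h1 := hC g
    have h2 : 0 < |f (ι g)| := abs_pos.mpr (hcon g)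
    rw [abs_inv] at h1
    have h3 : |f (ι g)|⁻¹ ≤ |C| + 1 := h1.trans ((le_abs_self C).trans (by linarith))
    calc (1 : ℝ) = |f (ι g)| * |f (ι g)|⁻¹ := (mul_inv_cancel₀ h2.ne').symm
      _ ≤ |f (ι g)| * (|C| + 1) := mul_le_mul_of_nonneg_left h3 h2.le
  have hcl : IsClosed {x : K | 1 ≤ |f x| * (|C| + 1)} :=
    isClosed_le continuous_const (hf.abs.mul continuous_const)
  have hall : ∀ x : K, 1 ≤ |f x| * (|C| + 1) := by
    intro x
    have h1 : closure (range ι) ⊆ {x : K | 1 ≤ |f x| * (|C| + 1)} := by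
      refine closure_minimal ?_ hcl
      rintro _ ⟨g, rfl⟩
      exact hC' g
    exact h1 (hd x)
  have := hall k
  rw [hk, abs_zero, zero_mul] at this
  linarith

lemma zeroDim_of_td {X : Type*} [TopologicalSpace X] [CompactSpace X] [T2Space X]
    [TotallyDisconnectedSpace X] : ZeroDim X := loc_compact_Haus_tot_disc_of_zero_dim

lemma ZeroDim.of_inducing {X Y : Type*} [TopologicalSpace X] [TopologicalSpace Y] {f : X → Y}
    (hY : ZeroDim Y) (hf : IsInducing f) : ZeroDim X := by
  refine TopologicalSpace.isTopologicalBasis_of_isOpen_of_nhds (fun u hu => hu.2) ?_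
  intro x U hx hU
  obtain ⟨V, hV, rfl⟩ := hf.isOpen_iff.mp hU
  obtain ⟨W, hW, hxW, hWV⟩ := hY.exists_subset_of_mem_open hx hV
  exact ⟨f ⁻¹' W, hW.preimage hf.continuous, hxW, preimage_mono hWV⟩

/-- the hypotheses of the completion-level theorem hold -/
theorem gHyp_of (hps : PseudoCompact G) (hmin : MinimalGroup G) (hzm : PropZm G) (ι : G →* K)
    (hι : IsEmbedding ι) (hd : DenseRange ι) : GHyp ι.range := by
  refine ⟨?_, ?_, ?_⟩
  · intro N hN hN1
    by_contra hcon
    push Not at hcon
    apply hN1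
    refine essential_of_minimal hmin ι hι hd hN fun g hg => ?_
    have h1 := hcon (ι g) ⟨g, rfl⟩ hg
    exact hι.injective (h1.trans (map_one ι).symm)
  · rintro D R hD ⟨n, ρ, hρ, rfl⟩ hRD _ ⟨d, rfl⟩ hdD k
    let f : K → ℝ := fun k' => ∑ i, ∑ j, ‖ρ (k' * ι d * k'⁻¹) i j - ρ (k * ι d * k⁻¹) i j‖
    have hf : Continuous f := by
      refine continuous_finsetSum _ fun i _ => continuous_finsetSum _ fun j _ => ?_
      have h1 : Continuous (fun k' : K => ρ (k' * ι d * k'⁻¹)) := hρ.1.comp (by fun_prop)
      exact ((h1.matrix_elem i j).sub continuous_const).norm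
    obtain ⟨g, hg⟩ := exists_zero hps ι hι hd hf (k := k) (by simp [f])
    have h1 : ρ (ι g * ι d * (ι g)⁻¹) = ρ (k * ι d * k⁻¹) := by
      ext i j
      have h2 := (Finset.sum_eq_zero_iff_of_nonneg (fun i _ =>
        Finset.sum_nonneg fun j _ => norm_nonneg _)).mp hg i (Finset.mem_univ i)
      have h3 := (Finset.sum_eq_zero_iff_of_nonneg (fun j _ => norm_nonneg _)).mp h2 j
        (Finset.mem_univ j)
      exact sub_eq_zero.mp (norm_eq_zero.mp h3)
    have h2 : (ι g * ι d * (ι g)⁻¹)⁻¹ * (k * ι d * k⁻¹) ∈ ρ.ker ⊓ D := by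
      refine ⟨?_, ?_⟩
      · show ρ _ = 1
        rw [map_mul, ← h1, ← map_mul, inv_mul_cancel, map_one]
      · exact D.mul_mem (D.inv_mem (hD.1.conj_mem _ hdD _)) (hD.1.conj_mem _ hdD _)
    rw [hRD, Subgroup.mem_bot] at h2
    have h3 : k * ι d * k⁻¹ = ι g * ι d * (ι g)⁻¹ := (inv_mul_eq_one.mp h2).symm
    rw [h3]
    exact ⟨g * d * g⁻¹, by simp⟩
  · intro x hx hxt htd
    set H : Subgroup K := (Subgroup.closure (range x)).topologicalClosure with hH
    have hHcl : IsClosed (H : Set K) := Subgroup.isClosed_topologicalClosure _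
    haveI : CompactSpace H := isCompact_iff_compactSpace.mp hHcl.isCompact
    haveI : TotallyDisconnectedSpace H := totallyDisconnectedSpace_subtype_iff.mpr htd
    haveI hHm : TopologicalSpace.MetrizableSpace H := metrizable_closure_of_seq hxt htd
    have hxH : ∀ n, x n ∈ H := fun n =>
      Subgroup.le_topologicalClosure _ (Subgroup.subset_closure (mem_range_self n))
    let P : Subgroup G := H.comap ι
    have hPcl : IsClosed (P : Set G) := hHcl.preimage hι.continuous
    let j : P → H := fun g => ⟨ι g, g.2⟩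
    have hj : IsEmbedding j := by
      have h1 : IsEmbedding (fun g : P => ι (g : G)) := hι.comp IsEmbedding.subtypeVal
      exact IsEmbedding.of_comp (h1.continuous.subtype_mk _) continuous_subtype_val h1
    have hPz : ZeroDim P := zeroDim_of_td.of_inducing hj.isInducing
    have hPm : TopologicalSpace.MetrizableSpace P := hj.metrizableSpace
    have hPd := hzm P hPcl hPz hPm
    choose g hg using fun n => (hx n).1
    have hgP : ∀ n, g n ∈ P := fun n => by
      show ι (g n) ∈ H
      rw [hg]
      exact hxH n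
    have hgt : Tendsto (fun n => (⟨g n, hgP n⟩ : P)) atTop (𝓝 1) := by
      rw [hj.tendsto_nhds_iff, tendsto_subtype_rng]
      have h1 : (fun n => ((j ⟨g n, hgP n⟩ : H) : K)) = x := funext hg
      show Tendsto (fun n => ((j ⟨g n, hgP n⟩ : H) : K)) atTop (𝓝 (ι ((1 : P) : G)))
      rw [h1]
      simpa using hxt
    rw [nhds_discrete, tendsto_pure] at hgt
    obtain ⟨n, hn⟩ := hgt.exists
    apply (hx n).2
    rw [← hg n]
    have h1 : g n = 1 := congrArg Subtype.val hn
    rw [h1, map_one]

/-- A pseudocompact minimal group satisfying `Z_m` is a compact Lie group. -/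
theorem compactLie_of (hps : PseudoCompact G) (hmin : MinimalGroup G) (hzm : PropZm G) :
    CompactLie G ∧ TopologicalSpace.MetrizableSpace G := by
  obtain ⟨K, _, _, _, _, _, ι, hι, hd⟩ :=
    exists_compact_completion (G := G) (fun U hU => precompact_of_pseudocompact hps hU)
  have hG := gHyp_of hps hmin hzm ι hι hd
  have hrk := rk_bot_of_hyp hG
  haveI hKm : TopologicalSpace.MetrizableSpace K := metrizable_of_rk_bot hrk
  letI : MetricSpace K := TopologicalSpace.metrizableSpaceMetric K
  have hsurj : Function.Surjective ι := by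
    intro k
    have hf : Continuous (fun k' : K => dist k' k) := by fun_prop
    obtain ⟨g, hg⟩ := exists_zero hps ι hι hd hf (k := k) (dist_self k)
    exact ⟨g, dist_eq_zero.mp hg⟩
  let e : G ≃ₜ K := hι.toHomeomorphOfSurjective hsurj
  have hGc : CompactSpace G := e.symm.compactSpace
  obtain ⟨n, ρ, hρ, hker⟩ := hrk
  refine ⟨⟨hGc, n, ρ.comp ι, hρ.1.comp hι.continuous, fun g => hρ.2 (ι g), ?_⟩,
    hι.metrizableSpace⟩
  exact ((MonoidHom.ker_eq_bot_iff ρ).mp hker).comp hι.injective

/-- Main theorem. -/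
theorem propZ_of (hps : PseudoCompact G) (hmin : MinimalGroup G) (hzm : PropZm G) : PropZ G := by
  obtain ⟨-, hm⟩ := compactLie_of hps hmin hzm
  intro H hH hz
  exact hzm H hH hz (IsEmbedding.subtypeVal.metrizableSpace)

/-- totally minimal groups are minimal -/
theorem TotallyMinimalGroup.minimal (h : TotallyMinimalGroup G) : MinimalGroup G := by
  have hbot : MinimalGroup (G ⧸ (⊥ : Subgroup G)) :=
    h ⊥ (by rw [Subgroup.coe_bot]; exact isClosed_singleton)
  intro H _ _ _ _ f hf
  let q : G ⧸ (⊥ : Subgroup G) ≃* G := QuotientGroup.quotientBot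
  have hq : Continuous q := by
    rw [(QuotientGroup.isQuotientMap_mk (⊥ : Subgroup G)).continuous_iff]
    have : (q ∘ (QuotientGroup.mk : G → G ⧸ (⊥ : Subgroup G))) = id := by
      funext x
      rfl
    rw [this]
    exact continuous_id
  have h1 := hbot H (q.trans f) (hf.comp hq)
  have h2 : (f.symm : H → G) = fun y => q ((q.trans f).symm y) := by
    funext y
    simp
  have h3 : Continuous (fun y => q ((q.trans f).symm y)) := hq.comp h1
  rw [← h2] at h3
  exact h3

end Pool.Agent.Helper80.PM
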