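import Pool.Agent.Helper80.PMProf

open Set Filter Topology

set_option linter.style.haveILetI false
set_option linter.unusedSectionVars false

namespace Pool.Agent.Helper80.PM

universe u

variable {K : Type u} [Group K] [TopologicalSpace K] [IsTopologicalGroup K] [CompactSpace K]
  [T2Space K]

/-- a sequence of nontrivial closed normal subgroups inside `N` converging to `1` -/
def SeqNorm (N : Subgroup K) : Prop :=
  ∃ M : ℕ → Subgroup K, (∀ n, CN (M n) ∧ M n ≤ N ∧ M n ≠ ⊥) ∧
    ∀ V ∈ 𝓝 (1 : K), ∀ᶠ n in atTop, (M n : Set K) ⊆ V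

lemma SeqNorm.mono {N N' : Subgroup K} (h : SeqNorm N) (hle : N ≤ N') : SeqNorm N' := by
  obtain ⟨M, h1, h2⟩ := h
  exact ⟨M, fun n => ⟨(h1 n).1, (h1 n).2.1.trans hle, (h1 n).2.2⟩, h2⟩

/-- intersection of `L` with finitely many subgroups -/
def infF (L : Subgroup K) (F : Finset (Subgroup K)) : Subgroup K := L ⊓ F.inf id

lemma mem_infF {L : Subgroup K} {F : Finset (Subgroup K)} {x : K} :
    x ∈ infF L F ↔ x ∈ L ∧ ∀ U ∈ F, x ∈ U := by
  unfold infF
  rw [Subgroup.mem_inf]
  have : x ∈ F.inf id ↔ ∀ U ∈ F, x ∈ U := by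
    classical
    induction F using Finset.induction_on with
    | empty => simp
    | insert a s ha ih =>
      simp only [Finset.inf_insert, id, Subgroup.mem_inf, ih, Finset.mem_insert, forall_eq_or_imp]
  rw [this]

/-- independence of a family of chief subgroups -/
def Indep (L : Subgroup K) (B : Set (Subgroup K)) : Prop :=
  ∀ F : Finset (Subgroup K), (F : Set (Subgroup K)) ⊆ B → ∀ U ∈ B, U ∉ F → L ≤ infF L F ⊔ U

lemma infF_normal {L : Subgroup K} (hL : L.Normal) {F : Finset (Subgroup K)}
    (hF : ∀ U ∈ F, U.Normal) : (infF L F).Normal := by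
  constructor
  intro n hn g
  rw [mem_infF] at hn ⊢
  exact ⟨hL.conj_mem n hn.1 g, fun U hU => (hF U hU).conj_mem n (hn.2 U hU) g⟩

/-- If `A` is normal, `A ≤ L` and `A` is not contained in the chief subgroup `U`,
then `A ⊔ U = L`. -/
lemma Chief.sup_eq {L U A : Subgroup K} (h : Chief L U) (hA : A.Normal) (hAL : A ≤ L)
    (hAU : ¬ A ≤ U) : A ⊔ U = L := by
  haveI := hA
  haveI := h.cn.1
  rcases h.max (A ⊔ U) inferInstance le_sup_right (sup_le hAL h.lt.le) with h1 | h1
  · exact absurd (le_sup_left.trans h1.le) hAU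
  · exact h1

lemma exists_indep_family {L : Subgroup K} (hL : CN L) (hrad : rad L = ⊥) :
    ∃ B : Set (Subgroup K), (∀ U ∈ B, Chief L U) ∧ Indep L B ∧
      ∀ x ∈ L, (∀ U ∈ B, x ∈ U) → x = 1 := by
  classical
  -- Zorn's lemma
  obtain ⟨B, hBmax⟩ := zorn_subset {B : Set (Subgroup K) | (∀ U ∈ B, Chief L U) ∧ Indep L B} (by
    intro c hc hchain
    refine ⟨⋃₀ c, ⟨?_, ?_⟩, fun s hs => subset_sUnion_of_mem hs⟩
    · rintro U ⟨s, hs, hU⟩
      exact (hc hs).1 U hU
    · intro F hF U hU hUF
      rcases c.eq_empty_or_nonempty with hce | hcne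
      · obtain ⟨s, hs, -⟩ := hU
        rw [hce] at hs
        exact absurd hs (notMem_empty _)
      · obtain ⟨s, hs, hUs⟩ := hU
        -- a member of the chain containing `F` and `U`
        have : ∃ t ∈ c, (F : Set (Subgroup K)) ⊆ t ∧ U ∈ t := by
          clear hUF
          induction F using Finset.induction_on with
          | empty => exact ⟨s, hs, by simp, hUs⟩
          | insert a F ha ih =>
            obtain ⟨t, ht, hFt, hUt⟩ := ih (by
              intro x hx; exact hF (by simp [hx]))
            obtain ⟨t', ht', hat'⟩ := hF (Finset.mem_coe.mpr (Finset.mem_insert_self a F))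
            rcases hchain.total ht ht' with h | h
            · refine ⟨t', ht', ?_, h hUt⟩
              intro x hx
              rw [Finset.coe_insert, mem_insert_iff] at hx
              rcases hx with rfl | hx
              · exact hat'
              · exact h (hFt hx)
            · refine ⟨t, ht, ?_, hUt⟩
              intro x hx
              rw [Finset.coe_insert, mem_insert_iff] at hx
              rcases hx with rfl | hx
              · exact h hat'
              · exact hFt hx
        obtain ⟨t, ht, hFt, hUt⟩ := this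
        exact (hc ht).2 F hFt U hUt hUF)
  obtain ⟨hBchief, hBind⟩ := hBmax.prop
  refine ⟨B, hBchief, hBind, ?_⟩
  intro c hcL hcB
  by_contra hc1
  -- a chief subgroup missing `c`
  have : ∃ U', Chief L U' ∧ c ∉ U' := by
    by_contra hcon
    push Not at hcon
    have : c ∈ rad L := mem_rad.mpr ⟨hcL, hcon⟩
    rw [hrad, Subgroup.mem_bot] at this
    exact hc1 this
  obtain ⟨U', hU', hcU'⟩ := this
  haveI := hL.1
  -- the intersection `C` of `L` and all members of `B`
  have hU'notB : U' ∉ B := fun h => hcU' (hcB U' h)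
  have hnorm : ∀ F : Finset (Subgroup K), (F : Set (Subgroup K)) ⊆ B → (infF L F).Normal :=
    fun F hF => infF_normal hL.1 (fun U hU => (hBchief U (hF hU)).cn.1)
  have hinsert : Indep L (insert U' B) := by
    intro F hF U hU hUF
    rcases mem_insert_iff.mp hU with rfl | hUB
    · -- `U = U'`
      have hFB : (F : Set (Subgroup K)) ⊆ B := by
        intro x hx
        rcases mem_insert_iff.mp (hF hx) with rfl | h
        · exact absurd hx hUF
        · exact h
      haveI := hnorm F hFB
      have hnot : ¬ infF L F ≤ U := by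
        intro h
        exact hcU' (h (mem_infF.mpr ⟨hcL, fun V hV => hcB V (hFB hV)⟩))
      rw [hU'.sup_eq (hnorm F hFB) inf_le_left hnot]
    · by_cases hU'F : U' ∈ F
      · -- main case
        set F' := F.erase U' with hF'
        have hF'B : (F' : Set (Subgroup K)) ⊆ B := by
          intro x hx
          have hx' := Finset.mem_erase.mp (Finset.mem_coe.mp hx)
          rcases mem_insert_iff.mp (hF (Finset.mem_coe.mpr hx'.2)) with h | h
          · exact absurd h hx'.1
          · exact h
        have hUF' : U ∉ F' := fun h => hUF (Finset.mem_of_mem_erase h)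
        have hX := hBind F' hF'B U hUB hUF'
        have hXn := hnorm F' hF'B
        have hUn := (hBchief U hUB).cn.1
        have hU'n := hU'.cn.1
        have hinfF : infF L F = infF L F' ⊓ U' := by
          ext x
          rw [Subgroup.mem_inf, mem_infF, mem_infF]
          constructor
          · rintro ⟨h1, h2⟩
            exact ⟨⟨h1, fun V hV => h2 V (Finset.mem_of_mem_erase hV)⟩, h2 U' hU'F⟩
          · rintro ⟨⟨h1, h2⟩, h3⟩
            refine ⟨h1, fun V hV => ?_⟩
            by_cases hVU : V = U'
            · rw [hVU]; exact h3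
            · exact h2 V (Finset.mem_erase.mpr ⟨hVU, hV⟩)
        rw [hinfF]
        set X := infF L F' with hXdef
        have hXL : X ≤ L := inf_le_left
        by_contra hcon
        -- then `X ⊓ U' ≤ U`
        have hXU' : (X ⊓ U').Normal := by
          haveI := hXn; haveI := hU'n; infer_instance
        have h1 : X ⊓ U' ≤ U := by
          by_contra h
          exact hcon ((hBchief U hUB).sup_eq hXU' (inf_le_left.trans hXL) h).ge
        have hcX : c ∈ X := mem_infF.mpr ⟨hcL, fun V hV => hcB V (hF'B hV)⟩
        -- `X ⊓ U ≤ U'`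
        have hXU : (X ⊓ U).Normal := by
          haveI := hXn; haveI := hUn; infer_instance
        have h2 : X ⊓ U ≤ U' := by
          by_contra h
          have h3 := hU'.sup_eq hXU (inf_le_left.trans hXL) h
          -- `X ≤ U`
          have h4 : X ≤ U := by
            intro x hx
            have hxL : x ∈ (X ⊓ U) ⊔ U' := by rw [h3]; exact hXL hx
            rw [mem_sup_normal] at hxL
            obtain ⟨a, ha, b, hb, rfl⟩ := hxL
            have hbX : b ∈ X := by
              have : a⁻¹ * (a * b) ∈ X := X.mul_mem (X.inv_mem ha.1) hx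
              simpa using this
            exact U.mul_mem ha.2 (h1 ⟨hbX, hb⟩)
          have h5 : L ≤ U := by
            have : X ⊔ U = U := sup_eq_right.mpr h4
            rw [this] at hX
            exact hX
          exact absurd (hBchief U hUB).lt (not_lt_of_ge h5)
        exact hcU' (h2 ⟨hcX, hcB U hUB⟩)
      · have hFB : (F : Set (Subgroup K)) ⊆ B := by
          intro x hx
          rcases mem_insert_iff.mp (hF hx) with rfl | h
          · exact absurd hx hU'F
          · exact h
        exact hBind F hFB U hUB hUF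
  have hmem : insert U' B ∈ {B : Set (Subgroup K) | (∀ U ∈ B, Chief L U) ∧ Indep L B} := by
    refine ⟨?_, hinsert⟩
    intro U hU
    rcases mem_insert_iff.mp hU with rfl | h
    · exact hU'
    · exact hBchief U h
  have := hBmax.le_of_ge hmem (subset_insert U' B)
  exact hU'notB (this (mem_insert U' B))

/-- If `rad L = 1` and `L` is infinite there is a sequence of nontrivial closed normal subgroups in
`L` converging to `1`. -/
lemma seqNorm_of_rad {L : Subgroup K} (hL : CN L) (hrad : rad L = ⊥) (hinf : Infinite L) :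
    SeqNorm L := by
  classical
  obtain ⟨B, hB, hind, htriv⟩ := exists_indep_family hL hrad
  -- `B` is infinite
  have hBinf : B.Infinite := by
    intro hfin
    haveI : Finite B := hfin
    have h1 : (⨅ U : B, (U : Subgroup K)).relIndex L ≠ 0 :=
      Subgroup.relIndex_iInf_ne_zero (fun U => (hB U U.2).fin)
    have h2 : (⨅ U : B, (U : Subgroup K)) ⊓ L = ⊥ := by
      rw [Subgroup.eq_bot_iff_forall]
      intro x hx
      rw [Subgroup.mem_inf, Subgroup.mem_iInf] at hx
      exact htriv x hx.2 (fun U hU => hx.1 ⟨U, hU⟩)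
    rw [← Subgroup.inf_relIndex_right, h2, Subgroup.relIndex_bot_left] at h1
    exact h1 Nat.card_eq_zero_of_infinite
  -- an injective sequence in `B`
  set e := hBinf.natEmbedding B with he
  let U : ℕ → Subgroup K := fun n => (e n : Subgroup K)
  have hUB : ∀ n, U n ∈ B := fun n => (e n).2
  have hUinj : Function.Injective U := fun m n h => e.injective (Subtype.ext h)
  let A : ℕ → Subgroup K := fun n => L ⊓ ⨅ (V : Subgroup K) (_ : V ∈ B ∧ V ≠ U n), V
  have hA : ∀ n x, x ∈ A n ↔ x ∈ L ∧ ∀ V ∈ B, V ≠ U n → x ∈ V := by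
    intro n x
    simp only [A, Subgroup.mem_inf, Subgroup.mem_iInf]
    constructor
    · rintro ⟨h1, h2⟩; exact ⟨h1, fun V hV hne => h2 V ⟨hV, hne⟩⟩
    · rintro ⟨h1, h2⟩; exact ⟨h1, fun V hV => h2 V hV.1 hV.2⟩
  refine ⟨A, fun n => ⟨⟨?_, ?_⟩, inf_le_left, ?_⟩, ?_⟩
  · constructor
    intro x hx g
    rw [hA] at hx ⊢
    exact ⟨hL.1.conj_mem x hx.1 g, fun V hV hne => (hB V hV).cn.1.conj_mem x (hx.2 V hV hne) g⟩
  · have : (A n : Set K) = (L : Set K) ∩ ⋂ (V : Subgroup K) (_ : V ∈ B ∧ V ≠ U n), (V : Set K) := by
      ext x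
      simp only [SetLike.mem_coe, hA, mem_inter_iff, mem_iInter]
      constructor
      · rintro ⟨h1, h2⟩; exact ⟨h1, fun V hV => h2 V hV.1 hV.2⟩
      · rintro ⟨h1, h2⟩; exact ⟨h1, fun V hV hne => h2 V ⟨hV, hne⟩⟩
    rw [this]
    exact hL.2.inter (isClosed_biInter (fun V hV => (hB V hV.1).cn.2))
  · -- nontriviality, by compactness
    intro hbot
    have hchief := hB (U n) (hUB n)
    -- `L \ U n` is compact
    have hdiff : IsClosed ((L : Set K) \ (U n : Set K)) := by
      -- it is a finite union of cosets of `U n`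
      haveI : (U n).Normal := hchief.cn.1
      have hf : ((U n).subgroupOf L).FiniteIndex := ⟨hchief.fin⟩
      haveI : Finite (L ⧸ (U n).subgroupOf L) := inferInstance
      have hEq : ((L : Set K) \ (U n : Set K)) =
          ⋃ q : {q : L ⧸ (U n).subgroupOf L // q ≠ QuotientGroup.mk 1},
            (fun x => (q.1.out : K) * x) '' (U n : Set K) := by
        ext x
        simp only [Set.mem_sdiff, mem_iUnion, mem_image, SetLike.mem_coe]
        constructor
        · rintro ⟨hx, hxU⟩
          set q : L ⧸ (U n).subgroupOf L := QuotientGroup.mk (⟨x, hx⟩ : L) with hq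
          have hqne : q ≠ QuotientGroup.mk 1 := by
            intro h
            rw [hq, QuotientGroup.eq, Subgroup.mem_subgroupOf] at h
            apply hxU
            simpa using h
          refine ⟨⟨q, hqne⟩, (q.out : K)⁻¹ * x, ?_, by group⟩
          have h1 : (QuotientGroup.mk q.out : L ⧸ (U n).subgroupOf L) =
              QuotientGroup.mk (⟨x, hx⟩ : L) := QuotientGroup.out_eq' q
          rw [QuotientGroup.eq, Subgroup.mem_subgroupOf] at h1
          simpa using h1
        · rintro ⟨⟨q, hqne⟩, y, hy, rfl⟩
          refine ⟨L.mul_mem q.out.2 (hchief.lt.le hy), fun hcon => hqne ?_⟩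
          have h1 : (q.out : K) ∈ U n := by
            have := (U n).mul_mem hcon ((U n).inv_mem hy)
            simpa using this
          rw [← QuotientGroup.out_eq' q, QuotientGroup.eq, Subgroup.mem_subgroupOf]
          simpa using h1
      rw [hEq]
      exact isClosed_iUnion_of_finite
        (fun q => (Homeomorph.mulLeft (q.1.out : K)).isClosedMap _ hchief.cn.2)
    have hempty : ((L : Set K) \ (U n : Set K)) ∩
        ⋂ V : {V : Subgroup K // V ∈ B ∧ V ≠ U n}, ((V : Subgroup K) : Set K) = ∅ := by
      rw [eq_empty_iff_forall_notMem]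
      rintro x ⟨⟨hxL, hxU⟩, hx⟩
      rw [mem_iInter] at hx
      have : x ∈ A n := (hA n x).mpr ⟨hxL, fun V hV hne => hx ⟨V, hV, hne⟩⟩
      rw [hbot, Subgroup.mem_bot] at this
      rw [this] at hxU
      exact hxU (U n).one_mem
    obtain ⟨t, ht⟩ := hdiff.isCompact.elim_finite_subfamily_closed
      (fun V : {V : Subgroup K // V ∈ B ∧ V ≠ U n} => ((V : Subgroup K) : Set K))
      (fun V => (hB V.1 V.2.1).cn.2) hempty
    set F : Finset (Subgroup K) := t.image Subtype.val with hF
    have hFB : (F : Set (Subgroup K)) ⊆ B := by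
      intro V hV
      obtain ⟨V', -, rfl⟩ := Finset.mem_image.mp (Finset.mem_coe.mp hV)
      exact V'.2.1
    have hUF : U n ∉ F := by
      intro h
      obtain ⟨V', -, hV'⟩ := Finset.mem_image.mp h
      exact V'.2.2 hV'
    have h1 := hind F hFB (U n) (hUB n) hUF
    have h2 : infF L F ≤ U n := by
      intro x hx
      rw [mem_infF] at hx
      by_contra hxU
      have : x ∈ ((L : Set K) \ (U n : Set K)) ∩ ⋂ V ∈ t, ((V : Subgroup K) : Set K) := by
        refine ⟨⟨hx.1, hxU⟩, ?_⟩
        simp only [mem_iInter]
        intro V hV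
        exact hx.2 V (Finset.mem_image_of_mem _ hV)
      rw [ht] at this
      exact this
    rw [sup_eq_right.mpr h2] at h1
    exact absurd hchief.lt (not_lt_of_ge h1)
  · -- convergence
    intro V hV
    obtain ⟨O, hOV, hO, h1O⟩ := mem_nhds_iff.mp hV
    have hcomp : IsCompact ((L : Set K) \ O) := (hL.2.sdiff hO).isCompact
    have hempty : ((L : Set K) \ O) ∩ ⋂ V : B, ((V : Subgroup K) : Set K) = ∅ := by
      rw [eq_empty_iff_forall_notMem]
      rintro x ⟨⟨hxL, hxO⟩, hx⟩
      rw [mem_iInter] at hx
      have := htriv x hxL (fun V hV => hx ⟨V, hV⟩)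
      rw [this] at hxO
      exact hxO h1O
    obtain ⟨t, ht⟩ := hcomp.elim_finite_subfamily_closed
      (fun V : B => ((V : Subgroup K) : Set K)) (fun V => (hB V.1 V.2).cn.2) hempty
    have hfin : {n : ℕ | U n ∈ t.image Subtype.val}.Finite := by
      apply Set.Finite.preimage hUinj.injOn (Finset.finite_toSet (t.image Subtype.val))
    have hev : ∀ᶠ n in atTop, U n ∉ t.image Subtype.val := by
      rw [← Nat.cofinite_eq_atTop]
      exact hfin.eventually_cofinite_notMem
    filter_upwards [hev] with n hn x hx
    apply hOV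
    by_contra hxO
    have hx' := (hA n x).mp hx
    have : x ∈ ((L : Set K) \ O) ∩ ⋂ V ∈ t, ((V : Subgroup K) : Set K) := by
      refine ⟨⟨hx'.1, hxO⟩, ?_⟩
      simp only [mem_iInter]
      intro V hV
      refine hx'.2 V V.2 ?_
      rintro h
      exact hn (by rw [← h]; exact Finset.mem_image_of_mem _ hV)
    rw [ht] at this
    exact this

end Pool.Agent.Helper80.PM
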