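import Pool.Agent.Helper80.PMProf2

open Set Filter Topology

set_option linter.style.haveILetI false
set_option linter.unusedSectionVars false

namespace Pool.Agent.Helper80.PM

universe u

variable {K : Type u} [Group K] [TopologicalSpace K] [IsTopologicalGroup K] [CompactSpace K]
  [T2Space K]

lemma iter_rad_cn {X : Subgroup K} (hX : CN X) (n : ℕ) : CN (rad^[n] X) := by
  induction n with
  | zero => exact hX
  | succ n ih => rw [Function.iterate_succ_apply']; exact ih.rad

lemma iter_rad_le (X : Subgroup K) (n : ℕ) : rad^[n] X ≤ X := by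
  induction n with
  | zero => exact le_rfl
  | succ n ih => rw [Function.iterate_succ_apply']; exact (rad_le _).trans ih

lemma iter_rad_anti (X : Subgroup K) {m n : ℕ} (h : m ≤ n) : rad^[n] X ≤ rad^[m] X := by
  induction n, h using Nat.le_induction with
  | base => exact le_rfl
  | succ n _ ih => rw [Function.iterate_succ_apply']; exact (rad_le _).trans ih

lemma exists_rad_trivial {N X : Subgroup K} (hN : CN N)
    (htd : IsTotallyDisconnected (N : Set K)) (hno : ¬ SeqNorm N) (hX : CN X) (hXN : X ≤ N)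
    (hX1 : X ≠ ⊥) : ∃ L : Subgroup K, CN L ∧ L ≤ X ∧ L ≠ ⊥ ∧ rad L = ⊥ ∧ Finite L := by
  classical
  -- some iterated radical is trivial
  have h1 : ∃ n, rad^[n] X = ⊥ := by
    by_contra hcon
    push Not at hcon
    apply hno
    refine ⟨fun n => rad^[n] X, fun n => ⟨iter_rad_cn hX n, (iter_rad_le X n).trans hXN, hcon n⟩,
      ?_⟩
    intro V hV
    obtain ⟨W, hW, -, hWfin, hWV⟩ := exists_small_cn hN htd hV
    have hWX : W.relIndex X ≠ 0 := fun h => hWfin (Subgroup.relIndex_eq_zero_of_le_right hXN h)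
    obtain ⟨n, hn⟩ := exists_iter_rad_le hW _ X hX hWX le_rfl
    filter_upwards [eventually_ge_atTop n] with m hm
    exact fun x hx => hWV (hn (iter_rad_anti X hm hx))
  have hspec := Nat.find_spec h1
  set n := Nat.find h1 with hn
  have hpos : n ≠ 0 := by
    intro h0
    rw [h0] at hspec
    exact hX1 hspec
  obtain ⟨m, hm⟩ := Nat.exists_eq_succ_of_ne_zero hpos
  have hmin : rad^[m] X ≠ ⊥ := Nat.find_min h1 (by omega)
  have hrad : rad (rad^[m] X) = ⊥ := by
    rw [← Function.iterate_succ_apply' rad m X, ← hm]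
    exact hspec
  refine ⟨rad^[m] X, iter_rad_cn hX m, iter_rad_le X m, hmin, hrad, ?_⟩
  by_contra hinf
  rw [not_finite_iff_infinite] at hinf
  exact hno ((seqNorm_of_rad (iter_rad_cn hX m) hrad hinf).mono ((iter_rad_le X m).trans hXN))

/-- finite minimal normal subgroups contained in `N` -/
structure MinN (N A : Subgroup K) : Prop where
  normal : A.Normal
  ne_bot : A ≠ ⊥
  le : A ≤ N
  fin : Finite A
  min : ∀ Y : Subgroup K, Y.Normal → Y ≤ A → Y = ⊥ ∨ Y = A

lemma exists_minN {N L : Subgroup K} (hL : L.Normal) (hfin : Finite L) (hLN : L ≤ N)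
    (hne : L ≠ ⊥) : ∃ A, MinN N A ∧ A ≤ L := by
  classical
  let P : ℕ → Prop := fun n => ∃ A : Subgroup K, A.Normal ∧ A ≤ L ∧ A ≠ ⊥ ∧ Nat.card A = n
  have hP : ∃ n, P n := ⟨_, L, hL, le_rfl, hne, rfl⟩
  obtain ⟨A, hAn, hAL, hA1, hcard⟩ := Nat.find_spec hP
  have hAfin : Finite A := Finite.Set.subset (L : Set K) hAL
  refine ⟨A, ⟨hAn, hA1, hAL.trans hLN, hAfin, ?_⟩, hAL⟩
  intro Y hY hYA
  by_contra hcon
  push Not at hcon
  have h1 : Nat.find hP ≤ Nat.card Y := Nat.find_min' hP ⟨Y, hY, hYA.trans hAL, hcon.1, rfl⟩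
  rw [← hcard] at h1
  have : Y = A := by
    apply SetLike.coe_injective
    exact Set.eq_of_subset_of_ncard_le (fun x hx => hYA hx) h1
  exact hcon.2 this

lemma MinN.inf_eq_bot {N A Y : Subgroup K} (h : MinN N A) (hY : Y.Normal) (hAY : ¬ A ≤ Y) :
    A ⊓ Y = ⊥ := by
  haveI := h.normal
  haveI := hY
  rcases h.min (A ⊓ Y) inferInstance inf_le_left with h1 | h1
  · exact h1
  · exact absurd (by rw [← h1]; exact inf_le_right) hAY

/-- The closure of the subgroup generated by the finite minimal normal subgroups in `N` has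
trivial radical. -/
lemma rad_socle {N : Subgroup K} (hN : CN N) (htd : IsTotallyDisconnected (N : Set K)) :
    ∃ S : Subgroup K, CN S ∧ S ≤ N ∧ (∀ A, MinN N A → A ≤ S) ∧ rad S = ⊥ := by
  classical
  set S₀ : Subgroup K := ⨆ (A : Subgroup K) (_ : MinN N A), A with hS₀
  have hS₀n : S₀.Normal := by
    constructor
    intro x hx g
    have : S₀ ≤ S₀.comap (MulAut.conj g).toMonoidHom := by
      rw [hS₀]
      refine iSup₂_le (fun A hA => ?_)
      intro y hy
      rw [Subgroup.mem_comap]
      have h1 : (MulAut.conj g).toMonoidHom y ∈ A := by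
        simpa using hA.normal.conj_mem y hy g
      exact (le_iSup₂_of_le (f := fun (A : Subgroup K) (_ : MinN N A) => A) A hA le_rfl) h1
    simpa using this hx
  have hS₀N : S₀ ≤ N := iSup₂_le (fun A hA => hA.le)
  haveI := hS₀n
  set S := S₀.topologicalClosure with hS
  have hSn : S.Normal := Subgroup.is_normal_topologicalClosure S₀
  have hScl : IsClosed (S : Set K) := Subgroup.isClosed_topologicalClosure S₀
  have hSN : S ≤ N := Subgroup.topologicalClosure_minimal _ hS₀N hN.2
  have hScn : CN S := ⟨hSn, hScl⟩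
  refine ⟨S, hScn, hSN, fun A hA => (le_iSup₂_of_le
    (f := fun (A : Subgroup K) (_ : MinN N A) => A) A hA le_rfl).trans
    (Subgroup.le_topologicalClosure S₀), ?_⟩
  rw [Subgroup.eq_bot_iff_forall]
  intro c hc
  by_contra hc1
  have hcS : c ∈ S := rad_le S hc
  -- a small `W` missing `c`
  obtain ⟨W, hW, -, hWfin, hWV⟩ := exists_small_cn hN htd
    (isOpen_compl_singleton.mem_nhds (show (1 : K) ∈ ({c} : Set K)ᶜ by simpa using Ne.symm hc1))
  have hcW : c ∉ W := fun h => hWV h rfl
  set T : Subgroup K := S ⊓ W with hT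
  have hTcn : CN T := hScn.inf hW
  have hTfin : T.relIndex S ≠ 0 := by
    rw [hT, inf_comm, Subgroup.inf_relIndex_right]
    exact fun h => hWfin (Subgroup.relIndex_eq_zero_of_le_right hSN h)
  have hTS : T ≤ S := inf_le_left
  -- `S = S₀ T`
  have hST : S ≤ S₀ ⊔ T := by
    haveI := hTcn.1
    have hcl : IsClosed ((S₀ ⊔ T : Subgroup K) : Set K) := by
      refine isClosed_of_relIndex hTcn.2 le_sup_right ?_
      intro h
      apply hTfin
      exact Subgroup.relIndex_eq_zero_of_le_right (sup_le (Subgroup.le_topologicalClosure S₀) hTS) h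
    exact Subgroup.topologicalClosure_minimal _ le_sup_left hcl
  -- choose `U ⊇ T` normal, missing `c`, of least index in `S`
  let P : ℕ → Prop := fun n => ∃ U : Subgroup K, U.Normal ∧ T ≤ U ∧ U ≤ S ∧ c ∉ U ∧
    U.relIndex S = n
  have hP : ∃ n, P n := ⟨_, T, hTcn.1, le_rfl, hTS, fun h => hcW h.2, rfl⟩
  obtain ⟨U, hUn, hTU, hUS, hcU, hidx⟩ := Nat.find_spec hP
  have hUfin : U.relIndex S ≠ 0 := by
    have := Subgroup.relIndex_dvd_of_le_left S hTU
    intro h0
    rw [h0] at this
    exact hTfin (Nat.eq_zero_of_zero_dvd this)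
  have hmaxc : ∀ Y : Subgroup K, Y.Normal → U ≤ Y → Y ≤ S → Y ≠ U → c ∈ Y := by
    intro Y hY hUY hYS hne
    by_contra hcY
    have h1 : Nat.find hP ≤ Y.relIndex S :=
      Nat.find_min' hP ⟨Y, hY, hTU.trans hUY, hYS, hcY, rfl⟩
    have h2 := Subgroup.relIndex_mul_relIndex U Y S hUY hYS
    have h3 : U.relIndex Y ≠ 1 := by
      intro h
      rw [Subgroup.relIndex_eq_one] at h
      exact hne (le_antisymm h hUY)
    have h4 : U.relIndex Y ≠ 0 := by
      intro h
      rw [h, zero_mul] at h2
      exact hUfin h2.symm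
    have h6 : Y.relIndex S ≠ 0 := by
      intro h
      rw [h, mul_zero] at h2
      exact hUfin h2.symm
    have h7 : 0 < Y.relIndex S := Nat.pos_of_ne_zero h6
    have h5 : 2 ≤ U.relIndex Y := by omega
    rw [← hidx, ← h2] at h1
    nlinarith
  haveI := hUn
  -- a minimal subgroup not inside `U`
  have hA : ∃ A, MinN N A ∧ ¬ A ≤ U := by
    by_contra hcon
    push Not at hcon
    have h1 : S₀ ≤ U := iSup₂_le hcon
    exact hcU ((sup_le h1 hTU) (hST hcS))
  obtain ⟨A, hA, hAU⟩ := hA
  haveI := hA.normal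
  have hAS : A ≤ S := (le_iSup₂_of_le
    (f := fun (A : Subgroup K) (_ : MinN N A) => A) A hA le_rfl).trans
    (Subgroup.le_topologicalClosure S₀)
  have hAUn : (A ⊔ U).Normal := inferInstance
  -- every minimal subgroup is inside `A ⊔ U`
  have hall : ∀ A', MinN N A' → A' ≤ A ⊔ U := by
    intro A' hA'
    by_contra hcon
    haveI := hA'.normal
    have hA'S : A' ≤ S := (le_iSup₂_of_le
      (f := fun (A : Subgroup K) (_ : MinN N A) => A) A' hA' le_rfl).trans
      (Subgroup.le_topologicalClosure S₀)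
    have hc1' : c ∈ A ⊔ U := hmaxc _ inferInstance le_sup_right (sup_le hAS hUS) (by
      intro h; exact hAU (le_sup_left.trans h.le))
    have hc2' : c ∈ A' ⊔ U := hmaxc _ inferInstance le_sup_right (sup_le hA'S hUS) (by
      intro h; exact hcon ((le_sup_left.trans h.le).trans le_sup_right))
    have hdisj := hA'.inf_eq_bot hAUn hcon
    rw [mem_sup_normal] at hc2'
    obtain ⟨a, ha, b, hb, rfl⟩ := hc2'
    have ha' : a ∈ A ⊔ U := by
      have := (A ⊔ U).mul_mem hc1' ((A ⊔ U).inv_mem (le_sup_right (a := A) hb))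
      simpa using this
    have : a ∈ A' ⊓ (A ⊔ U) := ⟨ha, ha'⟩
    rw [hdisj, Subgroup.mem_bot] at this
    rw [this, one_mul] at hcU
    exact hcU hb
  have hS₀AU : S₀ ≤ A ⊔ U := iSup₂_le hall
  have hSAU : S ≤ A ⊔ U := hST.trans (sup_le hS₀AU (hTU.trans le_sup_right))
  -- `U` is a chief subgroup
  have hUcn : CN U := by
    refine ⟨hUn, isClosed_of_relIndex hTcn.2 hTU ?_⟩
    intro h
    exact hTfin (Subgroup.relIndex_eq_zero_of_le_right hUS h)
  have hchief : Chief S U := by
    refine ⟨hUcn, lt_of_le_of_ne hUS (fun h => hcU (h ▸ hcS)), hUfin, ?_⟩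
    intro Y hY hUY hYS
    by_cases hAY : A ≤ Y
    · right
      exact le_antisymm hYS (hSAU.trans (sup_le hAY hUY))
    · left
      have hdisj := hA.inf_eq_bot hY hAY
      apply le_antisymm _ hUY
      intro y hy
      have hy' := hSAU (hYS hy)
      rw [mem_sup_normal] at hy'
      obtain ⟨a, ha, b, hb, rfl⟩ := hy'
      have haY : a ∈ Y := by
        have := Y.mul_mem hy (Y.inv_mem (hUY hb))
        simpa using this
      have : a ∈ A ⊓ Y := ⟨ha, haY⟩
      rw [hdisj, Subgroup.mem_bot] at this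
      rw [this, one_mul]
      exact hb
  exact hcU (rad_le_of_chief hchief hc)

/-- **Small normal subgroups.** In an infinite totally disconnected closed normal subgroup of a
compact group there is a sequence of nontrivial closed normal subgroups converging to `1`. -/
theorem seqNorm_of_infinite {N : Subgroup K} (hN : CN N)
    (htd : IsTotallyDisconnected (N : Set K)) (hinf : Infinite N) : SeqNorm N := by
  by_contra hno
  obtain ⟨S, hS, hSN, hSmin, hSrad⟩ := rad_socle hN htd
  -- the socle is finite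
  have hSfin : Finite S := by
    by_contra h
    rw [not_finite_iff_infinite] at h
    exact hno ((seqNorm_of_rad hS hSrad h).mono hSN)
  -- a small `W` meeting the socle trivially
  have hV : ((S : Set K) \ {1})ᶜ ∈ 𝓝 (1 : K) := by
    have hfin : ((S : Set K) \ {1}).Finite := (Set.toFinite (S : Set K)).subset sdiff_subset
    exact hfin.isClosed.isOpen_compl.mem_nhds (by simp)
  obtain ⟨W, hW, hWN, hWfin, hWV⟩ := exists_small_cn hN htd hV
  have hWS : ∀ x ∈ W, x ∈ S → x = 1 := by
    intro x hx hxS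
    by_contra h1
    exact hWV hx ⟨hxS, h1⟩
  have hW1 : W ≠ ⊥ := by
    intro h
    rw [h, Subgroup.relIndex_bot_left] at hWfin
    exact hWfin Nat.card_eq_zero_of_infinite
  obtain ⟨L, hL, hLW, hL1, -, hLfin⟩ := exists_rad_trivial hN htd hno hW hWN hW1
  obtain ⟨A, hA, hAL⟩ := exists_minN (N := N) hL.1 hLfin (hLW.trans hWN) hL1
  apply hA.ne_bot
  rw [Subgroup.eq_bot_iff_forall]
  intro x hx
  exact hWS x (hLW (hAL hx)) (hSmin A hA hx)

end Pool.Agent.Helper80.PM
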