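import Mathlib

/-!
Peter–Weyl theorem (existence of finite-dimensional unitary representations separating points)
for compact Hausdorff groups, by averaging rank one projections.
-/

open Set Filter Topology MeasureTheory

set_option linter.style.haveILetI false
set_option linter.unusedSectionVars false

namespace Pool.Agent.Helper80.PM

universe u

section avg

open InnerProductSpace ContinuousLinearMap

variable {K : Type u} [Group K] [TopologicalSpace K] [IsTopologicalGroup K] [CompactSpace K]
  [MeasurableSpace K] [BorelSpace K] (μ : Measure K) [IsProbabilityMeasure μ]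
  [μ.IsMulLeftInvariant] [μ.IsOpenPosMeasure]
  {H : Type*} [NormedAddCommGroup H] [InnerProductSpace ℂ H] [CompleteSpace H]

include μ in
/-- In a strongly continuous unitary representation of a compact group, every nonzero vector `w`
is non-orthogonal to some finite-dimensional invariant subspace. -/
theorem exists_findim_invariant (U : K →* (H →L[ℂ] H)) (hU : ∀ k v, ‖U k v‖ = ‖v‖)
    (hc : ∀ v, Continuous (fun k => U k v)) (w : H) (hw : w ≠ 0) :
    ∃ E : Submodule ℂ H, FiniteDimensional ℂ E ∧ (∀ k, ∀ v ∈ E, U k v ∈ E) ∧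
      ∃ e ∈ E, inner ℂ e w ≠ 0 := by
  have hinner : ∀ k v v', inner ℂ (U k v) (U k v') = inner ℂ v v' := by
    intro k
    let L : H →ₗᵢ[ℂ] H := ⟨(U k).toLinearMap, hU k⟩
    intro v v'
    exact L.inner_map_map v v'
  let A : K → (H →L[ℂ] H) := fun k => rankOne ℂ (U k w) (U k w)
  have hAc : Continuous A := by
    have h1 : Continuous (fun p : H × H => (rankOne ℂ p.1 p.2 : H →L[ℂ] H)) := by
      have h2 : Continuous (fun p : H × H => (innerSL ℂ p.2).smulRight p.1) := by
        fun_prop
      exact h2
    exact h1.comp ((hc w).prodMk (hc w))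
  have hint : Integrable A μ :=
    hAc.integrable_of_hasCompactSupport (HasCompactSupport.of_compactSpace A)
  set T : H →L[ℂ] H := ∫ k, A k ∂μ with hT
  -- compactness
  have hcomp : IsCompactOperator T := by
    have hcl : IsClosed {B : H →L[ℂ] H | IsCompactOperator B} :=
      isClosed_setOfPred_isCompactOperator
    have hconv : Convex ℝ {B : H →L[ℂ] H | IsCompactOperator B} := by
      intro B hB C hC a b _ _ _
      exact (IsCompactOperator.smul hB a).add (IsCompactOperator.smul hC b)
    refine hconv.integral_mem hcl (Eventually.of_forall fun k => ?_) hint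
    show IsCompactOperator (A k)
    have : (A k : H → H) = (toSpanSingleton ℂ (U k w)) ∘ (innerSL ℂ (U k w)) := rfl
    rw [this]
    have h2 : IsCompactOperator (innerSL ℂ (U k w)) :=
      isCompactOperator_of_locallyCompactSpace_dom (innerSL ℂ (U k w))
    exact h2.clm_comp _
  have hTapp : ∀ v, T v = ∫ k, (A k) v ∂μ := fun v => ContinuousLinearMap.integral_apply hint v
  have hsymm : T.IsSymmetric := by
    have hcl : IsClosed {B : H →L[ℂ] H | ∀ x y, inner ℂ (B x) y = inner ℂ x (B y)} := by
      simp only [ofPred_forall]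
      refine isClosed_iInter fun x => isClosed_iInter fun y => isClosed_eq ?_ ?_ <;> fun_prop
    have hconv : Convex ℝ {B : H →L[ℂ] H | ∀ x y, inner ℂ (B x) y = inner ℂ x (B y)} := by
      intro B hB C hC a b _ _ _ x y
      have h1 : (a • B + b • C) x = (a : ℂ) • B x + (b : ℂ) • C x := by simp
      have h2 : (a • B + b • C) y = (a : ℂ) • B y + (b : ℂ) • C y := by simp
      rw [h1, h2, inner_add_left, inner_add_right, inner_smul_left, inner_smul_left,
        inner_smul_right, inner_smul_right, hB x y, hC x y]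
      simp
    have := hconv.integral_mem hcl (f := A) (μ := μ) (Eventually.of_forall fun k x y => ?_) hint
    · exact fun x y => this x y
    · show inner ℂ (rankOne ℂ (U k w) (U k w) x) y = inner ℂ x (rankOne ℂ (U k w) (U k w) y)
      rw [inner_left_rankOne_apply, inner_right_rankOne_apply]
  have hcommA : ∀ g k, (U g).comp (A k) = (A (g * k)).comp (U g) := by
    intro g k
    ext z
    show U g (inner ℂ (U k w) z • U k w) = inner ℂ (U (g * k) w) (U g z) • U (g * k) w
    rw [map_mul]
    show U g (inner ℂ (U k w) z • U k w) = inner ℂ (U g (U k w)) (U g z) • U g (U k w)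
    rw [hinner, ContinuousLinearMap.map_smul]
  have hcomm : ∀ g, (U g).comp T = T.comp (U g) := by
    intro g
    ext z
    show U g (T z) = T (U g z)
    rw [hTapp, hTapp]
    have hi1 : Integrable (fun k => A k z) μ := hint.apply_continuousLinearMap z
    rw [← ContinuousLinearMap.integral_comp_comm (U g) hi1]
    have h1 : ∀ k, U g (A k z) = A (g * k) (U g z) := fun k =>
      congrArg (fun B : H →L[ℂ] H => B z) (hcommA g k)
    simp_rw [h1]
    exact integral_mul_left_eq_self (fun k => A k (U g z)) g
  have hTw : T w ≠ 0 := by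
    intro h0
    have h1 : inner ℂ w (T w) = 0 := by rw [h0, inner_zero_right]
    have hi1 : Integrable (fun k => A k w) μ := hint.apply_continuousLinearMap w
    rw [hTapp, ← integral_inner hi1] at h1
    have h2 : ∀ k, inner ℂ w (A k w) = ((‖inner ℂ w (U k w)‖ ^ 2 : ℝ) : ℂ) := by
      intro k
      show inner ℂ w (rankOne ℂ (U k w) (U k w) w) = _
      rw [inner_right_rankOne_apply]
      rw [← inner_conj_symm (U k w) w, RCLike.mul_conj]
      norm_cast
    simp_rw [h2] at h1
    rw [integral_complex_ofReal] at h1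
    have h3 : ∫ k, ‖inner ℂ w (U k w)‖ ^ 2 ∂μ = 0 := by exact_mod_cast h1
    have hcont : Continuous (fun k => ‖inner ℂ w (U k w)‖ ^ 2) := by
      have := hc w
      fun_prop
    have h4 : 0 < ∫ k, ‖inner ℂ w (U k w)‖ ^ 2 ∂μ := by
      refine hcont.integral_pos_of_hasCompactSupport_nonneg_nonzero
        (HasCompactSupport.of_compactSpace _) (fun k => by positivity) (x := 1) ?_
      rw [map_one]
      show ‖inner ℂ w w‖ ^ 2 ≠ 0
      have : inner ℂ w w ≠ 0 := inner_self_ne_zero.mpr hw
      positivity
    exact absurd h3 h4.ne'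
  -- spectral theorem
  by_contra hcon
  push Not at hcon
  apply hTw
  have horth : T w ∈ (⨆ ν, Module.End.eigenspace (T : Module.End ℂ H) ν)ᗮ := by
    rw [← Submodule.iInf_orthogonal, Submodule.mem_iInf]
    intro ν
    rw [Submodule.mem_orthogonal]
    intro x hx
    have hx' : T x = ν • x := Module.End.mem_eigenspace_iff.mp hx
    have h1 : inner ℂ x (T w) = inner ℂ (T x) w := (hsymm x w).symm
    rw [h1, hx', inner_smul_left]
    by_cases hν : ν = 0
    · simp [hν]
    · have hfd := ContinuousLinearMap.finite_dimensional_eigenspace hcomp ν hν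
      rw [hcon _ hfd ?_ x hx, mul_zero]
      intro k v hv
      have hv' : T v = ν • v := Module.End.mem_eigenspace_iff.mp hv
      refine Module.End.mem_eigenspace_iff.mpr ?_
      have h2 : T (U k v) = U k (T v) :=
        (congrArg (fun B : H →L[ℂ] H => B v) (hcomm k)).symm
      show T (U k v) = ν • U k v
      rw [h2, hv', ContinuousLinearMap.map_smul]
  rw [ContinuousLinearMap.orthogonalComplement_iSup_eigenspaces_eq_bot hcomp hsymm] at horth
  exact (Submodule.mem_bot ℂ).mp horth

end avg

/-- a continuous finite-dimensional unitary matrix representation -/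
def IsRep {K : Type*} [Group K] [TopologicalSpace K] {n : ℕ}
    (ρ : K →* Matrix (Fin n) (Fin n) ℂ) : Prop :=
  Continuous ρ ∧ ∀ k, ρ k ∈ Matrix.unitaryGroup (Fin n) ℂ

section mat

variable {K : Type u} [Group K] [TopologicalSpace K]
  {H : Type*} [NormedAddCommGroup H] [InnerProductSpace ℂ H]

theorem rep_of_invariant (U : K →* (H →L[ℂ] H)) (hU : ∀ k v, ‖U k v‖ = ‖v‖)
    (hc : ∀ v, Continuous (fun k => U k v)) (E : Submodule ℂ H) [FiniteDimensional ℂ E]
    (hE : ∀ k, ∀ v ∈ E, U k v ∈ E) :
    ∃ (n : ℕ) (ρ : K →* Matrix (Fin n) (Fin n) ℂ), IsRep ρ ∧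
      ∀ k, ρ k = 1 ↔ ∀ v ∈ E, U k v = v := by
  let b := stdOrthonormalBasis ℂ E
  let f : K →* (E →ₗ[ℂ] E) :=
    { toFun := fun k => (U k).toLinearMap.restrict (hE k)
      map_one' := by
        ext v
        simp
      map_mul' := fun k l => by
        ext v
        simp }
  have hf : ∀ k (v : E), ((f k v : E) : H) = U k (v : H) := fun k v => rfl
  let ρ : K →* Matrix (Fin (Module.finrank ℂ E)) (Fin (Module.finrank ℂ E)) ℂ :=
    (LinearMap.toMatrixOrthonormal b : _ →* _).comp f
  have hρ : ∀ k, ρ k = LinearMap.toMatrixOrthonormal b (f k) := fun k => rfl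
  refine ⟨_, ρ, ⟨?_, ?_⟩, ?_⟩
  · refine continuous_matrix fun i j => ?_
    simp only [hρ, LinearMap.toMatrixOrthonormal_apply_apply]
    have h1 : Continuous (fun k => U k (b j : H)) := hc _
    have h2 : (fun k => inner ℂ (b i) (f k (b j))) = fun k => inner ℂ (b i : H) (U k (b j : H)) := by
      ext k
      rfl
    rw [h2]
    fun_prop
  · intro k
    rw [Matrix.mem_unitaryGroup_iff', hρ, ← map_star, ← map_mul]
    have : star (f k) * f k = 1 := by
      refine LinearMap.ext fun v => ?_
      refine ext_inner_left ℂ fun w => ?_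
      show inner ℂ w (LinearMap.adjoint (f k) (f k v)) = inner ℂ w v
      rw [LinearMap.adjoint_inner_right]
      let L : H →ₗᵢ[ℂ] H := ⟨(U k).toLinearMap, hU k⟩
      exact L.inner_map_map (w : H) (v : H)
    rw [this, map_one]
  · intro k
    rw [hρ]
    constructor
    · intro h v hv
      have h1 : f k = 1 :=
        EquivLike.injective (LinearMap.toMatrixOrthonormal b) (h.trans (map_one _).symm)
      have := congrArg (fun g : E →ₗ[ℂ] E => ((g ⟨v, hv⟩ : E) : H)) h1
      exact this
    · intro h
      have h1 : f k = 1 := by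
        refine LinearMap.ext fun v => ?_
        exact Subtype.ext (h v v.2)
      rw [h1, map_one]

end mat

section PW

variable {K : Type u} [Group K] [TopologicalSpace K] [IsTopologicalGroup K] [CompactSpace K]
  [T2Space K]

/-- Peter–Weyl: unitary representations separate points. -/
theorem exists_rep_ne_one (g : K) (hg : g ≠ 1) :
    ∃ (n : ℕ) (ρ : K →* Matrix (Fin n) (Fin n) ℂ), IsRep ρ ∧ ρ g ≠ 1 := by
  borelize K
  let μ : Measure K := Measure.haarMeasure ⊤
  haveI : IsProbabilityMeasure μ := ⟨Measure.haarMeasure_self⟩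
  haveI : Fact ((2 : ENNReal) ≠ ⊤) := ⟨by simp⟩
  let U : K →* (Lp ℂ 2 μ →L[ℂ] Lp ℂ 2 μ) :=
    { toFun := fun k => LinearMap.mkContinuous
        { toFun := fun f => (DomMulAct.mk k⁻¹) • f
          map_add' := fun f g => smul_add _ _ _
          map_smul' := fun c f => smul_comm _ _ _ } 1
        (fun f => by
          rw [one_mul]
          exact (DomMulAct.norm_smul_Lp _ _).le)
      map_one' := by
        ext1 f
        show (DomMulAct.mk (1 : K)⁻¹) • f = f
        rw [inv_one]
        exact one_smul _ _
      map_mul' := fun k l => by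
        ext1 f
        show (DomMulAct.mk (k * l)⁻¹) • f = (DomMulAct.mk k⁻¹) • (DomMulAct.mk l⁻¹) • f
        rw [mul_inv_rev, DomMulAct.mk_mul, mul_smul] }
  have hUapp : ∀ k f, U k f = (DomMulAct.mk k⁻¹) • f := fun k f => rfl
  have hU : ∀ k v, ‖U k v‖ = ‖v‖ := fun k v => DomMulAct.norm_smul_Lp _ _
  have hc : ∀ v, Continuous (fun k => U k v) := by
    intro v
    simp only [hUapp]
    have h1 : Continuous (fun k : K => (DomMulAct.mk k⁻¹ : Kᵈᵐᵃ)) :=
      DomMulAct.continuous_mk.comp continuous_inv
    exact h1.smul continuous_const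
  -- a vector moved by `g`
  obtain ⟨φ, hφ0, hφ1, -⟩ := exists_continuous_zero_one_of_isClosed (isClosed_singleton (x := (1 : K)))
    (isClosed_singleton (x := g⁻¹)) (by simpa using fun h : (1:K) = g⁻¹ => hg (by simpa using h.symm))
  have h10 : φ 1 = 0 := hφ0 (mem_singleton _)
  have h11 : φ g⁻¹ = 1 := hφ1 (mem_singleton _)
  let ψ : K → ℂ := fun x => (φ x : ℂ)
  have hψc : Continuous ψ := Complex.continuous_ofReal.comp φ.continuous
  have hψ : MemLp ψ 2 μ :=
    hψc.memLp_of_hasCompactSupport (HasCompactSupport.of_compactSpace ψ)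
  set v : Lp ℂ 2 μ := hψ.toLp ψ with hv
  have hne : U g v ≠ v := by
    rw [hUapp, hv, DomMulAct.mk_smul_toLp]
    intro h
    rw [MemLp.toLp_eq_toLp_iff] at h
    have hc1 : Continuous (fun x => ψ (g⁻¹ • x)) := by
      simp only [smul_eq_mul]
      exact hψc.comp (continuous_const.mul continuous_id)
    have h2 := (Continuous.ae_eq_iff_eq μ hc1 hψc).mp h
    have h3 := congrFun h2 1
    simp only [smul_eq_mul, mul_one, ψ, h10, h11] at h3
    norm_num at h3
  obtain ⟨E, hfd, hE, e, heE, he⟩ := exists_findim_invariant μ U hU hc (U g v - v)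
    (sub_ne_zero.mpr hne)
  obtain ⟨n, ρ, hρ, hker⟩ := rep_of_invariant U hU hc E hE
  refine ⟨n, ρ, hρ, fun h1 => he ?_⟩
  have h2 := (hker g).mp h1 e heE
  let L : Lp ℂ 2 μ →ₗᵢ[ℂ] Lp ℂ 2 μ := ⟨(U g).toLinearMap, hU g⟩
  have h3 : inner ℂ (U g e) (U g v) = inner ℂ e v := L.inner_map_map e v
  rw [inner_sub_right]
  rw [h2] at h3
  rw [h3, sub_self]

end PW

end Pool.Agent.Helper80.PM
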