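import Pool.Agent.Helper80.PMDefs
import Pool.Agent.Helper80.PMFinal

/-!
Pseudocompact groups are precompact; the completion; minimality and essentiality.
-/

open Set Filter Topology Pointwise

set_option linter.style.haveILetI false
set_option linter.unusedSectionVars false

namespace Pool.Agent.Helper80.PM

universe u

section precompact

variable {G : Type u} [Group G] [TopologicalSpace G] [IsTopologicalGroup G]

/-- pseudocompact groups are precompact -/
lemma precompact_of_pseudocompact (hG : PseudoCompact G) {U : Set G} (hU : U ∈ 𝓝 (1 : G)) :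
    ∃ F : Set G, F.Finite ∧ ∀ g, ∃ x ∈ F, x⁻¹ * g ∈ U := by
  classical
  by_contra hcon
  push Not at hcon
  -- a symmetric neighbourhood
  obtain ⟨V, hV, hVU⟩ : ∃ V ∈ 𝓝 (1 : G), ∀ a ∈ V, ∀ b ∈ V, ∀ c ∈ V, ∀ d ∈ V,
      a * b⁻¹ * (c * d⁻¹) ∈ U := by
    have h1 : Continuous (fun p : (G × G) × (G × G) => p.1.1 * p.1.2⁻¹ * (p.2.1 * p.2.2⁻¹)) := by
      fun_prop
    have h2 := h1.tendsto ((1, 1), (1, 1))
    have h3 : (fun p : (G × G) × (G × G) => p.1.1 * p.1.2⁻¹ * (p.2.1 * p.2.2⁻¹)) ⁻¹' U ∈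
        𝓝 (((1 : G), (1 : G)), ((1 : G), (1 : G))) := h2 (by simpa using hU)
    rw [nhds_prod_eq, nhds_prod_eq, mem_prod_self_iff] at h3
    obtain ⟨t, ht, hts⟩ := h3
    rw [mem_prod_self_iff] at ht
    obtain ⟨V, hV, hVt⟩ := ht
    refine ⟨V, hV, fun a ha b hb c hc d hd => ?_⟩
    exact hts (mk_mem_prod (hVt (mk_mem_prod ha hb)) (hVt (mk_mem_prod hc hd)))
  -- the sequence
  obtain ⟨x, -, hx⟩ := exists_seq_of_forall_finset_exists (fun _ : G => True)
    (fun a b => a⁻¹ * b ∉ U) (fun s _ => by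
      obtain ⟨g, hg⟩ := hcon s s.finite_toSet
      exact ⟨g, trivial, fun y hy => hg y hy⟩)
  -- a bump function
  obtain ⟨φ, hφc, hφ1, hφV⟩ : ∃ φ : G → ℝ, Continuous φ ∧ φ 1 = 1 ∧
      (∀ y, y ∉ V → φ y = 0) ∧ ∀ y, 0 ≤ φ y := by
    letI : UniformSpace G := IsTopologicalGroup.rightUniformSpace G
    have hVo : (interior V)ᶜ = (interior V)ᶜ := rfl
    obtain ⟨f, hf, hf0, hf1⟩ := CompletelyRegularSpace.completely_regular (1 : G) (interior V)ᶜ
      isOpen_interior.isClosed_compl (by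
        simp only [mem_compl_iff, not_not]
        exact mem_interior_iff_mem_nhds.mpr hV)
    refine ⟨fun y => 1 - (f y : ℝ), ?_, ?_, ?_, ?_⟩
    · exact continuous_const.sub (continuous_subtype_val.comp hf)
    · simp [hf0]
    · intro y hy
      have : y ∈ (interior V)ᶜ := fun h => hy (interior_subset h)
      have h1 := hf1 this
      simp only [Pi.one_apply] at h1
      simp [h1]
    · intro y
      have := (f y).2.2
      linarith
  obtain ⟨hφV, hφ0⟩ := hφV
  let g : ℕ → G → ℝ := fun n y => n * φ ((x n)⁻¹ * y)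
  have hgc : ∀ n, Continuous (g n) := fun n =>
    continuous_const.mul (hφc.comp (continuous_const.mul continuous_id))
  have hsupp : ∀ n y, g n y ≠ 0 → (x n)⁻¹ * y ∈ V := by
    intro n y h
    by_contra h1
    exact h (by simp [g, hφV _ h1])
  have hlf : LocallyFinite (fun n => Function.support (g n)) := by
    intro y
    refine ⟨(fun z => y⁻¹ * z) ⁻¹' V, ?_, ?_⟩
    · have : Continuous (fun z => y⁻¹ * z) := by fun_prop
      refine this.continuousAt ?_
      rw [inv_mul_cancel]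
      exact hV
    · have hss : {n | (Function.support (g n) ∩ (fun z => y⁻¹ * z) ⁻¹' V).Nonempty}.Subsingleton := by
        have key : ∀ m n, m < n →
            (Function.support (g m) ∩ (fun z => y⁻¹ * z) ⁻¹' V).Nonempty →
            (Function.support (g n) ∩ (fun z => y⁻¹ * z) ⁻¹' V).Nonempty → False := by
          rintro m n hmn ⟨a, ha, ha'⟩ ⟨b, hb, hb'⟩
          apply hx m n hmn
          have h1 := hsupp m a ha
          have h2 := hsupp n b hb
          have h3 := hVU _ h1 _ ha' _ hb' _ h2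
          have h4 : (x m)⁻¹ * a * (y⁻¹ * a)⁻¹ * (y⁻¹ * b * ((x n)⁻¹ * b)⁻¹) = (x m)⁻¹ * x n := by
            group
          rwa [h4] at h3
        intro m hm n hn
        by_contra hne
        rcases lt_or_gt_of_ne hne with h | h
        · exact key _ _ h hm hn
        · exact key _ _ h hn hm
      exact hss.finite
  have hcont : Continuous (fun y => ∑ᶠ n, g n y) := continuous_finsum hgc hlf
  obtain ⟨C, hC⟩ := hG _ hcont
  obtain ⟨n, hn⟩ := exists_nat_gt C
  have h1 := hC (x n)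
  have hnU : ∀ m, m ≠ n → g m (x n) = 0 := by
    intro m hmn
    by_contra h
    have h2 := hsupp m (x n) h
    have h1V : (1 : G) ∈ V := mem_of_mem_nhds hV
    rcases lt_or_gt_of_ne hmn with h3 | h3
    · apply hx m n h3
      have := hVU _ h2 _ h1V _ h1V _ h1V
      simpa using this
    · apply hx n m h3
      have := hVU _ h1V _ h2 _ h1V _ h1V
      simpa using this
  have h2 : ∑ᶠ m, g m (x n) = n := by
    rw [finsum_eq_single _ n hnU]
    simp [g, hφ1]
  rw [h2] at h1
  have h3 := le_abs_self (n : ℝ)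
  linarith

/-- precompact groups have small invariant neighbourhoods -/
lemma sin_of_precompact (h : ∀ U ∈ 𝓝 (1 : G), ∃ F : Set G, F.Finite ∧ ∀ g, ∃ x ∈ F, x⁻¹ * g ∈ U)
    {U : Set G} (hU : U ∈ 𝓝 (1 : G)) : ∀ᶠ w in 𝓝 (1 : G), ∀ g, g * w * g⁻¹ ∈ U := by
  obtain ⟨V, hV, hVU⟩ : ∃ V ∈ 𝓝 (1 : G), ∀ a ∈ V, ∀ b ∈ V, ∀ c ∈ V, a⁻¹ * b * c ∈ U := by
    have h1 : Continuous (fun p : G × (G × G) => p.1⁻¹ * p.2.1 * p.2.2) := by
      fun_prop
    have h2 := h1.tendsto (1, (1, 1))
    have h3 : (fun p : G × (G × G) => p.1⁻¹ * p.2.1 * p.2.2) ⁻¹' U ∈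
        𝓝 ((1 : G), ((1 : G), (1 : G))) := h2 (by simpa using hU)
    rw [nhds_prod_eq, nhds_prod_eq, mem_prod_iff] at h3
    obtain ⟨t, ht, s, hs, hts⟩ := h3
    rw [mem_prod_iff] at hs
    obtain ⟨s1, hs1, s2, hs2, hss⟩ := hs
    refine ⟨t ∩ (s1 ∩ s2), inter_mem ht (inter_mem hs1 hs2), fun a ha b hb c hc => ?_⟩
    exact hts (mk_mem_prod ha.1 (hss (mk_mem_prod hb.2.1 hc.2.2)))
  obtain ⟨F, hF, hFg⟩ := h V hV
  have h1 : ∀ x ∈ F, ∀ᶠ w in 𝓝 (1 : G), x⁻¹ * w * x ∈ V := by
    intro x _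
    have h2 : Continuous (fun w => x⁻¹ * w * x) := by fun_prop
    have h3 := h2.tendsto 1
    simp only [mul_one, inv_mul_cancel] at h3
    exact h3 hV
  have h2 : ∀ᶠ w in 𝓝 (1 : G), ∀ x ∈ F, x⁻¹ * w * x ∈ V := (eventually_all_finite hF).mpr h1
  filter_upwards [h2] with w hw g
  obtain ⟨x, hx, hxg⟩ := hFg g⁻¹
  have h4 := hVU _ hxg _ (hw x hx) _ hxg
  have h5 : (x⁻¹ * g⁻¹)⁻¹ * (x⁻¹ * w * x) * (x⁻¹ * g⁻¹) = g * w * g⁻¹ := by group
  rwa [h5] at h4

/-- A precompact Hausdorff group is a dense subgroup of a compact Hausdorff group. -/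
theorem exists_compact_completion [T2Space G]
    (h : ∀ U ∈ 𝓝 (1 : G), ∃ F : Set G, F.Finite ∧ ∀ g, ∃ x ∈ F, x⁻¹ * g ∈ U) :
    ∃ (K : Type u) (_ : Group K) (_ : TopologicalSpace K) (_ : IsTopologicalGroup K)
      (_ : CompactSpace K) (_ : T2Space K) (ι : G →* K), IsEmbedding ι ∧ DenseRange ι := by
  letI : UniformSpace G := IsTopologicalGroup.rightUniformSpace G
  haveI : IsRightUniformGroup G := ⟨rfl⟩
  have hsin : ∀ U ∈ 𝓝 (1 : G), ∀ᶠ w in 𝓝 (1 : G), ∀ g, g * w * g⁻¹ ∈ U :=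
    fun U hU => sin_of_precompact h hU
  haveI : IsLeftUniformGroup G := by
    refine ⟨?_⟩
    rw [IsRightUniformGroup.uniformity_eq (G := G)]
    apply le_antisymm
    · rw [← tendsto_iff_comap]
      intro U hU
      rw [mem_map, mem_comap]
      refine ⟨_, hsin U hU, ?_⟩
      rintro ⟨a, b⟩ hab
      have h1 := hab a⁻¹
      show a⁻¹ * b ∈ U
      have h2 : a⁻¹ * (b * a⁻¹) * a⁻¹⁻¹ = a⁻¹ * b := by group
      rwa [h2] at h1
    · rw [← tendsto_iff_comap]
      intro U hU
      rw [mem_map, mem_comap]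
      refine ⟨_, hsin U hU, ?_⟩
      rintro ⟨a, b⟩ hab
      have h1 := hab a
      show b * a⁻¹ ∈ U
      have h2 : a * (a⁻¹ * b) * a⁻¹ = b * a⁻¹ := by group
      rwa [h2] at h1
  haveI : IsUniformGroup G := IsUniformGroup.of_left_right
  have htb : TotallyBounded (univ : Set G) := by
    rw [totallyBounded_iff_subset_finite_iUnion_nhds_one]
    intro U hU
    obtain ⟨F, hF, hFg⟩ := h U hU
    refine ⟨F, hF, fun g _ => ?_⟩
    obtain ⟨x, hx, hxg⟩ := hFg g
    rw [mem_iUnion₂]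
    exact ⟨x, hx, mem_smul_set_iff_inv_smul_mem.mpr hxg⟩
  haveI : IsUniformAddGroup (Additive G) := ⟨uniformContinuous_div (α := G)⟩
  haveI : T0Space (Additive G) := inferInstanceAs (T0Space G)
  let C := UniformSpace.Completion (Additive G)
  have hcomp : CompactSpace C := by
    have h1 : TotallyBounded (univ : Set (Additive G)) := htb
    have h2 := (h1.image (UniformSpace.Completion.uniformContinuous_coe (Additive G))).closure
    rw [image_univ, UniformSpace.Completion.denseRange_coe.closure_range] at h2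
    exact ⟨isCompact_iff_totallyBounded_isComplete.mpr ⟨h2, isClosed_univ.isComplete⟩⟩
  refine ⟨Multiplicative C, inferInstance, inferInstance, inferInstance, inferInstance, ?_,
    AddMonoidHom.toMultiplicativeRight (UniformSpace.Completion.toCompl (α := Additive G)), ?_, ?_⟩
  · exact inferInstanceAs (T2Space C)
  · exact (UniformSpace.Completion.isUniformEmbedding_coe (Additive G)).isEmbedding
  · exact UniformSpace.Completion.denseRange_coe

end precompact

end Pool.Agent.Helper80.PM
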