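import Pool.Agent.Helper80.PMLin

/-!
Torsion elements in normal subgroups of compact connected linear groups with finite centre.
-/

open Set Filter Topology NormedSpace

set_option linter.style.haveILetI false
set_option linter.unusedSectionVars false

namespace Pool.Agent.Helper80.PM

universe u

section grp

variable {𝔸 : Type*} [NormedRing 𝔸] [NormedAlgebra ℝ 𝔸] [FiniteDimensional ℝ 𝔸] [CompleteSpace 𝔸]
  {M : Type u} [Group M] [TopologicalSpace M] [IsTopologicalGroup M] [CompactSpace M]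

/-- `V` is covered by derivatives of maps into `S` -/
def Good (S : Submonoid 𝔸) (V : Submodule ℝ 𝔸) : Prop :=
  ∃ (k : ℕ) (F : (Fin k → ℝ) → 𝔸) (F' : (Fin k → ℝ) →L[ℝ] 𝔸), HasStrictFDerivAt F F' 0 ∧
    F 0 = 1 ∧ (∀ e, F e ∈ S) ∧ ∀ v ∈ V, ∃ e, F' e = v

lemma Good.mono {S : Submonoid 𝔸} {V W : Submodule ℝ 𝔸} (h : Good S V) (hW : W ≤ V) :
    Good S W := by
  obtain ⟨k, F, F', h1, h2, h3, h4⟩ := h
  exact ⟨k, F, F', h1, h2, h3, fun v hv => h4 v (hW hv)⟩

lemma Good.sup {S : Submonoid 𝔸} {V W : Submodule ℝ 𝔸} (h : Good S V) (h' : Good S W) :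
    Good S (V ⊔ W) := by
  obtain ⟨k, F, F', h1, h2, h3, h4⟩ := h
  obtain ⟨l, G, G', g1, g2, g3, g4⟩ := h'
  -- coordinates
  let a : (Fin (k + l) → ℝ) →L[ℝ] (Fin k → ℝ) :=
    ContinuousLinearMap.pi fun i => ContinuousLinearMap.proj (Fin.castAdd l i)
  let b : (Fin (k + l) → ℝ) →L[ℝ] (Fin l → ℝ) :=
    ContinuousLinearMap.pi fun i => ContinuousLinearMap.proj (Fin.natAdd k i)
  refine ⟨k + l, fun e => F (a e) * G (b e), F'.comp a + G'.comp b, ?_, ?_, ?_, ?_⟩
  · have e1 : HasStrictFDerivAt (fun e => F (a e)) (F'.comp a) 0 := by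
      have : HasStrictFDerivAt F F' (a 0) := by rw [map_zero]; exact h1
      exact this.comp 0 a.hasStrictFDerivAt
    have e2 : HasStrictFDerivAt (fun e => G (b e)) (G'.comp b) 0 := by
      have : HasStrictFDerivAt G G' (b 0) := by rw [map_zero]; exact g1
      exact this.comp 0 b.hasStrictFDerivAt
    have e3 := e1.mul' e2
    have e4 : F (a 0) • (G'.comp b) + MulOpposite.op (G (b 0)) • (F'.comp a) =
        F'.comp a + G'.comp b := by
      rw [map_zero, map_zero, h2, g2]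
      ext e
      simp [add_comm]
    rw [← e4]
    exact e3
  · simp [h2, g2]
  · intro e
    exact S.mul_mem (h3 _) (g3 _)
  · intro v hv
    obtain ⟨x, hx, y, hy, rfl⟩ := Submodule.mem_sup.mp hv
    obtain ⟨e, rfl⟩ := h4 x hx
    obtain ⟨f, rfl⟩ := g4 y hy
    refine ⟨Fin.append e f, ?_⟩
    have ha : a (Fin.append e f) = e := by
      ext i
      simp [a]
    have hb : b (Fin.append e f) = f := by
      ext i
      simp [b]
    simp [ha, hb]

lemma good_span_of_curve {S : Submonoid 𝔸} {c : ℝ → 𝔸} {v : 𝔸} (hc : HasStrictDerivAt c v 0)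
    (hc0 : c 0 = 1) (hcS : ∀ t, c t ∈ S) : Good S (Submodule.span ℝ {v}) := by
  let a : (Fin 1 → ℝ) →L[ℝ] ℝ := ContinuousLinearMap.proj 0
  refine ⟨1, fun e => c (a e), (ContinuousLinearMap.toSpanSingleton ℝ v).comp a, ?_, ?_, ?_, ?_⟩
  · have h1 : HasStrictFDerivAt c (ContinuousLinearMap.toSpanSingleton ℝ v) (a 0) := by
      rw [map_zero]
      exact hc.hasStrictFDerivAt
    exact h1.comp 0 a.hasStrictFDerivAt
  · simp [hc0]
  · intro e
    exact hcS _
  · intro x hx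
    obtain ⟨r, rfl⟩ := Submodule.mem_span_singleton.mp hx
    refine ⟨fun _ => r, ?_⟩
    simp [a]

lemma hasStrictDerivAt_ex (X : 𝔸) : HasStrictDerivAt (fun t : ℝ => exp (t • X)) X 0 := by
  have := hasStrictDerivAt_exp_smul_const (𝕂 := ℝ) X (0 : ℝ)
  simpa using this

lemma hasStrictDerivAt_comm' {n n' : 𝔸} (h : n * n' = 1) (Z : 𝔸) :
    HasStrictDerivAt (fun t : ℝ => n * exp (t • Z) * n' * exp (-(t • Z))) (n * Z * n' - Z) 0 := by
  have h1 : HasStrictDerivAt (fun t : ℝ => exp (t • Z)) Z 0 := hasStrictDerivAt_ex Z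
  have h2 : HasStrictDerivAt (fun t : ℝ => exp (-(t • Z))) (-Z) 0 := by
    have := hasStrictDerivAt_ex (-Z)
    simpa using this
  have h3 := ((h1.const_mul n).mul_const n').mul h2
  have h4 : ((n * Z) * n') * exp (-((0 : ℝ) • Z)) + ((n * exp ((0 : ℝ) • Z)) * n') * (-Z) =
      n * Z * n' - Z := by
    simp only [zero_smul, neg_zero, exp_zero, mul_one]
    rw [h]
    simp only [one_mul, sub_eq_add_neg]
  rw [h4] at h3
  exact h3

lemma eq_top_of_nhds [ConnectedSpace M] {P : Subgroup M} (h : (P : Set M) ∈ 𝓝 (1 : M)) :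
    P = ⊤ := by
  have h1 : IsOpen (P : Set M) := Subgroup.isOpen_of_mem_nhds _ h
  have h2 : IsClosed (P : Set M) := Subgroup.isClosed_of_isOpen _ h1
  have h3 := IsClopen.eq_univ (s := (P : Set M)) ⟨h2, h1⟩ ⟨1, one_mem _⟩
  exact SetLike.coe_injective h3

lemma commute_rho_inv {ρ : M →* 𝔸} {a : M} {b : 𝔸} (h : Commute (ρ a) b) :
    Commute (ρ a⁻¹) b := by
  show ρ a⁻¹ * b = b * ρ a⁻¹
  calc ρ a⁻¹ * b = ρ a⁻¹ * (b * ρ a) * ρ a⁻¹ := by
        rw [mul_assoc, mul_assoc, rho_mul_inv, mul_one]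
    _ = ρ a⁻¹ * (ρ a * b) * ρ a⁻¹ := by rw [h.eq]
    _ = b * ρ a⁻¹ := by rw [← mul_assoc, rho_inv_mul, one_mul]

/-- the subgroup of elements whose image commutes with all elements of a set -/
def commSub (ρ : M →* 𝔸) (T : Set 𝔸) : Subgroup M where
  carrier := {m | ∀ b ∈ T, Commute (ρ m) b}
  one_mem' := fun b _ => by rw [map_one]; exact Commute.one_left _
  mul_mem' := fun {x y} hx hy b hb => by rw [map_mul]; exact (hx b hb).mul_left (hy b hb)
  inv_mem' := fun {x} hx b hb => commute_rho_inv (hx b hb)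

lemma tendsto_rho {ρ : M →* 𝔸} (hρ : Continuous ρ) :
    Tendsto ρ (𝓝 1) (𝓝[(((⊤ : Subgroup M).toSubmonoid.map ρ : Submonoid 𝔸) : Set 𝔸)] 1) := by
  rw [tendsto_nhdsWithin_iff]
  refine ⟨?_, Eventually.of_forall fun x => ⟨x, trivial, rfl⟩⟩
  have := hρ.tendsto 1
  rwa [map_one] at this

/-- **Torsion in normal subgroups, linear version.** -/
theorem linear_torsion [ConnectedSpace M] (ρ : M →* 𝔸) (hρ : Continuous ρ)
    (hinj : Function.Injective ρ)
    (B : LinearMap.BilinForm ℝ 𝔸) (hpos : ∀ X, X ≠ 0 → 0 < B X X)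
    (hsymm : ∀ X Y, B X Y = B Y X)
    (hinv : ∀ m X Y, B (ρ m * X * ρ m⁻¹) (ρ m * Y * ρ m⁻¹) = B X Y)
    (hfin : Finite (Subgroup.center M)) {Y : Subgroup M} (hY : Y.Normal) (hY1 : Y ≠ ⊥) :
    ∃ y ∈ Y, y ≠ 1 ∧ ∃ n : ℕ, 0 < n ∧ y ^ n = 1 := by
  obtain ⟨⟨y₁, hy₁⟩, hy₁1⟩ := (Subgroup.ne_bot_iff_exists_ne_one).mp hY1
  have hy₁1' : y₁ ≠ 1 := fun h => hy₁1 (Subtype.ext h)
  by_cases hcen : Y ≤ Subgroup.center M
  · refine ⟨y₁, hy₁, hy₁1', ?_⟩
    have h1 : IsOfFinOrder (⟨y₁, hcen hy₁⟩ : Subgroup.center M) := isOfFinOrder_of_finite _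
    obtain ⟨n, hn, h2⟩ := isOfFinOrder_iff_pow_eq_one.mp h1
    exact ⟨n, hn, congrArg Subtype.val h2⟩
  obtain ⟨y₀, hy₀, hy₀c⟩ := Set.not_subset.mp hcen
  let L : Submonoid 𝔸 := (⊤ : Subgroup M).toSubmonoid.map ρ
  have hL : CLG L := clg_map ρ hρ isClosed_univ
  have hLcomp : IsCompact (L : Set 𝔸) := isCompact_map ρ hρ isClosed_univ
  let S : Submonoid 𝔸 := Y.toSubmonoid.map ρ
  have hSL : S ≤ L := by rintro _ ⟨n, -, rfl⟩; exact ⟨n, trivial, rfl⟩
  have hC : CLG S.topologicalClosure := by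
    refine clg_closure hLcomp hSL ?_
    rintro _ ⟨n, hn, rfl⟩
    exact ⟨ρ n⁻¹, ⟨n⁻¹, Y.inv_mem hn, rfl⟩, rho_mul_inv ρ n, rho_inv_mul ρ n⟩
  have hCL : S.topologicalClosure ≤ L := S.topologicalClosure_minimal hSL hLcomp.isClosed
  have hCcomp : IsCompact (S.topologicalClosure : Set 𝔸) :=
    hLcomp.of_isClosed_subset S.isClosed_topologicalClosure hCL
  let gen : Set 𝔸 := {v | ∃ y ∈ Y, ∃ X ∈ hL.lie, ρ y * X * ρ y⁻¹ - X = v}
  let W : Submodule ℝ 𝔸 := Submodule.span ℝ gen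
  -- the commutator curve
  have hcurve : ∀ y ∈ Y, ∀ X ∈ hL.lie, ∀ t : ℝ,
      ρ y * exp (t • X) * ρ y⁻¹ * exp (-(t • X)) ∈ S := by
    intro y hy X hX t
    obtain ⟨x, -, hx⟩ := hX t
    have h5 : exp (-(t • X)) = ρ x⁻¹ := by
      calc exp (-(t • X)) = exp (-(t • X)) * (ρ x * ρ x⁻¹) := by
            rw [rho_mul_inv, mul_one]
        _ = ρ x⁻¹ := by rw [← mul_assoc, hx, ex_neg_mul, one_mul]
    refine ⟨y * (x * y⁻¹ * x⁻¹), Y.mul_mem hy (hY.conj_mem _ (Y.inv_mem hy) x), ?_⟩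
    rw [h5, ← hx]
    simp only [map_mul, mul_assoc]
  have hWC : W ≤ hC.lie := by
    rw [Submodule.span_le]
    rintro _ ⟨y, hy, X, hX, rfl⟩
    refine hC.tangent_mem (hasDerivAt_comm' (rho_mul_inv ρ y) X) ?_ ?_
    · simp [rho_mul_inv]
    · intro t
      exact S.le_topologicalClosure (hcurve y hy X hX t)
  have hWL : W ≤ hL.lie := hWC.trans (hC.lie_mono hL hCL)
  -- elements of `𝔭` are fixed by `Y`
  have hfix : ∀ Z ∈ hL.lie ⊓ B.orthogonal W, ∀ y ∈ Y, Commute Z (ρ y) := by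
    rintro Z ⟨hZ, hZo⟩ y hy
    have h3 : ρ y * Z * ρ y⁻¹ - Z ∈ W := Submodule.subset_span ⟨y, hy, Z, hZ, rfl⟩
    have h4 : ρ y * Z * ρ y⁻¹ - Z ∈ B.orthogonal W := by
      intro U hU
      have h5 : B U Z = 0 := hZo U hU
      have h6 : B U (ρ y * Z * ρ y⁻¹) = 0 := by
        have h7 : ρ y⁻¹ * U * ρ y ∈ W := by
          have h71 : ρ y⁻¹ * U * ρ (y⁻¹)⁻¹ - U ∈ W :=
            Submodule.subset_span ⟨y⁻¹, Y.inv_mem hy, U, hWL hU, rfl⟩
          rw [inv_inv] at h71
          have h72 := W.add_mem h71 hU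
          rwa [sub_add_cancel] at h72
        have h8 : B (ρ y⁻¹ * U * ρ y) Z = 0 := hZo _ h7
        rw [← hinv y] at h8
        have h9 : ρ y * (ρ y⁻¹ * U * ρ y) * ρ y⁻¹ = U := by
          calc ρ y * (ρ y⁻¹ * U * ρ y) * ρ y⁻¹ = (ρ y * ρ y⁻¹) * U * (ρ y * ρ y⁻¹) := by
                simp only [mul_assoc]
            _ = U := by rw [rho_mul_inv, one_mul, mul_one]
        rwa [h9] at h8
      show B U (ρ y * Z * ρ y⁻¹ - Z) = 0
      rw [map_sub, h5, h6, sub_zero]
    have h5 := orth_disjoint B hpos h3 h4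
    have h6 : ρ y * Z * ρ y⁻¹ = Z := sub_eq_zero.mp h5
    show Z * ρ y = ρ y * Z
    calc Z * ρ y = (ρ y * Z * ρ y⁻¹) * ρ y := by rw [h6]
      _ = ρ y * Z := by rw [mul_assoc, rho_inv_mul, mul_one]
  have hfixC : ∀ Z ∈ hL.lie ⊓ B.orthogonal W, ∀ c ∈ S.topologicalClosure, Commute Z c := by
    intro Z hZ c hc
    have hcl : IsClosed {c : 𝔸 | Z * c = c * Z} := isClosed_eq (by fun_prop) (by fun_prop)
    have hsub : (S : Set 𝔸) ⊆ {c : 𝔸 | Z * c = c * Z} := by
      rintro _ ⟨y, hy, rfl⟩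
      exact hfix Z hZ y hy
    exact closure_minimal hsub hcl hc
  have hsplit := tendsto_rho hρ (hL.split_nhds B hpos hsymm hWL)
  -- the Lie algebra of the closure is `W`
  have hCW : ∀ V ∈ hC.lie, V ∈ W := by
    intro V hV
    obtain ⟨V₁, hV₁, hV₂⟩ := exists_orth B hpos hsymm hWL (hC.lie_mono hL hCL hV)
    set V₂ := V - V₁ with hV₂def
    have hV₂C : V₂ ∈ hC.lie := Submodule.sub_mem _ hV (hWC hV₁)
    have hV20 : V₂ = 0 := by
      have hP : commSub ρ {b | ∃ t : ℝ, exp (t • V₂) = b} = ⊤ := by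
        refine eq_top_of_nhds ?_
        filter_upwards [hsplit] with x hx
        obtain ⟨U, hU, Z, hZ, hUZ⟩ := hx
        rintro _ ⟨t, rfl⟩
        rw [← hUZ]
        refine Commute.mul_left ?_ ?_
        · have h1 : Commute V₂ (exp U) := hfixC V₂ hV₂ _ (hC.exp_mem (hWC hU))
          exact ex_commute h1.symm t
        · have h1 : Commute Z (exp (t • V₂)) := hfixC Z hZ _ (hV₂C t)
          exact (h1.symm.exp_right).symm
      have hfinS : (ρ '' (Subgroup.center M : Set M)).Finite :=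
        (Set.toFinite (Subgroup.center M : Set M)).image ρ
      have hrange : range (fun t : ℝ => exp (t • V₂)) ⊆ ρ '' (Subgroup.center M : Set M) := by
        rintro _ ⟨t, rfl⟩
        obtain ⟨z, -, hz⟩ := hCL (hV₂C t)
        refine ⟨z, ?_, hz⟩
        rw [SetLike.mem_coe, Subgroup.mem_center_iff]
        intro g
        apply hinj
        have hg : g ∈ commSub ρ {b | ∃ t : ℝ, exp (t • V₂) = b} := by rw [hP]; trivial
        have h1 := hg _ ⟨t, rfl⟩
        rw [map_mul, map_mul]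
        rw [hz]
        exact h1.eq
      have hpre : IsPreconnected (range (fun t : ℝ => exp (t • V₂))) := by
        refine isPreconnected_range ?_
        exact ex_cont.comp (by fun_prop)
      have hss := hfinS.countable.isTotallyDisconnected _ hrange hpre
      refine eq_zero_of_ex_eq_one fun t => ?_
      have := hss ⟨t, rfl⟩ ⟨0, rfl⟩
      simpa using this
    have : V = V₁ := sub_eq_zero.mp hV20
    rw [this]
    exact hV₁
  -- `W` is good
  have hgood1 : ∀ v ∈ W, Good S (Submodule.span ℝ {v}) := by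
    intro v hv
    induction hv using Submodule.span_induction with
    | mem x hx =>
      obtain ⟨y, hy, X, hX, rfl⟩ := hx
      exact good_span_of_curve (hasStrictDerivAt_comm' (rho_mul_inv ρ y) X)
        (by simp [rho_mul_inv]) (hcurve y hy X hX)
    | zero =>
      refine ⟨0, fun _ => 1, 0, ?_, rfl, fun _ => S.one_mem, ?_⟩
      · exact hasStrictFDerivAt_const _ _
      · intro v hv
        refine ⟨0, ?_⟩
        simp only [Submodule.span_zero_singleton, Submodule.mem_bot] at hv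
        simp [hv]
    | add x y _ _ hx hy =>
      refine (hx.sup hy).mono ?_
      rw [Submodule.span_singleton_le_iff_mem]
      exact Submodule.add_mem_sup (Submodule.mem_span_singleton_self x)
        (Submodule.mem_span_singleton_self y)
    | smul a x _ hx =>
      refine hx.mono ?_
      rw [Submodule.span_singleton_le_iff_mem]
      exact Submodule.smul_mem _ _ (Submodule.mem_span_singleton_self x)
  have hgood : Good S W := by
    have hfg : W.FG := IsNoetherian.noetherian W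
    have : ∀ (N : Submodule ℝ 𝔸) (_ : N.FG), N ≤ W → Good S N := by
      intro N hN
      induction N, hN using Submodule.fg_induction with
      | singleton x =>
        intro h
        exact hgood1 x (h (Submodule.mem_span_singleton_self x))
      | sup N₁ N₂ _ _ h₁ h₂ =>
        intro h
        exact (h₁ (le_sup_left.trans h)).sup (h₂ (le_sup_right.trans h))
    exact this W hfg le_rfl
  obtain ⟨k, F, F', hF, hF0, hFS, hF'⟩ := hgood
  have hnb : F '' univ ∈ 𝓝[(S.topologicalClosure : Set 𝔸)] 1 :=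
    hC.local_surj hF hF0 (fun e => S.le_topologicalClosure (hFS e))
      (fun X hX => hF' X (hCW X hX)) univ_mem
  have hnbS : (S : Set 𝔸) ∈ 𝓝[(S.topologicalClosure : Set 𝔸)] 1 := by
    refine mem_of_superset hnb ?_
    rintro _ ⟨e, -, rfl⟩
    exact hFS e
  -- `W` is nonzero
  have hWne : ∃ U ∈ W, U ≠ 0 := by
    by_contra hcon
    push Not at hcon
    apply hy₀c
    have hP : commSub ρ {ρ y₀} = ⊤ := by
      refine eq_top_of_nhds ?_
      filter_upwards [tendsto_rho hρ (hL.exp_nhds (ε := 1) one_pos)] with x hx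
      obtain ⟨X, hX, -, hXx⟩ := hx
      rintro _ rfl
      rw [← hXx]
      have h1 : ρ y₀ * X * ρ y₀⁻¹ - X = 0 := hcon _ (Submodule.subset_span ⟨y₀, hy₀, X, hX, rfl⟩)
      have h2 : ρ y₀ * X * ρ y₀⁻¹ = X := sub_eq_zero.mp h1
      have h3 : Commute (ρ y₀) X := by
        show ρ y₀ * X = X * ρ y₀
        calc ρ y₀ * X = (ρ y₀ * X * ρ y₀⁻¹) * ρ y₀ := by rw [mul_assoc, rho_inv_mul, mul_one]
          _ = X * ρ y₀ := by rw [h2]
      exact (h3.exp_right).symm
    rw [SetLike.mem_coe, Subgroup.mem_center_iff]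
    intro g
    have hg : g ∈ commSub ρ {ρ y₀} := by rw [hP]; trivial
    have h1 := hg _ rfl
    apply hinj
    rw [map_mul, map_mul]
    exact h1.eq
  obtain ⟨U, hU, hU0⟩ := hWne
  obtain ⟨Z, hZ, hZ0, hZe⟩ := hC.exists_exp_eq_one hCcomp (hWC hU) hU0
  -- small roots of `exp Z = 1`
  have htend : Tendsto (fun p : ℕ => exp ((1 / ((p : ℝ) + 1)) • Z)) atTop
      (𝓝[(S.topologicalClosure : Set 𝔸)] 1) := by
    rw [tendsto_nhdsWithin_iff]
    refine ⟨?_, Eventually.of_forall fun p => hZ _⟩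
    have h1 : Tendsto (fun p : ℕ => (1 / ((p : ℝ) + 1)) • Z) atTop (𝓝 ((0 : ℝ) • Z)) :=
      tendsto_one_div_add_atTop_nhds_zero_nat.smul_const Z
    rw [zero_smul] at h1
    have h2 := (ex_cont.tendsto (0 : 𝔸)).comp h1
    rwa [exp_zero] at h2
  obtain ⟨p, hp1, hp2⟩ := ((htend.eventually hnbS).and (eventually_ex_ne_one hZ0)).exists
  obtain ⟨y, hy, hye⟩ := hp1
  refine ⟨y, hy, ?_, p + 1, Nat.succ_pos p, ?_⟩
  · rintro rfl
    apply hp2
    rw [← hye, map_one]
  · apply hinj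
    rw [map_pow, map_one, hye, ← ex_nsmul, ← hZe]
    congr 1
    rw [← Nat.cast_smul_eq_nsmul ℝ, smul_smul]
    have : ((p + 1 : ℕ) : ℝ) * (1 / ((p : ℝ) + 1)) = 1 := by
      push_cast
      field_simp
    rw [this, one_smul]

end grp

end Pool.Agent.Helper80.PM
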